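import Mathlib

/-!
# MP_22c8c7_co: even cycles C_n in graphs with O(n) vertices, and R(C_n;3) for even n

THEOREM (extremal). For even `n ≥ 12` and `N ≤ 4 n`, a graph on `N` vertices without a cycle of
length exactly `n` has at most `n N/2 + 3 N²/(2 n)` edges.
COROLLARY (Ramsey). For even `n ≥ 40` every 3-colouring of the edges of `K_N`, `N ≥ 3 n + 37`
(in particular `N = 4 n - 3`), has a monochromatic cycle of length exactly `n`.

Everything is inside a fixed vertex type `V` with a symmetric irreflexive relation `r` (the graph)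
and finite vertex sets `S : Finset V` (induced subgraphs). Paths and cycles are functions
`z : ℕ → V` of which only the values `z 0, ..., z (k-1)` matter.
-/

set_option autoImplicit false

namespace Pool.Agent.Lib.MP_22c8c7_co

open Finset
open scoped Classical

/-- `z 0, ..., z (k-1)` are distinct elements of `S`, consecutive ones adjacent. -/
def PathIn {V : Type*} (r : V → V → Prop) (S : Finset V) (z : ℕ → V) (k : ℕ) : Prop :=
  (∀ i, i < k → z i ∈ S) ∧ (∀ i, i < k → ∀ j, j < k → z i = z j → i = j) ∧
    (∀ i, i + 1 < k → r (z i) (z (i + 1)))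

/-- `z 0, ..., z (k-1)` is a closed path in `S` (a cycle of length `k` if `k ≥ 3`, an edge if
`k = 2`). -/
def CycIn {V : Type*} (r : V → V → Prop) (S : Finset V) (z : ℕ → V) (k : ℕ) : Prop :=
  PathIn r S z k ∧ r (z (k - 1)) (z 0)

/-- The number of neighbours of `v` in `S`. -/
noncomputable def dg {V : Type*} (r : V → V → Prop) (S : Finset V) (v : V) : ℕ :=
  (S.filter (fun u => r v u)).card

/-- The degree sum of the subgraph induced by `S` (twice the number of its edges). -/
noncomputable def ds {V : Type*} (r : V → V → Prop) (S : Finset V) : ℕ := ∑ v ∈ S, dg r S v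

/-- The weight of the path `z 0, ..., z (k-1)`. -/
def pw {V : Type*} (w : V → ℕ) (z : ℕ → V) (k : ℕ) : ℕ := ∑ i ∈ range k, w (z i)

/-- A cycle of length `m ≥ 2` in `S`, indexed by `ZMod m`. -/
structure Cyc {V : Type*} (r : V → V → Prop) (S : Finset V) (m : ℕ) (x : ZMod m → V) : Prop where
  mem : ∀ i, x i ∈ S
  inj : Function.Injective x
  adj : ∀ i, r (x i) (x (i + 1))

/-- The set of the indices of the neighbours of `y` on the cycle `x`. -/
noncomputable def J {V : Type*} (r : V → V → Prop) (m : ℕ) [NeZero m] (x : ZMod m → V) (y : V) :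
    Finset (ZMod m) := univ.filter (fun i => r y (x i))

/-- The number of neighbours of `y` on the cycle `x`. -/
noncomputable def wt {V : Type*} (r : V → V → Prop) (m : ℕ) [NeZero m] (x : ZMod m → V) (y : V) :
    ℕ := (J r m x y).card

/-- The edges with at least one end of weight at least 2. -/
def FR {V : Type*} (r : V → V → Prop) (m : ℕ) [NeZero m] (x : ZMod m → V) (a b : V) : Prop :=
  r a b ∧ (2 ≤ wt r m x a ∨ 2 ≤ wt r m x b)

/-- A path of `S` that is heaviest, then longest, then has the lightest pair of ends. -/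
structure Opt {V : Type*} (r : V → V → Prop) (S : Finset V) (w : V → ℕ) (z : ℕ → V) (k : ℕ) :
    Prop where
  path : PathIn r S z k
  pos : 0 < k
  heavy : ∀ z' k', PathIn r S z' k' → pw w z' k' ≤ pw w z k
  long : ∀ z' k', PathIn r S z' k' → pw w z' k' = pw w z k → k' ≤ k
  ends : ∀ z', PathIn r S z' k → pw w z' k = pw w z k →
    w (z 0) + w (z (k - 1)) ≤ w (z' 0) + w (z' (k - 1))

/-- The extremal bound. -/
noncomputable def Phi (n N : ℕ) : ℝ := (n : ℝ) * N / 2 + 3 * (N : ℝ) ^ 2 / (2 * n)

end Pool.Agent.Lib.MP_22c8c7_co
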