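import Mathlib
import Pool.Agent.Lib.MP_22c8c7_co.Defs

set_option autoImplicit false

namespace Pool.Agent.Lib.MP_22c8c7_co

open Finset
open scoped Classical

private theorem KST_cyc {V : Type*} {r : V → V → Prop} (hs : ∀ a b, r a b → r b a)
    (hi : ∀ a, ¬ r a a) {S : Finset V} {a b v v' : V} (ha : a ∈ S) (hb : b ∈ S) (hv : v ∈ S)
    (hv' : v' ∈ S) (hab : a ≠ b) (hvv : v ≠ v') (h1 : r v a) (h2 : r v b) (h3 : r v' a)
    (h4 : r v' b) : CycIn r S (fun i => if i = 0 then a else if i = 1 then v else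
      if i = 2 then b else v') 4 := by
  have hne : ∀ {x y : V}, r x y → x ≠ y := fun {x y} h e => hi x (by
    have := h
    rw [← e] at this
    exact this)
  refine ⟨⟨?_, ?_, ?_⟩, ?_⟩
  · intro i hi'
    interval_cases i <;> simp_all
  · intro i hi1 j hj1 hij
    have n1 := hne h1
    have n2 := hne h2
    have n3 := hne h3
    have n4 := hne h4
    have n5 := hab
    have n6 := hvv
    interval_cases i <;> interval_cases j <;> simp_all
  · intro i hi'
    have m1 := hs _ _ h1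
    have m4 := hs _ _ h4
    have : i < 3 := by omega
    interval_cases i <;> simp_all
  · simpa using h3

/-- Graphs without a cycle of length 4.

PROOF. For `a ≠ b` in `S` there is at most one `v ∈ S` with `r v a`, `r v b` (two of them, `v ≠ v'`,
give the 4-cycle `a, v, b, v'`). So `∑_{v ∈ S} d(v) (d(v) - 1) ≤ N (N - 1)`, `N = |S|`,
`d = dg r S`. By Cauchy-Schwarz `ds²/N - ds ≤ N²`. If `ds > 12 N + N²/4` then
`ds²/N - ds = ds (ds/N - 1) ≥ ds (11 + N/4) ≥ (N²/4) 11 > N²`, a contradiction (`N > 0`). -/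
theorem no_four {V : Type*} (r : V → V → Prop) (hs : ∀ a b, r a b → r b a)
    (hi : ∀ a, ¬ r a a) (S : Finset V) (hno : ∀ c, ¬ CycIn r S c 4) :
    (ds r S : ℝ) ≤ 2 * (6 * S.card + (S.card : ℝ) ^ 2 / 8) := by
  have hdis : ∀ v ∈ S, ∀ v' ∈ S, v ≠ v' →
      Disjoint (S.filter (fun u => r v u)).offDiag (S.filter (fun u => r v' u)).offDiag := by
    intro v hv v' hv' hne
    rw [Finset.disjoint_left]
    rintro ⟨a, b⟩ h h'
    rw [Finset.mem_offDiag, Finset.mem_filter, Finset.mem_filter] at h h'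
    exact hno _ (KST_cyc hs hi h.1.1 h.2.1.1 hv hv' h.2.2 hne h.1.2 h.2.1.2 h'.1.2 h'.2.1.2)
  have hcard : ∑ v ∈ S, (S.filter (fun u => r v u)).offDiag.card ≤ S.offDiag.card := by
    rw [← Finset.card_biUnion hdis]
    apply Finset.card_le_card
    intro p hp
    rw [Finset.mem_biUnion] at hp
    obtain ⟨v, -, hp⟩ := hp
    rw [Finset.mem_offDiag, Finset.mem_filter, Finset.mem_filter] at hp
    rw [Finset.mem_offDiag]
    exact ⟨hp.1.1, hp.2.1.1, hp.2.2⟩
  have h1 : ∀ T : Finset V, ((T.offDiag.card : ℕ) : ℝ) = (T.card : ℝ) ^ 2 - T.card := by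
    intro T
    rw [Finset.offDiag_card, Nat.cast_sub (by nlinarith [Nat.zero_le T.card, T.card.le_mul_self])]
    push_cast
    ring
  have h2 : ∑ v ∈ S, ((dg r S v : ℝ) ^ 2 - dg r S v) ≤ (S.card : ℝ) ^ 2 - S.card := by
    have h3 : ((∑ v ∈ S, (S.filter (fun u => r v u)).offDiag.card : ℕ) : ℝ) ≤
        ((S.offDiag.card : ℕ) : ℝ) := by exact_mod_cast hcard
    rw [h1, Nat.cast_sum] at h3
    refine le_trans (le_of_eq ?_) h3
    refine Finset.sum_congr rfl fun v _ => ?_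
    rw [h1]
    rfl
  rw [Finset.sum_sub_distrib] at h2
  have h4 : (ds r S : ℝ) = ∑ v ∈ S, (dg r S v : ℝ) := by
    unfold ds
    push_cast
    rfl
  have h5 : (∑ v ∈ S, (dg r S v : ℝ)) ^ 2 ≤ S.card * ∑ v ∈ S, (dg r S v : ℝ) ^ 2 :=
    sq_sum_le_card_mul_sum_sq
  rw [← h4] at h2 h5
  have hN : (0 : ℝ) ≤ S.card := Nat.cast_nonneg _
  rcases S.eq_empty_or_nonempty with rfl | hne
  · have : ds r (∅ : Finset V) = 0 := by unfold ds; simp
    rw [this]
    simp
  have hN1 : (0 : ℝ) < S.card := by exact_mod_cast hne.card_pos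
  obtain ⟨N, hNd⟩ : ∃ N : ℝ, N = S.card := ⟨_, rfl⟩
  obtain ⟨D, hD⟩ : ∃ D : ℝ, D = ds r S := ⟨_, rfl⟩
  obtain ⟨Q, hQ⟩ : ∃ Q : ℝ, Q = ∑ v ∈ S, (dg r S v : ℝ) ^ 2 := ⟨_, rfl⟩
  rw [← hNd, ← hD, ← hQ] at h5
  rw [← hNd, ← hD, ← hQ] at h2
  rw [← hNd] at hN1
  rw [← hNd, ← hD]
  by_contra hcon
  push Not at hcon
  have h6 : D ^ 2 ≤ N * (N ^ 2 + D) := by
    refine h5.trans (mul_le_mul_of_nonneg_left ?_ hN1.le)
    linarith
  have h7 : D * (12 * N + N ^ 2 / 4) ≤ D * D := by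
    apply mul_le_mul_of_nonneg_left _ (by nlinarith)
    linarith
  have h8 : N ^ 2 / 4 * (11 * N + N ^ 2 / 4) ≤ D * (11 * N + N ^ 2 / 4) := by
    apply mul_le_mul_of_nonneg_right _ (by positivity)
    nlinarith
  nlinarith [pow_pos hN1 3, pow_pos hN1 4]

end Pool.Agent.Lib.MP_22c8c7_co
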