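import Mathlib
import Pool.Agent.Lib.MP_22c8c7_co.Defs

set_option autoImplicit false

namespace Pool.Agent.Lib.MP_22c8c7_co

open Finset
open scoped Classical

/-- From a closed path `c` of length `m ≥ 2` to a cycle indexed by `ZMod m`: `x i = c i.val`. -/
theorem cyc_of_cycIn {V : Type*} (r : V → V → Prop) (S : Finset V) (m : ℕ) (hm : 2 ≤ m)
    (c : ℕ → V) (hc : CycIn r S c m) : ∃ x : ZMod m → V, Cyc r S m x := by
  haveI : NeZero m := ⟨by omega⟩
  obtain ⟨⟨h1, h2, h3⟩, h4⟩ := hc
  refine ⟨fun i => c i.val, fun i => h1 _ (ZMod.val_lt i), ?_, ?_⟩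
  · intro i j hij
    exact ZMod.val_injective m (h2 _ (ZMod.val_lt i) _ (ZMod.val_lt j) hij)
  · intro i
    have hone : (1 : ZMod m).val = 1 := by
      haveI : Fact (1 < m) := ⟨by omega⟩
      exact ZMod.val_one m
    have hlt := ZMod.val_lt i
    show r (c i.val) (c (i + 1).val)
    rcases Nat.lt_or_ge (i.val + 1) m with h | h
    · have e : (i + 1).val = i.val + 1 := by
        rw [ZMod.val_add_of_lt (by rw [hone]; exact h), hone]
      rw [e]
      exact h3 _ h
    · have e := ZMod.val_add_val_of_le (a := i) (b := 1) (by rw [hone]; exact h)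
      rw [hone] at e
      have e1 : i.val = m - 1 := by omega
      have e2 : (i + 1).val = 0 := by omega
      rw [e1, e2]
      exact h4

/-- The longest even cycle below `n`. If `S` has a cycle of length `k` (`k` even, `k ≤ n - 2`) and
none of length `n`, then for some even `m` with `k ≤ m ≤ n - 2` there is a cycle of length `m` and
none of length `m + 2`.

PROOF. Take the largest even `m ≤ n - 2`, `k ≤ m`, with `∃ c, CycIn r S c m` (`m = k` is one); then
`m + 2 ≤ n - 2` contradicts the choice of `m`, and `m + 2 = n` is `hno`. -/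
theorem max_cyc {V : Type*} (r : V → V → Prop) (S : Finset V) (n k : ℕ)
    (hn : Even n) (hk : Even k) (hkn : k + 2 ≤ n) (hno : ∀ c, ¬ CycIn r S c n) :
    (∀ c, ¬ CycIn r S c k) ∨ ∃ m, Even m ∧ k ≤ m ∧ m + 2 ≤ n ∧ (∃ c, CycIn r S c m) ∧
      ∀ c, ¬ CycIn r S c (m + 2) := by
  by_cases hc : ∃ c, CycIn r S c k
  · right
    have hP : Even k ∧ k ≤ k ∧ ∃ c, CycIn r S c k := ⟨hk, le_rfl, hc⟩
    have hle : k ≤ n - 2 := by omega
    have hs := Nat.findGreatest_spec (P := fun m => Even m ∧ k ≤ m ∧ ∃ c, CycIn r S c m) hle hP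
    have hb := Nat.findGreatest_le (P := fun m => Even m ∧ k ≤ m ∧ ∃ c, CycIn r S c m) (n - 2)
    set m := Nat.findGreatest (fun m => Even m ∧ k ≤ m ∧ ∃ c, CycIn r S c m) (n - 2) with hm
    obtain ⟨m1, m2, m3⟩ := hs
    refine ⟨m, m1, m2, by omega, m3, ?_⟩
    intro c hcm
    by_cases hmn : m + 2 = n
    · rw [hmn] at hcm
      exact hno c hcm
    · obtain ⟨a, ha⟩ := m1
      obtain ⟨b, hb'⟩ := hn
      have hle2 : m + 2 ≤ n - 2 := by omega
      have hg := Nat.findGreatest_is_greatest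
        (P := fun m => Even m ∧ k ≤ m ∧ ∃ c, CycIn r S c m) (n := n - 2) (k := m + 2)
        (by rw [← hm]; omega) hle2
      exact hg ⟨⟨a + 1, by omega⟩, by omega, c, hcm⟩
  · left
    exact fun c h => hc ⟨c, h⟩

end Pool.Agent.Lib.MP_22c8c7_co
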