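import Mathlib
import Pool.Agent.Lib.MP_22c8c7_co.Defs

set_option autoImplicit false

namespace Pool.Agent.Lib.MP_22c8c7_co

open Finset
open scoped Classical

/-- the degree splits over a subset and its complement -/
theorem count_dg_split {V : Type*} (r : V → V → Prop) (S C : Finset V) (hC : C ⊆ S) (v : V) :
    dg r S v = dg r C v + dg r (S \ C) v := by
  unfold dg
  rw [← Finset.card_union_of_disjoint]
  · congr 1
    ext u
    simp only [Finset.mem_filter, Finset.mem_union, Finset.mem_sdiff]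
    constructor
    · rintro ⟨h1, h2⟩
      by_cases h : u ∈ C
      · exact Or.inl ⟨h, h2⟩
      · exact Or.inr ⟨⟨h1, h⟩, h2⟩
    · rintro (⟨h1, h2⟩ | ⟨⟨h1, _⟩, h2⟩)
      · exact ⟨hC h1, h2⟩
      · exact ⟨h1, h2⟩
  · rw [Finset.disjoint_left]
    intro u hu hu'
    simp only [Finset.mem_filter, Finset.mem_sdiff] at hu hu'
    exact hu'.1.2 hu.1

/-- double counting -/
theorem count_double {V : Type*} (r : V → V → Prop) (hs : ∀ a b, r a b → r b a)
    (C Y : Finset V) : ∑ v ∈ C, dg r Y v = ∑ y ∈ Y, dg r C y := by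
  have h := Finset.sum_card_bipartiteAbove_eq_sum_card_bipartiteBelow (s := C) (t := Y) r
  unfold Finset.bipartiteAbove Finset.bipartiteBelow at h
  unfold dg
  rw [h]
  refine Finset.sum_congr rfl fun y _ => ?_
  congr 1
  ext u
  simp only [Finset.mem_filter]
  exact and_congr_right fun _ => ⟨hs _ _, hs _ _⟩

theorem count_dg_mono {V : Type*} (r : V → V → Prop) {A B : Finset V} (h : A ⊆ B) (v : V) :
    dg r A v ≤ dg r B v :=
  Finset.card_le_card (Finset.filter_subset_filter _ h)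

/-- Counting the edges of `S = C ∪ Y`, `C` the vertex set of the cycle `x`, `Y = S \ C`.

PROOF. `ds r S = ∑_{v ∈ C} (dg r C v + dg r Y v) + ∑_{y ∈ Y} (dg r C y + dg r Y y)`;
`dg r C v ≤ m - 1` for `v ∈ C` (`r` is irreflexive, `|C| = m`), `∑_{v ∈ C} dg r Y v =
∑_{y ∈ Y} dg r C y` (double counting, `r` symmetric), and `dg r C y = wt r m x y` (`x` is
injective). -/
theorem ds_split {V : Type*} (r : V → V → Prop) (hs : ∀ a b, r a b → r b a)
    (hi : ∀ a, ¬ r a a) (S : Finset V) (m : ℕ) [NeZero m] (x : ZMod m → V) (hx : Cyc r S m x) :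
    ds r S ≤ m * (m - 1) + 2 * ∑ y ∈ S \ univ.image x, wt r m x y + ds r (S \ univ.image x) := by
  have hC : univ.image x ⊆ S := by
    intro v hv
    obtain ⟨i, _, rfl⟩ := Finset.mem_image.1 hv
    exact hx.mem i
  have hcard : (univ.image x).card = m := by
    rw [Finset.card_image_of_injective _ hx.inj, Finset.card_univ, ZMod.card]
  have hwt : ∀ y, dg r (univ.image x) y = wt r m x y := by
    intro y
    unfold dg wt J
    rw [Finset.filter_image, Finset.card_image_of_injective _ hx.inj]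
  have h1 : ds r S = ∑ y ∈ S \ univ.image x, (dg r (univ.image x) y + dg r (S \ univ.image x) y) +
      ∑ v ∈ univ.image x, (dg r (univ.image x) v + dg r (S \ univ.image x) v) := by
    unfold ds
    rw [← Finset.sum_sdiff hC]
    congr 1
    · exact Finset.sum_congr rfl fun v _ => count_dg_split r S _ hC v
    · exact Finset.sum_congr rfl fun v _ => count_dg_split r S _ hC v
  have h2 : ∑ v ∈ univ.image x, dg r (univ.image x) v ≤ m * (m - 1) := by
    calc ∑ v ∈ univ.image x, dg r (univ.image x) v ≤ ∑ v ∈ univ.image x, (m - 1) := by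
          refine Finset.sum_le_sum fun v hv => ?_
          unfold dg
          have : (univ.image x).filter (fun u => r v u) ⊆ (univ.image x).erase v := by
            intro u hu
            rw [Finset.mem_filter] at hu
            refine Finset.mem_erase.2 ⟨?_, hu.1⟩
            rintro rfl
            exact hi _ hu.2
          have h3 := Finset.card_le_card this
          rwa [Finset.card_erase_of_mem hv, hcard] at h3
      _ = m * (m - 1) := by rw [Finset.sum_const, hcard, smul_eq_mul]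
  have h3 := count_double r hs (univ.image x) (S \ univ.image x)
  have h4 : ∑ y ∈ S \ univ.image x, dg r (univ.image x) y =
      ∑ y ∈ S \ univ.image x, wt r m x y := Finset.sum_congr rfl fun y _ => hwt y
  rw [h1, Finset.sum_add_distrib, Finset.sum_add_distrib, h3, h4]
  have h5 : ds r (S \ univ.image x) =
      ∑ y ∈ S \ univ.image x, dg r (S \ univ.image x) y := rfl
  rw [h5]
  omega

/-- The vertices of small degree outside are cheap.

PROOF. Let `B = {y ∈ Y : g ≤ dg r Y y}`. `ds r Y ≤ ds r B + 2 ∑_{y ∈ Y \ B} dg r Y y`: indeed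
`∑_{y ∈ B} dg r Y y = ds r B + e`, `e = ∑_{y ∈ B} dg r (Y \ B) y = ∑_{y ∈ Y \ B} dg r B y ≤
∑_{y ∈ Y \ B} dg r Y y`. And `ds r B ≤ 2 g |B|`. -/
theorem ds_min {V : Type*} (r : V → V → Prop) (hs : ∀ a b, r a b → r b a) (Y : Finset V)
    (g : ℝ) (hg : ∀ B ⊆ Y, (ds r B : ℝ) ≤ 2 * g * B.card) :
    (ds r Y : ℝ) ≤ 2 * ∑ y ∈ Y, min (dg r Y y : ℝ) g := by
  set B := Y.filter (fun y => g ≤ (dg r Y y : ℝ)) with hBdef
  have hB : B ⊆ Y := Finset.filter_subset _ _
  have h1 : ds r Y = ∑ y ∈ Y \ B, dg r Y y + ∑ y ∈ B, dg r Y y :=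
    (Finset.sum_sdiff hB).symm
  have h2 : ∑ y ∈ B, dg r Y y = ds r B + ∑ y ∈ B, dg r (Y \ B) y := by
    unfold ds
    rw [← Finset.sum_add_distrib]
    exact Finset.sum_congr rfl fun v _ => count_dg_split r Y B hB v
  have h3 : ∑ y ∈ B, dg r (Y \ B) y ≤ ∑ y ∈ Y \ B, dg r Y y := by
    rw [count_double r hs B (Y \ B)]
    exact Finset.sum_le_sum fun y _ => count_dg_mono r hB y
  have h4 : (ds r Y : ℝ) ≤ (ds r B : ℝ) + 2 * ∑ y ∈ Y \ B, (dg r Y y : ℝ) := by
    have : ds r Y ≤ ds r B + 2 * ∑ y ∈ Y \ B, dg r Y y := by omega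
    exact_mod_cast this
  have h5 := hg B hB
  have h6 : ∑ y ∈ Y, min (dg r Y y : ℝ) g =
      ∑ y ∈ Y \ B, min (dg r Y y : ℝ) g + ∑ y ∈ B, min (dg r Y y : ℝ) g :=
    (Finset.sum_sdiff hB).symm
  have h7 : ∑ y ∈ B, min (dg r Y y : ℝ) g = g * B.card := by
    rw [Finset.sum_congr rfl (g := fun _ => g), Finset.sum_const, nsmul_eq_mul, mul_comm]
    intro y hy
    rw [hBdef, Finset.mem_filter] at hy
    exact min_eq_right hy.2
  have h8 : ∑ y ∈ Y \ B, min (dg r Y y : ℝ) g = ∑ y ∈ Y \ B, (dg r Y y : ℝ) := by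
    refine Finset.sum_congr rfl fun y hy => ?_
    rw [Finset.mem_sdiff] at hy
    refine min_eq_left ?_
    by_contra hcon
    exact hy.2 (Finset.mem_filter.2 ⟨hy.1, (not_le.1 hcon).le⟩)
  rw [h6, h7, h8]
  linarith

end Pool.Agent.Lib.MP_22c8c7_co
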