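import Mathlib
import Pool.Agent.Lib.MP_22c8c7_co.Defs

set_option autoImplicit false
set_option linter.unusedVariables false

namespace Pool.Agent.Lib.MP_22c8c7_co

open Finset
open scoped Classical

private theorem cross_cast (m : ℕ) [NeZero m] {a b : ℕ} (ha : 1 ≤ a) (ha' : a ≤ m) (hb : 1 ≤ b)
    (hb' : b ≤ m) (h : (a : ZMod m) = (b : ZMod m)) : a = b := by
  rw [ZMod.natCast_eq_natCast_iff] at h
  rcases le_total a b with hab | hab
  · have h1 := (Nat.modEq_iff_dvd' hab).1 h
    have h2 := Nat.eq_zero_of_dvd_of_lt h1 (by omega)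
    omega
  · have h1 := (Nat.modEq_iff_dvd' hab).1 h.symm
    have h2 := Nat.eq_zero_of_dvd_of_lt h1 (by omega)
    omega

/-- the position on the cycle -/
private def crossE (g t : ℕ) : ℕ := if t ≤ g then g + 1 - t else t - 1

/-- the new cycle -/
private noncomputable def crossC {V : Type*} {m : ℕ} (x : ZMod m → V) (y y' : V) (j : ZMod m)
    (g t : ℕ) : V :=
  if t = 0 then y else if t = g + 1 then y' else x (j + ((crossE g t : ℕ) : ZMod m))

private theorem cross_cyc {V : Type*} (r : V → V → Prop) (hs : ∀ a b, r a b → r b a)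
    (S : Finset V) (m : ℕ) [NeZero m] (x : ZMod m → V) (hx : Cyc r S m x)
    (y y' : V) (hy : y ∈ S) (hy' : y' ∈ S) (hne : y ≠ y')
    (hd : ∀ j, y ≠ x j) (hd' : ∀ j, y' ≠ x j) (i j : ZMod m) (hij : i ≠ j)
    (h1 : r y (x i)) (h2 : r y (x j)) (h3 : r y' (x (i + 1))) (h4 : r y' (x (j + 1))) :
    ∃ c, CycIn r S c (m + 2) := by
  obtain ⟨g, hgi, hgm⟩ : ∃ g : ℕ, (g : ZMod m) = i - j ∧ g < m :=
    ⟨(i - j).val, ZMod.natCast_zmod_val _, ZMod.val_lt _⟩
  have hg0 : g ≠ 0 := by
    rintro rfl
    apply hij
    rw [Nat.cast_zero] at hgi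
    exact (sub_eq_zero.1 hgi.symm)
  have hi : j + (g : ZMod m) = i := by rw [hgi]; abel
  have c0 : crossC x y y' j g 0 = y := by unfold crossC; rw [if_pos rfl]
  have cg : crossC x y y' j g (g + 1) = y' := by
    unfold crossC; rw [if_neg (by omega), if_pos rfl]
  have ct : ∀ t, t ≠ 0 → t ≠ g + 1 →
      crossC x y y' j g t = x (j + ((crossE g t : ℕ) : ZMod m)) := by
    intro t h1 h2
    unfold crossC; rw [if_neg h1, if_neg h2]
  have eb : ∀ t, t ≠ 0 → t ≠ g + 1 → t < m + 2 → 1 ≤ crossE g t ∧ crossE g t ≤ m := by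
    intro t h1 h2 h3
    unfold crossE
    split_ifs <;> omega
  refine ⟨crossC x y y' j g, ⟨?_, ?_, ?_⟩, ?_⟩
  · intro t _
    unfold crossC
    split_ifs
    · exact hy
    · exact hy'
    · exact hx.mem _
  · intro s hs' t ht' hst
    by_cases s0 : s = 0
    · by_cases t0 : t = 0
      · omega
      · by_cases t1 : t = g + 1
        · rw [s0, t1, c0, cg] at hst
          exact absurd hst hne
        · rw [s0, c0, ct t t0 t1] at hst
          exact absurd hst (hd _)
    · by_cases s1 : s = g + 1
      · by_cases t0 : t = 0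
        · rw [s1, t0, c0, cg] at hst
          exact absurd hst hne.symm
        · by_cases t1 : t = g + 1
          · omega
          · rw [s1, cg, ct t t0 t1] at hst
            exact absurd hst (hd' _)
      · by_cases t0 : t = 0
        · rw [t0, c0, ct s s0 s1] at hst
          exact absurd hst.symm (hd _)
        · by_cases t1 : t = g + 1
          · rw [t1, cg, ct s s0 s1] at hst
            exact absurd hst.symm (hd' _)
          · rw [ct s s0 s1, ct t t0 t1] at hst
            have e1 := add_left_cancel (hx.inj hst)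
            have b1 := eb s s0 s1 hs'
            have b2 := eb t t0 t1 ht'
            have e2 := cross_cast m b1.1 b1.2 b2.1 b2.2 e1
            unfold crossE at e2
            split_ifs at e2 <;> omega
  · intro t ht
    by_cases t0 : t = 0
    · subst t0
      rw [c0, ct (0 + 1) (by omega) (by omega)]
      have : crossE g (0 + 1) = g := by unfold crossE; rw [if_pos (by omega)]; omega
      rw [this, hi]
      exact h1
    · by_cases t1 : t + 1 = g + 1
      · have tg : t = g := by omega
        rw [t1, cg, ct t t0 (by omega)]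
        have : crossE g t = 1 := by unfold crossE; rw [if_pos (by omega)]; omega
        rw [this, Nat.cast_one]
        exact hs _ _ h4
      · by_cases t2 : t = g + 1
        · rw [t2, cg, ct (g + 1 + 1) (by omega) (by omega)]
          have : crossE g (g + 1 + 1) = g + 1 := by
            unfold crossE; rw [if_neg (by omega)]; omega
          rw [this, Nat.cast_add, Nat.cast_one, ← add_assoc, hi]
          exact h3
        · rw [ct t t0 t2, ct (t + 1) (by omega) t1]
          rcases lt_or_ge t g with h | h
          · have e1 : crossE g t = crossE g (t + 1) + 1 := by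
              unfold crossE; rw [if_pos (by omega), if_pos (by omega)]; omega
            rw [e1, Nat.cast_add, Nat.cast_one, ← add_assoc]
            exact hs _ _ (hx.adj _)
          · have e1 : crossE g (t + 1) = crossE g t + 1 := by
              unfold crossE; rw [if_neg (by omega), if_neg (by omega)]; omega
            rw [e1, Nat.cast_add, Nat.cast_one, ← add_assoc]
            exact hx.adj _
  · have e0 : m + 2 - 1 = m + 1 := by omega
    rw [e0, c0, ct (m + 1) (by omega) (by omega)]
    have : crossE g (m + 1) = m := by unfold crossE; rw [if_neg (by omega)]; omega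
    rw [this, ZMod.natCast_self, add_zero]
    exact hs _ _ h2

/-- CROSSING LEMMA: two vertices outside the cycle.

PROOF. If `j ≠ i` are both in `J y ∩ (J y' - 1)`, i.e. `i, j ∈ J y` and `i + 1, j + 1 ∈ J y'`, write
`i = j + g` with `1 ≤ g ≤ m - 1` (`g = (i - j).val`). Then `c 0 = y`, `c t = x (j + g + 1 - t)` for
`1 ≤ t ≤ g`, `c (g + 1) = y'`, `c t = x (j + t - 1)` for `g + 2 ≤ t ≤ m + 1` is a cycle of length
`m + 2`: `c 1 = x (j + g) = x i` is adjacent to `y`, `c g = x (j + 1)` and
`c (g + 2) = x (j + g + 1) = x (i + 1)` are adjacent to `y'`, and `c (m + 1) = x (j + m) = x j` is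
adjacent to `c 0 = y`. So `|J y ∩ (J y' - 1)| ≤ 1` and
`|J y| + |J y'| = |J y ∪ (J y' - 1)| + |J y ∩ (J y' - 1)| ≤ m + 1`. -/
theorem crossing {V : Type*} (r : V → V → Prop) (hs : ∀ a b, r a b → r b a)
    (S : Finset V) (m : ℕ) [NeZero m] (hm : 2 ≤ m) (x : ZMod m → V) (hx : Cyc r S m x)
    (hno : ∀ c, ¬ CycIn r S c (m + 2)) (y y' : V) (hy : y ∈ S) (hy' : y' ∈ S) (hne : y ≠ y')
    (hd : ∀ j, y ≠ x j) (hd' : ∀ j, y' ≠ x j) :
    wt r m x y + wt r m x y' ≤ m + 1 := by
  set B : Finset (ZMod m) := univ.filter (fun i => r y' (x (i + 1))) with hB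
  have hcard : B.card = wt r m x y' := by
    unfold wt J
    refine Finset.card_bij (fun i _ => i + 1) ?_ ?_ ?_
    · intro i hi
      rw [hB, Finset.mem_filter] at hi
      rw [Finset.mem_filter]
      exact ⟨Finset.mem_univ _, hi.2⟩
    · intro a _ b _ hab
      exact add_right_cancel hab
    · intro b hb
      rw [Finset.mem_filter] at hb
      refine ⟨b - 1, ?_, sub_add_cancel b 1⟩
      rw [hB, Finset.mem_filter, sub_add_cancel]
      exact ⟨Finset.mem_univ _, hb.2⟩
  have h1 : (J r m x y ∩ B).card ≤ 1 := by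
    rw [Finset.card_le_one]
    intro i hi j hj
    by_contra hij
    rw [Finset.mem_inter, hB, Finset.mem_filter] at hi hj
    unfold J at hi hj
    rw [Finset.mem_filter] at hi hj
    obtain ⟨c, hc⟩ := cross_cyc r hs S m x hx y y' hy hy' hne hd hd' i j hij hi.1.2 hj.1.2
      hi.2.2 hj.2.2
    exact hno c hc
  have h2 : (J r m x y ∪ B).card ≤ m := by
    refine (Finset.card_le_univ _).trans ?_
    rw [ZMod.card]
  have h3 := Finset.card_union_add_card_inter (J r m x y) B
  rw [← hcard]
  unfold wt
  omega

end Pool.Agent.Lib.MP_22c8c7_co
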