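import Mathlib
import Pool.Agent.Lib.MP_22c8c7_co.Defs

set_option autoImplicit false

namespace Pool.Agent.Lib.MP_22c8c7_co

open Finset
open scoped Classical

/-- The cycle of length `m + 2` used in the path lemma. -/
private lemma path_weight_aux {V : Type*} (r : V → V → Prop) (hs : ∀ a b, r a b → r b a)
    (S : Finset V) (m : ℕ) [NeZero m] (x : ZMod m → V) (hx : Cyc r S m x)
    (hno : ∀ c, ¬ CycIn r S c (m + 2)) (z : ℕ → V) (k : ℕ) (hz : PathIn r S z k)
    (hd : ∀ i, i < k → ∀ j, z i ≠ x j) (hk : k ≤ m + 1) (a b : ℕ) (hab : a < b) (hb : b < k)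
    (i j : ZMod m) (hi : r (z a) (x i)) (hj : r (z b) (x j)) (hij : i + (a : ZMod m) = j + b) :
    False := by
  obtain ⟨g, hg⟩ : ∃ g, b = a + g := ⟨b - a, by omega⟩
  have hg1 : 1 ≤ g := by omega
  have hgm : g ≤ m := by omega
  have hig : i = j + (g : ZMod m) := by
    rw [hg, Nat.cast_add] at hij
    have : i + (a : ZMod m) = (j + g) + a := by rw [hij]; ring
    exact add_right_cancel this
  set c : ℕ → V := fun t => if t ≤ m - g then x (i + (t : ZMod m))
    else z (b - (t - (m - g + 1))) with hc
  have hc1 : ∀ t, t ≤ m - g → c t = x (i + (t : ZMod m)) := by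
    intro t ht
    simp only [hc, if_pos ht]
  have hc2 : ∀ t, ¬ t ≤ m - g → c t = z (b - (t - (m - g + 1))) := by
    intro t ht
    simp only [hc, if_neg ht]
  have hinjx : ∀ t t' : ℕ, t < m → t' < m → x (i + (t : ZMod m)) = x (i + (t' : ZMod m)) →
      t = t' := by
    intro t t' ht ht' h
    have h1 := hx.inj h
    have h2 : (t : ZMod m) = (t' : ZMod m) := add_left_cancel h1
    rw [ZMod.natCast_eq_natCast_iff'] at h2
    rwa [Nat.mod_eq_of_lt ht, Nat.mod_eq_of_lt ht'] at h2
  refine hno c ⟨⟨?_, ?_, ?_⟩, ?_⟩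
  · intro t ht
    by_cases h : t ≤ m - g
    · rw [hc1 t h]
      exact hx.mem _
    · rw [hc2 t h]
      exact hz.1 _ (by omega)
  · intro t ht t' ht' heq
    by_cases h : t ≤ m - g
    · by_cases h' : t' ≤ m - g
      · rw [hc1 t h, hc1 t' h'] at heq
        exact hinjx t t' (by omega) (by omega) heq
      · rw [hc1 t h, hc2 t' h'] at heq
        exact absurd heq.symm (hd _ (by omega) _)
    · by_cases h' : t' ≤ m - g
      · rw [hc2 t h, hc1 t' h'] at heq
        exact absurd heq (hd _ (by omega) _)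
      · rw [hc2 t h, hc2 t' h'] at heq
        have := hz.2.1 _ (by omega) _ (by omega) heq
        omega
  · intro t ht
    by_cases h : t + 1 ≤ m - g
    · rw [hc1 t (by omega), hc1 (t + 1) h]
      have := hx.adj (i + (t : ZMod m))
      rwa [add_assoc, ← Nat.cast_succ] at this
    · by_cases h' : t ≤ m - g
      · have ht' : t = m - g := by omega
        rw [hc1 t h', hc2 (t + 1) h, ht']
        have e1 : b - (m - g + 1 - (m - g + 1)) = b := by omega
        have e2 : i + ((m - g : ℕ) : ZMod m) = j := by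
          rw [Nat.cast_sub hgm, ZMod.natCast_self, hig]
          ring
        rw [e1, e2]
        exact hs _ _ hj
      · rw [hc2 t h', hc2 (t + 1) h]
        have h3 := hz.2.2 (b - (t + 1 - (m - g + 1))) (by omega)
        have e1 : b - (t + 1 - (m - g + 1)) + 1 = b - (t - (m - g + 1)) := by omega
        rw [e1] at h3
        exact hs _ _ h3
  · have e0 : m + 2 - 1 = m + 1 := by omega
    rw [e0, hc2 (m + 1) (by omega), hc1 0 (by omega)]
    have e1 : b - (m + 1 - (m - g + 1)) = a := by omega
    rw [e1, Nat.cast_zero, add_zero]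
    exact hi

/-- PATH LEMMA: if `S` contains the `m`-cycle `x` and no cycle of length `m + 2`, then every path
with at most `m + 1` vertices disjoint from the cycle has weight at most `m`.

PROOF. The sets `J (z a) + a = {i + a : i ∈ J (z a)} ⊆ ZMod m`, `a ∈ range k`, are pairwise
disjoint, so the sum of their cardinalities is at most `m` (`ZMod.card`). Suppose `a < b < k`,
`i ∈ J (z a)`, `j ∈ J (z b)`, `i + a = j + b`. Let `g = b - a`, `1 ≤ g ≤ m`, `i = j + g`. Then
`c t = x (i + t)` for `t ≤ m - g`, `c t = z (b - (t - (m - g + 1)))` for `m - g + 1 ≤ t ≤ m + 1` is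
a cycle of length `m + 2` in `S`: `c (m - g) = x (i + m - g) = x j` is adjacent to
`c (m - g + 1) = z b`, and `c (m + 1) = z a` is adjacent to `c 0 = x i`. -/
theorem path_weight {V : Type*} (r : V → V → Prop) (hs : ∀ a b, r a b → r b a)
    (S : Finset V) (m : ℕ) [NeZero m] (hm : 2 ≤ m) (x : ZMod m → V) (hx : Cyc r S m x)
    (hno : ∀ c, ¬ CycIn r S c (m + 2)) (z : ℕ → V) (k : ℕ) (hz : PathIn r S z k)
    (hd : ∀ i, i < k → ∀ j, z i ≠ x j) (hk : k ≤ m + 1) :
    pw (wt r m x) z k ≤ m := by
  have hmem : ∀ (y : V) (i : ZMod m), i ∈ J r m x y ↔ r y (x i) := by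
    intro y i
    unfold J
    rw [Finset.mem_filter]
    exact ⟨fun h => h.2, fun h => ⟨Finset.mem_univ _, h⟩⟩
  have hdis : ∀ a ∈ (range k : Set ℕ), ∀ b ∈ (range k : Set ℕ), a ≠ b →
      Disjoint ((J r m x (z a)).image (fun i => i + (a : ZMod m)))
        ((J r m x (z b)).image (fun i => i + (b : ZMod m))) := by
    intro a ha b hb hab
    rw [Finset.mem_coe, Finset.mem_range] at ha hb
    rw [Finset.disjoint_left]
    intro e he he'
    rw [Finset.mem_image] at he he'
    obtain ⟨i, hi, hie⟩ := he
    obtain ⟨j, hj, hje⟩ := he'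
    rw [hmem] at hi hj
    rcases lt_or_gt_of_ne hab with h | h
    · exact path_weight_aux r hs S m x hx hno z k hz hd hk a b h hb i j hi hj
        (by rw [hie, hje])
    · exact path_weight_aux r hs S m x hx hno z k hz hd hk b a h ha j i hj hi
        (by rw [hie, hje])
  have hcard : ∀ a ∈ range k, wt r m x (z a) =
      ((J r m x (z a)).image (fun i => i + (a : ZMod m))).card := by
    intro a _
    unfold wt
    rw [Finset.card_image_of_injective _ (add_left_injective _)]
  unfold pw
  rw [Finset.sum_congr rfl hcard, ← Finset.card_biUnion hdis]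
  calc _ ≤ (Finset.univ : Finset (ZMod m)).card := Finset.card_le_card (Finset.subset_univ _)
    _ = m := by rw [Finset.card_univ, ZMod.card]

end Pool.Agent.Lib.MP_22c8c7_co
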