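import Mathlib
import Pool.Agent.Lib.MP_22c8c7_co.Defs
import Pool.Agent.Lib.MP_22c8c7_co.PathW

set_option autoImplicit false

namespace Pool.Agent.Lib.MP_22c8c7_co

open Finset
open scoped Classical

private theorem ft_pairs' (f : ℕ → ℕ) (h : ℕ)
    (hf : ∀ i, i < h → 2 ≤ f (2 * i) + f (2 * i + 1) ) :
    2 * h ≤ ∑ i ∈ range (2 * h), f i := by
  induction h with
  | zero => simp
  | succ n ih =>
    rw [show 2 * (n + 1) = 2 * n + 1 + 1 by ring, sum_range_succ, sum_range_succ]
    have := hf n (by omega)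
    have := ih (fun i hi => hf i (by omega))
    omega

private theorem ft_sub {V : Type*} (r q : V → V → Prop) (hq : ∀ a b, q a b → r a b)
    (S Y : Finset V) (hY : Y ⊆ S) (z : ℕ → V) (k : ℕ) (hz : PathIn q Y z k) : PathIn r S z k :=
  ⟨fun i hi => hY (hz.1 i hi), hz.2.1, fun i hi => hq _ _ (hz.2.2 i hi)⟩

private theorem ft_window {V : Type*} (q : V → V → Prop)
    (Y : Finset V) (z : ℕ → V) (k : ℕ) (hz : PathIn q Y z k) (s l : ℕ) (hl : s + l ≤ k) :
    PathIn q Y (fun t => z (s + t)) l :=
  ⟨fun i hi => hz.1 _ (by omega), fun i hi j hj hij => by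
      have := hz.2.1 (s + i) (by omega) (s + j) (by omega) hij
      omega, fun i hi => hz.2.2 (s + i) (by omega)⟩

/-- All paths (of any length) of the relation `FR` (edges with an end of weight at least 2) outside
the cycle have weight at most `m` (`m` even).

PROOF. If `k ≤ m + 1`: `path_weight` (a path of `FR` in `Y` is a path of `r` in `S`). Suppose
`k ≥ m + 2`. Write `w = wt r m x`, `m = 2 h`. For every `s` with `s + m + 1 ≤ k` the window
`z s, ..., z (s+m)` has weight at most `m` (`path_weight` for `t ↦ z (s + t)`), and its pairs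
`(z (s + 2 i), z (s + 2 i + 1))`, `i < h`, have weight at least 2 each, so
`w (z (s + m)) = 0`; the same with the pairs `(z (s + 2 i + 1), z (s + 2 i + 2))` gives
`w (z s) = 0`. For `s = 0` and `s = 1` (here `k ≥ m + 2`): `w (z 0) = w (z 1) = 0`, but
`FR (z 0) (z 1)` requires one of them to be at least 2. Contradiction. -/
theorem ftilde_path {V : Type*} (r : V → V → Prop) (hs : ∀ a b, r a b → r b a)
    (S : Finset V) (m : ℕ) [NeZero m] (hm : 2 ≤ m) (hev : Even m) (x : ZMod m → V)
    (hx : Cyc r S m x) (hno : ∀ c, ¬ CycIn r S c (m + 2)) (Y : Finset V) (hY : Y ⊆ S)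
    (hd : ∀ y ∈ Y, ∀ j, y ≠ x j) (z : ℕ → V) (k : ℕ) (hz : PathIn (FR r m x) Y z k) :
    pw (wt r m x) z k ≤ m := by
  have key : ∀ s, s + m + 1 ≤ k → wt r m x (z s) = 0 := by
    intro s hsk
    have hw := ft_window (FR r m x) Y z k hz s (m + 1) (by omega)
    have hw2 := ft_sub r (FR r m x) (fun a b h => h.1) S Y hY _ _ hw
    have hle := path_weight r hs S m hm x hx hno (fun t => z (s + t)) (m + 1) hw2
      (fun i hi j => hd _ (hz.1 (s + i) (by omega)) j) le_rfl
    unfold pw at hle
    rw [sum_range_succ'] at hle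
    obtain ⟨h, hh⟩ := hev
    have hh2 : m = 2 * h := by omega
    have hlow := ft_pairs' (fun i => wt r m x (z (s + (i + 1)))) h (by
      intro i hi
      have := (hz.2.2 (s + (2 * i + 1)) (by omega)).2
      simp only [add_assoc] at this ⊢
      rcases this with h1 | h1 <;> omega)
    rw [← hh2] at hlow
    simp only [add_zero] at hle
    omega
  by_cases hk : k ≤ m + 1
  · exact path_weight r hs S m hm x hx hno z k
      (ft_sub r (FR r m x) (fun a b h => h.1) S Y hY _ _ hz)
      (fun i hi j => hd _ (hz.1 i hi) j) hk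
  · exfalso
    have h0 := key 0 (by omega)
    have h1 := key 1 (by omega)
    have h2 := (hz.2.2 0 (by omega)).2
    simp only [zero_add] at h2
    omega

end Pool.Agent.Lib.MP_22c8c7_co
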