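import Mathlib
import Pool.Agent.Lib.MP_22c8c7_co.Defs

set_option autoImplicit false

namespace Pool.Agent.Lib.MP_22c8c7_co

open Finset
open scoped Classical

private theorem optClosed_mod_inj {k i : ℕ} (hk : 0 < k) {s t : ℕ} (hs : s < k) (ht : t < k)
    (h : (i + s) % k = (i + t) % k) : s = t := by
  have h1 : s ≡ t [MOD k] := Nat.ModEq.add_left_cancel' i h
  have h2 : s % k = t % k := h1
  rwa [Nat.mod_eq_of_lt hs, Nat.mod_eq_of_lt ht] at h2

private theorem optClosed_sum {k i : ℕ} (hk : 0 < k) (hi : i < k) (f : ℕ → ℕ) :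
    ∑ t ∈ range k, f ((i + t) % k) = ∑ t ∈ range k, f t := by
  refine Finset.sum_nbij (fun t => (i + t) % k) ?_ ?_ ?_ ?_
  · intro t _
    exact mem_range.2 (Nat.mod_lt _ hk)
  · intro s hs t ht h
    exact optClosed_mod_inj hk (mem_range.1 hs) (mem_range.1 ht) h
  · intro m hm
    have hm' : m < k := by simpa using hm
    refine ⟨(m + k - i) % k, ?_, ?_⟩
    · simpa using Nat.mod_lt _ hk
    · simp only [Nat.add_mod_mod]
      have h1 : i + (m + k - i) = m + k := by omega
      rw [h1, Nat.add_mod_right, Nat.mod_eq_of_lt hm']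
  · intro t _
    rfl

/-- If some path `z'` of the same weight and length as an optimal path is closed, then its vertex
set is closed under adjacency in `S`.

PROOF. Let `i < k`, `u ∈ S`, `r (z' i) u`, and suppose `u` is not on the path. Let
`z'' 0 = u`, `z'' (t + 1) = z' ((i + t) % k)`: a path of `S` with `k + 1` vertices and weight
`w u + pw w z k` (the map `t ↦ (i + t) % k` permutes `range k`). `heavy` gives `w u = 0` and then
`long` gives `k + 1 ≤ k`. -/
theorem optClosed {V : Type*} (r : V → V → Prop) (hs : ∀ a b, r a b → r b a)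
    (w : V → ℕ) (S : Finset V) (z : ℕ → V) (k : ℕ) (hz : Opt r S w z k) (z' : ℕ → V)
    (hp : PathIn r S z' k) (hw : pw w z' k = pw w z k) (hc : r (z' (k - 1)) (z' 0)) :
    ∀ i, i < k → ∀ u ∈ S, r (z' i) u → ∃ j, j < k ∧ z' j = u := by
  intro i hi u hu hr
  by_contra hcon
  push Not at hcon
  obtain ⟨hp1, hp2, hp3⟩ := hp
  have hk := hz.pos
  let y : ℕ → V := fun t => if t = 0 then u else z' ((i + (t - 1)) % k)
  have hy0 : y 0 = u := rfl
  have hyS : ∀ t, y (t + 1) = z' ((i + t) % k) := fun t => by
    simp only [y, Nat.add_sub_cancel]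
    rw [if_neg (Nat.succ_ne_zero t)]
  have hpath : PathIn r S y (k + 1) := by
    refine ⟨?_, ?_, ?_⟩
    · intro t ht
      cases t with
      | zero => rw [hy0]; exact hu
      | succ t => rw [hyS]; exact hp1 _ (Nat.mod_lt _ hk)
    · intro s hs' t ht h
      cases s with
      | zero =>
        cases t with
        | zero => rfl
        | succ t =>
          rw [hy0, hyS] at h
          exact absurd h.symm (hcon _ (Nat.mod_lt _ hk))
      | succ s =>
        cases t with
        | zero =>
          rw [hy0, hyS] at h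
          exact absurd h (hcon _ (Nat.mod_lt _ hk))
        | succ t =>
          rw [hyS, hyS] at h
          have h1 := hp2 _ (Nat.mod_lt _ hk) _ (Nat.mod_lt _ hk) h
          rw [optClosed_mod_inj hk (by omega) (by omega) h1]
    · intro t ht
      cases t with
      | zero =>
        rw [hy0, hyS, Nat.add_zero, Nat.mod_eq_of_lt hi]
        exact hs _ _ hr
      | succ t =>
        rw [hyS, hyS]
        have h1 : (i + (t + 1)) % k = ((i + t) % k + 1) % k := by
          rw [Nat.mod_add_mod]; rfl
        rw [h1]
        have h2 := Nat.mod_lt (i + t) hk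
        by_cases h3 : (i + t) % k + 1 < k
        · rw [Nat.mod_eq_of_lt h3]
          exact hp3 _ h3
        · have h4 : (i + t) % k + 1 = k := by omega
          have h5 : (i + t) % k = k - 1 := by omega
          rw [h4, Nat.mod_self, h5]
          exact hc
  have hpw : pw w y (k + 1) = pw w z k + w u := by
    unfold pw
    rw [Finset.sum_range_succ', hy0]
    simp only [hyS]
    rw [optClosed_sum hk hi (fun t => w (z' t))]
    have h6 : ∑ t ∈ range k, w (z' t) = ∑ t ∈ range k, w (z t) := hw
    rw [h6]
  have h7 := hz.heavy y (k + 1) hpath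
  rw [hpw] at h7
  have h8 : w u = 0 := by omega
  have h9 := hz.long y (k + 1) hpath (by rw [hpw, h8, Nat.add_zero])
  omega

end Pool.Agent.Lib.MP_22c8c7_co
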