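import Mathlib
import Pool.Agent.Lib.MP_22c8c7_co.Defs

set_option autoImplicit false

namespace Pool.Agent.Lib.MP_22c8c7_co

open Finset
open scoped Classical

/-- the reversed path -/
private def oeRev {V : Type*} (z : ℕ → V) (k : ℕ) (t : ℕ) : V := z (k - 1 - t)

private theorem oeRev_path {V : Type*} {r : V → V → Prop} (hs : ∀ a b, r a b → r b a)
    {S : Finset V} {z : ℕ → V} {k : ℕ} (h : PathIn r S z k) : PathIn r S (oeRev z k) k := by
  obtain ⟨h1, h2, h3⟩ := h
  refine ⟨fun i hi => h1 _ (by omega), fun i hi j hj hij => ?_, fun i hi => ?_⟩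
  · have := h2 _ (by omega : k - 1 - i < k) _ (by omega : k - 1 - j < k) hij
    omega
  · have := h3 (k - 1 - (i + 1)) (by omega)
    have e : k - 1 - (i + 1) + 1 = k - 1 - i := by omega
    rw [e] at this
    exact hs _ _ this

private theorem oeRev_pw {V : Type*} (w : V → ℕ) (z : ℕ → V) (k : ℕ) :
    pw w (oeRev z k) k = pw w z k := by
  unfold pw oeRev
  exact Finset.sum_range_reflect (fun i => w (z i)) k

private theorem oeRev_opt {V : Type*} {r : V → V → Prop} (hs : ∀ a b, r a b → r b a)
    {w : V → ℕ} {S : Finset V} {z : ℕ → V} {k : ℕ} (hz : Opt r S w z k) :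
    Opt r S w (oeRev z k) k := by
  refine ⟨oeRev_path hs hz.path, hz.pos, ?_, ?_, ?_⟩
  · intro z' k' h
    rw [oeRev_pw]
    exact hz.heavy z' k' h
  · intro z' k' h h'
    rw [oeRev_pw] at h'
    exact hz.long z' k' h h'
  · intro z' h h'
    rw [oeRev_pw] at h'
    have := hz.ends z' h h'
    have e0 : oeRev z k 0 = z (k - 1) := rfl
    have e1 : oeRev z k (k - 1) = z 0 := by unfold oeRev; rw [Nat.sub_self]
    rw [e0, e1]
    omega

/-- neighbours of the first vertex are on the path -/
private theorem oe_nbr {V : Type*} {r : V → V → Prop} (hs : ∀ a b, r a b → r b a)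
    (hi : ∀ a, ¬ r a a) {w : V → ℕ} {S : Finset V} {z : ℕ → V} {k : ℕ} (hz : Opt r S w z k)
    {u : V} (hu : u ∈ S) (hru : r (z 0) u) : ∃ j, j + 1 < k ∧ u = z (j + 1) := by
  by_contra hcon
  push Not at hcon
  have hne : ∀ j, j < k → z j ≠ u := by
    intro j hj h
    rcases Nat.eq_zero_or_pos j with h0 | h0
    · subst h0
      rw [h] at hru
      exact hi _ hru
    · obtain ⟨i, rfl⟩ : ∃ i, j = i + 1 := ⟨j - 1, by omega⟩
      exact hcon i hj h.symm
  obtain ⟨h1, h2, h3⟩ := hz.path
  have hk := hz.pos
  have hp : PathIn r S (fun t => if t = 0 then u else z (t - 1)) (k + 1) := by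
    refine ⟨fun i hi' => ?_, fun i hi' j hj hij => ?_, fun i hi' => ?_⟩
    · by_cases h0 : i = 0
      · simp only [if_pos h0]; exact hu
      · simp only [if_neg h0]; exact h1 _ (by omega)
    · by_cases h0 : i = 0
      · by_cases h0' : j = 0
        · omega
        · simp only [if_pos h0, if_neg h0'] at hij
          exact absurd hij.symm (hne _ (by omega))
      · by_cases h0' : j = 0
        · simp only [if_neg h0, if_pos h0'] at hij
          exact absurd hij (hne _ (by omega))
        · simp only [if_neg h0, if_neg h0'] at hij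
          have := h2 _ (by omega : i - 1 < k) _ (by omega : j - 1 < k) hij
          omega
    · by_cases h0 : i = 0
      · subst h0
        simpa using hs _ _ hru
      · have := h3 (i - 1) (by omega)
        have e : i - 1 + 1 = i := by omega
        rw [e] at this
        have h0' : i + 1 ≠ 0 := by omega
        simp only [if_neg h0, if_neg h0', Nat.add_sub_cancel]
        exact this
  have hw : pw w (fun t => if t = 0 then u else z (t - 1)) (k + 1) = w u + pw w z k := by
    unfold pw
    rw [Finset.sum_range_succ']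
    simp only [Nat.add_sub_cancel, if_true, Nat.succ_ne_zero, if_false]
    rw [add_comm]
  have h4 := hz.heavy _ _ hp
  have h5 := hz.long _ _ hp (by omega)
  omega

/-- rotation of the path -/
private def oeRot {V : Type*} (z : ℕ → V) (i t : ℕ) : V := if t ≤ i then z (i - t) else z t

private theorem oeRot_path {V : Type*} {r : V → V → Prop} (hs : ∀ a b, r a b → r b a)
    {S : Finset V} {z : ℕ → V} {k i : ℕ} (h : PathIn r S z k) (hik : i + 1 < k)
    (ha : r (z 0) (z (i + 1))) : PathIn r S (oeRot z i) k := by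
  obtain ⟨h1, h2, h3⟩ := h
  refine ⟨fun t ht => ?_, fun t ht t' ht' htt => ?_, fun t ht => ?_⟩
  · unfold oeRot
    split_ifs
    · exact h1 _ (by omega)
    · exact h1 _ ht
  · unfold oeRot at htt
    by_cases c1 : t ≤ i
    · by_cases c2 : t' ≤ i
      · rw [if_pos c1, if_pos c2] at htt
        have := h2 _ (by omega : i - t < k) _ (by omega : i - t' < k) htt
        omega
      · rw [if_pos c1, if_neg c2] at htt
        have := h2 _ (by omega : i - t < k) _ ht' htt
        omega
    · by_cases c2 : t' ≤ i
      · rw [if_neg c1, if_pos c2] at htt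
        have := h2 _ ht _ (by omega : i - t' < k) htt
        omega
      · rw [if_neg c1, if_neg c2] at htt
        exact h2 _ ht _ ht' htt
  · unfold oeRot
    by_cases c1 : t + 1 ≤ i
    · rw [if_pos (by omega : t ≤ i), if_pos c1]
      have := h3 (i - (t + 1)) (by omega)
      have e : i - (t + 1) + 1 = i - t := by omega
      rw [e] at this
      exact hs _ _ this
    · by_cases c2 : t ≤ i
      · have e : t = i := by omega
        subst e
        rw [if_pos le_rfl, if_neg c1, Nat.sub_self]
        exact ha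
      · rw [if_neg c2, if_neg c1]
        exact h3 t ht

private theorem oeRot_pw {V : Type*} (w : V → ℕ) (z : ℕ → V) {k i : ℕ} (hik : i + 1 < k) :
    pw w (oeRot z i) k = pw w z k := by
  unfold pw oeRot
  refine Finset.sum_nbij' (fun t => if t ≤ i then i - t else t)
    (fun t => if t ≤ i then i - t else t) ?_ ?_ ?_ ?_ ?_
  · intro t ht
    rw [Finset.mem_range] at ht
    rw [Finset.mem_range]
    split_ifs <;> omega
  · intro t ht
    rw [Finset.mem_range] at ht
    rw [Finset.mem_range]
    split_ifs <;> omega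
  · intro t ht
    by_cases c : t ≤ i
    · simp only [if_pos c, if_pos (Nat.sub_le i t)]
      omega
    · simp only [if_neg c]
  · intro t ht
    by_cases c : t ≤ i
    · simp only [if_pos c, if_pos (Nat.sub_le i t)]
      omega
    · simp only [if_neg c]
  · intro t ht
    by_cases c : t ≤ i
    · simp only [if_pos c]
    · simp only [if_neg c]

/-- the consequences of `r (z 0) (z (i + 1))` -/
private theorem oe_rot {V : Type*} {r : V → V → Prop} (hs : ∀ a b, r a b → r b a)
    {w : V → ℕ} {S : Finset V} {z : ℕ → V} {k : ℕ} (hz : Opt r S w z k)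
    (hno : ∀ z', PathIn r S z' k → pw w z' k = pw w z k → ¬ r (z' (k - 1)) (z' 0))
    {i : ℕ} (hik : i + 1 < k) (ha : r (z 0) (z (i + 1))) :
    w (z 0) ≤ w (z i) ∧ ¬ r (z (k - 1)) (z i) := by
  have hp := oeRot_path hs hz.path hik ha
  have hw := oeRot_pw w z hik
  have e0 : oeRot z i 0 = z i := by unfold oeRot; rw [if_pos (Nat.zero_le i), Nat.sub_zero]
  have e1 : oeRot z i (k - 1) = z (k - 1) := by
    unfold oeRot; rw [if_neg (by omega)]
  have h1 := hz.ends _ hp hw
  have h2 := hno _ hp hw
  rw [e0, e1] at h1 h2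
  exact ⟨by omega, h2⟩

/-- the sum over the neighbours of the first vertex -/
private theorem oe_sum {V : Type*} {r : V → V → Prop} (hs : ∀ a b, r a b → r b a)
    (hi : ∀ a, ¬ r a a) {w : V → ℕ} {S : Finset V} {z : ℕ → V} {k : ℕ} (hz : Opt r S w z k) :
    ∑ i ∈ range (k - 1), (if r (z 0) (z (i + 1)) then w (z (i + 1)) + w (z 0) else 0) =
      ∑ u ∈ S.filter (fun u => r (z 0) u), w u + w (z 0) * dg r S (z 0) := by
  obtain ⟨h1, h2, h3⟩ := hz.path
  have himg : S.filter (fun u => r (z 0) u) =
      ((range (k - 1)).filter (fun i => r (z 0) (z (i + 1)))).image (fun i => z (i + 1)) := by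
    ext u
    rw [Finset.mem_filter, Finset.mem_image]
    constructor
    · rintro ⟨hu, hru⟩
      obtain ⟨j, hj, rfl⟩ := oe_nbr hs hi hz hu hru
      exact ⟨j, Finset.mem_filter.2 ⟨Finset.mem_range.2 (by omega), hru⟩, rfl⟩
    · rintro ⟨j, hj, rfl⟩
      rw [Finset.mem_filter, Finset.mem_range] at hj
      exact ⟨h1 _ (by omega), hj.2⟩
  have hinj : Set.InjOn (fun i => z (i + 1))
      (((range (k - 1)).filter (fun i => r (z 0) (z (i + 1))) : Finset ℕ) : Set ℕ) := by
    intro a ha b hb hab
    rw [Finset.mem_coe, Finset.mem_filter, Finset.mem_range] at ha hb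
    have := h2 _ (by omega : a + 1 < k) _ (by omega : b + 1 < k) hab
    omega
  unfold dg
  rw [himg, Finset.sum_image hinj, Finset.card_image_of_injOn hinj, ← Finset.sum_filter,
    Finset.sum_add_distrib, Finset.sum_const, smul_eq_mul, mul_comm (w (z 0))]

/-- The two ends of an optimal path, if no path of the same weight and length is closed.

PROOF. Write `Z = pw w z k`. Every neighbour `u ∈ S` of `z 0` is some `z j`, `1 ≤ j < k` (else
`u, z 0, ..., z (k-1)` is a path with `k + 1` vertices and weight `≥ Z`: `heavy`, `long`); the same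
for `z (k-1)` (append `u` at the end). For `i + 1 < k` let `a i : r (z 0) (z (i+1))` and
`b i : r (z (k-1)) (z i)`.
If `a i` then `z' t = z (i - t)` for `t ≤ i`, `z' t = z t` for `t > i`, is a path with `k` vertices,
the same vertex set, the same weight and the ends `z i, z (k-1)`. So `ends` gives `w (z 0) ≤ w (z i)`
and the hypothesis `hno` gives `¬ b i`.
If `b i` then `z' t = z t` for `t ≤ i`, `z' t = z (k - 1 - (t - i - 1))` for `i < t < k` is a path
with the ends `z 0, z (i+1)`, so `w (z (k-1)) ≤ w (z (i+1))`.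
Hence for every `i + 1 < k`:
`(if a i then w (z (i+1)) + w (z 0) else 0) + (if b i then w (z i) + w (z (k-1)) else 0)
  ≤ w (z i) + w (z (i+1))`. Sum over `i ∈ range (k-1)`; the right side is
`2 Z - w (z 0) - w (z (k-1))`, and `∑_{a i} 1 = dg r S (z 0)`,
`∑_{a i} w (z (i+1)) = ∑ u ∈ S.filter (r (z 0)), w u` etc. -/
theorem optEnds {V : Type*} (r : V → V → Prop) (hs : ∀ a b, r a b → r b a)
    (hi : ∀ a, ¬ r a a) (w : V → ℕ) (S : Finset V) (z : ℕ → V) (k : ℕ) (hz : Opt r S w z k)
    (hno : ∀ z', PathIn r S z' k → pw w z' k = pw w z k → ¬ r (z' (k - 1)) (z' 0)) :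
    (w (z 0) * (dg r S (z 0) + 1) + ∑ u ∈ S.filter (fun u => r (z 0) u), w u) +
      (w (z (k - 1)) * (dg r S (z (k - 1)) + 1) +
        ∑ u ∈ S.filter (fun u => r (z (k - 1)) u), w u) ≤ 2 * pw w z k := by
  have hk := hz.pos
  have hz' := oeRev_opt hs hz
  have r0 : oeRev z k 0 = z (k - 1) := rfl
  have hno' : ∀ z', PathIn r S z' k → pw w z' k = pw w (oeRev z k) k →
      ¬ r (z' (k - 1)) (z' 0) := by
    intro z' h h'
    rw [oeRev_pw] at h'
    exact hno z' h h'
  -- the sums over the neighbours of the ends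
  have s1 := oe_sum hs hi hz
  have s2 := oe_sum hs hi hz'
  rw [r0] at s2
  have s3 : ∑ i ∈ range (k - 1), (if r (z (k - 1)) (oeRev z k (i + 1)) then
      w (oeRev z k (i + 1)) + w (z (k - 1)) else 0) =
      ∑ i ∈ range (k - 1), (if r (z (k - 1)) (z i) then w (z i) + w (z (k - 1)) else 0) := by
    rw [← Finset.sum_range_reflect (fun i => if r (z (k - 1)) (z i) then
      w (z i) + w (z (k - 1)) else 0) (k - 1)]
    refine Finset.sum_congr rfl fun i hi' => ?_
    have e : oeRev z k (i + 1) = z (k - 1 - 1 - i) := by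
      unfold oeRev
      congr 1
      omega
    rw [e]
  rw [s3] at s2
  -- the pointwise inequality
  have hpt : ∀ i ∈ range (k - 1),
      (if r (z 0) (z (i + 1)) then w (z (i + 1)) + w (z 0) else 0) +
        (if r (z (k - 1)) (z i) then w (z i) + w (z (k - 1)) else 0) ≤
        w (z i) + w (z (i + 1)) := by
    intro i hi'
    rw [Finset.mem_range] at hi'
    by_cases ha : r (z 0) (z (i + 1))
    · obtain ⟨c1, c2⟩ := oe_rot hs hz hno (by omega) ha
      rw [if_pos ha, if_neg c2]
      omega
    · rw [if_neg ha]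
      by_cases hb : r (z (k - 1)) (z i)
      · rw [if_pos hb]
        have e1 : oeRev z k ((k - 2 - i) + 1) = z i := by
          unfold oeRev
          congr 1
          omega
        have e2 : oeRev z k (k - 2 - i) = z (i + 1) := by
          unfold oeRev
          congr 1
          omega
        have h1 := (oe_rot hs hz' hno' (i := k - 2 - i) (by omega)
          (by rw [r0, e1]; exact hb)).1
        rw [r0, e2] at h1
        omega
      · rw [if_neg hb]
        omega
  have hsum := Finset.sum_le_sum hpt
  rw [Finset.sum_add_distrib, Finset.sum_add_distrib, s1, s2] at hsum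
  have t1 : ∑ i ∈ range (k - 1), w (z i) + w (z (k - 1)) = pw w z k := by
    unfold pw
    obtain ⟨m, rfl⟩ : ∃ m, k = m + 1 := ⟨k - 1, by omega⟩
    rw [Nat.add_sub_cancel, Finset.sum_range_succ]
  have t2 : ∑ i ∈ range (k - 1), w (z (i + 1)) + w (z 0) = pw w z k := by
    unfold pw
    obtain ⟨m, rfl⟩ : ∃ m, k = m + 1 := ⟨k - 1, by omega⟩
    rw [Nat.add_sub_cancel, Finset.sum_range_succ']
  rw [mul_add, mul_add, mul_one, mul_one]
  omega

end Pool.Agent.Lib.MP_22c8c7_co
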