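import Mathlib
import Pool.Agent.Lib.MP_22c8c7_co.Defs

set_option autoImplicit false

namespace Pool.Agent.Lib.MP_22c8c7_co

open Finset
open scoped Classical

private theorem optEx_max (P : ℕ → Prop) (B : ℕ) (h0 : ∃ n, P n) (hB : ∀ n, P n → n ≤ B) :
    ∃ n, P n ∧ ∀ m, P m → m ≤ n := by
  have h1 : {n | P n}.Nonempty := h0
  have h2 : BddAbove {n | P n} := ⟨B, fun n hn => hB n hn⟩
  exact ⟨sSup {n | P n}, Nat.sSup_mem h1 h2, fun m hm => le_csSup h2 hm⟩

private theorem optEx_min (P : ℕ → Prop) (h0 : ∃ n, P n) : ∃ n, P n ∧ ∀ m, P m → n ≤ m :=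
  ⟨Nat.find h0, Nat.find_spec h0, fun _ hm => Nat.find_min' h0 hm⟩

private theorem optEx_len {V : Type*} {r : V → V → Prop} {S : Finset V} {z : ℕ → V} {k : ℕ}
    (h : PathIn r S z k) : k ≤ S.card := by
  have h1 := Finset.card_le_card_of_injOn (s := range k) (t := S) z
    (fun i hi => h.1 i (Finset.mem_range.1 hi))
    (fun i hi j hj hij => h.2.1 i (Finset.mem_range.1 hi) j (Finset.mem_range.1 hj) hij)
  rwa [Finset.card_range] at h1

/-- Existence of an optimal path.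

PROOF. The lengths of paths in `S` are at most `|S|` (`z` is injective on `range k` with values in
`S`). Maximize `K(z,k) = (pw w z k * (|S| + 1) + k) * (2 μ + 1) + (2 μ - w (z 0) - w (z (k-1)))`
(bounded, natural numbers) over all paths with `0 < k`; `w (z 0), w (z (k-1)) ≤ pw w z k ≤ μ`.
There is a path with `k = 1` since `S` is nonempty. -/
theorem optEx {V : Type*} (r : V → V → Prop) (w : V → ℕ) (μ : ℕ) (S : Finset V)
    (hS : S.Nonempty) (h : ∀ z k, PathIn r S z k → pw w z k ≤ μ) :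
    ∃ z k, Opt r S w z k := by
  obtain ⟨v, hv⟩ := hS
  have hone : PathIn r S (fun _ => v) 1 := by
    refine ⟨fun _ _ => hv, fun i hi j hj _ => by omega, fun i hi => by omega⟩
  -- the weight
  obtain ⟨W, ⟨z1, k1, hz1, hW1⟩, hWmax⟩ := optEx_max
    (fun n => ∃ z k, PathIn r S z k ∧ pw w z k = n) μ ⟨_, _, _, hone, rfl⟩
    (by rintro n ⟨z, k, hz, rfl⟩; exact h z k hz)
  -- the length
  obtain ⟨k, ⟨z2, hz2, hW2⟩, hkmax⟩ := optEx_max
    (fun k => ∃ z, PathIn r S z k ∧ pw w z k = W) S.card ⟨k1, z1, hz1, hW1⟩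
    (by rintro n ⟨z, hz, -⟩; exact optEx_len hz)
  have hk : 0 < k := by
    rcases Nat.eq_zero_or_pos k with h0 | h0
    · exfalso
      subst h0
      have h1 : W = 0 := by rw [← hW2]; simp [pw]
      have h2 : pw w (fun _ => v) 1 ≤ W := hWmax _ ⟨_, _, hone, rfl⟩
      have h3 := hkmax 1 ⟨_, hone, by omega⟩
      omega
    · exact h0
  -- the ends
  obtain ⟨e, ⟨z, hz, hW3, he⟩, hemin⟩ := optEx_min
    (fun e => ∃ z, PathIn r S z k ∧ pw w z k = W ∧ w (z 0) + w (z (k - 1)) = e)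
    ⟨_, z2, hz2, hW2, rfl⟩
  refine ⟨z, k, hz, hk, ?_, ?_, ?_⟩
  · intro z' k' hz'
    rw [hW3]
    exact hWmax _ ⟨z', k', hz', rfl⟩
  · intro z' k' hz' hw'
    exact hkmax k' ⟨z', hz', hw'.trans hW3⟩
  · intro z' hz' hw'
    rw [he]
    exact hemin _ ⟨z', hz', hw'.trans hW3, rfl⟩

end Pool.Agent.Lib.MP_22c8c7_co
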