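import Mathlib
import Pool.Agent.Lib.MP_22c8c7_co.Defs
import Pool.Agent.Lib.MP_22c8c7_co.OptEx
import Pool.Agent.Lib.MP_22c8c7_co.OptClosed
import Pool.Agent.Lib.MP_22c8c7_co.OptEnds

set_option autoImplicit false

namespace Pool.Agent.Lib.MP_22c8c7_co

open Finset
open scoped Classical

/-- Splitting off one vertex. -/
private theorem weg_split {V : Type*} (r : V → V → Prop) (hs : ∀ a b, r a b → r b a)
    (hi : ∀ a, ¬ r a a) (w : V → ℕ) (S : Finset V) (e : V) (he : e ∈ S) :
    ∑ v ∈ S, w v * (dg r S v + 1) =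
      (w e * (dg r S e + 1) + ∑ u ∈ S.filter (fun u => r e u), w u) +
        ∑ v ∈ S.erase e, w v * (dg r (S.erase e) v + 1) := by
  have h1 : ∀ v ∈ S.erase e, w v * (dg r S v + 1) =
      (if r e v then w v else 0) + w v * (dg r (S.erase e) v + 1) := by
    intro v hv
    by_cases hr : r e v
    · have h2 : dg r S v = dg r (S.erase e) v + 1 := by
        unfold dg
        rw [Finset.filter_erase]
        have h3 : e ∈ S.filter (fun u => r v u) := Finset.mem_filter.2 ⟨he, hs _ _ hr⟩
        rw [Finset.card_erase_of_mem h3]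
        have h4 : 0 < (S.filter (fun u => r v u)).card := Finset.card_pos.2 ⟨e, h3⟩
        omega
      rw [if_pos hr, h2]
      ring
    · have h2 : dg r S v = dg r (S.erase e) v := by
        unfold dg
        rw [Finset.filter_erase, Finset.erase_eq_of_notMem]
        intro h3
        exact hr (hs _ _ (Finset.mem_filter.1 h3).2)
      rw [if_neg hr, h2, zero_add]
  have h5 : ∑ u ∈ S.filter (fun u => r e u), w u = ∑ v ∈ S.erase e, if r e v then w v else 0 := by
    rw [Finset.sum_filter, ← Finset.add_sum_erase S _ he, if_neg (hi e), zero_add]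
  rw [← Finset.add_sum_erase S _ he, Finset.sum_congr rfl h1, Finset.sum_add_distrib, h5]
  ring

/-- Paths of a subset. -/
private theorem weg_mono {V : Type*} {r : V → V → Prop} {S T : Finset V} (hT : T ⊆ S)
    {z : ℕ → V} {k : ℕ} (h : PathIn r T z k) : PathIn r S z k :=
  ⟨fun i hk => hT (h.1 i hk), h.2.1, h.2.2⟩

/-- The case of a closed path. -/
private theorem weg_closed {V : Type*} (r : V → V → Prop) (hs : ∀ a b, r a b → r b a)
    (hi : ∀ a, ¬ r a a) (w : V → ℕ) (μ : ℕ) (S : Finset V) (z : ℕ → V) (k : ℕ)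
    (hp : PathIn r S z k) (hμ : pw w z k ≤ μ)
    (hcl : ∀ i, i < k → ∀ u ∈ S, r (z i) u → ∃ j, j < k ∧ z j = u)
    (ih : ∑ v ∈ S \ (range k).image z, w v * (dg r (S \ (range k).image z) v + 1) ≤
      μ * (S \ (range k).image z).card) :
    ∑ v ∈ S, w v * (dg r S v + 1) ≤ μ * S.card := by
  have hQ : (range k).image z ⊆ S := by
    intro v hv
    obtain ⟨i, hik, rfl⟩ := Finset.mem_image.1 hv
    exact hp.1 i (Finset.mem_range.1 hik)
  have hinj : Set.InjOn z (range k : Finset ℕ) := by
    intro i hi' j hj' hij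
    exact hp.2.1 i (Finset.mem_range.1 hi') j (Finset.mem_range.1 hj') hij
  have hcard : ((range k).image z).card = k := by
    rw [Finset.card_image_of_injOn hinj, Finset.card_range]
  have h1 : ∑ v ∈ S \ (range k).image z, w v * (dg r S v + 1) =
      ∑ v ∈ S \ (range k).image z, w v * (dg r (S \ (range k).image z) v + 1) := by
    refine Finset.sum_congr rfl fun v hv => ?_
    have h2 : dg r S v = dg r (S \ (range k).image z) v := by
      unfold dg
      congr 1
      ext u
      rw [Finset.mem_filter, Finset.mem_filter, Finset.mem_sdiff]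
      constructor
      · rintro ⟨huS, hvu⟩
        refine ⟨⟨huS, fun huQ => ?_⟩, hvu⟩
        obtain ⟨i, hik, rfl⟩ := Finset.mem_image.1 huQ
        obtain ⟨j, hj, hjv⟩ := hcl i (Finset.mem_range.1 hik) v (Finset.mem_sdiff.1 hv).1
          (hs _ _ hvu)
        exact (Finset.mem_sdiff.1 hv).2 (Finset.mem_image.2 ⟨j, Finset.mem_range.2 hj, hjv⟩)
      · rintro ⟨⟨huS, _⟩, hvu⟩
        exact ⟨huS, hvu⟩
    rw [h2]
  have h3 : ∀ v ∈ (range k).image z, w v * (dg r S v + 1) ≤ w v * k := by
    intro v hv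
    refine Nat.mul_le_mul_left _ ?_
    have h4 : S.filter (fun u => r v u) ⊆ ((range k).image z).erase v := by
      intro u hu
      rw [Finset.mem_filter] at hu
      rw [Finset.mem_erase]
      refine ⟨fun huv => hi v (huv ▸ hu.2), ?_⟩
      obtain ⟨i, hik, hiv⟩ := Finset.mem_image.1 hv
      obtain ⟨j, hj, hju⟩ := hcl i (Finset.mem_range.1 hik) u hu.1 (by rw [hiv]; exact hu.2)
      exact Finset.mem_image.2 ⟨j, Finset.mem_range.2 hj, hju⟩
    have h5 := Finset.card_le_card h4
    rw [Finset.card_erase_of_mem hv, hcard] at h5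
    have h6 : 0 < k := by
      rw [← hcard]
      exact Finset.card_pos.2 ⟨v, hv⟩
    unfold dg
    omega
  have h7 : ∑ v ∈ (range k).image z, w v * (dg r S v + 1) ≤ μ * k := by
    calc ∑ v ∈ (range k).image z, w v * (dg r S v + 1) ≤ ∑ v ∈ (range k).image z, w v * k :=
          Finset.sum_le_sum h3
      _ = pw w z k * k := by
          rw [← Finset.sum_mul, Finset.sum_image hinj]
          rfl
      _ ≤ μ * k := Nat.mul_le_mul_right _ hμ
  rw [← Finset.sum_sdiff hQ, h1]
  have h8 : S.card = (S \ (range k).image z).card + k := by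
    have := Finset.card_sdiff_add_card_eq_card hQ
    rw [hcard] at this
    exact this.symm
  rw [h8, mul_add]
  exact Nat.add_le_add ih h7

/-- WEIGHTED ERDŐS-GALLAI: if all paths in `S` have weight at most `μ` then
`∑_{v ∈ S} w(v) (d(v) + 1) ≤ μ |S|`.

PROOF. Strong induction on `|S|`; `S = ∅` is trivial. Take an optimal path (`optEx`).
CASE 1: some path `z'` of the same weight and length `k` has `r (z' (k-1)) (z' 0)`. Let `Q` be its
vertex set, `|Q| = k`. By `optClosed` all neighbours in `S` of the points of `Q` are in `Q`, so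
`dg r S v + 1 ≤ k` for `v ∈ Q` and `∑_{v ∈ Q} w v (dg r S v + 1) ≤ k * pw w z' k ≤ μ |Q|`; and
`dg r S v = dg r (S \ Q) v` for `v ∈ S \ Q`. Induction for `S \ Q`.
CASE 2: otherwise `optEnds`: for one `e ∈ {z 0, z (k-1)}` we have
`w e (dg r S e + 1) + ∑ u ∈ S.filter (r e), w u ≤ pw w z k ≤ μ`, and
`∑_{v ∈ S} w v (dg r S v + 1)` is this number plus `∑_{v ∈ S.erase e} w v (dg r (S.erase e) v + 1)`.
Induction for `S.erase e`. -/
theorem weg {V : Type*} (r : V → V → Prop) (hs : ∀ a b, r a b → r b a) (hi : ∀ a, ¬ r a a)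
    (w : V → ℕ) (μ : ℕ) (S : Finset V) (h : ∀ z k, PathIn r S z k → pw w z k ≤ μ) :
    ∑ v ∈ S, w v * (dg r S v + 1) ≤ μ * S.card := by
  revert h
  induction S using Finset.strongInduction with
  | H S ih =>
    intro h
    rcases S.eq_empty_or_nonempty with hS | hS
    · subst hS
      simp
    obtain ⟨z, k, hz⟩ := optEx r w μ S hS h
    have hμ : pw w z k ≤ μ := h z k hz.path
    by_cases hc : ∃ z', PathIn r S z' k ∧ pw w z' k = pw w z k ∧ r (z' (k - 1)) (z' 0)
    · obtain ⟨z', hp, hw, hcl⟩ := hc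
      have hcl' := optClosed r hs w S z k hz z' hp hw hcl
      refine weg_closed r hs hi w μ S z' k hp (hw ▸ hμ) hcl' ?_
      refine ih _ ?_ fun y m hy => h y m (weg_mono Finset.sdiff_subset hy)
      refine Finset.sdiff_ssubset ?_ ?_
      · intro v hv
        obtain ⟨i, hik, rfl⟩ := Finset.mem_image.1 hv
        exact hp.1 i (Finset.mem_range.1 hik)
      · exact ⟨z' 0, Finset.mem_image.2 ⟨0, Finset.mem_range.2 hz.pos, rfl⟩⟩
    · have hno : ∀ z', PathIn r S z' k → pw w z' k = pw w z k → ¬ r (z' (k - 1)) (z' 0) :=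
        fun z' h1 h2 h3 => hc ⟨z', h1, h2, h3⟩
      have hends := optEnds r hs hi w S z k hz hno
      have key : ∃ e ∈ S, w e * (dg r S e + 1) + ∑ u ∈ S.filter (fun u => r e u), w u ≤ μ := by
        by_cases h1 : w (z 0) * (dg r S (z 0) + 1) +
            ∑ u ∈ S.filter (fun u => r (z 0) u), w u ≤ μ
        · exact ⟨z 0, hz.path.1 0 hz.pos, h1⟩
        · refine ⟨z (k - 1), hz.path.1 (k - 1) (Nat.sub_lt hz.pos Nat.one_pos), ?_⟩
          omega
      obtain ⟨e, he, hle⟩ := key
      rw [weg_split r hs hi w S e he]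
      have h2 := ih (S.erase e) (Finset.erase_ssubset he)
        (fun y m hy => h y m (weg_mono (Finset.erase_subset _ _) hy))
      have h3 : S.card = (S.erase e).card + 1 := by
        rw [Finset.card_erase_of_mem he]
        have : 0 < S.card := Finset.card_pos.2 ⟨e, he⟩
        omega
      rw [h3, mul_add, mul_one, add_comm]
      exact Nat.add_le_add h2 hle

end Pool.Agent.Lib.MP_22c8c7_co
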