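import Mathlib
import Pool.Agent.Lib.MP_22c8c7_co.Defs
import Pool.Agent.Lib.MP_22c8c7_co.FTilde
import Pool.Agent.Lib.MP_22c8c7_co.WEG

set_option autoImplicit false

namespace Pool.Agent.Lib.MP_22c8c7_co

open Finset
open scoped Classical

/-- The vertices with at least two neighbours on the cycle have few neighbours outside.

PROOF. `weg` for the relation `FR r m x` on `Y`, weights `wt r m x`, `μ = m` (`ftilde_path`). For
`2 ≤ wt y` the `FR`-neighbours of `y` in `Y` are all its neighbours in `Y`; drop the other terms. -/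
theorem heavy_sum {V : Type*} (r : V → V → Prop) (hs : ∀ a b, r a b → r b a)
    (hi : ∀ a, ¬ r a a) (S : Finset V) (m : ℕ) [NeZero m] (hm : 2 ≤ m) (hev : Even m)
    (x : ZMod m → V) (hx : Cyc r S m x) (hno : ∀ c, ¬ CycIn r S c (m + 2)) (Y : Finset V)
    (hY : Y ⊆ S) (hd : ∀ y ∈ Y, ∀ j, y ≠ x j) :
    ∑ y ∈ Y.filter (fun y => 2 ≤ wt r m x y), wt r m x y * (dg r Y y + 1) ≤ m * Y.card := by
  have h1 := weg (FR r m x) (fun a b h => ⟨hs a b h.1, h.2.symm⟩) (fun a h => hi a h.1)
    (wt r m x) m Y (fun z k hz => ftilde_path r hs S m hm hev x hx hno Y hY hd z k hz)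
  refine le_trans ?_ h1
  calc ∑ y ∈ Y.filter (fun y => 2 ≤ wt r m x y), wt r m x y * (dg r Y y + 1)
      = ∑ y ∈ Y.filter (fun y => 2 ≤ wt r m x y), wt r m x y * (dg (FR r m x) Y y + 1) := by
        refine Finset.sum_congr rfl fun y hy => ?_
        rw [Finset.mem_filter] at hy
        have h2 : dg (FR r m x) Y y = dg r Y y := by
          unfold dg
          congr 1
          refine Finset.filter_congr fun u _ => ?_
          exact ⟨fun h => h.1, fun h => ⟨h, Or.inl hy.2⟩⟩
        rw [h2]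
    _ ≤ ∑ y ∈ Y, wt r m x y * (dg (FR r m x) Y y + 1) :=
        Finset.sum_le_sum_of_subset (Finset.filter_subset _ _)

end Pool.Agent.Lib.MP_22c8c7_co
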