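import Mathlib
import Pool.Agent.Lib.MP_22c8c7_co.Defs
import Pool.Agent.Lib.MP_22c8c7_co.Heavy
import Pool.Agent.Lib.MP_22c8c7_co.Cross
import Pool.Agent.Lib.MP_22c8c7_co.Count

set_option autoImplicit false

namespace Pool.Agent.Lib.MP_22c8c7_co

open Finset
open scoped Classical

private theorem rec_num (w d g m : ℝ) (hw : 2 ≤ w) (hwm : 2 * w ≤ m) (hg0 : m ≤ 2 * g + 2)
    (hd : 0 ≤ d) : w + min d g ≤ (g + 1) + (m - 2) / (m * (g + 1)) * (w * (d + 1)) := by
  have hm : 0 < m := by linarith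
  have hG : 0 < g + 1 := by linarith
  have h1 : (w - 1) * m ≤ (m - 2) * w := by nlinarith
  have h2 : (g + 1) * (w + min d g - (g + 1)) ≤ (w - 1) * (d + 1) := by
    rcases le_total d g with h | h
    · rw [min_eq_left h]
      nlinarith [mul_nonneg (sub_nonneg.mpr h) (show (0 : ℝ) ≤ g + 1 - (w - 1) by linarith)]
    · rw [min_eq_right h]
      nlinarith [mul_nonneg (sub_nonneg.mpr h) (show (0 : ℝ) ≤ w - 1 by linarith)]
  have h3 : w + min d g - (g + 1) ≤ (m - 2) / (m * (g + 1)) * (w * (d + 1)) := by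
    rw [div_mul_eq_mul_div, le_div_iff₀ (mul_pos hm hG)]
    calc (w + min d g - (g + 1)) * (m * (g + 1))
        = m * ((g + 1) * (w + min d g - (g + 1))) := by ring
      _ ≤ m * ((w - 1) * (d + 1)) := mul_le_mul_of_nonneg_left h2 hm.le
      _ = ((w - 1) * m) * (d + 1) := by ring
      _ ≤ ((m - 2) * w) * (d + 1) := mul_le_mul_of_nonneg_right h1 (by linarith)
      _ = (m - 2) * (w * (d + 1)) := by ring
  linarith

/-- RECURSION STEP.

PROOF. `Y = S \ C`, `M = |Y|`, `w = wt r m x`, `d = dg r Y`. By `ds_split` and `ds_min`: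
`ds r S ≤ m (m-1) + 2 ∑_{y ∈ Y} (w y + min (d y) g)`. Let `θ = (1 - 2/m)/(g+1)` and
`h y = w y (d y + 1)` if `2 ≤ w y`, `h y = 0` otherwise; `∑_{y ∈ Y} h y ≤ m M` (`heavy_sum`).
(1) If `2 w y ≤ m` then `w y + min (d y) g ≤ (g + 1) + θ h y`. Clear if `w y ≤ 1`. Let
`2 ≤ w = w y ≤ m/2`. If `g ≤ d`: `w - 1 ≤ θ w (g + 1) = w - 2 w/m` since `2 w/m ≤ 1`. If `d < g`:
`θ w (d+1) - (w + d - g - 1)` is a decreasing function of `d` on `[0, g]` if `θ w ≤ 1`; it is
`≥ 0` at `d = g` by the first case (`θ w ≤ 1` because `w ≤ m/2` and `m ≤ 2 g + 2`).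
(2) By `crossing` at most one `y ∈ Y` has `m < 2 w y` (two of them would give
`w y + w y' ≥ m + 2` since `m` is even); for this one
`w y + min (d y) g ≤ m + g ≤ (g + 1) + θ h y + m`.
Sum: `∑_{y ∈ Y} (w y + min (d y) g) ≤ (g + 1) M + θ m M + m = (g+1) M + M (m-2)/(g+1) + m`. -/
theorem rec_step {V : Type*} (r : V → V → Prop) (hs : ∀ a b, r a b → r b a)
    (hi : ∀ a, ¬ r a a) (S : Finset V) (m : ℕ) [NeZero m] (hm : 2 ≤ m) (hev : Even m)
    (x : ZMod m → V) (hx : Cyc r S m x) (hno : ∀ c, ¬ CycIn r S c (m + 2)) (M : ℕ)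
    (hM : S.card = M + m) (g : ℝ) (hg0 : (m : ℝ) ≤ 2 * g + 2)
    (hg : ∀ B ⊆ S, B.card ≤ M → (ds r B : ℝ) ≤ 2 * g * B.card) :
    (ds r S : ℝ) ≤ m * (m - 1) + 2 * ((g + 1) * M + M * (m - 2) / (g + 1) + m) := by
  have hm2 : (2 : ℝ) ≤ m := by exact_mod_cast hm
  have hmpos : (0 : ℝ) < m := by linarith
  have hG : (0 : ℝ) < g + 1 := by linarith
  have hg00 : (0 : ℝ) ≤ g := by linarith
  set Y : Finset V := S \ univ.image x with hYdef
  have hYS : Y ⊆ S := sdiff_subset
  have himg : univ.image x ⊆ S := by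
    intro v hv
    obtain ⟨i, _, rfl⟩ := mem_image.1 hv
    exact hx.mem i
  have hcimg : (univ.image x).card = m := by
    rw [card_image_of_injective _ hx.inj, card_univ, ZMod.card]
  have hYc : Y.card = M := by
    rw [hYdef, card_sdiff_of_subset himg, hcimg, hM]
    omega
  have hYx : ∀ y ∈ Y, ∀ j, y ≠ x j := by
    intro y hy j h
    rw [hYdef, mem_sdiff] at hy
    exact hy.2 (mem_image.2 ⟨j, mem_univ j, h.symm⟩)
  have hwle : ∀ y, wt r m x y ≤ m := by
    intro y
    unfold wt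
    calc (J r m x y).card ≤ (univ : Finset (ZMod m)).card := card_le_card (subset_univ _)
      _ = m := by rw [card_univ, ZMod.card]
  have h1 := ds_split r hs hi S m x hx
  have h2 := ds_min r hs Y g (fun B hB => hg B (hB.trans hYS) (by
    rw [← hYc]
    exact card_le_card hB))
  have h3 := heavy_sum r hs hi S m hm hev x hx hno Y hYS hYx
  rw [hYc] at h3
  set θ : ℝ := ((m : ℝ) - 2) / (m * (g + 1)) with hθ
  have hθ0 : 0 ≤ θ := div_nonneg (by linarith) (mul_pos hmpos hG).le
  -- pointwise bound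
  have hpt : ∀ y ∈ Y, (wt r m x y : ℝ) + min (dg r Y y : ℝ) g ≤
      (g + 1) + θ * (if 2 ≤ wt r m x y then ((wt r m x y * (dg r Y y + 1) : ℕ) : ℝ) else 0) +
        (if m < 2 * wt r m x y then (m : ℝ) else 0) := by
    intro y _
    have hd0 : (0 : ℝ) ≤ dg r Y y := Nat.cast_nonneg _
    by_cases hbig : m < 2 * wt r m x y
    · rw [if_pos hbig]
      have h4 : (wt r m x y : ℝ) ≤ m := by exact_mod_cast hwle y
      have h5 : min (dg r Y y : ℝ) g ≤ g := min_le_right _ _
      have h6 : (0 : ℝ) ≤ θ * (if 2 ≤ wt r m x y then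
          ((wt r m x y * (dg r Y y + 1) : ℕ) : ℝ) else 0) := by
        refine mul_nonneg hθ0 ?_
        split_ifs
        · exact Nat.cast_nonneg _
        · exact le_rfl
      linarith
    · rw [if_neg hbig]
      by_cases hw : 2 ≤ wt r m x y
      · rw [if_pos hw, add_zero]
        have h4 := rec_num (wt r m x y) (dg r Y y) g m (by exact_mod_cast hw)
          (by
            have : 2 * wt r m x y ≤ m := by omega
            exact_mod_cast this) hg0 hd0
        push_cast
        exact h4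
      · rw [if_neg hw, mul_zero, add_zero, add_zero]
        have h4 : (wt r m x y : ℝ) ≤ 1 := by
          have : wt r m x y ≤ 1 := by omega
          exact_mod_cast this
        have h5 : min (dg r Y y : ℝ) g ≤ g := min_le_right _ _
        linarith
  -- at most one big vertex
  have hone : ∑ y ∈ Y, (if m < 2 * wt r m x y then (m : ℝ) else 0) ≤ m := by
    rw [← sum_filter, sum_const, nsmul_eq_mul]
    have hc : (Y.filter fun y => m < 2 * wt r m x y).card ≤ 1 := by
      rw [card_le_one]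
      intro a ha b hb
      rw [mem_filter] at ha hb
      by_contra hab
      have hcr := crossing r hs S m hm x hx hno a b (hYS ha.1) (hYS hb.1) hab (hYx a ha.1)
        (hYx b hb.1)
      obtain ⟨q, hq⟩ := hev
      omega
    have hc' : ((Y.filter fun y => m < 2 * wt r m x y).card : ℝ) ≤ 1 := by exact_mod_cast hc
    nlinarith
  have hheavy : ∑ y ∈ Y, (if 2 ≤ wt r m x y then
      ((wt r m x y * (dg r Y y + 1) : ℕ) : ℝ) else 0) ≤ m * M := by
    rw [← sum_filter]
    have : ((∑ y ∈ Y.filter (fun y => 2 ≤ wt r m x y), wt r m x y * (dg r Y y + 1) : ℕ) : ℝ) ≤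
        ((m * M : ℕ) : ℝ) := by exact_mod_cast h3
    push_cast at this ⊢
    exact this
  have hsum : ∑ y ∈ Y, ((wt r m x y : ℝ) + min (dg r Y y : ℝ) g) ≤
      (g + 1) * M + M * (m - 2) / (g + 1) + m := by
    calc ∑ y ∈ Y, ((wt r m x y : ℝ) + min (dg r Y y : ℝ) g)
        ≤ ∑ y ∈ Y, ((g + 1) + θ * (if 2 ≤ wt r m x y then
            ((wt r m x y * (dg r Y y + 1) : ℕ) : ℝ) else 0) +
            (if m < 2 * wt r m x y then (m : ℝ) else 0)) := sum_le_sum hpt
      _ = (g + 1) * M + θ * ∑ y ∈ Y, (if 2 ≤ wt r m x y then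
            ((wt r m x y * (dg r Y y + 1) : ℕ) : ℝ) else 0) +
            ∑ y ∈ Y, (if m < 2 * wt r m x y then (m : ℝ) else 0) := by
          rw [sum_add_distrib, sum_add_distrib, sum_const, hYc, nsmul_eq_mul, ← mul_sum]
          ring
      _ ≤ (g + 1) * M + θ * (m * M) + m := by
          have := mul_le_mul_of_nonneg_left hheavy hθ0
          linarith
      _ = (g + 1) * M + M * (m - 2) / (g + 1) + m := by
          have : θ * (m * M) = M * (m - 2) / (g + 1) := by
            rw [hθ]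
            field_simp
          rw [this]
  have h1' : (ds r S : ℝ) ≤ m * (m - 1) + 2 * ∑ y ∈ Y, (wt r m x y : ℝ) + ds r Y := by
    have h4 : ((ds r S : ℕ) : ℝ) ≤
        ((m * (m - 1) + 2 * ∑ y ∈ Y, wt r m x y + ds r Y : ℕ) : ℝ) := by exact_mod_cast h1
    have h5 : ((m - 1 : ℕ) : ℝ) = (m : ℝ) - 1 := by
      rw [Nat.cast_sub (by omega), Nat.cast_one]
    push_cast at h4
    rw [h5] at h4
    exact h4
  rw [sum_add_distrib] at hsum
  linarith

end Pool.Agent.Lib.MP_22c8c7_co
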