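import Mathlib
import Pool.Agent.Lib.MP_22c8c7_co.Defs
import Pool.Agent.Lib.MP_22c8c7_co.Rec
import Pool.Agent.Lib.MP_22c8c7_co.KST
import Pool.Agent.Lib.MP_22c8c7_co.MaxCyc

set_option autoImplicit false

namespace Pool.Agent.Lib.MP_22c8c7_co

open Finset
open scoped Classical

theorem CycIn.mono {V : Type*} {r : V → V → Prop} {S T : Finset V} {c : ℕ → V} {k : ℕ}
    (h : CycIn r S c k) (hST : S ⊆ T) : CycIn r T c k :=
  ⟨⟨fun i hi => hST (h.1.1 i hi), h.1.2.1, h.1.2.2⟩, h.2⟩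

theorem Cyc.card_le {V : Type*} {r : V → V → Prop} {S : Finset V} {m : ℕ} [NeZero m]
    {x : ZMod m → V} (h : Cyc r S m x) : m ≤ S.card := by
  have h1 : (univ.image x).card = m := by
    rw [Finset.card_image_of_injective _ h.inj, Finset.card_univ, ZMod.card]
  rw [← h1]
  refine Finset.card_le_card ?_
  intro v hv
  obtain ⟨i, -, rfl⟩ := Finset.mem_image.1 hv
  exact h.mem i

/-- Graphs without a cycle of length 8. -/
theorem short_bound {V : Type*} (r : V → V → Prop) (hs : ∀ a b, r a b → r b a)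
    (hi : ∀ a, ¬ r a a) (S : Finset V) (hno : ∀ c, ¬ CycIn r S c 8) :
    (ds r S : ℝ) ≤ 2 * (6 * S.card + (S.card : ℝ) ^ 2 / 8) := by
  induction' hN : S.card using Nat.strong_induction_on with N ih generalizing S
  rcases max_cyc r S 8 4 (by decide) (by decide) (by norm_num) hno with h4 | ⟨m, hme, hm4, hm8, ⟨c, hc⟩, hno2⟩
  · have := no_four r hs hi S h4
    rw [hN] at this
    exact this
  · have hm2 : 2 ≤ m := by omega
    haveI : NeZero m := ⟨by omega⟩
    obtain ⟨x, hx⟩ := cyc_of_cycIn r S m hm2 c hc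
    have hcard := hx.card_le
    obtain ⟨M, hM⟩ : ∃ M, S.card = M + m := ⟨S.card - m, by omega⟩
    have hM0 : (0 : ℝ) ≤ M := Nat.cast_nonneg _
    have hg : ∀ B ⊆ S, B.card ≤ M → (ds r B : ℝ) ≤ 2 * (6 + (M : ℝ) / 8) * B.card := by
      intro B hB hBM
      have h1 := ih B.card (by omega) B (fun c' hc' => hno c' (hc'.mono hB)) rfl
      have h2 : (B.card : ℝ) ≤ M := by exact_mod_cast hBM
      have h3 : (0 : ℝ) ≤ B.card := Nat.cast_nonneg _
      nlinarith [mul_nonneg h3 (sub_nonneg.2 h2)]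
    have hm6 : m = 4 ∨ m = 6 := by
      obtain ⟨k, hk⟩ := hme
      omega
    have hrec := rec_step r hs hi S m hm2 hme x hx hno2 M hM (6 + (M : ℝ) / 8) (by
      rcases hm6 with h | h <;> (rw [h]; push_cast; linarith)) hg
    have hpos : (0 : ℝ) < 6 + (M : ℝ) / 8 + 1 := by linarith
    have hNM : (N : ℝ) = M + m := by rw [← hN, hM]; push_cast; ring
    rw [hNM]
    refine hrec.trans ?_
    rcases hm6 with h | h
    · have hmr : (m : ℝ) = 4 := by rw [h]; norm_num
      rw [hmr]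
      have h1 : (M : ℝ) * (4 - 2) / (6 + (M : ℝ) / 8 + 1) ≤ 16 := by
        rw [div_le_iff₀ hpos]; linarith
      nlinarith
    · have hmr : (m : ℝ) = 6 := by rw [h]; norm_num
      rw [hmr]
      have h1 : (M : ℝ) * (6 - 2) / (6 + (M : ℝ) / 8 + 1) ≤ M / 2 + 39 / 2 := by
        rw [div_le_iff₀ hpos]; nlinarith
      nlinarith

end Pool.Agent.Lib.MP_22c8c7_co
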