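import Mathlib
import Pool.Agent.Lib.MP_22c8c7_co.Defs
import Pool.Agent.Lib.MP_22c8c7_co.Short

set_option autoImplicit false

namespace Pool.Agent.Lib.MP_22c8c7_co

open Finset
open scoped Classical

/-- The bound for graphs without `C_8` is below `Phi n` for `N ≤ 4 n`. -/
theorem short_le_Phi (n N : ℕ) (hn : 12 ≤ n) (hN : N ≤ 4 * n) :
    6 * (N : ℝ) + (N : ℝ) ^ 2 / 8 ≤ Phi n N := by
  have hn' : (12 : ℝ) ≤ n := by exact_mod_cast hn
  have hN' : (N : ℝ) ≤ 4 * n := by exact_mod_cast hN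
  have hN0 : (0 : ℝ) ≤ N := Nat.cast_nonneg _
  have hpos : (0 : ℝ) < n := by linarith
  have h : Phi n N - (6 * (N : ℝ) + (N : ℝ) ^ 2 / 8) =
      N * (n - 12) * (4 * n - N) / (8 * n) := by
    unfold Phi
    field_simp
    ring
  have h2 : 0 ≤ (N : ℝ) * (n - 12) * (4 * n - N) / (8 * n) := by
    apply div_nonneg
    · exact mul_nonneg (mul_nonneg hN0 (by linarith)) (by linarith)
    · linarith
  linarith

/-- The arithmetic of the recursion. -/
theorem arith (n m M : ℝ) (hm : 8 ≤ m) (hmn : m + 2 ≤ n) (hM : 0 ≤ M) (hMn : M + m ≤ 4 * n) :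
    m * (m - 1) + 2 * ((n / 2 + 3 * M / (2 * n) + 1) * M +
      M * (m - 2) / (n / 2 + 3 * M / (2 * n) + 1) + m) ≤
    2 * (n * (M + m) / 2 + 3 * (M + m) ^ 2 / (2 * n)) := by
  have hn : 0 < n := by linarith
  have hq : 0 ≤ 3 * M / (2 * n) := by positivity
  have hg : (n + 2) / 2 ≤ n / 2 + 3 * M / (2 * n) + 1 := by linarith
  have hdiv : M * (m - 2) / (n / 2 + 3 * M / (2 * n) + 1) ≤ 2 * (M * (m - 2)) / (n + 2) := by
    rw [div_le_div_iff₀ (by linarith) (by linarith)]
    have h1 : 0 ≤ M * (m - 2) := mul_nonneg hM (by linarith)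
    nlinarith [mul_le_mul_of_nonneg_left hg h1]
  -- the linear function of `M`
  have key : 0 ≤ n * m / 2 + 3 * m * M / n + 3 * m ^ 2 / (2 * n) - m * (m + 1) / 2 - M -
      2 * (M * (m - 2)) / (n + 2) := by
    have h0 : 0 ≤ n * m / 2 + 3 * m ^ 2 / (2 * n) - m * (m + 1) / 2 := by
      have h1 : 0 ≤ 3 * m ^ 2 / (2 * n) := by positivity
      nlinarith
    by_cases hc : 0 ≤ 3 * m / n - 1 - 2 * (m - 2) / (n + 2)
    · have h2 := mul_nonneg hM hc
      have h3 : M * (3 * m / n - 1 - 2 * (m - 2) / (n + 2)) =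
          3 * m * M / n - M - 2 * (M * (m - 2)) / (n + 2) := by
        field_simp
      linarith
    · rw [not_le] at hc
      have h2 : (4 * n - m) * (3 * m / n - 1 - 2 * (m - 2) / (n + 2)) ≤
          M * (3 * m / n - 1 - 2 * (m - 2) / (n + 2)) :=
        mul_le_mul_of_nonpos_right (by linarith) hc.le
      have h3 : M * (3 * m / n - 1 - 2 * (m - 2) / (n + 2)) =
          3 * m * M / n - M - 2 * (M * (m - 2)) / (n + 2) := by
        field_simp
      have h4 : (4 * n - m) * (2 * (m - 2) / (n + 2)) ≤ 8 * (m - 2) := by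
        rw [mul_div_assoc', div_le_iff₀ (by linarith)]
        nlinarith [mul_nonneg (show (0:ℝ) ≤ m - 2 by linarith) (show (0:ℝ) ≤ m by linarith)]
      have h5 : (4 * n - m) * (3 * m / n) = 12 * m - 3 * m ^ 2 / n := by
        field_simp
        ring
      have h6 : 3 * m ^ 2 / (2 * n) ≤ 3 * m / 2 - 3 * m / n := by
        rw [div_le_iff₀ (by linarith)]
        have : (3 * m / 2 - 3 * m / n) * (2 * n) = 3 * m * n - 6 * m := by
          field_simp
          ring
        rw [this]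
        nlinarith
      have h7 : 0 ≤ 3 * m / n := by positivity
      have h8 : 3 * m ^ 2 / n = 2 * (3 * m ^ 2 / (2 * n)) := by
        field_simp
      nlinarith [mul_nonneg (show (0:ℝ) ≤ n - 2 - m by linarith) (show (0:ℝ) ≤ m - 8 by linarith)]
  have hfin : 2 * (n * (M + m) / 2 + 3 * (M + m) ^ 2 / (2 * n)) -
      (m * (m - 1) + 2 * ((n / 2 + 3 * M / (2 * n) + 1) * M + 2 * (M * (m - 2)) / (n + 2) + m)) =
      2 * (n * m / 2 + 3 * m * M / n + 3 * m ^ 2 / (2 * n) - m * (m + 1) / 2 - M -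
      2 * (M * (m - 2)) / (n + 2)) := by
    field_simp
    ring
  linarith

/-- THE EXTREMAL THEOREM. -/
theorem main_bound {V : Type*} (r : V → V → Prop) (hs : ∀ a b, r a b → r b a)
    (hi : ∀ a, ¬ r a a) (n : ℕ) (hn : 12 ≤ n) (hne : Even n) (S : Finset V)
    (hS : S.card ≤ 4 * n) (hno : ∀ c, ¬ CycIn r S c n) :
    (ds r S : ℝ) ≤ 2 * Phi n S.card := by
  induction' hN : S.card using Nat.strong_induction_on with N ih generalizing S
  have hn' : (12 : ℝ) ≤ n := by exact_mod_cast hn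
  have hnpos : (0 : ℝ) < n := by linarith
  rcases max_cyc r S n 8 hne (by decide) (by omega) hno with h8 | ⟨m, hme, hm8, hmn, ⟨c, hc⟩, hno2⟩
  · have h1 := short_bound r hs hi S h8
    have h2 := short_le_Phi n S.card hn hS
    rw [← hN]
    linarith
  · have hm2 : 2 ≤ m := by omega
    have : NeZero m := ⟨by omega⟩
    obtain ⟨x, hx⟩ := cyc_of_cycIn r S m hm2 c hc
    have hcard := hx.card_le
    obtain ⟨M, hM⟩ : ∃ M, S.card = M + m := ⟨S.card - m, by omega⟩
    have hM0 : (0 : ℝ) ≤ M := Nat.cast_nonneg _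
    have hg : ∀ B ⊆ S, B.card ≤ M →
        (ds r B : ℝ) ≤ 2 * ((n : ℝ) / 2 + 3 * M / (2 * n)) * B.card := by
      intro B hB hBM
      have h1 := ih B.card (by omega) B (by omega) (fun c' hc' => hno c' (hc'.mono hB)) rfl
      have h2 : (B.card : ℝ) ≤ M := by exact_mod_cast hBM
      have h3 : (0 : ℝ) ≤ B.card := Nat.cast_nonneg _
      refine h1.trans ?_
      unfold Phi
      have h4 : 3 * (B.card : ℝ) ^ 2 / (2 * n) ≤ 3 * M / (2 * n) * B.card := by
        rw [div_mul_eq_mul_div]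
        apply div_le_div_of_nonneg_right _ (by linarith)
        nlinarith [mul_nonneg h3 (sub_nonneg.2 h2)]
      nlinarith
    have hmr : (8 : ℝ) ≤ m := by exact_mod_cast hm8
    have hmnr : (m : ℝ) + 2 ≤ n := by exact_mod_cast hmn
    have hq : 0 ≤ 3 * (M : ℝ) / (2 * n) := by positivity
    have hrec := rec_step r hs hi S m hm2 hme x hx hno2 M hM ((n : ℝ) / 2 + 3 * M / (2 * n))
      (by linarith) hg
    have hNM : (N : ℝ) = M + m := by rw [← hN, hM]; push_cast; ring
    have hMn : (M : ℝ) + m ≤ 4 * n := by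
      have : M + m ≤ 4 * n := by omega
      exact_mod_cast this
    refine hrec.trans ?_
    unfold Phi
    rw [hNM]
    exact arith n m M hmr hmnr hM0 hMn

end Pool.Agent.Lib.MP_22c8c7_co
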