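import Mathlib
import Pool.Agent.Lib.MP_22c8c7_co.Defs
import Pool.Agent.Lib.MP_22c8c7_co.Main

set_option autoImplicit false

namespace Pool.Agent.Lib.MP_22c8c7_co

open Finset
open scoped Classical

/-- From a closed path to a cyclic map. -/
theorem fin_of_cycIn {V : Type*} (r : V → V → Prop) (S : Finset V) (n : ℕ) (hn : 2 ≤ n)
    (c : ℕ → V) (hc : CycIn r S c n) : ∃ f : Fin n → V, Function.Injective f ∧
      ∀ i j : Fin n, j.val = (i.val + 1) % n → r (f i) (f j) := by
  refine ⟨fun i => c i.val, ?_, ?_⟩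
  · intro i j hij
    exact Fin.ext (hc.1.2.1 i.val i.isLt j.val j.isLt hij)
  · intro i j hij
    by_cases h : i.val + 1 < n
    · rw [Nat.mod_eq_of_lt h] at hij
      show r (c i.val) (c j.val)
      rw [hij]
      exact hc.1.2.2 i.val h
    · have h1 : i.val + 1 = n := by have := i.isLt; omega
      rw [h1, Nat.mod_self] at hij
      show r (c i.val) (c j.val)
      rw [hij, show i.val = n - 1 by omega]
      exact hc.2

/-- The extremal theorem for graphs. -/
theorem graph_bound (n : ℕ) (hn : 12 ≤ n) (hne : Even n) (V : Type*) [Fintype V]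
    (G : SimpleGraph V) (hV : Fintype.card V ≤ 4 * n)
    (hE : (n : ℝ) * Fintype.card V / 2 + 3 * (Fintype.card V : ℝ) ^ 2 / (2 * n) <
      (Nat.card G.edgeSet : ℝ)) :
    ∃ f : Fin n → V, Function.Injective f ∧
      ∀ i j : Fin n, j.val = (i.val + 1) % n → G.Adj (f i) (f j) := by
  by_contra hcon
  have hno : ∀ c, ¬ CycIn G.Adj (univ : Finset V) c n := by
    intro c hc
    exact hcon (fin_of_cycIn G.Adj univ n (by omega) c hc)
  have h1 := main_bound G.Adj (fun a b h => h.symm) (fun a => G.loopless.irrefl a) n hn hne univ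
    (by rw [Finset.card_univ]; exact hV) hno
  have h2 : ds G.Adj (univ : Finset V) = 2 * Nat.card G.edgeSet := by
    have h3 := G.sum_degrees_eq_twice_card_edges
    rw [Nat.card_eq_fintype_card, ← SimpleGraph.edgeFinset_card, ← h3]
    unfold ds dg
    refine Finset.sum_congr rfl fun v _ => ?_
    rw [← SimpleGraph.card_neighborFinset_eq_degree]
    congr 1
    ext u
    simp
  rw [h2, Finset.card_univ] at h1
  unfold Phi at h1
  push_cast at h1
  linarith

/-- The Ramsey theorem. -/
theorem ramsey (n : ℕ) (hn : 38 ≤ n) (hne : Even n) (N : ℕ) (hN : 3 * n + 37 ≤ N)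
    (c : Fin N → Fin N → Fin 3) (hc : ∀ a b : Fin N, c a b = c b a) :
    ∃ k : Fin 3, ∃ f : Fin n → Fin N, Function.Injective f ∧
      ∀ i j : Fin n, j.val = (i.val + 1) % n → c (f i) (f j) = k := by
  by_contra hcon
  obtain ⟨S, -, hS⟩ := Finset.exists_subset_card_eq (s := (univ : Finset (Fin N)))
    (n := 3 * n + 37) (by rw [Finset.card_univ, Fintype.card_fin]; exact hN)
  let r : Fin 3 → Fin N → Fin N → Prop := fun k a b => a ≠ b ∧ c a b = k
  have hb : ∀ k, (ds (r k) S : ℝ) ≤ 2 * Phi n S.card := by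
    intro k
    refine main_bound (r k) (fun a b h => ⟨h.1.symm, by rw [hc b a]; exact h.2⟩)
      (fun a h => h.1 rfl) n (by omega) hne S (by omega) ?_
    intro z hz
    obtain ⟨f, hf, hf2⟩ := fin_of_cycIn (r k) S n (by omega) z hz
    exact hcon ⟨k, f, hf, fun i j hij => (hf2 i j hij).2⟩
  have hsum : ∑ k : Fin 3, ds (r k) S = S.card * (S.card - 1) := by
    unfold ds
    rw [Finset.sum_comm]
    rw [Finset.sum_congr rfl (g := fun _ => S.card - 1), Finset.sum_const, smul_eq_mul]
    intro v hv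
    unfold dg
    rw [← Finset.card_erase_of_mem hv]
    have hfib := Finset.card_eq_sum_card_fiberwise (f := fun u => c v u) (s := S.erase v)
      (t := (univ : Finset (Fin 3))) (by intro u _; simp)
    rw [hfib]
    refine Finset.sum_congr rfl fun k _ => ?_
    congr 1
    ext u
    simp only [r, Finset.mem_filter, Finset.mem_erase]
    constructor
    · rintro ⟨h1, h2, h3⟩
      exact ⟨⟨fun h => h2 h.symm, h1⟩, h3⟩
    · rintro ⟨⟨h1, h2⟩, h3⟩
      exact ⟨h2, fun h => h1 h.symm, h3⟩
  have hsumR : ((S.card : ℝ) * (S.card - 1)) ≤ 6 * Phi n S.card := by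
    have h1 : ((∑ k : Fin 3, ds (r k) S : ℕ) : ℝ) ≤ ∑ k : Fin 3, 2 * Phi n S.card := by
      push_cast
      exact Finset.sum_le_sum fun k _ => hb k
    rw [hsum] at h1
    have h2 : ((S.card * (S.card - 1) : ℕ) : ℝ) = (S.card : ℝ) * (S.card - 1) := by
      rw [Nat.cast_mul, Nat.cast_sub (by omega)]
      simp
    rw [h2] at h1
    simp only [Finset.sum_const, Finset.card_univ, Fintype.card_fin, nsmul_eq_mul] at h1
    push_cast at h1
    linarith
  have hn' : (38 : ℝ) ≤ n := by exact_mod_cast hn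
  have hSr : (S.card : ℝ) = 3 * n + 37 := by rw [hS]; push_cast; ring
  rw [hSr] at hsumR
  unfold Phi at hsumR
  rw [hS] at hsumR
  push_cast at hsumR
  have hpos : (0 : ℝ) < n := by linarith
  have h5 : 3 * (3 * (n : ℝ) + 37) ^ 2 / (2 * n) < (3 * n + 37) * 6 := by
    rw [div_lt_iff₀ (by linarith)]
    nlinarith
  nlinarith

end Pool.Agent.Lib.MP_22c8c7_co
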