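import Mathlib
import Pool.Agent.Lib.MP_22c8c7_co.Defs

/-!
# MP_22c8c7_co, phase 2: `R(C_n; 3) ≤ 4 n - 3` for ALL even `n ≥ 10`

`S` is a finite vertex set, `x : ZMod m → V` an `m`-cycle in `S` (`m` even), there is no closed path
with `m + 2` vertices in `S`; `C = univ.image x`, `Y = S \ C`, `wt r m x y` (weight) is the number of
neighbours of `y` on the cycle.
-/

set_option autoImplicit false

namespace Pool.Agent.Lib.MP_22c8c7_co

open Finset
open scoped Classical

/-- The adjacent pairs whose ends have total weight at least 2. -/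
def FH {V : Type*} (r : V → V → Prop) (m : ℕ) [NeZero m] (x : ZMod m → V) (a b : V) : Prop :=
  r a b ∧ 2 ≤ wt r m x a + wt r m x b

/-- The vertices of `Y` of weight 0. -/
noncomputable def Zs {V : Type*} (r : V → V → Prop) (m : ℕ) [NeZero m] (x : ZMod m → V)
    (Y : Finset V) : Finset V := Y.filter (fun y => wt r m x y = 0)

/-- The number of neighbours of weight 0 in `Y`. -/
noncomputable def dz {V : Type*} (r : V → V → Prop) (m : ℕ) [NeZero m] (x : ZMod m → V)
    (Y : Finset V) (y : V) : ℕ := dg r (Zs r m x Y) y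

/-- The first cost. -/
noncomputable def c1 {V : Type*} (r : V → V → Prop) (m : ℕ) [NeZero m] (x : ZMod m → V)
    (Y : Finset V) (y : V) : ℕ :=
  if wt r m x y = 0 then 0 else if wt r m x y = 1 then dg r Y y + 1 - dz r m x Y y
    else wt r m x y * (dg r Y y + 1)

/-- The second cost (truncated subtraction). -/
noncomputable def c2 {V : Type*} (r : V → V → Prop) (m : ℕ) [NeZero m] (x : ZMod m → V)
    (Y : Finset V) (y : V) : ℕ :=
  if wt r m x y = 0 then 0 else if wt r m x y = 1 then dz r m x Y y + 1 - m / 2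
    else wt r m x y * (dz r m x Y y + 1) - m

/-- The number of neighbours of `y` at the positions of parity `s` of the cycle. -/
noncomputable def wp {V : Type*} (r : V → V → Prop) (m : ℕ) [NeZero m] (x : ZMod m → V)
    (s : ℕ) (y : V) : ℕ := ((J r m x y).filter (fun i => i.val % 2 = s)).card

/-- Adjacency between the set `P` and the vertices of weight 0. -/
def PZ {V : Type*} (r : V → V → Prop) (m : ℕ) [NeZero m] (x : ZMod m → V) (P : Finset V)
    (a b : V) : Prop :=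
  r a b ∧ ((a ∈ P ∧ wt r m x b = 0 ∧ b ∉ P) ∨ (b ∈ P ∧ wt r m x a = 0 ∧ a ∉ P))

/-- The dual inequalities for all types of vertices `(w, d, d₀)`: weight `w ≤ cap`, degree `d` in
`Y`, `d₀` neighbours of weight 0. The index `a` is for `d ≤ t` (these vertices count `w + d`, bound
`PX`), the index `b` for `d > t` (these count `w`, bound `PY`). Only `w + d ≥ δ + 1` occurs. If
`II = true` then a vertex of weight at least 2 has only neighbours of weight 0 in `Y`. -/
structure Ty (m δ t cap : ℕ) (II : Bool) (q p1 p2 PX PY : ℕ) : Prop where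
  a0 : ∀ d, d ≤ t → δ + 1 ≤ d → q * d + p1 * m + p2 * m ≤ PX
  a1 : 1 ≤ cap → ∀ d, d ≤ t → δ ≤ d → ∀ e, e ≤ d →
    q * (1 + d) + p1 * m ≤ PX + p1 * (d + 1 - e) + p2 * (e + 1 - m / 2)
  a2 : ∀ w, 2 ≤ w → w ≤ cap → ∀ d, d ≤ t → δ + 1 ≤ w + d →
    q * (w + d) + p1 * m ≤ PX + p1 * (w * (d + 1)) + p2 * (if II then w * (d + 1) - m else 0)
  b0 : p1 * m + p2 * m ≤ PY
  b1 : 1 ≤ cap → ∀ d, t < d → δ ≤ d → ∀ e, e ≤ d →
    q + p1 * m ≤ PY + p1 * (d + 1 - e) + p2 * (e + 1 - m / 2)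
  b2 : ∀ w, 2 ≤ w → w ≤ cap → ∀ d, t < d → δ + 1 ≤ w + d →
    q * w + p1 * m ≤ PY + p1 * (w * (d + 1)) + p2 * (if II then w * (d + 1) - m else 0)

/-- The final inequality, no exceptional vertex. -/
def LinN (m M δ t : ℕ) (II : Bool) (core : ℕ) (E : ℕ → ℕ) (F : ℕ) : Prop :=
  ∀ a, a ≤ M → ∃ q p1 p2 PX PY : ℕ, 0 < q ∧ Ty m δ t (m / 2) II q p1 p2 PX PY ∧
    q * (core + E (M - a)) + a * PX + (M - a) * PY < q * (F + 1)

/-- The final inequality with an exceptional vertex of weight `w0 > m / 2` and degree `D` in `Y`. -/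
def LinE (m M δ t w0 : ℕ) (II : Bool) (core : ℕ) (E : ℕ → ℕ) (F : ℕ) : Prop :=
  ∀ a, a + 1 ≤ M → ∃ q p1 p2 PX PY : ℕ, 0 < q ∧ Ty m δ t (m + 1 - w0) II q p1 p2 PX PY ∧
    ∀ D, δ + 1 ≤ w0 + D →
      q * (core + min (E (M - a)) (E (M - 1 - a) + D)) + a * PX + (M - 1 - a) * PY + p1 * m <
        q * (F + 1) + p1 * (w0 * (D + 1))

/-- All hypotheses of the recursion step (`m` even, `|S| = m + M`, minimum degree `≥ δ + 1`).
`cI`, `cII` are `m (m - 1) / 2 - (m - 3)` and `m (m - 1) / 2`. -/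
structure StepHyp (m M δ t : ℕ) (E : ℕ → ℕ) (F : ℕ) : Prop where
  nI : LinN m M δ t false (m * (m - 1) / 2 - (m - 3)) E F
  nII : LinN m M δ t true (m * (m - 1) / 2) E F
  eI : ∀ w0, m / 2 + 1 ≤ w0 → w0 ≤ m →
    LinE m M δ t w0 false (min (m * (m - 1) / 2 - (m - 3) + w0) (m * (m - 1) / 2 + 2)) E F
  eII : ∀ w0, m / 2 + 1 ≤ w0 → w0 ≤ m → LinE m M δ t w0 true (m * (m - 1) / 2 + 2) E F
  good : m * (m + 1) / 2 + E (M - 1) + (M - 1) ≤ F

/-- Every set of `N` vertices without a closed path of `n` vertices spans at most `F` edges. -/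
def Good {V : Type*} (r : V → V → Prop) (n N F : ℕ) : Prop :=
  ∀ S : Finset V, S.card = N → (∀ c, ¬ CycIn r S c n) → ds r S ≤ 2 * F

end Pool.Agent.Lib.MP_22c8c7_co
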