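import Mathlib
import Pool.Agent.Lib.MP_22c8c7_co.P2Defs

/-! # The computable checker of the recursion tables -/

set_option autoImplicit false

namespace Pool.Agent.Lib.MP_22c8c7_co

/-- `p 0, ..., p (n-1)` all hold -/
noncomputable def allB (n : ℕ) (p : ℕ → Bool) : Bool :=
  Nat.rec true (fun k ih => p k && ih) n

theorem allB_sound (n : ℕ) (p : ℕ → Bool) (h : allB n p = true) : ∀ k, k < n → p k = true := by
  induction n with
  | zero => intro k hk; omega
  | succ n ih =>
    intro k hk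
    have h' : (p n && allB n p) = true := h
    rw [Bool.and_eq_true] at h'
    rcases Nat.lt_succ_iff_lt_or_eq.1 hk with h1 | h1
    · exact ih h'.2 k h1
    · rw [h1]; exact h'.1

/-- the entry `i` of a table encoded in base `2 ^ 16` -/
def ev (T i : ℕ) : ℕ := (T >>> (16 * i)) % 65536

/-- check of `Ty` -/
noncomputable def tyChk (m δ t cap : ℕ) (II : Bool) (q p1 p2 PX PY : ℕ) : Bool :=
  Nat.ble p1 q &&
  (Nat.ble t δ || Nat.ble (q * t + p1 * m + p2 * m) PX) &&
  (Nat.blt t δ || allB (t + 1) (fun e =>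
    Nat.ble (q * (1 + t) + p1 * m) (PX + p1 * (t + 1 - e) + p2 * (e + 1 - m / 2)))) &&
  allB (cap + 1) (fun w => Nat.ble w 1 || allB (t + 1) (fun d => Nat.ble (w + d) δ ||
    Nat.ble (q * (w + d) + p1 * m)
      (PX + p1 * (w * (d + 1)) + p2 * (bif II then w * (d + 1) - m else 0)))) &&
  Nat.ble (p1 * m + p2 * m) PY &&
  allB (max (t + 1) δ + 1) (fun e =>
    Nat.ble (q + p1 * m) (PY + p1 * (max (t + 1) δ + 1 - e) + p2 * (e + 1 - m / 2))) &&
  allB (cap + 1) (fun w => Nat.ble w 1 ||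
    Nat.ble (q * w + p1 * m) (PY + p1 * (w * (max (t + 1) (δ + 1 - w) + 1)) +
      p2 * (bif II then w * (max (t + 1) (δ + 1 - w) + 1) - m else 0)))

theorem tyChk_sound (m δ t cap : ℕ) (II : Bool) (q p1 p2 PX PY : ℕ)
    (h : tyChk m δ t cap II q p1 p2 PX PY = true) : Ty m δ t cap II q p1 p2 PX PY := by
  unfold tyChk at h
  simp only [Bool.and_eq_true, Bool.or_eq_true, Nat.ble_eq, Nat.blt_eq] at h
  obtain ⟨⟨⟨⟨⟨⟨h1, h2⟩, h3⟩, h4⟩, h5⟩, h6⟩, h7⟩ := h
  have h4' := allB_sound _ _ h4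
  have h6' := allB_sound _ _ h6
  have h7' := allB_sound _ _ h7
  simp only [Bool.or_eq_true, Nat.ble_eq] at h4' h6' h7'
  refine ⟨?_, ?_, ?_, h5, ?_, ?_⟩
  · intro d hd hδ
    rcases h2 with h2 | h2
    · omega
    · have : q * d ≤ q * t := Nat.mul_le_mul_left q hd
      omega
  · intro _ d hd hδ e he
    rcases h3 with h3 | h3
    · omega
    · have h8 := allB_sound _ _ h3 e (by omega)
      simp only [Nat.ble_eq] at h8
      obtain ⟨g, rfl⟩ : ∃ g, t = d + g := ⟨t - d, by omega⟩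
      have e1 : d + g + 1 - e = (d + 1 - e) + g := by omega
      rw [e1] at h8
      have h9 : p1 * g ≤ q * g := Nat.mul_le_mul_right g h1
      have e2 : q * (1 + (d + g)) = q * (1 + d) + q * g := by ring
      have e3 : p1 * (d + 1 - e + g) = p1 * (d + 1 - e) + p1 * g := by ring
      rw [e2, e3] at h8
      omega
  · intro w hw hc d hd hδ
    rcases h4' w (by omega) with h8 | h8
    · omega
    · have h9 := allB_sound _ _ h8 d (by omega)
      simp only [Bool.or_eq_true, Nat.ble_eq] at h9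
      rcases h9 with h9 | h9
      · omega
      · cases II
        · simpa using h9
        · simpa using h9
  · intro _ d hd hδ e he
    by_cases hc : e ≤ max (t + 1) δ
    · have h8 := h6' e (by omega)
      have h9 : p1 * (max (t + 1) δ + 1 - e) ≤ p1 * (d + 1 - e) := Nat.mul_le_mul_left _ (by omega)
      omega
    · have h8 := h6' (max (t + 1) δ) (by omega)
      have h9 : p1 * (max (t + 1) δ + 1 - max (t + 1) δ) ≤ p1 * (d + 1 - e) :=
        Nat.mul_le_mul_left _ (by omega)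
      have h10 : p2 * (max (t + 1) δ + 1 - m / 2) ≤ p2 * (e + 1 - m / 2) :=
        Nat.mul_le_mul_left _ (by omega)
      omega
  · intro w hw hc d hd hδ
    rcases h7' w (by omega) with h8 | h8
    · omega
    · have h9 : w * (max (t + 1) (δ + 1 - w) + 1) ≤ w * (d + 1) := Nat.mul_le_mul_left _ (by omega)
      have h10 : p1 * (w * (max (t + 1) (δ + 1 - w) + 1)) ≤ p1 * (w * (d + 1)) :=
        Nat.mul_le_mul_left _ h9
      cases II
      · simp only [cond_false, Bool.false_eq_true, if_false] at h8 ⊢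
        omega
      · simp only [cond_true, if_true] at h8 ⊢
        have h11 : p2 * (w * (max (t + 1) (δ + 1 - w) + 1) - m) ≤ p2 * (w * (d + 1) - m) :=
          Nat.mul_le_mul_left _ (by omega)
        omega

/-- a dual vector `(p1, p2, PX, PY)` -/
abbrev Lam := ℕ × ℕ × ℕ × ℕ

/-- check of `LinN` -/
noncomputable def linNChk (m M δ t : ℕ) (II : Bool) (q core T F : ℕ) (L : List Lam) : Bool :=
  L.all (fun l => tyChk m δ t (m / 2) II q l.1 l.2.1 l.2.2.1 l.2.2.2) &&
  allB (M + 1) (fun a => L.any (fun l =>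
    Nat.blt (q * (core + ev T (M - a)) + a * l.2.2.1 + (M - a) * l.2.2.2) (q * (F + 1))))

theorem linNChk_sound (m M δ t : ℕ) (II : Bool) (q core T F : ℕ) (L : List Lam) (hq : 0 < q)
    (h : linNChk m M δ t II q core T F L = true) : LinN m M δ t II core (ev T) F := by
  unfold linNChk at h
  rw [Bool.and_eq_true, List.all_eq_true] at h
  intro a ha
  have h2 := allB_sound _ _ h.2 a (by omega)
  rw [List.any_eq_true] at h2
  obtain ⟨l, hl, h3⟩ := h2
  rw [Nat.blt_eq] at h3
  exact ⟨q, l.1, l.2.1, l.2.2.1, l.2.2.2, hq, tyChk_sound _ _ _ _ _ _ _ _ _ _ (h.1 l hl), h3⟩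

/-- the final inequality of `LinE` at `D` -/
def condE (m M w0 q core T F a D : ℕ) (l : Lam) : Bool :=
  Nat.blt (q * (core + min (ev T (M - a)) (ev T (M - 1 - a) + D)) + a * l.2.2.1 +
    (M - 1 - a) * l.2.2.2 + l.1 * m) (q * (F + 1) + l.1 * (w0 * (D + 1)))

theorem condE_sound (m M w0 q core T F a d0 : ℕ) (l : Lam)
    (h1 : condE m M w0 q core T F a d0 l = true)
    (h2 : condE m M w0 q core T F a (max d0 (ev T (M - a) - ev T (M - 1 - a))) l = true)
    (D : ℕ) (hD : d0 ≤ D) :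
    q * (core + min (ev T (M - a)) (ev T (M - 1 - a) + D)) + a * l.2.2.1 +
      (M - 1 - a) * l.2.2.2 + l.1 * m < q * (F + 1) + l.1 * (w0 * (D + 1)) := by
  unfold condE at h1 h2
  rw [Nat.blt_eq] at h1 h2
  set E1 := ev T (M - a)
  set E2 := ev T (M - 1 - a)
  set R := a * l.2.2.1 + (M - 1 - a) * l.2.2.2 + l.1 * m with hR
  set Ds := max d0 (E1 - E2) with hDs
  by_cases hc : Ds ≤ D
  · have e1 : min E1 (E2 + D) = E1 := by omega
    have e2 : min E1 (E2 + Ds) = E1 := by omega
    rw [e1]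
    rw [e2] at h2
    have h3 : l.1 * (w0 * (Ds + 1)) ≤ l.1 * (w0 * (D + 1)) :=
      Nat.mul_le_mul_left _ (Nat.mul_le_mul_left _ (by omega))
    omega
  · rw [not_le] at hc
    have hE : E2 + Ds = E1 := by omega
    have e1 : min E1 (E2 + D) = E2 + D := by omega
    have e2 : min E1 (E2 + Ds) = E2 + Ds := by omega
    have e3 : min E1 (E2 + d0) = E2 + d0 := by omega
    rw [e1]
    rw [e2] at h2
    rw [e3] at h1
    obtain ⟨u, hu⟩ : ∃ u, D = d0 + u := ⟨D - d0, by omega⟩
    obtain ⟨v, hv⟩ : ∃ v, Ds = D + v := ⟨Ds - D, by omega⟩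
    rw [hv] at h2
    by_cases hk : q ≤ l.1 * w0
    · have h3 : q * u ≤ l.1 * w0 * u := Nat.mul_le_mul_right u hk
      rw [hu]
      have e4 : q * (core + (E2 + (d0 + u))) = q * (core + (E2 + d0)) + q * u := by ring
      have e5 : l.1 * (w0 * (d0 + u + 1)) = l.1 * (w0 * (d0 + 1)) + l.1 * w0 * u := by ring
      rw [e4, e5]
      omega
    · rw [not_le] at hk
      have h3 : l.1 * w0 * v ≤ q * v := Nat.mul_le_mul_right v hk.le
      have e4 : q * (core + (E2 + (D + v))) = q * (core + (E2 + D)) + q * v := by ring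
      have e5 : l.1 * (w0 * (D + v + 1)) = l.1 * (w0 * (D + 1)) + l.1 * w0 * v := by ring
      rw [e4, e5] at h2
      omega

/-- check of `LinE` -/
noncomputable def linEChk (m M δ t w0 : ℕ) (II : Bool) (q core T F : ℕ) (L : List Lam) : Bool :=
  L.all (fun l => tyChk m δ t (m + 1 - w0) II q l.1 l.2.1 l.2.2.1 l.2.2.2) &&
  allB M (fun a => L.any (fun l => condE m M w0 q core T F a (δ + 1 - w0) l &&
    condE m M w0 q core T F a (max (δ + 1 - w0) (ev T (M - a) - ev T (M - 1 - a))) l))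

theorem linEChk_sound (m M δ t w0 : ℕ) (II : Bool) (q core T F : ℕ) (L : List Lam) (hq : 0 < q)
    (h : linEChk m M δ t w0 II q core T F L = true) : LinE m M δ t w0 II core (ev T) F := by
  unfold linEChk at h
  rw [Bool.and_eq_true, List.all_eq_true] at h
  intro a ha
  have h2 := allB_sound _ _ h.2 a (by omega)
  rw [List.any_eq_true] at h2
  obtain ⟨l, hl, h3⟩ := h2
  rw [Bool.and_eq_true] at h3
  exact ⟨q, l.1, l.2.1, l.2.2.1, l.2.2.2, hq, tyChk_sound _ _ _ _ _ _ _ _ _ _ (h.1 l hl),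
    fun D hD => condE_sound m M w0 q core T F a (δ + 1 - w0) l h3.1 h3.2 D (by omega)⟩

/-- the certificate of one entry `(m, N)`: `δ`, `t`, the dual vectors of the cases `nI`, `nII` and
of the cases `eI`, `eII` for `w0 = m/2 + 1, ..., m` -/
abbrev Cert := ℕ × ℕ × List Lam × List Lam × List (List Lam × List Lam)

/-- the exceptional cases from `w0` on -/
noncomputable def excChk (m M δ t q T F : ℕ) (L : List (List Lam × List Lam)) : ℕ → Bool :=
  List.rec (fun w0 => Nat.blt m w0) (fun l _ ih w0 =>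
    linEChk m M δ t w0 false q (min (m * (m - 1) / 2 - (m - 3) + w0) (m * (m - 1) / 2 + 2)) T F l.1 &&
    linEChk m M δ t w0 true q (m * (m - 1) / 2 + 2) T F l.2 && ih (w0 + 1)) L

theorem excChk_sound (m M δ t q T F : ℕ) (hq : 0 < q) (L : List (List Lam × List Lam)) (w : ℕ)
    (h : excChk m M δ t q T F L w = true) : ∀ w0, w ≤ w0 → w0 ≤ m →
      LinE m M δ t w0 false (min (m * (m - 1) / 2 - (m - 3) + w0) (m * (m - 1) / 2 + 2)) (ev T) F ∧
      LinE m M δ t w0 true (m * (m - 1) / 2 + 2) (ev T) F := by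
  induction L generalizing w with
  | nil =>
    intro w0 h1 h2
    have h' : Nat.blt m w = true := h
    rw [Nat.blt_eq] at h'
    omega
  | cons l L ih =>
    intro w0 h1 h2
    have h' : (linEChk m M δ t w false q
      (min (m * (m - 1) / 2 - (m - 3) + w) (m * (m - 1) / 2 + 2)) T F l.1 &&
      linEChk m M δ t w true q (m * (m - 1) / 2 + 2) T F l.2 &&
      excChk m M δ t q T F L (w + 1)) = true := h
    rw [Bool.and_eq_true, Bool.and_eq_true] at h'
    rcases Nat.eq_or_lt_of_le h1 with h3 | h3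
    · rw [← h3]
      exact ⟨linEChk_sound _ _ _ _ _ _ _ _ _ _ _ hq h'.1.1,
        linEChk_sound _ _ _ _ _ _ _ _ _ _ _ hq h'.1.2⟩
    · exact ih (w + 1) h'.2 w0 h3 h2

/-- check of `StepHyp` and of the side conditions for the entry `N` -/
noncomputable def entryChk (m q T' T N : ℕ) (c : Cert) : Bool :=
  Nat.ble (ev T' N) (ev T N) &&
  Nat.ble (ev T (N - 1) + c.1) (ev T N) &&
  Nat.ble (m * (m + 1) / 2 + ev T (N - m - 1) + (N - m - 1)) (ev T N) &&
  linNChk m (N - m) c.1 c.2.1 false q (m * (m - 1) / 2 - (m - 3)) T (ev T N) c.2.2.1 &&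
  linNChk m (N - m) c.1 c.2.1 true q (m * (m - 1) / 2) T (ev T N) c.2.2.2.1 &&
  excChk m (N - m) c.1 c.2.1 q T (ev T N) c.2.2.2.2 (m / 2 + 1)

theorem entryChk_sound (m q T' T N : ℕ) (c : Cert) (hq : 0 < q)
    (h : entryChk m q T' T N c = true) :
    ev T' N ≤ ev T N ∧ ∃ δ t, ev T (N - 1) + δ ≤ ev T N ∧
      StepHyp m (N - m) δ t (ev T) (ev T N) := by
  unfold entryChk at h
  simp only [Bool.and_eq_true, Nat.ble_eq] at h
  obtain ⟨⟨⟨⟨⟨h1, h2⟩, h3⟩, h4⟩, h5⟩, h6⟩ := h
  have h7 := excChk_sound _ _ _ _ _ _ _ hq _ _ h6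
  exact ⟨h1, c.1, c.2.1, h2, linNChk_sound _ _ _ _ _ _ _ _ _ _ hq h4,
    linNChk_sound _ _ _ _ _ _ _ _ _ _ hq h5, fun w0 hw hw' => (h7 w0 hw hw').1,
    fun w0 hw hw' => (h7 w0 hw hw').2, h3⟩

/-- the certificates of the entries `N, N + 1, ...` -/
noncomputable def rowChk (m q T' T : ℕ) (L : List Cert) : ℕ → Bool :=
  List.rec (fun _ => true) (fun c _ ih N => entryChk m q T' T N c && ih (N + 1)) L

theorem rowChk_sound (m q T' T : ℕ) (hq : 0 < q) (L : List Cert) (N0 : ℕ)
    (h : rowChk m q T' T L N0 = true) : ∀ N, N0 ≤ N → N < N0 + L.length →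
      ev T' N ≤ ev T N ∧ ∃ δ t, ev T (N - 1) + δ ≤ ev T N ∧
        StepHyp m (N - m) δ t (ev T) (ev T N) := by
  induction L generalizing N0 with
  | nil =>
    intro N h1 h2
    simp only [List.length_nil] at h2
    omega
  | cons c L ih =>
    intro N h1 h2
    have h' : (entryChk m q T' T N0 c && rowChk m q T' T L (N0 + 1)) = true := h
    rw [Bool.and_eq_true] at h'
    simp only [List.length_cons] at h2
    rcases Nat.eq_or_lt_of_le h1 with h3 | h3
    · rw [← h3]
      exact entryChk_sound _ _ _ _ _ _ hq h'.1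
    · exact ih (N0 + 1) h'.2 N h3 (by omega)

/-- the small entries -/
noncomputable def smallChk (m T : ℕ) : Bool := allB (m + 2) (fun N => Nat.ble (N * (N - 1)) (2 * ev T N))

theorem smallChk_sound (m T : ℕ) (h : smallChk m T = true) :
    ∀ N, N ≤ m + 1 → N * (N - 1) ≤ 2 * ev T N := by
  intro N hN
  have h1 := allB_sound _ _ h N (by omega)
  simpa using h1

end Pool.Agent.Lib.MP_22c8c7_co
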