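import Mathlib
import Pool.Agent.Lib.MP_22c8c7_co.P2Defs
import Pool.Agent.Lib.MP_22c8c7_co.Check

/-! # The simple checker (no parity, no gap; for the large `n`) -/

set_option autoImplicit false

namespace Pool.Agent.Lib.MP_22c8c7_co

/-- check of `Ty` with `p2 = 0` and `cap = m / 2` -/
noncomputable def tyS (m δ t q p1 PX PY : ℕ) : Bool :=
  Nat.ble p1 q &&
  (Nat.ble t δ || Nat.ble (q * t + p1 * m) PX) &&
  (Nat.blt t δ || Nat.ble (q * (1 + t) + p1 * m) (PX + p1)) &&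
  Nat.ble (p1 * m) PY &&
  Nat.ble (q + p1 * m) (PY + p1) &&
  allB (m / 2 + 1) (fun w => Nat.ble w 1 ||
    (Nat.ble (q * w + p1 * m) (PY + p1 * (w * (max (t + 1) (δ + 1 - w) + 1))) &&
      (Nat.ble (w + t) δ || (Nat.ble (q * (w + t) + p1 * m) (PX + p1 * (w * (t + 1))) &&
        Nat.ble (q * (w + (δ + 1 - w)) + p1 * m) (PX + p1 * (w * (δ + 1 - w + 1)))))))

theorem tyS_sound (m δ t q p1 PX PY cap : ℕ) (II : Bool) (hcap : cap ≤ m / 2)
    (h : tyS m δ t q p1 PX PY = true) : Ty m δ t cap II q p1 0 PX PY := by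
  unfold tyS at h
  simp only [Bool.and_eq_true, Bool.or_eq_true, Nat.ble_eq, Nat.blt_eq] at h
  obtain ⟨⟨⟨⟨⟨h1, h2⟩, h3⟩, h4⟩, h5⟩, h6⟩ := h
  have h6' := allB_sound _ _ h6
  simp only [Bool.or_eq_true, Bool.and_eq_true, Nat.ble_eq] at h6'
  refine ⟨?_, ?_, ?_, by omega, ?_, ?_⟩
  · intro d hd hδ
    rcases h2 with h2 | h2
    · omega
    · have : q * d ≤ q * t := Nat.mul_le_mul_left q hd
      omega
  · intro _ d hd hδ e he
    rcases h3 with h3 | h3
    · omega
    · have e1 : q * (1 + d) ≤ q * (1 + t) := Nat.mul_le_mul_left q (by omega)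
      have e2 : p1 * 1 ≤ p1 * (d + 1 - e) := Nat.mul_le_mul_left p1 (by omega)
      omega
  · intro w hw hc d hd hδ
    rcases h6' w (by omega) with h8 | ⟨-, h8⟩
    · omega
    · rcases h8 with h8 | ⟨h8, h9⟩
      · omega
      · rw [Nat.zero_mul, Nat.add_zero]
        by_cases hk : q ≤ p1 * w
        · obtain ⟨u, rfl⟩ : ∃ u, d = (δ + 1 - w) + u := ⟨d - (δ + 1 - w), by omega⟩
          have e1 : q * u ≤ p1 * w * u := Nat.mul_le_mul_right u hk
          have e2 : q * (w + (δ + 1 - w + u)) = q * (w + (δ + 1 - w)) + q * u := by ring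
          have e3 : p1 * (w * (δ + 1 - w + u + 1)) = p1 * (w * (δ + 1 - w + 1)) + p1 * w * u := by
            ring
          rw [e2, e3]
          omega
        · rw [not_le] at hk
          obtain ⟨u, rfl⟩ : ∃ u, t = d + u := ⟨t - d, by omega⟩
          have e1 : p1 * w * u ≤ q * u := Nat.mul_le_mul_right u hk.le
          have e2 : q * (w + (d + u)) = q * (w + d) + q * u := by ring
          have e3 : p1 * (w * (d + u + 1)) = p1 * (w * (d + 1)) + p1 * w * u := by ring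
          rw [e2, e3] at h8
          omega
  · intro _ d hd hδ e he
    have e2 : p1 * 1 ≤ p1 * (d + 1 - e) := Nat.mul_le_mul_left p1 (by omega)
    omega
  · intro w hw hc d hd hδ
    rcases h6' w (by omega) with h8 | ⟨h8, -⟩
    · omega
    · have h9 : w * (max (t + 1) (δ + 1 - w) + 1) ≤ w * (d + 1) := Nat.mul_le_mul_left _ (by omega)
      have h10 : p1 * (w * (max (t + 1) (δ + 1 - w) + 1)) ≤ p1 * (w * (d + 1)) :=
        Nat.mul_le_mul_left _ h9
      omega

/-- the certificate of one entry: `(δ, t, p1, PX, PY, zc)` -/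
abbrev CertS := ℕ × ℕ × ℕ × ℕ × ℕ × ℕ

/-- check of one entry -/
noncomputable def entryS (m q T' T N : ℕ) (c : CertS) : Bool :=
  Nat.ble (ev T' N) (ev T N) &&
  Nat.ble (ev T (N - 1) + c.1) (ev T N) &&
  Nat.ble (m * (m + 1) / 2 + ev T (N - m - 1) + (N - m - 1)) (ev T N) &&
  tyS m c.1 c.2.1 q c.2.2.1 c.2.2.2.1 c.2.2.2.2.1 &&
  allB (N - m + 1) (fun a => Nat.blt (q * (m * (m - 1) / 2 + ev T (N - m - a)) + a * c.2.2.2.1 +
    (N - m - a) * c.2.2.2.2.1) (q * (ev T N + 1))) &&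
  allB (N - m) (fun a => Nat.blt (q * (m * (m - 1) / 2 + 2 + ev T (N - m - a)) +
    a * c.2.2.2.1 + (N - m - 1 - a) * c.2.2.2.2.1 + c.2.2.1 * m)
      (q * (ev T N + 1) + c.2.2.1 * c.2.2.2.2.2)) &&
  allB (m + 1) (fun w => Nat.ble w (m / 2) || Nat.ble c.2.2.2.2.2 (w * (c.1 + 1 - w + 1)))

theorem entryS_sound (m q T' T N : ℕ) (c : CertS) (hq : 0 < q) (hm : 3 ≤ m) (hev : m % 2 = 0)
    (h : entryS m q T' T N c = true) :
    ev T' N ≤ ev T N ∧ ∃ δ t, ev T (N - 1) + δ ≤ ev T N ∧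
      StepHyp m (N - m) δ t (ev T) (ev T N) := by
  obtain ⟨δ, t, p1, PX, PY, zc⟩ := c
  unfold entryS at h
  simp only [Bool.and_eq_true, Nat.ble_eq] at h
  obtain ⟨⟨⟨⟨⟨⟨h1, h2⟩, h3⟩, h4⟩, h5⟩, h6⟩, h7⟩ := h
  have h5' := allB_sound _ _ h5
  have h6' := allB_sound _ _ h6
  have h7' := allB_sound _ _ h7
  simp only [Nat.blt_eq, Bool.or_eq_true, Nat.ble_eq] at h5' h6' h7'
  have hN : ∀ (II : Bool) (core : ℕ), core ≤ m * (m - 1) / 2 →
      LinN m (N - m) δ t II core (ev T) (ev T N) := by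
    intro II core hc a ha
    refine ⟨q, p1, 0, PX, PY, hq, tyS_sound _ _ _ _ _ _ _ _ II le_rfl h4, ?_⟩
    have h8 := h5' a (by omega)
    have h9 : q * (core + ev T (N - m - a)) ≤ q * (m * (m - 1) / 2 + ev T (N - m - a)) :=
      Nat.mul_le_mul_left q (by omega)
    omega
  have hE : ∀ (II : Bool) (core w0 : ℕ), core ≤ m * (m - 1) / 2 + 2 → m / 2 + 1 ≤ w0 → w0 ≤ m →
      LinE m (N - m) δ t w0 II core (ev T) (ev T N) := by
    intro II core w0 hc hw hw' a ha
    refine ⟨q, p1, 0, PX, PY, hq, tyS_sound _ _ _ _ _ _ _ _ II (by omega) h4, ?_⟩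
    intro D hD
    have h8 := h6' a (by omega)
    have h9 : q * (core + min (ev T (N - m - a)) (ev T (N - m - 1 - a) + D)) ≤
        q * (m * (m - 1) / 2 + 2 + ev T (N - m - a)) := Nat.mul_le_mul_left q (by omega)
    have h10 : zc ≤ w0 * (D + 1) := by
      rcases h7' w0 (by omega) with h11 | h11
      · omega
      · exact h11.trans (Nat.mul_le_mul_left _ (by omega))
    have h12 : p1 * zc ≤ p1 * (w0 * (D + 1)) := Nat.mul_le_mul_left _ h10
    omega
  refine ⟨h1, δ, t, h2, hN _ _ (by omega), hN _ _ le_rfl, ?_, ?_, h3⟩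
  · intro w0 hw hw'
    exact hE _ _ w0 (by omega) hw hw'
  · intro w0 hw hw'
    exact hE _ _ w0 le_rfl hw hw'

/-- the certificates of the entries `N, N + 1, ...` -/
noncomputable def rowS (m q T' T : ℕ) (L : List CertS) : ℕ → Bool :=
  List.rec (fun _ => true) (fun c _ ih N => entryS m q T' T N c && ih (N + 1)) L

theorem rowS_sound (m q T' T : ℕ) (hq : 0 < q) (hm : 3 ≤ m) (hev : m % 2 = 0)
    (L : List CertS) (N0 : ℕ)
    (h : rowS m q T' T L N0 = true) : ∀ N, N0 ≤ N → N < N0 + L.length →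
      ev T' N ≤ ev T N ∧ ∃ δ t, ev T (N - 1) + δ ≤ ev T N ∧
        StepHyp m (N - m) δ t (ev T) (ev T N) := by
  induction L generalizing N0 with
  | nil =>
    intro N h1 h2
    simp only [List.length_nil] at h2
    omega
  | cons c L ih =>
    intro N h1 h2
    have h' : (entryS m q T' T N0 c && rowS m q T' T L (N0 + 1)) = true := h
    rw [Bool.and_eq_true] at h'
    simp only [List.length_cons] at h2
    rcases Nat.eq_or_lt_of_le h1 with h3 | h3
    · rw [← h3]
      exact entryS_sound _ _ _ _ _ _ hq hm hev h'.1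
    · exact ih (N0 + 1) h'.2 N h3 (by omega)

end Pool.Agent.Lib.MP_22c8c7_co
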