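import Mathlib
import Pool.Agent.Lib.MP_22c8c7_co.P2Defs

set_option autoImplicit false

namespace Pool.Agent.Lib.MP_22c8c7_co

open Finset
open scoped Classical

private theorem gapPath_cast (m : ℕ) [NeZero m] {a b : ℕ} (ha : 1 ≤ a) (ha' : a ≤ m)
    (hb : 1 ≤ b) (hb' : b ≤ m) (h : (a : ZMod m) = (b : ZMod m)) : a = b := by
  rw [ZMod.natCast_eq_natCast_iff] at h
  rcases le_total a b with hab | hab
  · have h1 := (Nat.modEq_iff_dvd' hab).1 h
    have h2 := Nat.eq_zero_of_dvd_of_lt h1 (by omega)
    omega
  · have h1 := (Nat.modEq_iff_dvd' hab).1 h.symm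
    have h2 := Nat.eq_zero_of_dvd_of_lt h1 (by omega)
    omega

/-- the index of the closed path -/
private def gapPathC (s k t : ℕ) : ℕ := if t ≤ s then t else k + s - t

/-- the position on the cycle -/
private def gapPathE (l p k t : ℕ) : ℕ := if t < p then t + 1 else l - (t - p - k)

/-- the path around the cycle -/
private noncomputable def gapPathU {V : Type*} {l : ℕ} (x : ZMod l → V) (q : ℕ → V) (i : ZMod l)
    (p k t : ℕ) : V :=
  if p ≤ t ∧ t < p + k then q (t - p) else x (i + ((gapPathE l p k t : ℕ) : ZMod l))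

/-- Closing a path: if `z 0 ~ z (s+1)` and `z (k-1) ~ z s` then there is a closed path on the same
vertices.

PROOF. `c t = z t` for `t ≤ s` and `c t = z (k + s - t)` for `s < t < k`: the sequence
`z 0, ..., z s, z (k-1), z (k-2), ..., z (s+1)`. -/
theorem closing {V : Type*} (r : V → V → Prop) (hs : ∀ a b, r a b → r b a) (S : Finset V)
    (z : ℕ → V) (k : ℕ) (hz : PathIn r S z k) (s : ℕ) (hsk : s + 1 < k)
    (h1 : r (z 0) (z (s + 1))) (h2 : r (z (k - 1)) (z s)) : ∃ c, CycIn r S c k := by
  obtain ⟨hz1, hz2, hz3⟩ := hz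
  have hlt : ∀ t, t < k → gapPathC s k t < k := by
    intro t ht
    unfold gapPathC
    split_ifs <;> omega
  refine ⟨fun t => z (gapPathC s k t), ⟨fun t ht => hz1 _ (hlt t ht), ?_, ?_⟩, ?_⟩
  · intro a ha b hb hab
    have h3 := hz2 _ (hlt a ha) _ (hlt b hb) hab
    unfold gapPathC at h3
    split_ifs at h3 <;> omega
  · intro t ht
    show r (z (gapPathC s k t)) (z (gapPathC s k (t + 1)))
    rcases Nat.lt_trichotomy t s with h | h | h
    · have e1 : gapPathC s k t = t := by unfold gapPathC; rw [if_pos (by omega)]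
      have e2 : gapPathC s k (t + 1) = t + 1 := by unfold gapPathC; rw [if_pos (by omega)]
      rw [e1, e2]
      exact hz3 t ht
    · have e1 : gapPathC s k t = s := by unfold gapPathC; rw [if_pos (by omega)]; omega
      have e2 : gapPathC s k (t + 1) = k - 1 := by
        unfold gapPathC; rw [if_neg (by omega)]; omega
      rw [e1, e2]
      exact hs _ _ h2
    · have e1 : gapPathC s k t = gapPathC s k (t + 1) + 1 := by
        unfold gapPathC; rw [if_neg (by omega), if_neg (by omega)]; omega
      have e2 : gapPathC s k (t + 1) + 1 < k := by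
        rw [← e1]; exact hlt t (by omega)
      rw [e1]
      exact hs _ _ (hz3 _ e2)
  · show r (z (gapPathC s k (k - 1))) (z (gapPathC s k 0))
    have e1 : gapPathC s k (k - 1) = s + 1 := by
      unfold gapPathC; rw [if_neg (by omega)]; omega
    have e2 : gapPathC s k 0 = 0 := by unfold gapPathC; rw [if_pos (by omega)]
    rw [e1, e2]
    exact hs _ _ h1

/-- The path around the cycle `x` with the outer path `q` inserted.

PROOF. Let `p = (j - i).val`, `1 ≤ p < l` (`i ≠ j`), so `j = i + p`. Put
`U t = x (i + 1 + t)` for `t < p` (so `U (p-1) = x (i + p) = x j`), `U t = q (t - p)` for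
`p ≤ t < p + k`, and `U t = x (i - (t - p - k))` for `p + k ≤ t` (so `U (p+k) = x i` and
`U (l+k-1) = x (i - (l - p - 1)) = x (i + p + 1) = x (j + 1)`). The positions
`i + 1, ..., i + p` and `i, i - 1, ..., i - (l-p-1) = i + p + 1` are all different in `ZMod l`. -/
theorem gap_path {V : Type*} (r : V → V → Prop) (hs : ∀ a b, r a b → r b a) (S : Finset V)
    (l : ℕ) [NeZero l] (x : ZMod l → V) (hx : Cyc r S l x) (q : ℕ → V) (k : ℕ) (hk : 1 ≤ k)
    (hq : PathIn r S q k) (hqx : ∀ t, t < k → ∀ j, q t ≠ x j) (i j : ZMod l) (hij : i ≠ j)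
    (h0 : r (q 0) (x j)) (h1 : r (q (k - 1)) (x i)) :
    ∃ (U : ℕ → V) (p : ℕ), 1 ≤ p ∧ p < l ∧ PathIn r S U (l + k) ∧ U 0 = x (i + 1) ∧
      U (l + k - 1) = x (j + 1) ∧ (∀ t, t < p → U t ∈ univ.image x) ∧
      (∀ t, p ≤ t → t < p + k → U t = q (t - p)) ∧
      (∀ t, p + k ≤ t → t < l + k → U t ∈ univ.image x) := by
  obtain ⟨p, hpi, hpl⟩ : ∃ p : ℕ, (p : ZMod l) = j - i ∧ p < l :=
    ⟨(j - i).val, ZMod.natCast_zmod_val _, ZMod.val_lt _⟩
  have hp0 : p ≠ 0 := by
    rintro rfl
    apply hij
    rw [Nat.cast_zero] at hpi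
    exact (sub_eq_zero.1 hpi.symm).symm
  have hjp : i + (p : ZMod l) = j := by rw [hpi]; abel
  obtain ⟨hq1, hq2, hq3⟩ := hq
  -- values
  have uq : ∀ t, p ≤ t → t < p + k → gapPathU x q i p k t = q (t - p) := by
    intro t h2 h3
    unfold gapPathU; rw [if_pos ⟨h2, h3⟩]
  have ux : ∀ t, ¬ (p ≤ t ∧ t < p + k) →
      gapPathU x q i p k t = x (i + ((gapPathE l p k t : ℕ) : ZMod l)) := by
    intro t h2
    unfold gapPathU; rw [if_neg h2]
  have eb : ∀ t, ¬ (p ≤ t ∧ t < p + k) → t < l + k →
      1 ≤ gapPathE l p k t ∧ gapPathE l p k t ≤ l := by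
    intro t h2 h3
    unfold gapPathE
    split_ifs <;> omega
  refine ⟨gapPathU x q i p k, p, by omega, hpl, ⟨?_, ?_, ?_⟩, ?_, ?_, ?_, ?_, ?_⟩
  · intro t ht
    by_cases h : p ≤ t ∧ t < p + k
    · rw [uq t h.1 h.2]
      exact hq1 _ (by omega)
    · rw [ux t h]
      exact hx.mem _
  · intro s hs' t ht' hst
    by_cases h : p ≤ s ∧ s < p + k
    · by_cases h' : p ≤ t ∧ t < p + k
      · rw [uq s h.1 h.2, uq t h'.1 h'.2] at hst
        have := hq2 _ (by omega) _ (by omega) hst
        omega
      · rw [uq s h.1 h.2, ux t h'] at hst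
        exact absurd hst (hqx _ (by omega) _)
    · by_cases h' : p ≤ t ∧ t < p + k
      · rw [ux s h, uq t h'.1 h'.2] at hst
        exact absurd hst.symm (hqx _ (by omega) _)
      · rw [ux s h, ux t h'] at hst
        have e1 := add_left_cancel (hx.inj hst)
        have b1 := eb s h hs'
        have b2 := eb t h' ht'
        have e2 := gapPath_cast l b1.1 b1.2 b2.1 b2.2 e1
        unfold gapPathE at e2
        split_ifs at e2 <;> omega
  · intro t ht
    by_cases c1 : t + 1 < p
    · rw [ux t (by omega), ux (t + 1) (by omega)]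
      have e1 : gapPathE l p k (t + 1) = gapPathE l p k t + 1 := by
        unfold gapPathE; rw [if_pos (by omega), if_pos (by omega)]
      rw [e1, Nat.cast_add, Nat.cast_one, ← add_assoc]
      exact hx.adj _
    · by_cases c2 : t + 1 = p
      · rw [ux t (by omega), uq (t + 1) (by omega) (by omega)]
        have e1 : gapPathE l p k t = p := by
          unfold gapPathE; rw [if_pos (by omega)]; omega
        have e2 : t + 1 - p = 0 := by omega
        rw [e1, e2, hjp]
        exact hs _ _ h0
      · by_cases c3 : t + 1 < p + k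
        · rw [uq t (by omega) (by omega), uq (t + 1) (by omega) c3]
          have e2 : t + 1 - p = (t - p) + 1 := by omega
          rw [e2]
          exact hq3 _ (by omega)
        · by_cases c4 : t + 1 = p + k
          · rw [uq t (by omega) (by omega), ux (t + 1) (by omega)]
            have e1 : gapPathE l p k (t + 1) = l := by
              unfold gapPathE; rw [if_neg (by omega)]; omega
            have e2 : t - p = k - 1 := by omega
            rw [e1, e2, ZMod.natCast_self, add_zero]
            exact h1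
          · rw [ux t (by omega), ux (t + 1) (by omega)]
            have e1 : gapPathE l p k t = gapPathE l p k (t + 1) + 1 := by
              unfold gapPathE; rw [if_neg (by omega), if_neg (by omega)]; omega
            rw [e1, Nat.cast_add, Nat.cast_one, ← add_assoc]
            exact hs _ _ (hx.adj _)
  · rw [ux 0 (by omega)]
    have e1 : gapPathE l p k 0 = 1 := by unfold gapPathE; rw [if_pos (by omega)]
    rw [e1, Nat.cast_one]
  · rw [ux (l + k - 1) (by omega)]
    have e1 : gapPathE l p k (l + k - 1) = p + 1 := by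
      unfold gapPathE; rw [if_neg (by omega)]; omega
    rw [e1, Nat.cast_add, Nat.cast_one, ← add_assoc, hjp]
  · intro t ht
    rw [ux t (by omega)]
    exact Finset.mem_image_of_mem _ (Finset.mem_univ _)
  · intro t h2 h3
    exact uq t h2 h3
  · intro t h2 _
    rw [ux t (by omega)]
    exact Finset.mem_image_of_mem _ (Finset.mem_univ _)

end Pool.Agent.Lib.MP_22c8c7_co
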