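import Mathlib
import Pool.Agent.Lib.MP_22c8c7_co.P2Defs
import Pool.Agent.Lib.MP_22c8c7_co.GapPath

set_option autoImplicit false

namespace Pool.Agent.Lib.MP_22c8c7_co

open Finset
open scoped Classical

private theorem gap_sum {V : Type*} (r : V → V → Prop) (hs : ∀ a b, r a b → r b a)
    (hi : ∀ a, ¬ r a a) (C : Finset V) (l : ℕ) (hC : C.card = l) (hl : 3 ≤ l) (u v : V)
    (hu : u ∈ C) (hv : v ∈ C) (huv : u ≠ v) (hd : dg r C u + dg r C v ≤ l) :
    ds r C + 3 * l ≤ l * l + 6 := by
  set D := (C.erase u).erase v with hD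
  have hvC : v ∈ C.erase u := Finset.mem_erase.mpr ⟨fun h => huv h.symm, hv⟩
  have hDc : D.card = l - 2 := by
    rw [hD, Finset.card_erase_of_mem hvC, Finset.card_erase_of_mem hu, hC]
    omega
  have hsum : ds r C = dg r C u + (dg r C v + ∑ c ∈ D, dg r C c) := by
    unfold ds
    rw [← Finset.add_sum_erase C (fun c => dg r C c) hu,
      ← Finset.add_sum_erase (C.erase u) (fun c => dg r C c) hvC]
  have hone : ∀ c ∈ D, dg r C c ≤ (l - 3) + (if r c u then 1 else 0) + (if r c v then 1 else 0) := by
    intro c hc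
    have hsub : C.filter (fun w => r c w) ⊆
        (D.erase c ∪ ({u} : Finset V).filter (fun w => r c w)) ∪
          ({v} : Finset V).filter (fun w => r c w) := by
      intro w hw
      rw [Finset.mem_filter] at hw
      simp only [Finset.mem_union, Finset.mem_filter, Finset.mem_singleton]
      by_cases h1 : w = u
      · exact Or.inl (Or.inr ⟨h1, hw.2⟩)
      · by_cases h2 : w = v
        · exact Or.inr ⟨h2, hw.2⟩
        · refine Or.inl (Or.inl ?_)
          rw [Finset.mem_erase]
          refine ⟨?_, ?_⟩
          · intro h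
            rw [h] at hw
            exact hi c hw.2
          · rw [hD, Finset.mem_erase, Finset.mem_erase]
            exact ⟨h2, h1, hw.1⟩
    have hc1 : (D.erase c).card = l - 3 := by
      rw [Finset.card_erase_of_mem hc, hDc]
      omega
    have hc2 : (({u} : Finset V).filter (fun w => r c w)).card ≤ (if r c u then 1 else 0) := by
      rw [Finset.filter_singleton]
      split_ifs <;> simp
    have hc3 : (({v} : Finset V).filter (fun w => r c w)).card ≤ (if r c v then 1 else 0) := by
      rw [Finset.filter_singleton]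
      split_ifs <;> simp
    have h4 := Finset.card_le_card hsub
    have h5 := Finset.card_union_le
      (D.erase c ∪ ({u} : Finset V).filter (fun w => r c w))
      (({v} : Finset V).filter (fun w => r c w))
    have h6 := Finset.card_union_le (D.erase c) (({u} : Finset V).filter (fun w => r c w))
    unfold dg
    omega
  have hcol : ∀ a, ∑ c ∈ D, (if r c a then 1 else 0) ≤ dg r C a := by
    intro a
    rw [← Finset.card_filter]
    unfold dg
    apply Finset.card_le_card
    intro c hc
    rw [Finset.mem_filter] at hc ⊢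
    refine ⟨?_, hs _ _ hc.2⟩
    have := hc.1
    rw [hD, Finset.mem_erase, Finset.mem_erase] at this
    exact this.2.2
  have htot : ∑ c ∈ D, dg r C c ≤ (l - 2) * (l - 3) + dg r C u + dg r C v := by
    calc ∑ c ∈ D, dg r C c
        ≤ ∑ c ∈ D, ((l - 3) + (if r c u then 1 else 0) + (if r c v then 1 else 0)) :=
          Finset.sum_le_sum hone
      _ = (l - 2) * (l - 3) + ∑ c ∈ D, (if r c u then 1 else 0)
            + ∑ c ∈ D, (if r c v then 1 else 0) := by
          rw [Finset.sum_add_distrib, Finset.sum_add_distrib, Finset.sum_const, hDc,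
            smul_eq_mul]
      _ ≤ _ := by
          have h1 := hcol u
          have h2 := hcol v
          omega
  obtain ⟨e, rfl⟩ : ∃ e, l = e + 3 := ⟨l - 3, by omega⟩
  have e1 : e + 3 - 2 = e + 1 := by omega
  have e2 : e + 3 - 3 = e := by omega
  rw [e1, e2] at htot
  rw [hsum]
  nlinarith

private theorem gap_cover {V : Type*} (C : Finset V) (U : ℕ → V) (l k p : ℕ) (hC : C.card = l)
    (hp : p < l)
    (hinj : ∀ i, i < l + k → ∀ j, j < l + k → U i = U j → i = j)
    (h1 : ∀ t, t < p → U t ∈ C) (h3 : ∀ t, p + k ≤ t → t < l + k → U t ∈ C) :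
    ∀ c ∈ C, ∃ t, t < l + k ∧ U t = c := by
  set T := range p ∪ Finset.Ico (p + k) (l + k) with hT
  have hTK : ∀ t ∈ T, t < l + k := by
    intro t ht
    rw [hT, Finset.mem_union, Finset.mem_range, Finset.mem_Ico] at ht
    omega
  have hTc : T.card = l := by
    rw [hT, Finset.card_union_of_disjoint, Finset.card_range, Nat.card_Ico]
    · omega
    · rw [Finset.disjoint_left]
      intro a ha hb
      rw [Finset.mem_range] at ha
      rw [Finset.mem_Ico] at hb
      omega
  have himg : T.image U = C := by
    apply Finset.eq_of_subset_of_card_le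
    · intro c hc
      rw [Finset.mem_image] at hc
      obtain ⟨t, ht, rfl⟩ := hc
      rw [hT, Finset.mem_union, Finset.mem_range, Finset.mem_Ico] at ht
      rcases ht with ht | ht
      · exact h1 t ht
      · exact h3 t ht.1 ht.2
    · rw [Finset.card_image_of_injOn, hTc, hC]
      intro a ha b hb hab
      exact hinj a (hTK a ha) b (hTK b hb) hab
  intro c hc
  rw [← himg, Finset.mem_image] at hc
  obtain ⟨t, ht, rfl⟩ := hc
  exact ⟨t, hTK t ht, rfl⟩

/-- GAP LEMMA. A cycle `x` of length `l ≥ 3`, an outer path `q` with `k` vertices whose ends are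
joined to two different vertices of the cycle, and no closed path with `l + k` vertices: then at
least `l - 3` pairs of vertices of the cycle are not adjacent.

PROOF. Let `U`, `p` be from `gap_path`, `K = l + k`, `C = univ.image x`, `|C| = l`,
`u = U 0 = x (i+1)`, `v = U (K-1) = x (j+1)`; `u ≠ v`.
(1) `¬ r v u`: otherwise `U` itself is a closed path with `K` vertices. For every `s` with
`s + 1 < K`: not both `r u (U (s+1))` and `r v (U s)` (`closing`).
(2) `dg r C u + dg r C v ≤ l`. Let `A` be the set of the `s ∈ range (K-1)` with `U (s+1) ∈ C` and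
`r u (U (s+1))`, `B` the set of the `s ∈ range (K-1)` with `U s ∈ C` and `r v (U s)`. They are
disjoint by (1), and both avoid the `k - 1` numbers `s` with `p ≤ s`, `s + 1 < p + k` (there `U s`
and `U (s+1)` are outer vertices, not in `C`). So `|A| + |B| ≤ K - 1 - (k - 1) = l`. The map
`s ↦ U (s+1)` shows `|A| = dg r C u`: every element of `C` is some `U t`, `t < K` (the `l` numbers
`t < p` and `p + k ≤ t < K` have different values `U t` in `C`, and `|C| = l`), and `t = 0` is
`u` itself, not a neighbour of `u`. Similarly `|B| = dg r C v` (`t = K - 1` is `v` itself).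
(3) `ds r C = dg r C u + dg r C v + ∑_{c ∈ C \ {u, v}} dg r C c`, and for these `l - 2` vertices
`dg r C c ≤ (l - 3) + [r c u] + [r c v]`; `∑_{c ∈ C \ {u,v}} [r c u] = dg r C u` because `u` is not
adjacent to `v` and not to itself; the same for `v`. So
`ds r C ≤ (l-2)(l-3) + 2 (dg r C u + dg r C v) ≤ (l-2)(l-3) + 2 l = l² - 3 l + 6`. -/
theorem gap {V : Type*} (r : V → V → Prop) (hs : ∀ a b, r a b → r b a) (hi : ∀ a, ¬ r a a)
    (S : Finset V) (l : ℕ) [NeZero l] (hl : 3 ≤ l) (x : ZMod l → V) (hx : Cyc r S l x)
    (q : ℕ → V) (k : ℕ) (hk : 1 ≤ k) (hq : PathIn r S q k) (hqx : ∀ t, t < k → ∀ j, q t ≠ x j)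
    (i j : ZMod l) (hij : i ≠ j) (h0 : r (q 0) (x j)) (h1 : r (q (k - 1)) (x i))
    (hno : ∀ c, ¬ CycIn r S c (l + k)) :
    ds r (univ.image x) + 3 * l ≤ l * l + 6 := by
  obtain ⟨U, p, hp1, hpl, hU, hU0, hUK, hUa, hUb, hUc⟩ :=
    gap_path r hs S l x hx q k hk hq hqx i j hij h0 h1
  set C := univ.image x with hCdef
  have hC : C.card = l := by
    rw [hCdef, Finset.card_image_of_injective _ hx.inj, Finset.card_univ, ZMod.card]
  have hqC : ∀ t, t < k → q t ∉ C := by
    intro t ht hmem
    rw [hCdef, Finset.mem_image] at hmem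
    obtain ⟨a, -, ha⟩ := hmem
    exact hqx t ht a ha.symm
  have hcov := gap_cover C U l k p hC hpl hU.2.1 hUa hUc
  have hu : x (i + 1) ∈ C := Finset.mem_image_of_mem _ (Finset.mem_univ _)
  have hv : x (j + 1) ∈ C := Finset.mem_image_of_mem _ (Finset.mem_univ _)
  have huv : x (i + 1) ≠ x (j + 1) := by
    intro h
    exact hij (add_right_cancel (hx.inj h))
  apply gap_sum r hs hi C l hC hl (x (i + 1)) (x (j + 1)) hu hv huv
  set A := (range (l + k - 1)).filter (fun s => U (s + 1) ∈ C ∧ r (x (i + 1)) (U (s + 1)))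
    with hA
  set B := (range (l + k - 1)).filter (fun s => U s ∈ C ∧ r (x (j + 1)) (U s)) with hB
  have hAu : dg r C (x (i + 1)) ≤ A.card := by
    unfold dg
    refine le_trans (Finset.card_le_card ?_) (Finset.card_image_le (s := A) (f := fun s => U (s + 1)))
    intro c hc
    rw [Finset.mem_filter] at hc
    obtain ⟨t, ht, rfl⟩ := hcov c hc.1
    have ht0 : t ≠ 0 := by
      rintro rfl
      rw [hU0] at hc
      exact hi _ hc.2
    obtain ⟨s, rfl⟩ := Nat.exists_eq_succ_of_ne_zero ht0
    rw [Finset.mem_image]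
    refine ⟨s, ?_, rfl⟩
    rw [hA, Finset.mem_filter, Finset.mem_range]
    exact ⟨by omega, hc.1, hc.2⟩
  have hBv : dg r C (x (j + 1)) ≤ B.card := by
    unfold dg
    refine le_trans (Finset.card_le_card ?_) (Finset.card_image_le (s := B) (f := U))
    intro c hc
    rw [Finset.mem_filter] at hc
    obtain ⟨t, ht, rfl⟩ := hcov c hc.1
    have ht0 : t ≠ l + k - 1 := by
      intro hte
      rw [hte, hUK] at hc
      exact hi _ hc.2
    rw [Finset.mem_image]
    refine ⟨t, ?_, rfl⟩
    rw [hB, Finset.mem_filter, Finset.mem_range]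
    exact ⟨by omega, hc.1, hc.2⟩
  have hAB : Disjoint A B := by
    rw [Finset.disjoint_left]
    intro s hsA hsB
    rw [hA, Finset.mem_filter, Finset.mem_range] at hsA
    rw [hB, Finset.mem_filter, Finset.mem_range] at hsB
    obtain ⟨c, hc⟩ := closing r hs S U (l + k) hU s (by omega)
      (by rw [hU0]; exact hsA.2.2) (by rw [hUK]; exact hsB.2.2)
    exact hno c hc
  have hABI : Disjoint (A ∪ B) (Finset.Ico p (p + k - 1)) := by
    rw [Finset.disjoint_left]
    intro s hsAB hsI
    rw [Finset.mem_Ico] at hsI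
    rw [Finset.mem_union] at hsAB
    rcases hsAB with hsA | hsB
    · rw [hA, Finset.mem_filter] at hsA
      have h2 := hUb (s + 1) (by omega) (by omega)
      rw [h2] at hsA
      exact hqC _ (by omega) hsA.2.1
    · rw [hB, Finset.mem_filter] at hsB
      have h2 := hUb s (by omega) (by omega)
      rw [h2] at hsB
      exact hqC _ (by omega) hsB.2.1
  have hsub : (A ∪ B) ∪ Finset.Ico p (p + k - 1) ⊆ range (l + k - 1) := by
    intro s hs'
    rw [Finset.mem_union, Finset.mem_union] at hs'
    rcases hs' with (h | h) | h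
    · exact (Finset.mem_filter.mp h).1
    · exact (Finset.mem_filter.mp h).1
    · rw [Finset.mem_Ico] at h
      rw [Finset.mem_range]
      omega
  have hcard := Finset.card_le_card hsub
  rw [Finset.card_union_of_disjoint hABI, Finset.card_union_of_disjoint hAB, Finset.card_range,
    Nat.card_Ico] at hcard
  omega

end Pool.Agent.Lib.MP_22c8c7_co
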