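import Mathlib
import Pool.Agent.Lib.MP_22c8c7_co.P2Defs
import Pool.Agent.Lib.MP_22c8c7_co.MaxCyc
import Pool.Agent.Lib.MP_22c8c7_co.Gap

set_option autoImplicit false

namespace Pool.Agent.Lib.MP_22c8c7_co

open Finset
open scoped Classical

private theorem CoreD_wt {V : Type*} (r : V → V → Prop) (m : ℕ) [NeZero m] (x : ZMod m → V)
    (hx : Function.Injective x) (y : V) : wt r m x y = dg r (univ.image x) y := by
  unfold wt J dg
  rw [Finset.filter_image, Finset.card_image_of_injective _ hx]

private theorem CoreD_dg_insert {V : Type*} (r : V → V → Prop) (C : Finset V) (z y : V)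
    (hz : z ∉ C) : dg r (insert z C) y = dg r C y + if r y z then 1 else 0 := by
  unfold dg
  rw [Finset.filter_insert]
  split_ifs with h
  · rw [Finset.card_insert_of_notMem]
    simp [hz]
  · rfl

private theorem CoreD_ds_insert {V : Type*} (r : V → V → Prop) (hs : ∀ a b, r a b → r b a)
    (hi : ∀ a, ¬ r a a) (C : Finset V) (z : V) (hz : z ∉ C) :
    ds r (insert z C) = ds r C + 2 * dg r C z := by
  unfold ds
  rw [Finset.sum_insert hz, CoreD_dg_insert r C z z hz, if_neg (hi z)]
  have h1 : ∑ v ∈ C, dg r (insert z C) v = ∑ v ∈ C, dg r C v + dg r C z := by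
    rw [Finset.sum_congr rfl fun v _ => CoreD_dg_insert r C z v hz, Finset.sum_add_distrib]
    congr 1
    unfold dg
    rw [Finset.card_filter]
    refine Finset.sum_congr rfl fun v _ => ?_
    by_cases h : r v z
    · rw [if_pos h, if_pos (hs _ _ h)]
    · rw [if_neg h, if_neg fun h' => h (hs _ _ h')]
  rw [h1]
  ring

private theorem CoreD_cyc {V : Type*} (r : V → V → Prop) (S : Finset V) (m : ℕ) (hm : 2 ≤ m)
    (c : ℕ → V) (hc : CycIn r S c m) : Cyc r S m (fun i : ZMod m => c i.val) := by
  haveI : NeZero m := ⟨by omega⟩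
  obtain ⟨⟨h1, h2, h3⟩, h4⟩ := hc
  refine ⟨fun i => h1 _ (ZMod.val_lt i), ?_, ?_⟩
  · intro i j hij
    exact ZMod.val_injective m (h2 _ (ZMod.val_lt i) _ (ZMod.val_lt j) hij)
  · intro i
    have hone : (1 : ZMod m).val = 1 := by
      haveI : Fact (1 < m) := ⟨by omega⟩
      exact ZMod.val_one m
    have hv := ZMod.val_lt i
    by_cases hlt : i.val + 1 < m
    · have : (i + 1).val = i.val + 1 := by
        rw [ZMod.val_add_of_lt (by rw [hone]; exact hlt), hone]
      show r (c i.val) (c (i + 1).val)
      rw [this]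
      exact h3 _ hlt
    · have hi : i.val = m - 1 := by omega
      have : (i + 1).val = 0 := by
        rw [ZMod.val_add, hone, hi, Nat.sub_add_cancel (by omega), Nat.mod_self]
      show r (c i.val) (c (i + 1).val)
      rw [this, hi]
      exact h4

/-- Two adjacent vertices outside the cycle.

PROOF. Choose `b` with `r y' (x b)` and `a ≠ b` with `r y (x a)` (`2 ≤ wt y`). `gap` with `l = m`,
`k = 2`, `q 0 = y'`, `q 1 = y` (`q t = if t = 0 then y' else y`), `i = a`, `j = b`. -/
theorem core_gap {V : Type*} (r : V → V → Prop) (hs : ∀ a b, r a b → r b a)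
    (hi : ∀ a, ¬ r a a) (S : Finset V) (m : ℕ) [NeZero m] (hm : 3 ≤ m) (x : ZMod m → V)
    (hx : Cyc r S m x) (hno : ∀ c, ¬ CycIn r S c (m + 2)) (y y' : V) (hy : y ∈ S) (hy' : y' ∈ S)
    (hd : ∀ j, y ≠ x j) (hd' : ∀ j, y' ≠ x j) (hr : r y y') (h2 : 2 ≤ wt r m x y)
    (h1 : 1 ≤ wt r m x y') : ds r (univ.image x) + 3 * m ≤ m * m + 6 := by
  obtain ⟨b, hb⟩ := Finset.card_pos.mp (show 0 < (J r m x y').card from h1)
  obtain ⟨a, ha, hab⟩ := Finset.exists_mem_ne (show 1 < (J r m x y).card from h2) b
  simp only [J, Finset.mem_filter, Finset.mem_univ, true_and] at ha hb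
  have hne : y' ≠ y := by
    rintro rfl
    exact hi _ hr
  refine gap r hs hi S m hm x hx (fun t => if t = 0 then y' else y) 2 (by omega) ?_ ?_ a b hab
    ?_ ?_ hno
  · refine ⟨?_, ?_, ?_⟩
    · intro t _
      show (if t = 0 then y' else y) ∈ S
      split_ifs
      · exact hy'
      · exact hy
    · intro s hs' t ht hst
      have e : (if s = 0 then y' else y) = (if t = 0 then y' else y) := hst
      by_cases h0 : s = 0 <;> by_cases h0' : t = 0
      · omega
      · rw [if_pos h0, if_neg h0'] at e
        exact absurd e hne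
      · rw [if_neg h0, if_pos h0'] at e
        exact absurd e.symm hne
      · omega
    · intro t ht
      have : t = 0 := by omega
      subst this
      exact hs _ _ hr
  · intro t _ j
    show (if t = 0 then y' else y) ≠ x j
    split_ifs
    · exact hd' j
    · exact hd j
  · exact hb
  · exact ha

/-- A vertex adjacent to more than half of the cycle can be inserted.

PROOF. `J z` and `{i : i + 1 ∈ J z}` both have more than `m / 2` elements in `ZMod m`, so there is
`i` with `r z (x i)`, `r z (x (i+1))`. `c 0 = z`, `c t = x (i + t)` for `1 ≤ t ≤ m` is a closed path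
with `m + 1` vertices (`c 1 = x (i+1)`, `c m = x (i + m) = x i`); `cyc_of_cycIn` (its proof takes
`x' i = c i.val`; the image of `x'` is the set of the `c t`, `t ≤ m`, which is
`insert z (univ.image x)`; by cardinality the inclusion `⊆` is enough). -/
theorem ins_cyc {V : Type*} (r : V → V → Prop) (hs : ∀ a b, r a b → r b a) (S : Finset V)
    (m : ℕ) [NeZero m] (hm : 2 ≤ m) (x : ZMod m → V) (hx : Cyc r S m x) (z : V) (hz : z ∈ S)
    (hd : ∀ j, z ≠ x j) (hw : m < 2 * wt r m x z) :
    ∃ x' : ZMod (m + 1) → V, Cyc r S (m + 1) x' ∧ univ.image x' = insert z (univ.image x) := by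
  -- two consecutive neighbours
  obtain ⟨i, hi1, hi2⟩ : ∃ i : ZMod m, r z (x i) ∧ r z (x (i + 1)) := by
    by_contra hcon
    push Not at hcon
    have hdis : Disjoint (J r m x z) ((J r m x z).image (fun i => i - 1)) := by
      rw [Finset.disjoint_left]
      intro i h1 h2
      simp only [J, Finset.mem_filter, Finset.mem_univ, true_and, Finset.mem_image] at h1 h2
      obtain ⟨j, hj, rfl⟩ := h2
      have := hcon (j - 1) h1
      rw [sub_add_cancel] at this
      exact this hj
    have hcard := Finset.card_union_of_disjoint hdis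
    rw [Finset.card_image_of_injective _ (sub_left_injective)] at hcard
    have hle := Finset.card_le_univ (J r m x z ∪ (J r m x z).image (fun i => i - 1))
    rw [ZMod.card] at hle
    have : wt r m x z = (J r m x z).card := rfl
    omega
  obtain ⟨c, hc⟩ : ∃ c : ℕ → V, c = fun t : ℕ => if t = 0 then z else x (i + (t : ZMod m)) :=
    ⟨_, rfl⟩
  have c0 : c 0 = z := by rw [hc]; simp
  have cs : ∀ t, t ≠ 0 → c t = x (i + (t : ZMod m)) := by
    intro t ht
    rw [hc]
    simp only [if_neg ht]
  have hcyc : CycIn r S c (m + 1) := by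
    refine ⟨⟨?_, ?_, ?_⟩, ?_⟩
    · intro t _
      by_cases h : t = 0
      · rw [h, c0]; exact hz
      · rw [cs t h]; exact hx.mem _
    · intro s hs' t ht hst
      by_cases h : s = 0 <;> by_cases h' : t = 0
      · omega
      · rw [h, c0, cs t h'] at hst
        exact absurd hst (hd _)
      · rw [h', c0, cs s h] at hst
        exact absurd hst.symm (hd _)
      · rw [cs s h, cs t h'] at hst
        have e1 := add_left_cancel (hx.inj hst)
        rw [ZMod.natCast_eq_natCast_iff'] at e1
        by_cases hsm : s = m <;> by_cases htm : t = m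
        · omega
        · rw [hsm, Nat.mod_self, Nat.mod_eq_of_lt (by omega)] at e1
          omega
        · rw [htm, Nat.mod_self, Nat.mod_eq_of_lt (by omega)] at e1
          omega
        · rw [Nat.mod_eq_of_lt (by omega), Nat.mod_eq_of_lt (by omega)] at e1
          exact e1
    · intro t ht
      by_cases h : t = 0
      · rw [h, c0, cs (0 + 1) (by omega)]
        simpa using hi2
      · rw [cs t h, cs (t + 1) (by omega)]
        have := hx.adj (i + (t : ZMod m))
        rw [add_assoc] at this
        push_cast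
        exact this
    · show r (c (m + 1 - 1)) (c 0)
      rw [Nat.add_sub_cancel, c0, cs m (by omega), ZMod.natCast_self, add_zero]
      exact hs _ _ hi1
  have hC := CoreD_cyc r S (m + 1) (by omega) c hcyc
  refine ⟨fun i : ZMod (m + 1) => c i.val, hC, ?_⟩
  apply Finset.eq_of_subset_of_card_le
  · intro v hv
    rw [Finset.mem_image] at hv
    obtain ⟨j, -, rfl⟩ := hv
    by_cases h : j.val = 0
    · rw [h, c0]; exact Finset.mem_insert_self _ _
    · rw [cs _ h]
      exact Finset.mem_insert_of_mem (Finset.mem_image_of_mem _ (Finset.mem_univ _))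
  · rw [Finset.card_image_of_injective _ hC.inj, Finset.card_univ, ZMod.card]
    refine (Finset.card_insert_le _ _).trans ?_
    rw [Finset.card_image_of_injective _ hx.inj, Finset.card_univ, ZMod.card]

/-- The exceptional vertex and a second vertex.

PROOF. By `ins_cyc` there is a cycle `x'` of length `m + 1` on `D = insert z C`. `y ∉ D` has two
different neighbours in `D` (`2 ≤ wt y + 1` means `wt y ≥ 2`, or `wt y = 1` and `r y z`). `gap` with
`l = m + 1`, `k = 1`, `q 0 = y` gives `ds r D + 3 (m+1) ≤ (m+1)² + 6`. And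
`ds r D = ds r C + 2 wt z` (`z ∉ C`; the degree of `z` in `C` is `wt z`, `x` injective). -/
theorem core_D {V : Type*} (r : V → V → Prop) (hs : ∀ a b, r a b → r b a)
    (hi : ∀ a, ¬ r a a) (S : Finset V) (m : ℕ) [NeZero m] (hm : 2 ≤ m) (x : ZMod m → V)
    (hx : Cyc r S m x) (hno : ∀ c, ¬ CycIn r S c (m + 2)) (z y : V) (hz : z ∈ S) (hy : y ∈ S)
    (hd : ∀ j, z ≠ x j) (hd' : ∀ j, y ≠ x j) (hyz : y ≠ z) (hw : m < 2 * wt r m x z)
    (h2 : 2 ≤ wt r m x y + if r y z then 1 else 0) :
    ds r (univ.image x) + 2 * wt r m x z + m ≤ m * m + 4 := by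
  obtain ⟨x', hx', him⟩ := ins_cyc r hs S m hm x hx z hz hd hw
  have hzC : z ∉ univ.image x := by
    rw [Finset.mem_image]
    rintro ⟨j, -, h⟩
    exact hd j h.symm
  have hyw : 2 ≤ (J r (m + 1) x' y).card := by
    have h1 := CoreD_wt r (m + 1) x' hx'.inj y
    rw [him, CoreD_dg_insert r _ z y hzC, ← CoreD_wt r m x hx.inj y] at h1
    rw [← h1] at h2
    exact h2
  obtain ⟨b, hb⟩ := Finset.card_pos.mp (show 0 < (J r (m + 1) x' y).card by omega)
  obtain ⟨a, ha, hab⟩ := Finset.exists_mem_ne (show 1 < (J r (m + 1) x' y).card from hyw) b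
  simp only [J, Finset.mem_filter, Finset.mem_univ, true_and] at ha hb
  have hg := gap r hs hi S (m + 1) (by omega) x' hx' (fun _ => y) 1 le_rfl
    ⟨fun _ _ => hy, fun s hs' t ht _ => by omega, fun t ht => by omega⟩ (fun t _ j => ?_) a b hab
    hb ha (fun c => hno c)
  · rw [him, CoreD_ds_insert r hs hi _ z hzC, ← CoreD_wt r m x hx.inj z] at hg
    nlinarith [hg]
  · have hj : x' j ∈ univ.image x' := Finset.mem_image_of_mem _ (Finset.mem_univ _)
    rw [him, Finset.mem_insert, Finset.mem_image] at hj
    intro hyj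
    rcases hj with h | ⟨i, -, h⟩
    · exact hyz (hyj.trans h)
    · exact hd' i (hyj.trans h.symm)

end Pool.Agent.Lib.MP_22c8c7_co
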