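import Mathlib
import Pool.Agent.Lib.MP_22c8c7_co.P2Defs

set_option autoImplicit false

namespace Pool.Agent.Lib.MP_22c8c7_co

open Finset
open scoped Classical

theorem dual_sum_dz_le {V : Type*} (r : V → V → Prop) (m : ℕ) [NeZero m] (x : ZMod m → V)
    (Y : Finset V) (y : V) : dz r m x Y y ≤ dg r Y y := by
  unfold dz dg
  apply Finset.card_le_card
  apply Finset.filter_subset_filter
  exact Finset.filter_subset _ _

theorem dual_sum_dz_eq {V : Type*} (r : V → V → Prop) (m : ℕ) [NeZero m] (x : ZMod m → V)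
    (Y : Finset V) (y : V) (h : ∀ y' ∈ Y, r y y' → wt r m x y' = 0) :
    dz r m x Y y = dg r Y y := by
  unfold dz dg
  congr 1
  ext z
  simp only [Zs, Finset.mem_filter]
  constructor
  · rintro ⟨⟨h1, _⟩, h2⟩
    exact ⟨h1, h2⟩
  · rintro ⟨h1, h2⟩
    exact ⟨⟨h1, h z h1 h2⟩, h2⟩

/-- the pointwise inequality -/
theorem dual_sum_point {V : Type*} (r : V → V → Prop) (m : ℕ) [NeZero m] (x : ZMod m → V)
    (Y : Finset V) (δ t cap : ℕ) (II : Bool)
    (q p1 p2 PX PY : ℕ) (hT : Ty m δ t cap II q p1 p2 PX PY) (y : V)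
    (hcap : wt r m x y ≤ cap) (hdeg : δ + 1 ≤ wt r m x y + dg r Y y)
    (hII : II = true → 2 ≤ wt r m x y → ∀ y' ∈ Y, r y y' → wt r m x y' = 0) :
    q * (wt r m x y + if dg r Y y ≤ t then dg r Y y else 0) + p1 * m +
        p2 * (m * if wt r m x y = 0 then 1 else 0) ≤
      (if dg r Y y ≤ t then PX else PY) + p1 * c1 r m x Y y + p2 * c2 r m x Y y := by
  have hdz := dual_sum_dz_le r m x Y y
  have hdze : II = true → 2 ≤ wt r m x y → dz r m x Y y = dg r Y y := fun h1 h2 =>
    dual_sum_dz_eq r m x Y y (hII h1 h2)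
  unfold c1 c2
  generalize wt r m x y = w at *
  generalize dg r Y y = d at *
  generalize dz r m x Y y = e at *
  rcases Nat.lt_or_ge w 2 with hw | hw
  · rcases Nat.eq_zero_or_pos w with hw0 | hw0
    · subst hw0
      rw [if_pos rfl, if_pos rfl, if_pos rfl]
      by_cases hd : d ≤ t
      · rw [if_pos hd, if_pos hd]
        have := hT.a0 d hd (by omega)
        simp only [mul_one, mul_zero, add_zero, zero_add]
        exact this
      · rw [if_neg hd, if_neg hd]
        have := hT.b0
        simp only [mul_one, mul_zero, add_zero, zero_add]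
        exact this
    · have hw1 : w = 1 := by omega
      subst hw1
      rw [if_neg one_ne_zero, if_neg one_ne_zero, if_neg one_ne_zero, if_pos rfl, if_pos rfl]
      by_cases hd : d ≤ t
      · rw [if_pos hd, if_pos hd]
        have := hT.a1 hcap d hd (by omega) e hdz
        simp only [mul_zero, add_zero]
        exact this
      · rw [if_neg hd, if_neg hd]
        have := hT.b1 hcap d (by omega) (by omega) e hdz
        simp only [mul_zero, add_zero, mul_one]
        exact this
  · have h0 : w ≠ 0 := by omega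
    have h1 : w ≠ 1 := by omega
    rw [if_neg h0, if_neg h0, if_neg h0, if_neg h1, if_neg h1]
    have key : p2 * (if II then w * (d + 1) - m else 0) ≤ p2 * (w * (e + 1) - m) := by
      apply Nat.mul_le_mul_left
      cases hI : II with
      | true =>
        rw [hdze hI hw]
        simp
      | false => simp
    by_cases hd : d ≤ t
    · rw [if_pos hd, if_pos hd]
      have := hT.a2 w hw hcap d hd hdeg
      simp only [mul_zero, add_zero]
      omega
    · rw [if_neg hd, if_neg hd]
      have := hT.b2 w hw hcap d (by omega) hdeg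
      simp only [mul_zero, add_zero]
      omega

/-- The dual summation over a subset `W` of `Y` (all of `Y`, or `Y` without the exceptional
vertex). `A` is the set of the vertices of degree `≤ t` of `W`.

PROOF. For every `y ∈ W` let `w = wt y`, `d = dg r Y y`, `e = dz y ≤ d`. Then
`q (w + [d ≤ t] d) + p1 m + p2 m [w = 0] ≤ (PX if d ≤ t, PY otherwise) + p1 c1 y + p2 c2 y`:
the fields of `Ty` for `w = 0` (`a0`, `b0`), `w = 1` (`a1`, `b1`; `c1 y = d + 1 - e`,
`c2 y = e + 1 - m/2`), `w ≥ 2` (`a2`, `b2`; `c1 y = w (d+1)`; if `II = false` drop `c2`; if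
`II = true` then all the neighbours of `y` in `Y` have weight 0 (`hII`), so `e = d` and
`c2 y = w (d+1) - m`). `hdeg` is the hypothesis `δ + 1 ≤ w + d`. Sum over `y ∈ W`. The vertices of
weight 0 of `W` are all of `Zs r m x Y` by `hZ`. -/
theorem dual_sum {V : Type*} (r : V → V → Prop) (m : ℕ) [NeZero m] (x : ZMod m → V)
    (Y W : Finset V) (hW : W ⊆ Y) (hZ : Zs r m x Y ⊆ W) (δ t cap : ℕ) (II : Bool)
    (q p1 p2 PX PY : ℕ) (hT : Ty m δ t cap II q p1 p2 PX PY)
    (hcap : ∀ y ∈ W, wt r m x y ≤ cap) (hdeg : ∀ y ∈ W, δ + 1 ≤ wt r m x y + dg r Y y)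
    (hII : II = true → ∀ y ∈ W, 2 ≤ wt r m x y → ∀ y' ∈ Y, r y y' → wt r m x y' = 0) :
    q * (∑ y ∈ W, wt r m x y + ∑ y ∈ W.filter (fun y => dg r Y y ≤ t), dg r Y y) +
        p1 * (m * W.card) + p2 * (m * (Zs r m x Y).card) ≤
      (W.filter (fun y => dg r Y y ≤ t)).card * PX +
        (W.card - (W.filter (fun y => dg r Y y ≤ t)).card) * PY +
        p1 * ∑ y ∈ W, c1 r m x Y y + p2 * ∑ y ∈ W, c2 r m x Y y := by
  have hsum := Finset.sum_le_sum (s := W) (fun y hy =>
    dual_sum_point r m x Y δ t cap II q p1 p2 PX PY hT y (hcap y hy) (hdeg y hy)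
      (fun h => hII h y hy))
  have hZs : W.filter (fun y => wt r m x y = 0) = Zs r m x Y := by
    ext y
    simp only [Zs, Finset.mem_filter]
    constructor
    · rintro ⟨h1, h2⟩; exact ⟨hW h1, h2⟩
    · rintro ⟨h1, h2⟩
      exact ⟨hZ (by simp only [Zs, Finset.mem_filter]; exact ⟨h1, h2⟩), h2⟩
  have hL : ∑ y ∈ W, (q * (wt r m x y + if dg r Y y ≤ t then dg r Y y else 0) + p1 * m +
        p2 * (m * if wt r m x y = 0 then 1 else 0)) =
      q * (∑ y ∈ W, wt r m x y + ∑ y ∈ W.filter (fun y => dg r Y y ≤ t), dg r Y y) +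
        p1 * (m * W.card) + p2 * (m * (Zs r m x Y).card) := by
    rw [Finset.sum_add_distrib, Finset.sum_add_distrib, ← Finset.mul_sum, ← Finset.mul_sum,
      ← Finset.mul_sum, Finset.sum_add_distrib, Finset.sum_const, smul_eq_mul,
      ← Finset.sum_filter, ← Finset.mul_sum, ← Finset.sum_filter, hZs, Finset.sum_const,
      smul_eq_mul, mul_one]
    ring
  have hcard : (W.filter (fun y => ¬ dg r Y y ≤ t)).card =
      W.card - (W.filter (fun y => dg r Y y ≤ t)).card := by
    have := Finset.card_filter_add_card_filter_not (s := W) (fun y => dg r Y y ≤ t)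
    omega
  have hR : ∑ y ∈ W, ((if dg r Y y ≤ t then PX else PY) + p1 * c1 r m x Y y +
        p2 * c2 r m x Y y) =
      (W.filter (fun y => dg r Y y ≤ t)).card * PX +
        (W.card - (W.filter (fun y => dg r Y y ≤ t)).card) * PY +
        p1 * ∑ y ∈ W, c1 r m x Y y + p2 * ∑ y ∈ W, c2 r m x Y y := by
    rw [Finset.sum_add_distrib, Finset.sum_add_distrib, ← Finset.mul_sum, ← Finset.mul_sum,
      Finset.sum_ite, Finset.sum_const, Finset.sum_const, smul_eq_mul, smul_eq_mul, hcard]
  rw [← hL, ← hR]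
  exact hsum

end Pool.Agent.Lib.MP_22c8c7_co
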