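import Mathlib
import Pool.Agent.Lib.MP_22c8c7_co.P2Defs
import Pool.Agent.Lib.MP_22c8c7_co.PathW
import Pool.Agent.Lib.MP_22c8c7_co.WEG

set_option autoImplicit false

namespace Pool.Agent.Lib.MP_22c8c7_co

open Finset
open scoped Classical

private theorem fh_pairs' (f : ℕ → ℕ) (h : ℕ)
    (hf : ∀ i, i < h → 2 ≤ f (2 * i) + f (2 * i + 1) ) :
    2 * h ≤ ∑ i ∈ range (2 * h), f i := by
  induction h with
  | zero => simp
  | succ n ih =>
    rw [show 2 * (n + 1) = 2 * n + 1 + 1 by ring, sum_range_succ, sum_range_succ]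
    have := hf n (by omega)
    have := ih (fun i hi => hf i (by omega))
    omega

private theorem fh_sub {V : Type*} (r q : V → V → Prop) (hq : ∀ a b, q a b → r a b)
    (S Y : Finset V) (hY : Y ⊆ S) (z : ℕ → V) (k : ℕ) (hz : PathIn q Y z k) : PathIn r S z k :=
  ⟨fun i hi => hY (hz.1 i hi), hz.2.1, fun i hi => hq _ _ (hz.2.2 i hi)⟩

private theorem fh_window {V : Type*} (q : V → V → Prop)
    (Y : Finset V) (z : ℕ → V) (k : ℕ) (hz : PathIn q Y z k) (s l : ℕ) (hl : s + l ≤ k) :
    PathIn q Y (fun t => z (s + t)) l :=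
  ⟨fun i hi => hz.1 _ (by omega), fun i hi j hj hij => by
      have := hz.2.1 (s + i) (by omega) (s + j) (by omega) hij
      omega, fun i hi => hz.2.2 (s + i) (by omega)⟩

private theorem fhat_path {V : Type*} (r : V → V → Prop) (hs : ∀ a b, r a b → r b a)
    (S : Finset V) (m : ℕ) [NeZero m] (hm : 2 ≤ m) (hev : Even m) (x : ZMod m → V)
    (hx : Cyc r S m x) (hno : ∀ c, ¬ CycIn r S c (m + 2)) (Y : Finset V) (hY : Y ⊆ S)
    (hd : ∀ y ∈ Y, ∀ j, y ≠ x j) (z : ℕ → V) (k : ℕ) (hz : PathIn (FH r m x) Y z k) :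
    pw (wt r m x) z k ≤ m := by
  have key : ∀ s, s + m + 1 ≤ k → wt r m x (z s) = 0 := by
    intro s hsk
    have hw := fh_window (FH r m x) Y z k hz s (m + 1) (by omega)
    have hw2 := fh_sub r (FH r m x) (fun a b h => h.1) S Y hY _ _ hw
    have hle := path_weight r hs S m hm x hx hno (fun t => z (s + t)) (m + 1) hw2
      (fun i hi j => hd _ (hz.1 (s + i) (by omega)) j) le_rfl
    unfold pw at hle
    rw [sum_range_succ'] at hle
    obtain ⟨h, hh⟩ := hev
    have hh2 : m = 2 * h := by omega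
    have hlow := fh_pairs' (fun i => wt r m x (z (s + (i + 1)))) h (by
      intro i hi
      have := (hz.2.2 (s + (2 * i + 1)) (by omega)).2
      simp only [add_assoc] at this ⊢
      exact this)
    rw [← hh2] at hlow
    simp only [add_zero] at hle
    omega
  by_cases hk : k ≤ m + 1
  · exact path_weight r hs S m hm x hx hno z k
      (fh_sub r (FH r m x) (fun a b h => h.1) S Y hY _ _ hz)
      (fun i hi j => hd _ (hz.1 i hi) j) hk
  · exfalso
    have h0 := key 0 (by omega)
    have h1 := key 1 (by omega)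
    have h2 := (hz.2.2 0 (by omega)).2
    simp only [zero_add] at h2
    omega

/-- The first cost inequality.

PROOF. (1) Every path (any length) `z 0, ..., z (k-1)` of the relation `FH r m x` in `Y` has weight
at most `m`: copy the proof of `ftilde_path` (module `FTilde`), where `FR` is replaced by `FH`. For
`k ≤ m + 1` it is `path_weight`. If `k ≥ m + 2`, then for `s = 0, 1` the window
`z s, ..., z (s+m)` has weight at most `m` and its pairs `(z (s+2i+1), z (s+2i+2))`, `i < m/2`, have
weight at least 2 each, so `w (z s) = 0`; but `w (z 0) = w (z 1) = 0` contradicts `FH (z 0) (z 1)`.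
(2) `weg` for the relation `FH r m x` (symmetric, irreflexive), `w = wt r m x`, `μ = m`, `S = Y`:
`∑_{y ∈ Y} w y (dg (FH r m x) Y y + 1) ≤ m |Y|`.
(3) `c1 y ≤ w y (dg (FH ..) Y y + 1)`: if `w y ≥ 2` all the neighbours in `Y` are `FH`-neighbours;
if `w y = 1` the `FH`-neighbours are the neighbours of weight `≥ 1`, and
`dg r Y y = dg (FH ..) Y y + dz y`. -/
theorem fhat_sum {V : Type*} (r : V → V → Prop) (hs : ∀ a b, r a b → r b a)
    (hi : ∀ a, ¬ r a a) (S : Finset V) (m : ℕ) [NeZero m] (hm : 2 ≤ m) (hev : Even m)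
    (x : ZMod m → V) (hx : Cyc r S m x) (hno : ∀ c, ¬ CycIn r S c (m + 2)) (Y : Finset V)
    (hY : Y ⊆ S) (hd : ∀ y ∈ Y, ∀ j, y ≠ x j) :
    ∑ y ∈ Y, c1 r m x Y y ≤ m * Y.card := by
  have h1 := weg (FH r m x) (fun a b h => ⟨hs a b h.1, by rw [add_comm]; exact h.2⟩)
    (fun a h => hi a h.1)
    (wt r m x) m Y (fun z k hz => fhat_path r hs S m hm hev x hx hno Y hY hd z k hz)
  refine le_trans (Finset.sum_le_sum fun y hy => ?_) h1
  unfold c1
  by_cases h0 : wt r m x y = 0
  · rw [if_pos h0]
    exact Nat.zero_le _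
  rw [if_neg h0]
  by_cases h1' : wt r m x y = 1
  · rw [if_pos h1', h1', one_mul]
    have hsplit : dg r Y y = dg (FH r m x) Y y + dz r m x Y y := by
      unfold dz dg Zs
      rw [Finset.filter_filter]
      rw [← Finset.card_filter_add_card_filter_not (s := Y.filter (fun u => r y u))
        (fun u => 2 ≤ wt r m x y + wt r m x u)]
      rw [Finset.filter_filter, Finset.filter_filter]
      have e1 : Y.filter (fun u => r y u ∧ 2 ≤ wt r m x y + wt r m x u) =
          Y.filter (fun u => FH r m x y u) := Finset.filter_congr fun u _ => Iff.rfl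
      have e2 : Y.filter (fun u => r y u ∧ ¬ 2 ≤ wt r m x y + wt r m x u) =
          Y.filter (fun u => wt r m x u = 0 ∧ r y u) := by
        refine Finset.filter_congr fun u _ => ?_
        constructor
        · rintro ⟨h3, h4⟩
          exact ⟨by omega, h3⟩
        · rintro ⟨h3, h4⟩
          exact ⟨h4, by omega⟩
      rw [e1, e2]
    omega
  · rw [if_neg h1']
    refine Nat.mul_le_mul_left _ ?_
    have h2 : dg (FH r m x) Y y = dg r Y y := by
      unfold dg
      congr 1
      refine Finset.filter_congr fun u _ => ?_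
      exact ⟨fun h => h.1, fun h => ⟨h, by omega⟩⟩
    rw [h2]

end Pool.Agent.Lib.MP_22c8c7_co
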