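import Mathlib
import Pool.Agent.Lib.MP_22c8c7_co.P2Defs
import Pool.Agent.Lib.MP_22c8c7_co.PathW

set_option autoImplicit false

namespace Pool.Agent.Lib.MP_22c8c7_co

open Finset
open scoped Classical

/-- The cycle of length `m + 2` used in the path lemma. -/
private lemma parPath_cyc {V : Type*} (r : V → V → Prop) (hs : ∀ a b, r a b → r b a)
    (S : Finset V) (m : ℕ) [NeZero m] (x : ZMod m → V) (hx : Cyc r S m x)
    (hno : ∀ c, ¬ CycIn r S c (m + 2)) (z : ℕ → V) (k : ℕ) (hz : PathIn r S z k)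
    (hd : ∀ i, i < k → ∀ j, z i ≠ x j) (hk : k ≤ m + 1) (a b : ℕ) (hab : a < b) (hb : b < k)
    (i j : ZMod m) (hi : r (z a) (x i)) (hj : r (z b) (x j)) (hij : i + (a : ZMod m) = j + b) :
    False := by
  obtain ⟨g, hg⟩ : ∃ g, b = a + g := ⟨b - a, by omega⟩
  have hg1 : 1 ≤ g := by omega
  have hgm : g ≤ m := by omega
  have hig : i = j + (g : ZMod m) := by
    rw [hg, Nat.cast_add] at hij
    have : i + (a : ZMod m) = (j + g) + a := by rw [hij]; ring
    exact add_right_cancel this
  set c : ℕ → V := fun t => if t ≤ m - g then x (i + (t : ZMod m))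
    else z (b - (t - (m - g + 1))) with hc
  have hc1 : ∀ t, t ≤ m - g → c t = x (i + (t : ZMod m)) := by
    intro t ht
    simp only [hc, if_pos ht]
  have hc2 : ∀ t, ¬ t ≤ m - g → c t = z (b - (t - (m - g + 1))) := by
    intro t ht
    simp only [hc, if_neg ht]
  have hinjx : ∀ t t' : ℕ, t < m → t' < m → x (i + (t : ZMod m)) = x (i + (t' : ZMod m)) →
      t = t' := by
    intro t t' ht ht' h
    have h1 := hx.inj h
    have h2 : (t : ZMod m) = (t' : ZMod m) := add_left_cancel h1
    rw [ZMod.natCast_eq_natCast_iff'] at h2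
    rwa [Nat.mod_eq_of_lt ht, Nat.mod_eq_of_lt ht'] at h2
  refine hno c ⟨⟨?_, ?_, ?_⟩, ?_⟩
  · intro t ht
    by_cases h : t ≤ m - g
    · rw [hc1 t h]
      exact hx.mem _
    · rw [hc2 t h]
      exact hz.1 _ (by omega)
  · intro t ht t' ht' heq
    by_cases h : t ≤ m - g
    · by_cases h' : t' ≤ m - g
      · rw [hc1 t h, hc1 t' h'] at heq
        exact hinjx t t' (by omega) (by omega) heq
      · rw [hc1 t h, hc2 t' h'] at heq
        exact absurd heq.symm (hd _ (by omega) _)
    · by_cases h' : t' ≤ m - g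
      · rw [hc2 t h, hc1 t' h'] at heq
        exact absurd heq (hd _ (by omega) _)
      · rw [hc2 t h, hc2 t' h'] at heq
        have := hz.2.1 _ (by omega) _ (by omega) heq
        omega
  · intro t ht
    by_cases h : t + 1 ≤ m - g
    · rw [hc1 t (by omega), hc1 (t + 1) h]
      have := hx.adj (i + (t : ZMod m))
      rwa [add_assoc, ← Nat.cast_succ] at this
    · by_cases h' : t ≤ m - g
      · have ht' : t = m - g := by omega
        rw [hc1 t h', hc2 (t + 1) h, ht']
        have e1 : b - (m - g + 1 - (m - g + 1)) = b := by omega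
        have e2 : i + ((m - g : ℕ) : ZMod m) = j := by
          rw [Nat.cast_sub hgm, ZMod.natCast_self, hig]
          ring
        rw [e1, e2]
        exact hs _ _ hj
      · rw [hc2 t h', hc2 (t + 1) h]
        have h3 := hz.2.2 (b - (t + 1 - (m - g + 1))) (by omega)
        have e1 : b - (t + 1 - (m - g + 1)) + 1 = b - (t - (m - g + 1)) := by omega
        rw [e1] at h3
        exact hs _ _ h3
  · have e0 : m + 2 - 1 = m + 1 := by omega
    rw [e0, hc2 (m + 1) (by omega), hc1 0 (by omega)]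
    have e1 : b - (m + 1 - (m - g + 1)) = a := by omega
    rw [e1, Nat.cast_zero, add_zero]
    exact hi

private lemma parPath_alt {V : Type*} (r : V → V → Prop) (m : ℕ) [NeZero m] (x : ZMod m → V)
    (P T : Finset V) (z : ℕ → V) (k : ℕ) (hz : PathIn (PZ r m x P) T z k) (a : ℕ) (ha : a < k) :
    (z a ∈ P) ↔ (a % 2 = 0 ↔ z 0 ∈ P) := by
  induction a with
  | zero => simp
  | succ a ih =>
    have h1 := ih (by omega)
    have h2 := (hz.2.2 a ha).2
    have h3 : z (a + 1) ∈ P ↔ ¬ z a ∈ P := by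
      rcases h2 with ⟨h4, _, h5⟩ | ⟨h4, _, h5⟩
      · exact ⟨fun h => absurd h h5, fun h => absurd h4 h⟩
      · exact ⟨fun _ => h5, fun _ => h4⟩
    rw [h3, h1]
    have h6 : (a + 1) % 2 = 0 ↔ ¬ a % 2 = 0 := by omega
    rw [h6]
    tauto

private lemma parPath_card (m : ℕ) [NeZero m] (hev : Even m) (c : ℕ) :
    (univ.filter (fun j : ZMod m => j.val % 2 = c)).card ≤ m / 2 := by
  have h : (univ.filter (fun j : ZMod m => j.val % 2 = c)).card ≤ (range (m / 2)).card := by
    refine Finset.card_le_card_of_injOn (fun j => j.val / 2) ?_ ?_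
    · intro j _
      have h1 := ZMod.val_lt j
      obtain ⟨q, hq⟩ := hev
      simp only [Finset.coe_range, Set.mem_Iio]
      omega
    · intro j hj j' hj' hjj
      simp only [Finset.coe_filter, Finset.mem_univ, true_and, Set.mem_ofPred_eq] at hj hj'
      have h2 : j.val / 2 = j'.val / 2 := hjj
      apply ZMod.val_injective m
      omega
  rwa [Finset.card_range] at h

private lemma parPath_val (m : ℕ) [NeZero m] (hev : Even m) (i : ZMod m) (a : ℕ) :
    (i + (a : ZMod m)).val % 2 = (i.val + a) % 2 := by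
  have h2 : 2 ∣ m := hev.two_dvd
  rw [ZMod.val_add, ZMod.val_natCast, Nat.mod_mod_of_dvd _ h2, Nat.add_mod,
    Nat.mod_mod_of_dvd _ h2, ← Nat.add_mod]

/-- the case of a short path -/
private lemma parPath_short {V : Type*} (r : V → V → Prop) (hs : ∀ a b, r a b → r b a)
    (S : Finset V) (m : ℕ) [NeZero m] (hev : Even m) (x : ZMod m → V)
    (hx : Cyc r S m x) (hno : ∀ c, ¬ CycIn r S c (m + 2)) (Y : Finset V) (hY : Y ⊆ S)
    (hd : ∀ y ∈ Y, ∀ j, y ≠ x j) (s : ℕ) (P : Finset V) (hPY : P ⊆ Y)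
    (z : ℕ → V) (k : ℕ) (hk : k ≤ m + 1)
    (hz : PathIn (PZ r m x P) (P ∪ Zs r m x Y) z k) : pw (wp r m x s) z k ≤ m / 2 := by
  have hZY : ∀ i, i < k → z i ∈ Y := by
    intro i hi
    rcases Finset.mem_union.1 (hz.1 i hi) with h | h
    · exact hPY h
    · exact (Finset.mem_filter.1 h).1
  have hz' : PathIn r S z k :=
    ⟨fun i hi => hY (hZY i hi), hz.2.1, fun i hi => (hz.2.2 i hi).1⟩
  have hd' : ∀ i, i < k → ∀ j, z i ≠ x j := fun i hi j => hd _ (hZY i hi) j
  have hmem : ∀ (y : V) (i : ZMod m), i ∈ J r m x y ↔ r y (x i) := by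
    intro y i
    unfold J
    rw [Finset.mem_filter]
    exact ⟨fun h => h.2, fun h => ⟨Finset.mem_univ _, h⟩⟩
  obtain ⟨A, hA⟩ : ∃ A : ℕ → Finset (ZMod m), A = fun a =>
    ((J r m x (z a)).filter (fun i => i.val % 2 = s)).image (fun i => i + (a : ZMod m)) := ⟨_, rfl⟩
  have hAmem : ∀ a e, e ∈ A a → ∃ i, r (z a) (x i) ∧ i.val % 2 = s ∧ i + (a : ZMod m) = e := by
    intro a e he
    rw [hA] at he
    obtain ⟨i, hi, hie⟩ := Finset.mem_image.1 he
    obtain ⟨hi1, hi2⟩ := Finset.mem_filter.1 hi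
    exact ⟨i, (hmem _ _).1 hi1, hi2, hie⟩
  have hdis : ∀ a ∈ (range k : Set ℕ), ∀ b ∈ (range k : Set ℕ), a ≠ b →
      Disjoint (A a) (A b) := by
    intro a ha b hb hab
    rw [Finset.mem_coe, Finset.mem_range] at ha hb
    rw [Finset.disjoint_left]
    intro e he he'
    obtain ⟨i, hi, _, hie⟩ := hAmem a e he
    obtain ⟨j, hj, _, hje⟩ := hAmem b e he'
    rcases lt_or_gt_of_ne hab with h | h
    · exact parPath_cyc r hs S m x hx hno z k hz' hd' hk a b h hb i j hi hj (by rw [hie, hje])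
    · exact parPath_cyc r hs S m x hx hno z k hz' hd' hk b a h ha j i hj hi (by rw [hie, hje])
  have hcard : ∀ a ∈ range k, wp r m x s (z a) = (A a).card := by
    intro a _
    rw [hA]
    unfold wp
    rw [Finset.card_image_of_injective _ (add_left_injective _)]
  obtain ⟨a0, ha0⟩ : ∃ a0 : ℕ, ∀ a, a < k → z a ∈ P → a % 2 = a0 := by
    by_cases h0 : z 0 ∈ P
    · refine ⟨0, fun a ha haP => ?_⟩
      exact ((parPath_alt r m x P _ z k hz a ha).1 haP).2 h0
    · refine ⟨1, fun a ha haP => ?_⟩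
      have h1 := (parPath_alt r m x P _ z k hz a ha).1 haP
      have h2 : ¬ a % 2 = 0 := fun h => h0 (h1.1 h)
      omega
  have hsub : (range k).biUnion A ⊆
      univ.filter (fun j : ZMod m => j.val % 2 = (s + a0) % 2) := by
    intro e he
    obtain ⟨a, ha, hea⟩ := Finset.mem_biUnion.1 he
    rw [Finset.mem_range] at ha
    obtain ⟨i, hi, his, hie⟩ := hAmem a e hea
    have haP : z a ∈ P := by
      rcases Finset.mem_union.1 (hz.1 a ha) with h | h
      · exact h
      · exfalso
        have h1 := (Finset.mem_filter.1 h).2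
        unfold wt at h1
        rw [Finset.card_eq_zero] at h1
        have h2 := (hmem (z a) i).2 hi
        rw [h1] at h2
        exact absurd h2 (Finset.notMem_empty _)
    rw [Finset.mem_filter]
    refine ⟨Finset.mem_univ _, ?_⟩
    rw [← hie, parPath_val m hev]
    have h1 := ha0 a ha haP
    omega
  unfold pw
  rw [Finset.sum_congr rfl hcard, ← Finset.card_biUnion hdis]
  exact (Finset.card_le_card hsub).trans (parPath_card m hev _)

/-- The alternating path lemma for one parity class `s` of the positions of the cycle.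

PROOF. Write `w y = wp r m x s y`, `h = m / 2`. In the path consecutive vertices alternate between
`P` and weight 0 (`PZ`). (1) Let `k ≤ m + 1`. As in `path_weight` (module `PathW`; its private lemma
`path_weight_aux` must be copied, or use the statement that the sets `J (z a) + a`, `a < k`, are
pairwise disjoint) the sets `A_a = {i + a : i ∈ J (z a), i.val % 2 = s}` are pairwise disjoint. All
the `a` with `z a ∈ P` have the same parity `a₀ % 2`, so (`m` even: the parity of `(i + a).val` is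
`(i.val + a) % 2`) all the nonempty `A_a` lie in the set of the `j : ZMod m` with
`j.val % 2 = (s + a₀) % 2`, which has `h` elements. So `pw w z k = ∑_a |A_a| ≤ h`
(`A_a = ∅` if `z a ∉ P`, as then its weight is 0).
(2) Let `k ≥ m + 2`. One of `z 0, z 1` is in `P`, say `z s₀`. The window
`z s₀, z (s₀+1), ..., z (s₀+m)` is a path with `m + 1` vertices, and
`z s₀, z (s₀+2), ..., z (s₀+m)` are `h + 1` vertices of `P`, each with `w ≥ 1`; contradiction
to (1) for the window. (For `k = 1` and `k = 0` case (1) applies, no alternation needed.) -/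
theorem par_path {V : Type*} (r : V → V → Prop) (hs : ∀ a b, r a b → r b a)
    (S : Finset V) (m : ℕ) [NeZero m] (hm : 2 ≤ m) (hev : Even m) (x : ZMod m → V)
    (hx : Cyc r S m x) (hno : ∀ c, ¬ CycIn r S c (m + 2)) (Y : Finset V) (hY : Y ⊆ S)
    (hd : ∀ y ∈ Y, ∀ j, y ≠ x j) (s : ℕ) (P : Finset V) (hPY : P ⊆ Y)
    (hP : ∀ y ∈ P, 1 ≤ wp r m x s y) (z : ℕ → V) (k : ℕ)
    (hz : PathIn (PZ r m x P) (P ∪ Zs r m x Y) z k) : pw (wp r m x s) z k ≤ m / 2 := by
  by_cases hk : k ≤ m + 1
  · exact parPath_short r hs S m hev x hx hno Y hY hd s P hPY z k hk hz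
  exfalso
  have hk2 : m + 2 ≤ k := by omega
  obtain ⟨s0, hs0, hs0P⟩ : ∃ s0, s0 ≤ 1 ∧ z s0 ∈ P := by
    rcases (hz.2.2 0 (by omega)).2 with ⟨h1, _, _⟩ | ⟨h1, _, _⟩
    · exact ⟨0, by omega, h1⟩
    · exact ⟨1, le_rfl, h1⟩
  have hz' : PathIn (PZ r m x P) (P ∪ Zs r m x Y) (fun i => z (s0 + i)) (m + 1) := by
    refine ⟨fun i hi => hz.1 _ (by omega), fun i hi j hj h => ?_, fun i hi => ?_⟩
    · have := hz.2.1 (s0 + i) (by omega) (s0 + j) (by omega) h
      omega
    · exact hz.2.2 (s0 + i) (by omega)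
  have h1 := parPath_short r hs S m hev x hx hno Y hY hd s P hPY _ (m + 1) le_rfl hz'
  have h2 : ∀ j ∈ range (m / 2 + 1), 1 ≤ wp r m x s (z (s0 + 2 * j)) := by
    intro j hj
    rw [Finset.mem_range] at hj
    apply hP
    have h3 := (parPath_alt r m x P _ _ (m + 1) hz' (2 * j) (by omega)).2
    apply h3
    simp only [Nat.mul_mod_right, add_zero, true_iff]
    exact hs0P
  have h3 : m / 2 + 1 ≤ ∑ j ∈ range (m / 2 + 1), wp r m x s (z (s0 + 2 * j)) := by
    have h4 := Finset.sum_le_sum h2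
    simpa using h4
  have h4 : ∑ j ∈ range (m / 2 + 1), wp r m x s (z (s0 + 2 * j)) =
      ∑ i ∈ (range (m / 2 + 1)).image (fun j => 2 * j), wp r m x s (z (s0 + i)) := by
    rw [Finset.sum_image]
    intro a _ b _ hab
    have hab' : 2 * a = 2 * b := hab
    omega
  have h5 : ∑ i ∈ (range (m / 2 + 1)).image (fun j => 2 * j), wp r m x s (z (s0 + i)) ≤
      pw (wp r m x s) (fun i => z (s0 + i)) (m + 1) := by
    unfold pw
    refine Finset.sum_le_sum_of_subset ?_
    intro i hi
    obtain ⟨j, hj, rfl⟩ := Finset.mem_image.1 hi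
    rw [Finset.mem_range] at hj ⊢
    omega
  omega

end Pool.Agent.Lib.MP_22c8c7_co
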