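import Mathlib
import Pool.Agent.Lib.MP_22c8c7_co.P2Defs
import Pool.Agent.Lib.MP_22c8c7_co.ParPath
import Pool.Agent.Lib.MP_22c8c7_co.WEG

set_option autoImplicit false

namespace Pool.Agent.Lib.MP_22c8c7_co

open Finset
open scoped Classical

private theorem parSum_wp_le {V : Type*} (r : V → V → Prop) (m : ℕ) [NeZero m] (x : ZMod m → V)
    (s : ℕ) (y : V) : wp r m x s y ≤ wt r m x y :=
  Finset.card_le_card (Finset.filter_subset _ _)

private theorem parSum_wt {V : Type*} (r : V → V → Prop) (m : ℕ) [NeZero m] (x : ZMod m → V)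
    (y : V) : wp r m x 0 y + wp r m x 1 y = wt r m x y := by
  have h := Finset.card_filter_add_card_filter_not (s := J r m x y)
    (fun i : ZMod m => i.val % 2 = 0)
  have h1 : (J r m x y).filter (fun i : ZMod m => ¬ i.val % 2 = 0) =
      (J r m x y).filter (fun i : ZMod m => i.val % 2 = 1) := by
    apply Finset.filter_congr
    intro i _
    omega
  rw [h1] at h
  exact h

/-- One parity class.

PROOF. `weg` for the relation `PZ r m x P` (symmetric, irreflexive) on the set `P ∪ Zs r m x Y`,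
weights `wp r m x s`, `μ = m / 2` (`par_path`). `P` and `Zs` are disjoint (`1 ≤ wp ≤ wt` on `P`).
Drop the terms of `Zs` (or note that they are 0), and for `y ∈ P` the `PZ`-neighbours of `y` in
`P ∪ Zs` are exactly its `r`-neighbours in `Zs`, so `dg (PZ ..) (P ∪ Zs) y = dz r m x Y y`. -/
theorem par_one {V : Type*} (r : V → V → Prop) (hs : ∀ a b, r a b → r b a)
    (hi : ∀ a, ¬ r a a) (S : Finset V) (m : ℕ) [NeZero m] (hm : 2 ≤ m) (hev : Even m)
    (x : ZMod m → V) (hx : Cyc r S m x) (hno : ∀ c, ¬ CycIn r S c (m + 2)) (Y : Finset V)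
    (hY : Y ⊆ S) (hd : ∀ y ∈ Y, ∀ j, y ≠ x j) (s : ℕ) (P : Finset V) (hPY : P ⊆ Y)
    (hP : ∀ y ∈ P, 1 ≤ wp r m x s y) :
    ∑ y ∈ P, wp r m x s y * (dz r m x Y y + 1) ≤ m / 2 * (P.card + (Zs r m x Y).card) := by
  have hsP : ∀ a b, PZ r m x P a b → PZ r m x P b a := fun a b h => ⟨hs _ _ h.1, h.2.symm⟩
  have hiP : ∀ a, ¬ PZ r m x P a a := fun a h => hi a h.1
  have h := weg (PZ r m x P) hsP hiP (wp r m x s) (m / 2) (P ∪ Zs r m x Y)
    (fun z k hz => par_path r hs S m hm hev x hx hno Y hY hd s P hPY hP z k hz)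
  have hnP : ∀ u ∈ Zs r m x Y, u ∉ P := by
    intro u hu huP
    have h1 : wt r m x u = 0 := (Finset.mem_filter.1 hu).2
    have h2 := parSum_wp_le r m x s u
    have h3 := hP u huP
    omega
  have hdz : ∀ y ∈ P, dz r m x Y y ≤ dg (PZ r m x P) (P ∪ Zs r m x Y) y := by
    intro y hy
    apply Finset.card_le_card
    intro u hu
    rw [Finset.mem_filter] at hu
    exact Finset.mem_filter.2 ⟨Finset.mem_union_right _ hu.1, hu.2,
      Or.inl ⟨hy, (Finset.mem_filter.1 hu.1).2, hnP u hu.1⟩⟩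
  calc ∑ y ∈ P, wp r m x s y * (dz r m x Y y + 1)
      ≤ ∑ y ∈ P, wp r m x s y * (dg (PZ r m x P) (P ∪ Zs r m x Y) y + 1) :=
        Finset.sum_le_sum fun y hy => Nat.mul_le_mul_left _ (Nat.succ_le_succ (hdz y hy))
    _ ≤ ∑ y ∈ P ∪ Zs r m x Y, wp r m x s y * (dg (PZ r m x P) (P ∪ Zs r m x Y) y + 1) :=
        Finset.sum_le_sum_of_subset Finset.subset_union_left
    _ ≤ m / 2 * (P ∪ Zs r m x Y).card := h
    _ ≤ m / 2 * (P.card + (Zs r m x Y).card) :=
        Nat.mul_le_mul_left _ (Finset.card_union_le _ _)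

/-- The second cost inequality.

PROOF. Let `h = m / 2`, `m = 2 h`, and for `s = 0, 1` let `P_s` be the set of the `y ∈ Y` with
`h < wp s y * (dz y + 1)` (so `wp s y ≥ 1`). By `par_one`,
`∑_{y ∈ P_s} (wp s y (dz y + 1) - h) ≤ h |Zs|`, and the (truncated) term
`wp s y * (dz y + 1) - h` is 0 for `y ∉ P_s`. So
`∑_{y ∈ Y} ((wp 0 y (dz y + 1) - h) + (wp 1 y (dz y + 1) - h)) ≤ 2 h |Zs| = m |Zs|` (truncated
subtractions). Finally `c2 y ≤ (wp 0 y (dz y + 1) - h) + (wp 1 y (dz y + 1) - h)`: `wp 0 y + wp 1 y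
= wt y`; for `wt y = 1` one of them is 1 and the other 0; for `wt y ≥ 2` use
`(a - h) + (b - h) ≥ (a + b) - 2 h` for truncated subtraction. -/
theorem par_sum {V : Type*} (r : V → V → Prop) (hs : ∀ a b, r a b → r b a)
    (hi : ∀ a, ¬ r a a) (S : Finset V) (m : ℕ) [NeZero m] (hm : 2 ≤ m) (hev : Even m)
    (x : ZMod m → V) (hx : Cyc r S m x) (hno : ∀ c, ¬ CycIn r S c (m + 2)) (Y : Finset V)
    (hY : Y ⊆ S) (hd : ∀ y ∈ Y, ∀ j, y ≠ x j) :
    ∑ y ∈ Y, c2 r m x Y y ≤ m * (Zs r m x Y).card := by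
  have hm2 : m = 2 * (m / 2) := by
    obtain ⟨c, hc⟩ := hev
    omega
  have key : ∀ s : ℕ, ∑ y ∈ Y, (wp r m x s y * (dz r m x Y y + 1) - m / 2) ≤
      m / 2 * (Zs r m x Y).card := by
    intro s
    have h1 := par_one r hs hi S m hm hev x hx hno Y hY hd s
      (Y.filter fun y => m / 2 < wp r m x s y * (dz r m x Y y + 1)) (Finset.filter_subset _ _)
      (fun y hy => by
        have h2 := (Finset.mem_filter.1 hy).2
        by_contra h3
        have h4 : wp r m x s y = 0 := by omega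
        rw [h4, zero_mul] at h2
        omega)
    set P : Finset V := Y.filter fun y => m / 2 < wp r m x s y * (dz r m x Y y + 1) with hP
    have h2 : ∑ y ∈ Y, (wp r m x s y * (dz r m x Y y + 1) - m / 2) =
        ∑ y ∈ P, (wp r m x s y * (dz r m x Y y + 1) - m / 2) := by
      rw [hP, Finset.sum_filter]
      refine Finset.sum_congr rfl fun y _ => ?_
      split_ifs with h3
      · rfl
      · exact Nat.sub_eq_zero_of_le (not_lt.1 h3)
    have h3 : ∑ y ∈ P, (wp r m x s y * (dz r m x Y y + 1) - m / 2) + m / 2 * P.card =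
        ∑ y ∈ P, wp r m x s y * (dz r m x Y y + 1) := by
      have h4 : m / 2 * P.card = ∑ _y ∈ P, m / 2 := by
        rw [Finset.sum_const, smul_eq_mul, mul_comm]
      rw [h4, ← Finset.sum_add_distrib]
      refine Finset.sum_congr rfl fun y hy => ?_
      exact Nat.sub_add_cancel (Finset.mem_filter.1 hy).2.le
    rw [mul_add] at h1
    rw [h2]
    omega
  have hc : ∀ y ∈ Y, c2 r m x Y y ≤ (wp r m x 0 y * (dz r m x Y y + 1) - m / 2) +
      (wp r m x 1 y * (dz r m x Y y + 1) - m / 2) := by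
    intro y _
    have hw := parSum_wt r m x y
    unfold c2
    split_ifs with h1 h2
    · exact Nat.zero_le _
    · have h3 : (wp r m x 0 y = 1 ∧ wp r m x 1 y = 0) ∨ (wp r m x 0 y = 0 ∧ wp r m x 1 y = 1) := by
        omega
      rcases h3 with ⟨h3, h4⟩ | ⟨h3, h4⟩
      · rw [h3, h4, one_mul, zero_mul]
        omega
      · rw [h3, h4, one_mul, zero_mul]
        omega
    · rw [← hw, add_mul]
      omega
  calc ∑ y ∈ Y, c2 r m x Y y
      ≤ ∑ y ∈ Y, ((wp r m x 0 y * (dz r m x Y y + 1) - m / 2) +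
        (wp r m x 1 y * (dz r m x Y y + 1) - m / 2)) := Finset.sum_le_sum hc
    _ = ∑ y ∈ Y, (wp r m x 0 y * (dz r m x Y y + 1) - m / 2) +
        ∑ y ∈ Y, (wp r m x 1 y * (dz r m x Y y + 1) - m / 2) := Finset.sum_add_distrib
    _ ≤ m / 2 * (Zs r m x Y).card + m / 2 * (Zs r m x Y).card := Nat.add_le_add (key 0) (key 1)
    _ = m * (Zs r m x Y).card := by
        rw [← add_mul]
        congr 1
        omega

end Pool.Agent.Lib.MP_22c8c7_co
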