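import Mathlib
import Pool.Agent.Lib.MP_22c8c7_co.P2Defs
import Pool.Agent.Lib.MP_22c8c7_co.Count

set_option autoImplicit false

namespace Pool.Agent.Lib.MP_22c8c7_co

open Finset
open scoped Classical

/-- The exact count.

PROOF. As in `ds_split` (module `Count`: `count_dg_split`, `count_double`), with `ds r C` kept:
`ds r S = ∑_{v ∈ C} (dg r C v + dg r Y v) + ∑_{y ∈ Y} (dg r C y + dg r Y y)` with `Y = S \ C`, and
`∑_{v ∈ C} dg r Y v = ∑_{y ∈ Y} dg r C y`, `dg r C y = wt r m x y` (`x` injective). -/
theorem ds_exact {V : Type*} (r : V → V → Prop) (hs : ∀ a b, r a b → r b a) (S : Finset V)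
    (m : ℕ) [NeZero m] (x : ZMod m → V) (hx : Cyc r S m x) :
    ds r S = ds r (univ.image x) + 2 * ∑ y ∈ S \ univ.image x, wt r m x y +
      ds r (S \ univ.image x) := by
  have hC : univ.image x ⊆ S := by
    intro v hv
    obtain ⟨i, _, rfl⟩ := Finset.mem_image.1 hv
    exact hx.mem i
  have hwt : ∀ y, dg r (univ.image x) y = wt r m x y := by
    intro y
    unfold dg wt J
    rw [Finset.filter_image, Finset.card_image_of_injective _ hx.inj]
  have h1 : ds r S = ∑ y ∈ S \ univ.image x, (dg r (univ.image x) y + dg r (S \ univ.image x) y) +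
      ∑ v ∈ univ.image x, (dg r (univ.image x) v + dg r (S \ univ.image x) v) := by
    unfold ds
    rw [← Finset.sum_sdiff hC]
    congr 1
    · exact Finset.sum_congr rfl fun v _ => count_dg_split r S _ hC v
    · exact Finset.sum_congr rfl fun v _ => count_dg_split r S _ hC v
  have h3 := count_double r hs (univ.image x) (S \ univ.image x)
  have h4 : ∑ y ∈ S \ univ.image x, dg r (univ.image x) y =
      ∑ y ∈ S \ univ.image x, wt r m x y := Finset.sum_congr rfl fun y _ => hwt y
  rw [h1, Finset.sum_add_distrib, Finset.sum_add_distrib, h3, h4]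
  have h5 : ds r (S \ univ.image x) =
      ∑ y ∈ S \ univ.image x, dg r (S \ univ.image x) y := rfl
  have h6 : ds r (univ.image x) = ∑ v ∈ univ.image x, dg r (univ.image x) v := rfl
  rw [h5, h6]
  omega

/-- The degree in `S` of a vertex outside the cycle.

PROOF. `count_dg_split`. -/
theorem dg_exact {V : Type*} (r : V → V → Prop) (S : Finset V) (m : ℕ) [NeZero m]
    (x : ZMod m → V) (hx : Cyc r S m x) (y : V) :
    dg r S y = wt r m x y + dg r (S \ univ.image x) y := by
  have hC : univ.image x ⊆ S := by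
    intro v hv
    obtain ⟨i, _, rfl⟩ := Finset.mem_image.1 hv
    exact hx.mem i
  have hwt : dg r (univ.image x) y = wt r m x y := by
    unfold dg wt J
    rw [Finset.filter_image, Finset.card_image_of_injective _ hx.inj]
  rw [count_dg_split r S _ hC y, hwt]

/-- Removing a set `A`.

PROOF. `ds r Y = ∑_{y ∈ A} dg r Y y + ∑_{y ∈ Y \ A} dg r Y y`, and for `y ∈ Y \ A`
`dg r Y y = dg r A y + dg r (Y \ A) y`; `∑_{y ∈ Y \ A} dg r A y = ∑_{v ∈ A} dg r (Y \ A) v ≤
∑_{v ∈ A} dg r Y v` (`count_double`, `count_dg_mono`). -/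
theorem ds_remove {V : Type*} (r : V → V → Prop) (hs : ∀ a b, r a b → r b a)
    (A Y : Finset V) (hA : A ⊆ Y) :
    ds r Y ≤ 2 * ∑ y ∈ A, dg r Y y + ds r (Y \ A) := by
  have h1 : ds r Y = ∑ y ∈ Y \ A, (dg r A y + dg r (Y \ A) y) + ∑ v ∈ A, dg r Y v := by
    unfold ds
    rw [← Finset.sum_sdiff hA]
    congr 1
    exact Finset.sum_congr rfl fun v _ => count_dg_split r Y _ hA v
  have h3 := count_double r hs A (Y \ A)
  have h4 : ∑ v ∈ A, dg r (Y \ A) v ≤ ∑ v ∈ A, dg r Y v :=
    Finset.sum_le_sum fun v _ => count_dg_mono r Finset.sdiff_subset v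
  have h5 : ds r (Y \ A) = ∑ y ∈ Y \ A, dg r (Y \ A) y := rfl
  rw [h1, Finset.sum_add_distrib, h5]
  omega

/-- Removing one vertex.

PROOF. `ds_remove` with `A = {v}` is `≤`; the equality is the same count (`¬ r v v`). -/
theorem ds_erase {V : Type*} (r : V → V → Prop) (hs : ∀ a b, r a b → r b a)
    (hi : ∀ a, ¬ r a a) (S : Finset V) (v : V) (hv : v ∈ S) :
    ds r S = 2 * dg r S v + ds r (S.erase v) := by
  have hA : {v} ⊆ S := Finset.singleton_subset_iff.2 hv
  have h1 : ds r S = ∑ y ∈ S \ {v}, (dg r {v} y + dg r (S \ {v}) y) + ∑ u ∈ {v}, dg r S u := by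
    unfold ds
    rw [← Finset.sum_sdiff hA]
    congr 1
    exact Finset.sum_congr rfl fun u _ => count_dg_split r S _ hA u
  have h3 := count_double r hs {v} (S \ {v})
  have h4 : dg r S v = dg r {v} v + dg r (S \ {v}) v := count_dg_split r S _ hA v
  have h5 : dg r {v} v = 0 := by
    unfold dg
    rw [Finset.card_eq_zero, Finset.filter_eq_empty_iff]
    intro u hu
    rw [Finset.mem_singleton] at hu
    rw [hu]
    exact hi v
  have h6 : ds r (S \ {v}) = ∑ y ∈ S \ {v}, dg r (S \ {v}) y := rfl
  rw [← Finset.sdiff_singleton_eq_erase, h1, Finset.sum_add_distrib, h6]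
  rw [Finset.sum_singleton] at h3 ⊢
  omega

/-- The degree sum is even.

PROOF. Induction on `S` with `ds_erase`. -/
theorem ds_even {V : Type*} (r : V → V → Prop) (hs : ∀ a b, r a b → r b a)
    (hi : ∀ a, ¬ r a a) (S : Finset V) : Even (ds r S) := by
  induction S using Finset.induction_on with
  | empty => simp [ds]
  | insert v S hv ih =>
    rw [ds_erase r hs hi (insert v S) v (Finset.mem_insert_self v S), Finset.erase_insert hv]
    exact (even_two_mul _).add ih

/-- At most all pairs.

PROOF. `dg r S v ≤ |S| - 1` for `v ∈ S` (`r` irreflexive). -/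
theorem ds_le {V : Type*} (r : V → V → Prop) (hi : ∀ a, ¬ r a a) (S : Finset V) :
    ds r S ≤ S.card * (S.card - 1) := by
  calc ds r S = ∑ v ∈ S, dg r S v := rfl
    _ ≤ ∑ v ∈ S, (S.card - 1) := by
        refine Finset.sum_le_sum fun v hv => ?_
        unfold dg
        have : S.filter (fun u => r v u) ⊆ S.erase v := by
          intro u hu
          rw [Finset.mem_filter] at hu
          refine Finset.mem_erase.2 ⟨?_, hu.1⟩
          rintro rfl
          exact hi _ hu.2
        have h3 := Finset.card_le_card this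
        rwa [Finset.card_erase_of_mem hv] at h3
    _ = S.card * (S.card - 1) := by rw [Finset.sum_const, smul_eq_mul]

/-- Splitting off a vertex `z ∉ C`: `dg r C z = wt z` for `C = univ.image x`. -/
theorem dg_image {V : Type*} (r : V → V → Prop) (S : Finset V) (m : ℕ) [NeZero m]
    (x : ZMod m → V) (hx : Cyc r S m x) (y : V) : dg r (univ.image x) y = wt r m x y := by
  unfold dg wt J
  rw [Finset.filter_image, Finset.card_image_of_injective _ hx.inj]

end Pool.Agent.Lib.MP_22c8c7_co
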