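import Mathlib
import Pool.Agent.Lib.MP_22c8c7_co.P2Defs
import Pool.Agent.Lib.MP_22c8c7_co.FHat
import Pool.Agent.Lib.MP_22c8c7_co.ParSum
import Pool.Agent.Lib.MP_22c8c7_co.Dual
import Pool.Agent.Lib.MP_22c8c7_co.Split2
import Pool.Agent.Lib.MP_22c8c7_co.Cross

set_option autoImplicit false

namespace Pool.Agent.Lib.MP_22c8c7_co

open Finset
open scoped Classical

/-- The step with an exceptional vertex `z`.

PROOF. `Y = S \ C`, `|Y| = M`, `W = Y.erase z`, `|W| = M - 1`, `D = dg r Y z`, `w0 = wt z`, `A` the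
set of the `y ∈ W` with `dg r Y y ≤ t`, `a = |A|`, `a + 1 ≤ M`. By `crossing` every `y ∈ W` has
`wt y ≤ m + 1 - w0`. Two bounds for `ds r Y`: `ds_remove` for `A` (`|Y \ A| = M - a`):
`ds r Y ≤ 2 ∑_A dg r Y + 2 E (M - a)`; and `ds_remove` for `insert z A`
(`|Y \ insert z A| = M - 1 - a`): `ds r Y ≤ 2 (D + ∑_A dg r Y) + 2 E (M - 1 - a)`. With `ds_exact`
and `hcore`:
`ds r S ≤ 2 (core + min (E (M-a)) (E (M-1-a) + D) + ∑_W wt + ∑_A dg r Y)`.
`fhat_sum`: `∑_W c1 + w0 (D+1) = ∑_Y c1 ≤ m M` (`c1 z = w0 (D+1)` as `w0 ≥ 2`), `par_sum`: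
`∑_W c2 ≤ ∑_Y c2 ≤ m |Zs|`. `dual_sum` with `W` (`Zs ⊆ W` since `wt z > 0`; `dg_exact` gives
`hdeg`): `q (∑_W wt + ∑_A dg r Y) + p1 m (M-1) + p1 w0 (D+1) ≤ a PX + (M-1-a) PY + p1 m M`, i.e.
`q (∑_W wt + ∑_A dg r Y) + p1 w0 (D+1) ≤ a PX + (M-1-a) PY + p1 m`. Take `q, ...` from `hL` for `a`
and `D` (`δ + 1 ≤ w0 + D` by `dg_exact` for `z`): `q (ds r S) < 2 q (F+1)`; `ds_even`. -/
theorem stepE {V : Type*} (r : V → V → Prop) (hs : ∀ a b, r a b → r b a)
    (hi : ∀ a, ¬ r a a) (S : Finset V) (m : ℕ) [NeZero m] (hm : 2 ≤ m) (hev : Even m)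
    (x : ZMod m → V) (hx : Cyc r S m x) (hno : ∀ c, ¬ CycIn r S c (m + 2)) (M : ℕ)
    (hM : S.card = M + m) (δ t : ℕ) (hδ : ∀ v ∈ S, δ + 1 ≤ dg r S v) (E : ℕ → ℕ)
    (hE : ∀ B ⊆ S, B.card ≤ M → ds r B ≤ 2 * E B.card) (F core : ℕ) (II : Bool)
    (z : V) (hz : z ∈ S \ univ.image x) (hw : m < 2 * wt r m x z)
    (hcore : ds r (univ.image x) + 2 * wt r m x z ≤ 2 * core)
    (hII : II = true → ∀ y ∈ S \ univ.image x, 2 ≤ wt r m x y →
      ∀ y' ∈ S \ univ.image x, r y y' → wt r m x y' = 0)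
    (hL : LinE m M δ t (wt r m x z) II core E F) : ds r S ≤ 2 * F := by
  set C : Finset V := univ.image x with hC
  set Y : Finset V := S \ C with hYdef
  have hCS : C ⊆ S := by
    intro v hv
    rw [hC, Finset.mem_image] at hv
    obtain ⟨i, _, rfl⟩ := hv
    exact hx.mem i
  have hCc : C.card = m := by
    rw [hC, Finset.card_image_of_injective _ hx.inj, Finset.card_univ, ZMod.card]
  have hYc : Y.card = M := by
    rw [hYdef, Finset.card_sdiff_of_subset hCS, hM, hCc]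
    omega
  have hYS : Y ⊆ S := Finset.sdiff_subset
  have hYd : ∀ y ∈ Y, ∀ j, y ≠ x j := by
    intro y hy j hj
    rw [hYdef, Finset.mem_sdiff] at hy
    apply hy.2
    rw [hj, hC]
    exact Finset.mem_image_of_mem _ (Finset.mem_univ j)
  set w0 : ℕ := wt r m x z with hw0
  set D : ℕ := dg r Y z with hD
  set W : Finset V := Y.erase z with hWdef
  have hWY : W ⊆ Y := Finset.erase_subset _ _
  have hWc : W.card = M - 1 := by rw [hWdef, Finset.card_erase_of_mem hz, hYc]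
  have hMpos : 1 ≤ M := by
    rw [← hYc]
    exact Finset.card_pos.mpr ⟨z, hz⟩
  have hw2 : 2 ≤ w0 := by omega
  set A : Finset V := W.filter (fun y => dg r Y y ≤ t) with hA
  have hAW : A ⊆ W := Finset.filter_subset _ _
  have hAY : A ⊆ Y := hAW.trans hWY
  have hAc : A.card + 1 ≤ M := by
    have := Finset.card_le_card hAW
    omega
  have hzA : z ∉ A := by
    intro h
    have := hAW h
    rw [hWdef] at this
    exact Finset.notMem_erase z Y this
  have hcap : ∀ y ∈ W, wt r m x y ≤ m + 1 - w0 := by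
    intro y hy
    have hy' : y ≠ z ∧ y ∈ Y := by
      rw [hWdef] at hy
      exact Finset.mem_erase.mp hy
    have := crossing r hs S m hm x hx hno y z (hYS hy'.2) (hYS hz) hy'.1 (hYd y hy'.2) (hYd z hz)
    omega
  have hdeg : ∀ y ∈ W, δ + 1 ≤ wt r m x y + dg r Y y := by
    intro y hy
    have h1 := hδ y (hYS (hWY hy))
    rw [dg_exact r S m x hx y] at h1
    exact h1
  have hdegz : δ + 1 ≤ w0 + D := by
    have h1 := hδ z (hYS hz)
    rw [dg_exact r S m x hx z] at h1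
    exact h1
  have hZ : Zs r m x Y ⊆ W := by
    intro y hy
    unfold Zs at hy
    rw [Finset.mem_filter] at hy
    rw [hWdef, Finset.mem_erase]
    refine ⟨?_, hy.1⟩
    rintro rfl
    have := hy.2
    omega
  obtain ⟨q, p1, p2, PX, PY, hq, hT, hfin⟩ := hL A.card hAc
  have hfin := hfin D hdegz
  have h1 := dual_sum r m x Y W hWY hZ δ t (m + 1 - w0) II q p1 p2 PX PY hT hcap hdeg
    (fun h y hy h2 y' hy' hr => hII h y (hWY hy) h2 y' hy' hr)
  rw [← hA, hWc] at h1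
  have h2 := fhat_sum r hs hi S m hm hev x hx hno Y hYS hYd
  have h3 := par_sum r hs hi S m hm hev x hx hno Y hYS hYd
  rw [← Finset.add_sum_erase Y (c1 r m x Y) hz, hYc] at h2
  rw [← Finset.add_sum_erase Y (c2 r m x Y) hz] at h3
  have hc1z : c1 r m x Y z = w0 * (D + 1) := by
    unfold c1
    rw [if_neg (by omega), if_neg (by omega)]
  rw [hc1z] at h2
  have h4 := ds_exact r hs S m x hx
  rw [← hC, ← hYdef, ← Finset.add_sum_erase Y (wt r m x) hz] at h4
  have h5 := ds_remove r hs A Y hAY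
  have h6 := ds_remove r hs (insert z A) Y (Finset.insert_subset hz hAY)
  rw [Finset.sum_insert hzA] at h6
  have c5 : (Y \ A).card = M - A.card := by rw [Finset.card_sdiff_of_subset hAY, hYc]
  have c6 : (Y \ insert z A).card = M - 1 - A.card := by
    rw [Finset.card_sdiff_of_subset (Finset.insert_subset hz hAY), hYc,
      Finset.card_insert_of_notMem hzA]
    omega
  have h7 := hE (Y \ A) (Finset.sdiff_subset.trans hYS) (by omega)
  have h8 := hE (Y \ insert z A) (Finset.sdiff_subset.trans hYS) (by omega)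
  rw [c5] at h7
  rw [c6] at h8
  rw [← hWdef] at h2 h3 h4
  set SW : ℕ := ∑ y ∈ W, wt r m x y with hSW
  set SA : ℕ := ∑ y ∈ A, dg r Y y with hSA
  set S1 : ℕ := ∑ y ∈ W, c1 r m x Y y with hS1
  set S2 : ℕ := ∑ y ∈ W, c2 r m x Y y with hS2
  set mn : ℕ := min (E (M - A.card)) (E (M - 1 - A.card) + D) with hmn
  have h9 : ds r Y ≤ 2 * SA + 2 * mn := by
    rcases min_choice (E (M - A.card)) (E (M - 1 - A.card) + D) with h | h
    · rw [hmn, h]; omega
    · rw [hmn, h]; omega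
  have h10 : ds r S ≤ 2 * (core + mn + (SW + SA)) := by omega
  have h11 : q * (core + mn + (SW + SA)) < q * (F + 1) := by
    have e1 : p1 * (w0 * (D + 1)) + p1 * S1 ≤ p1 * (m * M) := by
      rw [← Nat.mul_add]
      exact Nat.mul_le_mul_left _ h2
    have e2 : p2 * S2 ≤ p2 * (m * (Zs r m x Y).card) :=
      Nat.mul_le_mul_left _ (by omega)
    have e3 : p1 * (m * M) = p1 * (m * (M - 1)) + p1 * m := by
      obtain ⟨k, rfl⟩ : ∃ k, M = k + 1 := ⟨M - 1, by omega⟩
      rw [Nat.add_sub_cancel]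
      ring
    have e4 : q * (core + mn + (SW + SA)) = q * (core + mn) + q * (SW + SA) := by ring
    rw [e4]
    omega
  have h12 : core + mn + (SW + SA) < F + 1 := Nat.lt_of_mul_lt_mul_left h11
  omega

end Pool.Agent.Lib.MP_22c8c7_co
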