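import Mathlib
import Pool.Agent.Lib.MP_22c8c7_co.P2Defs
import Pool.Agent.Lib.MP_22c8c7_co.FHat
import Pool.Agent.Lib.MP_22c8c7_co.ParSum
import Pool.Agent.Lib.MP_22c8c7_co.Dual
import Pool.Agent.Lib.MP_22c8c7_co.Split2

set_option autoImplicit false

namespace Pool.Agent.Lib.MP_22c8c7_co

open Finset
open scoped Classical

/-- The step without an exceptional vertex.

PROOF. `Y = S \ C`, `|Y| = M`, `A` the set of the `y ∈ Y` with `dg r Y y ≤ t`, `a = |A|`. Take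
`q, p1, p2, PX, PY` from `hL` for this `a`. `ds_exact`, `ds_remove` and `hE` for `Y \ A`
(`|Y \ A| = M - a`):
`ds r S ≤ ds r C + 2 ∑_Y wt + 2 ∑_A dg r Y + 2 E (M - a) ≤ 2 (core + E (M-a) + ∑_Y wt + ∑_A dg r Y)`.
`dual_sum` with `W = Y` (`dg_exact` gives `hdeg`), `fhat_sum` (`∑ c1 ≤ m M`) and `par_sum`
(`∑ c2 ≤ m |Zs|`): `q (∑_Y wt + ∑_A dg r Y) ≤ a PX + (M-a) PY`. So
`q (ds r S) ≤ 2 (q (core + E (M-a)) + a PX + (M-a) PY) < 2 q (F+1)`, hence `ds r S < 2 F + 2` and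
`ds r S` is even (`ds_even`). -/
theorem stepN {V : Type*} (r : V → V → Prop) (hs : ∀ a b, r a b → r b a)
    (hi : ∀ a, ¬ r a a) (S : Finset V) (m : ℕ) [NeZero m] (hm : 2 ≤ m) (hev : Even m)
    (x : ZMod m → V) (hx : Cyc r S m x) (hno : ∀ c, ¬ CycIn r S c (m + 2)) (M : ℕ)
    (hM : S.card = M + m) (δ t : ℕ) (hδ : ∀ v ∈ S, δ + 1 ≤ dg r S v) (E : ℕ → ℕ)
    (hE : ∀ B ⊆ S, B.card ≤ M → ds r B ≤ 2 * E B.card) (F core : ℕ) (II : Bool)
    (hcore : ds r (univ.image x) ≤ 2 * core)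
    (hcap : ∀ y ∈ S \ univ.image x, wt r m x y ≤ m / 2)
    (hII : II = true → ∀ y ∈ S \ univ.image x, 2 ≤ wt r m x y →
      ∀ y' ∈ S \ univ.image x, r y y' → wt r m x y' = 0)
    (hL : LinN m M δ t II core E F) : ds r S ≤ 2 * F := by
  have hC : univ.image x ⊆ S := by
    intro v hv
    obtain ⟨i, _, rfl⟩ := Finset.mem_image.1 hv
    exact hx.mem i
  have hCc : (univ.image x).card = m := by
    rw [Finset.card_image_of_injective _ hx.inj, Finset.card_univ, ZMod.card]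
  obtain ⟨Y, hY⟩ : ∃ Y : Finset V, Y = S \ univ.image x := ⟨_, rfl⟩
  have hYS : Y ⊆ S := by rw [hY]; exact Finset.sdiff_subset
  have hYc : Y.card = M := by
    have h1 := Finset.card_sdiff_add_card_eq_card hC
    rw [hY]; omega
  have hYd : ∀ y ∈ Y, ∀ j, y ≠ x j := by
    intro y hy j h
    rw [hY, Finset.mem_sdiff] at hy
    exact hy.2 (Finset.mem_image.2 ⟨j, Finset.mem_univ _, h.symm⟩)
  obtain ⟨A, hA⟩ : ∃ A : Finset V, A = Y.filter (fun y => dg r Y y ≤ t) := ⟨_, rfl⟩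
  have hAY : A ⊆ Y := by rw [hA]; exact Finset.filter_subset _ _
  have hAc : A.card ≤ M := by rw [← hYc]; exact Finset.card_le_card hAY
  obtain ⟨q, p1, p2, PX, PY, hq, hT, hlin⟩ := hL A.card hAc
  have hdeg : ∀ y ∈ Y, δ + 1 ≤ wt r m x y + dg r Y y := by
    intro y hy
    have h1 := hδ y (hYS hy)
    rw [dg_exact r S m x hx y, ← hY] at h1
    exact h1
  have hdual := dual_sum r m x Y Y (Finset.Subset.refl _) (Finset.filter_subset _ _) δ t (m / 2)
    II q p1 p2 PX PY hT (fun y hy => hcap y (hY ▸ hy)) hdeg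
    (fun hI y hy hw y' hy' hr => hII hI y (hY ▸ hy) hw y' (hY ▸ hy') hr)
  rw [← hA, hYc] at hdual
  have hc1 := fhat_sum r hs hi S m hm hev x hx hno Y hYS hYd
  have hc2 := par_sum r hs hi S m hm hev x hx hno Y hYS hYd
  rw [hYc] at hc1
  have hc1' := Nat.mul_le_mul_left p1 hc1
  have hc2' := Nat.mul_le_mul_left p2 hc2
  have hmain : q * (∑ y ∈ Y, wt r m x y + ∑ y ∈ A, dg r Y y) ≤
      A.card * PX + (M - A.card) * PY := by omega
  have hd1 := ds_exact r hs S m x hx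
  rw [← hY] at hd1
  have hd2 := ds_remove r hs A Y hAY
  have hYA : (Y \ A).card = M - A.card := by
    have h1 := Finset.card_sdiff_add_card_eq_card hAY
    omega
  have hd3 := hE (Y \ A) (Finset.sdiff_subset.trans hYS) (by omega)
  rw [hYA] at hd3
  have hd4 : ds r S ≤ 2 * (core + E (M - A.card) +
      (∑ y ∈ Y, wt r m x y + ∑ y ∈ A, dg r Y y)) := by omega
  have hd5 : q * ds r S < q * (2 * (F + 1)) := by
    calc q * ds r S ≤ q * (2 * (core + E (M - A.card) +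
          (∑ y ∈ Y, wt r m x y + ∑ y ∈ A, dg r Y y))) := Nat.mul_le_mul_left q hd4
      _ = 2 * (q * (core + E (M - A.card)) +
          q * (∑ y ∈ Y, wt r m x y + ∑ y ∈ A, dg r Y y)) := by ring
      _ ≤ 2 * (q * (core + E (M - A.card)) + (A.card * PX + (M - A.card) * PY)) :=
          Nat.mul_le_mul_left 2 (Nat.add_le_add_left hmain _)
      _ = 2 * (q * (core + E (M - A.card)) + A.card * PX + (M - A.card) * PY) := by ring
      _ < 2 * (q * (F + 1)) := Nat.mul_lt_mul_of_pos_left hlin (by norm_num)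
      _ = q * (2 * (F + 1)) := by ring
  have hd6 : ds r S < 2 * (F + 1) := Nat.lt_of_mul_lt_mul_left hd5
  obtain ⟨e, he⟩ := ds_even r hs hi S
  omega

end Pool.Agent.Lib.MP_22c8c7_co
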