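import Mathlib
import Pool.Agent.Lib.MP_22c8c7_co.P2Defs
import Pool.Agent.Lib.MP_22c8c7_co.StepN
import Pool.Agent.Lib.MP_22c8c7_co.StepE
import Pool.Agent.Lib.MP_22c8c7_co.CoreD

set_option autoImplicit false

namespace Pool.Agent.Lib.MP_22c8c7_co

open Finset
open scoped Classical

/-- The case where every vertex outside `D = insert z C` has at most one neighbour in `D`.

PROOF. `Y = S \ C`, `W = Y.erase z = S \ D`, `|D| = m + 1`, `|W| = M - 1`. `ds_remove` with
`A = W`, `Y = S`: hmm, use instead the count `ds r S = ds r D + 2 ∑_{y ∈ W} dg r D y + ds r W` (same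
proof as `ds_exact`: `count_dg_split`, `count_double`), `ds r D ≤ (m+1) m` (`ds_le`),
`dg r D y = wt y + [r y z] ≤ 1`, `ds r W ≤ 2 E (M-1)`. So
`ds r S ≤ m (m+1) + 2 (M-1) + 2 E (M-1)`, and `m (m+1)` is even. -/
theorem step_good {V : Type*} (r : V → V → Prop) (hs : ∀ a b, r a b → r b a)
    (hi : ∀ a, ¬ r a a) (S : Finset V) (m : ℕ) [NeZero m] (hm : 2 ≤ m)
    (x : ZMod m → V) (hx : Cyc r S m x) (M : ℕ) (hM : S.card = M + m) (E : ℕ → ℕ)
    (hE : ∀ B ⊆ S, B.card ≤ M → ds r B ≤ 2 * E B.card)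
    (z : V) (hz : z ∈ S \ univ.image x)
    (h1 : ∀ y ∈ S \ univ.image x, y ≠ z → wt r m x y + (if r y z then 1 else 0) ≤ 1) :
    ds r S ≤ 2 * (m * (m + 1) / 2 + E (M - 1) + (M - 1)) := by
  set C := univ.image x with hCdef
  have hC : C ⊆ S := by
    intro v hv
    obtain ⟨i, _, rfl⟩ := Finset.mem_image.1 hv
    exact hx.mem i
  have hCcard : C.card = m := by
    rw [hCdef, Finset.card_image_of_injective _ hx.inj, Finset.card_univ, ZMod.card]
  have hYcard : (S \ C).card = M := by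
    rw [Finset.card_sdiff_of_subset hC, hCcard, hM]
    omega
  have hzS : z ∈ S := (Finset.mem_sdiff.1 hz).1
  have hzC : z ∉ C := (Finset.mem_sdiff.1 hz).2
  set W := (S \ C).erase z with hWdef
  have hWcard : W.card = M - 1 := by
    rw [hWdef, Finset.card_erase_of_mem hz, hYcard]
  have hWS : W ⊆ S := (Finset.erase_subset _ _).trans Finset.sdiff_subset
  have hDS : insert z C ⊆ S := Finset.insert_subset hzS hC
  have hSD : S \ insert z C = W := by
    ext v
    simp only [hWdef, Finset.mem_sdiff, Finset.mem_insert, Finset.mem_erase, not_or]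
    tauto
  have hDcard : (insert z C).card = m + 1 := by
    rw [Finset.card_insert_of_notMem hzC, hCcard]
  -- the exact count
  have h2 : ds r S = ds r (insert z C) + 2 * ∑ y ∈ W, dg r (insert z C) y + ds r W := by
    have e1 : ds r S = ∑ y ∈ W, (dg r (insert z C) y + dg r W y) +
        ∑ v ∈ insert z C, (dg r (insert z C) v + dg r W v) := by
      unfold ds
      rw [← Finset.sum_sdiff hDS, hSD]
      congr 1
      · refine Finset.sum_congr rfl fun v _ => ?_
        rw [count_dg_split r S _ hDS v, hSD]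
      · refine Finset.sum_congr rfl fun v _ => ?_
        rw [count_dg_split r S _ hDS v, hSD]
    have e2 := count_double r hs (insert z C) W
    rw [e1, Finset.sum_add_distrib, Finset.sum_add_distrib, e2]
    have e3 : ds r W = ∑ y ∈ W, dg r W y := rfl
    have e4 : ds r (insert z C) = ∑ y ∈ insert z C, dg r (insert z C) y := rfl
    rw [e3, e4]
    omega
  have h3 : ∀ y ∈ W, dg r (insert z C) y ≤ 1 := by
    intro y hy
    have hy' := Finset.mem_erase.1 hy
    have e1 : dg r (insert z C) y = wt r m x y + (if r y z then 1 else 0) := by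
      rw [← dg_image r S m x hx y]
      unfold dg
      rw [Finset.filter_insert]
      split_ifs with h
      · rw [Finset.card_insert_of_notMem]
        intro hmem
        exact hzC (Finset.mem_filter.1 hmem).1
      · rfl
    rw [e1]
    exact h1 y hy'.2 hy'.1
  have h4 : ∑ y ∈ W, dg r (insert z C) y ≤ M - 1 := by
    calc ∑ y ∈ W, dg r (insert z C) y ≤ ∑ y ∈ W, 1 := Finset.sum_le_sum h3
      _ = M - 1 := by rw [Finset.sum_const, hWcard, smul_eq_mul, mul_one]
  have h5 : ds r (insert z C) ≤ m * (m + 1) := by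
    have := ds_le r hi (insert z C)
    rw [hDcard, Nat.add_sub_cancel] at this
    rwa [mul_comm m (m + 1)]
  have h6 : ds r W ≤ 2 * E (M - 1) := by
    have := hE W hWS (by rw [hWcard]; omega)
    rwa [hWcard] at this
  have h7 : 2 * (m * (m + 1) / 2) = m * (m + 1) :=
    Nat.two_mul_div_two_of_even (Nat.even_mul_succ_self m)
  rw [h2]
  omega

/-- THE RECURSION STEP.

PROOF. `C = univ.image x`, `Y = S \ C`, `c0 = m (m-1)/2` (`2 c0 = m (m-1)`).
Case (i): all `wt y ≤ m / 2` on `Y`. If some `y ∈ Y` with `wt y ≥ 2` has a neighbour `y' ∈ Y` with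
`wt y' ≥ 1`, then `core_gap` gives `ds r C ≤ m² - 3 m + 6 = 2 (c0 - (m - 3))`: `stepN` with
`II = false`, `h.nI`. Otherwise `stepN` with `II = true`, `h.nII`, `ds r C ≤ m (m-1)` (`ds_le`,
`|C| = m`).
Case (ii): some `z ∈ Y` has `wt z > m / 2`, `w0 = wt z ≤ m`. If all the `y ∈ Y`, `y ≠ z` satisfy
`wt y + [r y z] ≤ 1`: `step_good` and `h.good`. Otherwise `core_D` gives
`ds r C + 2 w0 ≤ m² - m + 4 = 2 (c0 + 2)`. If some `y ∈ Y` with `wt y ≥ 2` has a neighbour `y' ∈ Y`
with `wt y' ≥ 1`: moreover `ds r C + 2 w0 ≤ 2 (c0 - (m-3) + w0)`, and `stepE` with `II = false`,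
`h.eI w0`, `core = min ...`. Otherwise `stepE` with `II = true`, `h.eII w0`. -/
theorem step_main {V : Type*} (r : V → V → Prop) (hs : ∀ a b, r a b → r b a)
    (hi : ∀ a, ¬ r a a) (S : Finset V) (m : ℕ) [NeZero m] (hm : 4 ≤ m) (hev : Even m)
    (x : ZMod m → V) (hx : Cyc r S m x) (hno : ∀ c, ¬ CycIn r S c (m + 2)) (M : ℕ)
    (hM : S.card = M + m) (δ t : ℕ) (hδ : ∀ v ∈ S, δ + 1 ≤ dg r S v) (E : ℕ → ℕ)
    (hE : ∀ B ⊆ S, B.card ≤ M → ds r B ≤ 2 * E B.card) (F : ℕ)
    (h : StepHyp m M δ t E F) : ds r S ≤ 2 * F := by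
  set C := univ.image x with hCdef
  have hC : C ⊆ S := by
    intro v hv
    obtain ⟨i, _, rfl⟩ := Finset.mem_image.1 hv
    exact hx.mem i
  have hCcard : C.card = m := by
    rw [hCdef, Finset.card_image_of_injective _ hx.inj, Finset.card_univ, ZMod.card]
  have hdx : ∀ y ∈ S \ C, ∀ j, y ≠ x j := by
    intro y hy j hj
    refine (Finset.mem_sdiff.1 hy).2 ?_
    rw [hj, hCdef]
    exact Finset.mem_image_of_mem x (Finset.mem_univ j)
  have hS' : ∀ y ∈ S \ C, y ∈ S := fun y hy => (Finset.mem_sdiff.1 hy).1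
  have e1 : 2 * (m * (m - 1) / 2) = m * (m - 1) := by
    have h1 : Even (m * (m - 1)) := by
      have := Nat.even_mul_succ_self (m - 1)
      rw [Nat.sub_add_cancel (by omega), mul_comm] at this
      exact this
    exact Nat.two_mul_div_two_of_even h1
  have e2 : m * (m - 1) + m = m * m := by
    obtain ⟨k, rfl⟩ : ∃ k, m = k + 1 := ⟨m - 1, by omega⟩
    rw [Nat.add_sub_cancel]
    ring
  have e3 : 4 * m ≤ m * m := Nat.mul_le_mul_right m hm
  have hCds : ds r C ≤ 2 * (m * (m - 1) / 2) := by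
    have := ds_le r hi C
    rw [hCcard] at this
    rwa [e1]
  -- the gap in the case of an adjacent pair of total weight at least 3
  have hgap : (∃ y ∈ S \ C, 2 ≤ wt r m x y ∧ ∃ y' ∈ S \ C, r y y' ∧ wt r m x y' ≠ 0) →
      ds r C + 3 * m ≤ m * m + 6 := by
    rintro ⟨y, hy, hwy, y', hy', hr, hwy'⟩
    exact core_gap r hs hi S m (by omega) x hx hno y y' (hS' y hy) (hS' y' hy') (hdx y hy)
      (hdx y' hy') hr hwy (by omega)
  have hnogap : (¬ ∃ y ∈ S \ C, 2 ≤ wt r m x y ∧ ∃ y' ∈ S \ C, r y y' ∧ wt r m x y' ≠ 0) →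
      ∀ y ∈ S \ C, 2 ≤ wt r m x y → ∀ y' ∈ S \ C, r y y' → wt r m x y' = 0 := by
    intro hcon y hy hwy y' hy' hr
    by_contra h0
    exact hcon ⟨y, hy, hwy, y', hy', hr, h0⟩
  by_cases hcap : ∀ y ∈ S \ C, wt r m x y ≤ m / 2
  · by_cases hP : ∃ y ∈ S \ C, 2 ≤ wt r m x y ∧ ∃ y' ∈ S \ C, r y y' ∧ wt r m x y' ≠ 0
    · have h1 := hgap hP
      exact stepN r hs hi S m (by omega) hev x hx hno M hM δ t hδ E hE F _ false
        (by rw [← hCdef]; omega) hcap (fun h => absurd h (by simp)) h.nI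
    · exact stepN r hs hi S m (by omega) hev x hx hno M hM δ t hδ E hE F _ true
        hCds hcap (fun _ => hnogap hP) h.nII
  · push Not at hcap
    obtain ⟨z, hz, hwz⟩ := hcap
    have hw0 : wt r m x z ≤ m := by
      unfold wt
      have := Finset.card_le_univ (J r m x z)
      rwa [ZMod.card] at this
    have hw : m < 2 * wt r m x z := by omega
    by_cases h1 : ∀ y ∈ S \ C, y ≠ z → wt r m x y + (if r y z then 1 else 0) ≤ 1
    · have h2 := step_good r hs hi S m (by omega) x hx M hM E hE z hz h1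
      exact h2.trans (Nat.mul_le_mul_left 2 h.good)
    · push Not at h1
      obtain ⟨y, hy, hyz, hy2⟩ := h1
      have h3 := core_D r hs hi S m (by omega) x hx hno z y (hS' z hz) (hS' y hy) (hdx z hz)
        (hdx y hy) hyz hw hy2
      rw [← hCdef] at h3
      by_cases hP : ∃ y ∈ S \ C, 2 ≤ wt r m x y ∧ ∃ y' ∈ S \ C, r y y' ∧ wt r m x y' ≠ 0
      · have h4 := hgap hP
        exact stepE r hs hi S m (by omega) hev x hx hno M hM δ t hδ E hE F _ false z hz hw
          (by
            rw [← hCdef]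
            rcases min_choice (m * (m - 1) / 2 - (m - 3) + wt r m x z) (m * (m - 1) / 2 + 2)
              with h5 | h5 <;> rw [h5] <;> omega)
          (fun h => absurd h (by simp)) (h.eI _ (by omega) hw0)
      · exact stepE r hs hi S m (by omega) hev x hx hno M hM δ t hδ E hE F _ true z hz hw
          (by rw [← hCdef]; omega) (fun _ => hnogap hP) (h.eII _ (by omega) hw0)

end Pool.Agent.Lib.MP_22c8c7_co
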