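import Mathlib
import Pool.Agent.Lib.MP_22c8c7_co.P2Defs
import Pool.Agent.Lib.MP_22c8c7_co.MaxCyc
import Pool.Agent.Lib.MP_22c8c7_co.StepMain

set_option autoImplicit false

namespace Pool.Agent.Lib.MP_22c8c7_co

open Finset
open scoped Classical

/-- One row of the table: from `C_m`-free graphs (`E'`) to `C_{m+2}`-free graphs (`E`), for all
`N ≤ K`.

PROOF. Strong induction on `N`: `Good r (m+2) N (E N)` for `N ≤ K`. Let `|S| = N`, no closed path
with `m + 2` vertices. If `N ≤ m + 1`: `ds_le` and `h0`. Let `m + 2 ≤ N`, `M = N - m`, and `δ, t` from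
`h1 N`. If some `v ∈ S` has `dg r S v ≤ δ`: `ds_erase`, the induction hypothesis for `S.erase v` and
`E (N-1) + δ ≤ E N`. Otherwise all degrees are `≥ δ + 1`. If `S` has no closed path with `m`
vertices: `hprev` and `E' N ≤ E N`. Otherwise a cycle `x : ZMod m → V` (`cyc_of_cycIn`), and
`step_main` with `E`: for `B ⊆ S`, `|B| ≤ M < N`, `B` has no closed path with `m + 2` vertices
(a closed path in `B` is one in `S`), induction hypothesis. -/
theorem row_sound {V : Type*} (r : V → V → Prop) (hs : ∀ a b, r a b → r b a)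
    (hi : ∀ a, ¬ r a a) (m K : ℕ) (hm : 4 ≤ m) (hev : Even m) (E' E : ℕ → ℕ)
    (hprev : ∀ N, N ≤ K → Good r m N (E' N))
    (h0 : ∀ N, N ≤ m + 1 → N ≤ K → N * (N - 1) ≤ 2 * E N)
    (h1 : ∀ N, m + 2 ≤ N → N ≤ K → E' N ≤ E N ∧ ∃ δ t, E (N - 1) + δ ≤ E N ∧
      StepHyp m (N - m) δ t E (E N)) :
    ∀ N, N ≤ K → Good r (m + 2) N (E N) := by
  have hmono : ∀ (B S : Finset V) (n : ℕ) (c : ℕ → V), B ⊆ S → CycIn r B c n → CycIn r S c n := by
    intro B S n c hBS hc
    exact ⟨⟨fun i hi => hBS (hc.1.1 i hi), hc.1.2⟩, hc.2⟩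
  intro N
  induction N using Nat.strong_induction_on with
  | _ N ih =>
    intro hNK S hS hno
    by_cases hN : N ≤ m + 1
    · have h := ds_le r hi S
      rw [hS] at h
      exact h.trans (h0 N hN hNK)
    · obtain ⟨hEE, δ, t, hδE, hstep⟩ := h1 N (by omega) hNK
      by_cases hdeg : ∃ v ∈ S, dg r S v ≤ δ
      · obtain ⟨v, hv, hvd⟩ := hdeg
        have h2 := ds_erase r hs hi S v hv
        have hc : (S.erase v).card = N - 1 := by rw [card_erase_of_mem hv, hS]
        have h3 := ih (N - 1) (by omega) (by omega) (S.erase v) hc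
          (fun c hc' => hno c (hmono _ _ _ _ (erase_subset v S) hc'))
        omega
      · by_cases hcyc : ∃ c, CycIn r S c m
        · obtain ⟨c, hc⟩ := hcyc
          obtain ⟨x, hx⟩ := cyc_of_cycIn r S m (by omega) c hc
          haveI : NeZero m := ⟨by omega⟩
          refine step_main r hs hi S m hm hev x hx hno (N - m) (by omega) δ t ?_ E ?_ (E N) hstep
          · intro v hv
            by_contra hlt
            exact hdeg ⟨v, hv, by omega⟩
          · intro B hB hBc
            exact ih B.card (by omega) (by omega) B rfl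
              (fun c hc' => hno c (hmono _ _ _ _ hB hc'))
        · have h2 := hprev N hNK S hS (fun c hc => hcyc ⟨c, hc⟩)
          omega

end Pool.Agent.Lib.MP_22c8c7_co
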