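import Mathlib
import Pool.Agent.Lib.MP_22c8c7_co.P2Defs
import Pool.Agent.Lib.MP_22c8c7_co.Split2
import Pool.Agent.Lib.MP_22c8c7_co.KST

set_option autoImplicit false

namespace Pool.Agent.Lib.MP_22c8c7_co

open Finset
open scoped Classical

private theorem Row4_cyc {V : Type*} {r : V → V → Prop} (hs : ∀ a b, r a b → r b a)
    (hi : ∀ a, ¬ r a a) {S : Finset V} {a b v v' : V} (ha : a ∈ S) (hb : b ∈ S) (hv : v ∈ S)
    (hv' : v' ∈ S) (hab : a ≠ b) (hvv : v ≠ v') (h1 : r v a) (h2 : r v b) (h3 : r v' a)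
    (h4 : r v' b) : CycIn r S (fun i => if i = 0 then a else if i = 1 then v else
      if i = 2 then b else v') 4 := by
  have hne : ∀ {x y : V}, r x y → x ≠ y := fun {x y} h e => hi x (by
    have := h
    rw [← e] at this
    exact this)
  refine ⟨⟨?_, ?_, ?_⟩, ?_⟩
  · intro i hi'
    interval_cases i <;> simp_all
  · intro i hi1 j hj1 hij
    have n1 := hne h1
    have n2 := hne h2
    have n3 := hne h3
    have n4 := hne h4
    have n5 := hab
    have n6 := hvv
    interval_cases i <;> interval_cases j <;> simp_all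
  · intro i hi'
    have m1 := hs _ _ h1
    have m4 := hs _ _ h4
    have : i < 3 := by omega
    interval_cases i <;> simp_all
  · simpa using h3

/-- `C_4`-free graphs, exact Kővári–Sós–Turán count.

PROOF. As in `no_four` (module `KST`; copy its private lemma `KST_cyc` and its first part): with
`D = ds r S`, `N = |S|`: `∑_{v ∈ S} (d(v)² - d(v)) ≤ N² - N`, so by Cauchy-Schwarz
`D² ≤ N (N² - N + D)`. -/
theorem four_count {V : Type*} (r : V → V → Prop) (hs : ∀ a b, r a b → r b a)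
    (hi : ∀ a, ¬ r a a) (S : Finset V) (hno : ∀ c, ¬ CycIn r S c 4) :
    ds r S * ds r S ≤ S.card * (S.card * (S.card - 1) + ds r S) := by
  have hdis : ∀ v ∈ S, ∀ v' ∈ S, v ≠ v' →
      Disjoint (S.filter (fun u => r v u)).offDiag (S.filter (fun u => r v' u)).offDiag := by
    intro v hv v' hv' hne
    rw [Finset.disjoint_left]
    rintro ⟨a, b⟩ h h'
    rw [Finset.mem_offDiag, Finset.mem_filter, Finset.mem_filter] at h h'
    exact hno _ (Row4_cyc hs hi h.1.1 h.2.1.1 hv hv' h.2.2 hne h.1.2 h.2.1.2 h'.1.2 h'.2.1.2)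
  have hcard : ∑ v ∈ S, (S.filter (fun u => r v u)).offDiag.card ≤ S.offDiag.card := by
    rw [← Finset.card_biUnion hdis]
    apply Finset.card_le_card
    intro p hp
    rw [Finset.mem_biUnion] at hp
    obtain ⟨v, -, hp⟩ := hp
    rw [Finset.mem_offDiag, Finset.mem_filter, Finset.mem_filter] at hp
    rw [Finset.mem_offDiag]
    exact ⟨hp.1.1, hp.2.1.1, hp.2.2⟩
  have h1 : ∀ T : Finset V, ((T.offDiag.card : ℕ) : ℝ) = (T.card : ℝ) ^ 2 - T.card := by
    intro T
    rw [Finset.offDiag_card, Nat.cast_sub (by nlinarith [Nat.zero_le T.card, T.card.le_mul_self])]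
    push_cast
    ring
  have h2 : ∑ v ∈ S, ((dg r S v : ℝ) ^ 2 - dg r S v) ≤ (S.card : ℝ) ^ 2 - S.card := by
    have h3 : ((∑ v ∈ S, (S.filter (fun u => r v u)).offDiag.card : ℕ) : ℝ) ≤
        ((S.offDiag.card : ℕ) : ℝ) := by exact_mod_cast hcard
    rw [h1, Nat.cast_sum] at h3
    refine le_trans (le_of_eq ?_) h3
    refine Finset.sum_congr rfl fun v _ => ?_
    rw [h1]
    rfl
  rw [Finset.sum_sub_distrib] at h2
  have h4 : (ds r S : ℝ) = ∑ v ∈ S, (dg r S v : ℝ) := by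
    unfold ds
    push_cast
    rfl
  have h5 : (∑ v ∈ S, (dg r S v : ℝ)) ^ 2 ≤ S.card * ∑ v ∈ S, (dg r S v : ℝ) ^ 2 :=
    sq_sum_le_card_mul_sum_sq
  rw [← h4] at h2 h5
  have hN : (0 : ℝ) ≤ S.card := Nat.cast_nonneg _
  have h6 : ((S.card * (S.card - 1) : ℕ) : ℝ) = (S.card : ℝ) ^ 2 - S.card := by
    rcases Nat.eq_zero_or_pos S.card with h | h
    · rw [h]; simp
    · rw [Nat.cast_mul, Nat.cast_sub h]
      push_cast
      ring
  have h7 : ((ds r S * ds r S : ℕ) : ℝ) ≤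
      ((S.card * (S.card * (S.card - 1) + ds r S) : ℕ) : ℝ) := by
    rw [Nat.cast_mul, Nat.cast_mul, Nat.cast_add, h6, ← sq]
    refine h5.trans (mul_le_mul_of_nonneg_left ?_ hN)
    linarith
  exact_mod_cast h7

/-- The first row of the table.

PROOF. Let `D = ds r S`, even (`ds_even`), and suppose `D > 2 F`, so `D ≥ 2 F + 2 =: G`. By
`four_count`, `D (D - N) ≤ N² (N - 1)`, while `D (D - N) ≥ G (G - N) > N² (N-1)` by the hypothesis
(`G ≥ N` because `G G > N G`... if `G < N` then `G * G ≤ N * G ≤ N (N (N-1) + G)`, contradiction). -/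
theorem row_four {V : Type*} (r : V → V → Prop) (hs : ∀ a b, r a b → r b a)
    (hi : ∀ a, ¬ r a a) (N F : ℕ)
    (h : N * (N * (N - 1) + (2 * F + 2)) < (2 * F + 2) * (2 * F + 2)) : Good r 4 N F := by
  intro S hS hno
  by_contra hcon
  push Not at hcon
  have h1 := four_count r hs hi S hno
  rw [hS] at h1
  have h2 : Even (ds r S) := ds_even r hs hi S
  obtain ⟨D, hD⟩ : ∃ D, D = ds r S := ⟨_, rfl⟩
  rw [← hD] at h1 h2 hcon
  obtain ⟨G, hG⟩ : ∃ G, G = 2 * F + 2 := ⟨_, rfl⟩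
  rw [← hG] at h
  have h3 : G ≤ D := by
    obtain ⟨d, hd⟩ := h2
    omega
  have h4 : N < G := by
    by_contra hc
    push Not at hc
    have : G * G ≤ N * G := Nat.mul_le_mul_right G hc
    have h5 : N * G ≤ N * (N * (N - 1) + G) := Nat.mul_le_mul_left N (Nat.le_add_left _ _)
    omega
  obtain ⟨A, hA⟩ : ∃ A, A = N * (N - 1) := ⟨_, rfl⟩
  rw [← hA] at h h1
  obtain ⟨k, rfl⟩ := Nat.exists_eq_add_of_le h3
  nlinarith [Nat.zero_le (k * (k + 2 * G - N)), Nat.zero_le k, Nat.mul_le_mul_left k h4.le]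

end Pool.Agent.Lib.MP_22c8c7_co
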