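import Mathlib
import Pool.Agent.Lib.MP_22c8c7_co.Check

/-! # Refined tables: encoded rows (generated) -/

set_option autoImplicit false

namespace Pool.Agent.Lib.MP_22c8c7_co

/-- the row `n = 4` -/
def tR4 : ℕ := 65633963205052970705292184427947971961971089384429249522115065902880973479882212408955217513111847683007689619786120591630841399693955856864137196506652100564095112749097885340007047728595431160032242909960071972922228248106397531683361809355750271245335389224193344376502228812945363687588830885743879098010570181619675258781857480704

/-- the row `n = 6` -/
def tR6 : ℕ := 126269308234033526624502367252680385963728037044039393173767656554175494445299395591020068962626858395864109831559036023515255347634478317377698500407156874223606112167385086961246398961656159016898982582143100324336838695320281529593299600006632862067381449147397063777773152713402537828827406659239058408966218873251045155701967028224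

/-- the row `n = 8` -/
def tR8 : ℕ := 126269308234033526624502367252680385963728037044039393173767656554175494445299395591020068962626858395864109831559036023515339512377387612327498241823793126137148862749104406591931058352559947366320893891723898053524607968247215105561551193168474147444942550449063587098664804564568716274737384155098159686262674271106282500418191753216

/-- the row `n = 10` -/
def tR10 : ℕ := 126269308234033526624502367252685872255223882696935075099356753376217782049960783136125622128835853919314728316280203476830011049538073013275875857334050937122170392966209242609934188185213581860568292891562877973489504767441810509429169687273498785160887032516450742597546353617900613788355223448326288561058267707476392484858375438336

/-- the row `n = 12` -/
def tR12 : ℕ := 131702595204137019529030564580747261862745503909123583836444336415223004865600639489131208992507266379629859800743961680018055064129976804881602754238352375551986868449391184473558648081578679474605819155774123184989849786442380431697036804500419643013449105345217454274242251075093115457743368994117484669171332220384199746342879232000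

/-- the row `n = 14` -/
def tR14 : ℕ := 139961172960595910493051081246395222448946609698995733750443601909025660674271164925697509391396099533897115022213382271315804600539067405054580896972607332538481850129296405493219262227199479118704364112050513621157087584380366030688467525466814837129570821174806503872161565183573571737308191947062158138881666474974681484428677480448

/-- the row `n = 16` -/
def tR16 : ℕ := 149958399363708565409581253081092170803077432365472287917726025871608886885478492225025534667123612386157950626218997750876406812768459251891011918465850650746189359426867597175693241510290615822631088350241575854176007510825396373533523674811594444166111251447794410893769839752593572943098009081449671049088077625418287367876876697600

/-- the row `n = 18` -/
def tR18 : ℕ := 158434311517182997363100844911561185567853297506578469002926640314663601031429789502600765684889535852285134371525976850052592294024327281105959791723133227158216547772091753086530690493860477850228893033170784695019478024329273327291567335906442832183251097967876959720211602422368631643018931504927071088793072793182027927172044292096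

end Pool.Agent.Lib.MP_22c8c7_co
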