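import Mathlib
import Pool.Agent.Lib.MP_22c8c7_co.TabR

/-! # Refined table, certificates of the row `n = 10` (generated) -/

set_option autoImplicit false
set_option linter.style.longLine false

namespace Pool.Agent.Lib.MP_22c8c7_co

/-- the certificates of the entries `N = 10, ..., 69` -/
def cR10 : List Cert := [
  (0, 0, [(0, 0, 240, 240)], [(0, 0, 240, 240)], [([(0, 0, 240, 240)], [(0, 0, 240, 240)]), ([(0, 0, 180, 180)], [(0, 0, 180, 180)]), ([(0, 0, 120, 120)], [(0, 0, 120, 120)]), ([(0, 0, 60, 60)], [(0, 0, 60, 60)])]),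
  (5, 0, [(0, 0, 0, 240)], [(0, 1, 0, 236)], [([(0, 0, 0, 240)], [(0, 0, 0, 240)]), ([(0, 0, 0, 180)], [(0, 0, 0, 180)]), ([(0, 0, 0, 120)], [(0, 0, 0, 120)]), ([(0, 0, 0, 60)], [(0, 0, 0, 60)])]),
  (5, 2, [(0, 0, 360, 240)], [(0, 16, 296, 128)], [([(0, 0, 360, 240)], [(0, 1, 356, 232)]), ([(0, 0, 0, 180)], [(0, 0, 0, 180)]), ([(0, 0, 0, 120)], [(0, 0, 0, 120)]), ([(0, 0, 0, 60)], [(0, 0, 0, 60)])]),
  (5, 2, [(1, 0, 356, 232)], [(0, 16, 296, 128)], [([(2, 0, 352, 224)], [(0, 6, 336, 192)]), ([(0, 0, 0, 180)], [(0, 0, 0, 180)]), ([(0, 0, 0, 120)], [(0, 0, 0, 120)]), ([(0, 0, 0, 60)], [(0, 0, 0, 60)])]),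
  (5, 3, [(9, 0, 348, 132)], [(0, 16, 296, 128)], [([(8, 0, 356, 144)], [(0, 11, 332, 108)]), ([(4, 0, 344, 152)], [(0, 7, 332, 131)]), ([(0, 0, 0, 120)], [(0, 0, 0, 120)]), ([(0, 0, 0, 60)], [(0, 0, 0, 60)])]),
  (5, 3, [(10, 0, 340, 130)], [(0, 12, 324, 96), (0, 16, 296, 128)], [([(9, 0, 348, 132)], [(0, 12, 324, 96)]), ([(6, 0, 336, 138)], [(0, 9, 324, 117)]), ([(1, 0, 0, 118)], [(0, 1, 0, 118)]), ([(0, 0, 0, 60)], [(0, 0, 0, 60)])]),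
  (5, 4, [(10, 2, 360, 126), (12, 0, 336, 144)], [(0, 10, 360, 80), (9, 22, 298, 248)], [([(12, 0, 336, 144)], [(10, 6, 328, 128)]), ([(8, 0, 364, 116), (16, 0, 328, 172)], [(0, 10, 350, 80), (0, 18, 324, 144)]), ([(4, 0, 352, 104), (19, 0, 322, 193)], [(9, 9, 324, 144)]), ([(0, 0, 0, 60)], [(0, 0, 0, 60)])]),
  (6, 5, [(12, 4, 372, 132), (7, 1, 428, 106), (19, 0, 344, 193)], [(0, 9, 396, 72), (5, 22, 312, 216)], [([(10, 1, 380, 127), (14, 0, 364, 158)], [(8, 5, 368, 104), (0, 21, 336, 168)]), ([(12, 4, 372, 132), (17, 0, 352, 179)], [(8, 6, 364, 112), (0, 21, 336, 168)]), ([(5, 1, 400, 92), (22, 0, 332, 214)], [(7, 6, 368, 104), (0, 21, 336, 168)]), ([(0, 0, 0, 60)], [(0, 0, 0, 60)])]),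
  (6, 5, [(10, 4, 380, 118), (7, 2, 428, 103), (17, 0, 352, 179)], [(0, 9, 396, 72), (3, 22, 320, 200)], [([(10, 3, 380, 121), (13, 0, 368, 151)], [(5, 7, 372, 96), (0, 19, 344, 152)]), ([(7, 4, 410, 97), (16, 0, 356, 172)], [(4, 8, 372, 96), (0, 19, 344, 152)]), ([(5, 0, 400, 95), (19, 0, 344, 193)], [(4, 8, 372, 96), (0, 19, 344, 152)]), ([(0, 0, 0, 60)], [(0, 0, 0, 60)])]),
  (5, 4, [(8, 1, 384, 114), (11, 0, 348, 137)], [(0, 11, 348, 88), (0, 14, 332, 112)], [([(10, 4, 360, 122)], [(1, 10, 348, 88)]), ([(9, 3, 357, 117)], [(0, 10, 350, 80)]), ([(4, 0, 352, 104)], [(0, 9, 342, 84)]), ([(0, 0, 0, 60)], [(0, 0, 0, 60)])]),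
  (5, 3, [(10, 3, 340, 124)], [(0, 12, 324, 96)], [([(10, 2, 340, 126)], [(1, 11, 324, 96)]), ([(9, 0, 324, 123)], [(0, 12, 312, 96)]), ([(5, 0, 0, 110)], [(0, 11, 0, 98)]), ([(0, 0, 0, 60)], [(0, 0, 0, 60)])]),
  (5, 4, [(9, 5, 372, 113), (11, 0, 348, 137)], [(0, 12, 336, 96)], [([(10, 4, 360, 122)], [(0, 11, 348, 88)]), ([(9, 3, 357, 117)], [(0, 10, 350, 80)]), ([(4, 0, 352, 104)], [(0, 8, 344, 88)]), ([(0, 0, 0, 60)], [(0, 0, 0, 60)])]),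
  (5, 4, [(9, 5, 372, 113), (11, 0, 348, 137)], [(0, 11, 348, 88), (0, 12, 336, 96)], [([(9, 4, 372, 115), (10, 0, 360, 130)], [(0, 11, 348, 88)]), ([(9, 4, 357, 115)], [(0, 10, 350, 80)]), ([(5, 0, 350, 100)], [(0, 8, 344, 88)]), ([(0, 0, 0, 60)], [(0, 0, 0, 60)])]),
  (6, 4, [(9, 4, 372, 111), (11, 0, 348, 137)], [(0, 11, 348, 88), (0, 12, 336, 96)], [([(9, 4, 372, 111), (10, 0, 360, 130)], [(0, 11, 348, 88)]), ([(9, 4, 357, 111)], [(0, 10, 350, 80)]), ([(5, 0, 0, 100)], [(0, 8, 0, 88)]), ([(0, 0, 0, 60)], [(0, 0, 0, 60)])]),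
  (4, 4, [(9, 4, 372, 115), (8, 2, 384, 112), (10, 7, 363, 136)], [(0, 10, 360, 80), (0, 12, 336, 96)], [([(9, 5, 372, 113), (10, 5, 365, 120)], [(0, 11, 348, 88)]), ([(8, 3, 364, 110), (9, 1, 362, 121)], [(0, 9, 357, 90)]), ([(5, 0, 350, 100)], [(0, 8, 344, 88)]), ([(0, 0, 300, 60)], [(0, 0, 300, 60)])]),
  (7, 5, [(10, 4, 380, 114), (7, 1, 428, 105), (12, 0, 360, 144)], [(0, 10, 380, 80), (0, 14, 340, 112)], [([(9, 3, 396, 111), (11, 0, 370, 137)], [(5, 7, 360, 96)]), ([(10, 4, 380, 114), (11, 0, 370, 137)], [(4, 8, 360, 96)]), ([(4, 0, 0, 96)], [(0, 6, 0, 84)]), ([(0, 0, 0, 60)], [(0, 0, 0, 60)])]),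
  (6, 5, [(10, 3, 380, 121), (7, 2, 428, 103), (12, 0, 372, 144)], [(0, 10, 380, 80), (0, 16, 356, 128)], [([(10, 4, 380, 118), (7, 2, 428, 103)], [(7, 5, 372, 96)]), ([(8, 3, 400, 107), (11, 0, 376, 137)], [(7, 5, 372, 96)]), ([(5, 1, 400, 92), (13, 0, 368, 151)], [(7, 6, 368, 104)]), ([(0, 0, 0, 60)], [(0, 0, 0, 60)])]),
  (6, 5, [(11, 3, 376, 128), (7, 3, 428, 100)], [(0, 10, 380, 80), (0, 15, 360, 120)], [([(9, 4, 396, 111), (7, 3, 428, 100), (10, 0, 380, 130)], [(3, 8, 376, 88)]), ([(8, 4, 400, 104), (10, 0, 380, 130)], [(3, 8, 376, 88)]), ([(7, 4, 392, 97), (11, 0, 376, 137)], [(2, 9, 376, 88)]), ([(0, 0, 0, 60)], [(0, 0, 0, 60)])]),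
  (6, 5, [(9, 4, 396, 111), (7, 3, 428, 100), (10, 0, 380, 130)], [(0, 10, 380, 80), (0, 13, 368, 104)], [([(10, 3, 380, 121), (7, 3, 428, 100)], [(0, 10, 380, 80)]), ([(7, 3, 410, 100), (10, 0, 380, 130)], [(0, 10, 380, 80)]), ([(6, 2, 396, 96), (10, 0, 380, 130)], [(0, 10, 380, 80)]), ([(0, 0, 0, 60)], [(0, 0, 0, 60)])]),
  (6, 5, [(8, 4, 412, 104), (10, 0, 380, 130), (7, 3, 428, 100)], [(0, 10, 380, 80), (0, 12, 372, 96)], [([(9, 3, 396, 114), (7, 3, 428, 100)], [(0, 10, 380, 80)]), ([(7, 3, 410, 100), (9, 0, 390, 123)], [(0, 10, 380, 80)]), ([(5, 0, 400, 95), (9, 0, 384, 123)], [(0, 9, 384, 72)]), ([(0, 0, 0, 60)], [(0, 0, 0, 60)])]),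
  (6, 5, [(8, 4, 412, 104), (7, 3, 428, 100), (10, 0, 380, 130)], [(0, 10, 380, 80), (0, 11, 376, 88)], [([(8, 4, 412, 104), (9, 0, 396, 123), (7, 3, 428, 100)], [(0, 10, 380, 80)]), ([(7, 4, 410, 97), (9, 0, 390, 123)], [(0, 10, 380, 80)]), ([(5, 0, 400, 95), (8, 0, 388, 116)], [(0, 8, 388, 72)]), ([(0, 0, 0, 60)], [(0, 0, 0, 60)])]),
  (7, 6, [(11, 4, 414, 121), (7, 3, 460, 97), (15, 3, 390, 153)], [(0, 10, 420, 80), (0, 17, 378, 136)], [([(10, 4, 420, 114), (7, 3, 460, 97), (13, 0, 402, 151)], [(5, 6, 414, 88), (0, 16, 384, 128)]), ([(9, 4, 426, 107), (6, 2, 462, 94), (14, 0, 396, 158)], [(6, 5, 414, 88), (0, 16, 384, 128)]), ([(8, 4, 432, 100), (15, 3, 390, 153), (4, 0, 456, 88)], [(5, 6, 414, 88), (0, 16, 384, 128)]), ([(0, 0, 0, 60)], [(0, 0, 0, 60)])]),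
  (7, 6, [(13, 4, 402, 136), (7, 4, 460, 93), (15, 0, 390, 165)], [(0, 10, 420, 80), (0, 17, 378, 136)], [([(10, 4, 420, 114), (7, 4, 460, 93), (13, 0, 402, 151)], [(6, 5, 414, 88), (0, 15, 390, 120)]), ([(9, 4, 426, 107), (6, 3, 462, 90), (14, 0, 396, 158)], [(6, 5, 414, 88), (0, 15, 390, 120)]), ([(8, 4, 432, 100), (15, 3, 390, 153), (4, 0, 456, 88)], [(4, 7, 414, 88), (0, 15, 390, 120)]), ([(0, 0, 0, 60)], [(0, 0, 0, 60)])]),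
  (7, 6, [(9, 4, 426, 107), (7, 4, 460, 93), (15, 0, 390, 165)], [(0, 9, 426, 72), (0, 17, 378, 136)], [([(11, 4, 414, 121), (7, 4, 460, 93), (13, 0, 402, 151)], [(2, 8, 420, 80), (0, 15, 390, 120)]), ([(9, 4, 426, 107), (6, 3, 462, 90), (13, 0, 402, 151)], [(5, 6, 414, 88), (0, 15, 390, 120)]), ([(7, 4, 438, 93), (14, 1, 396, 154)], [(5, 6, 414, 88), (0, 15, 390, 120)]), ([(0, 0, 0, 60)], [(0, 0, 0, 60)])]),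
  (8, 6, [(9, 4, 423, 104), (7, 4, 460, 89), (11, 0, 397, 137)], [(0, 10, 410, 80), (0, 12, 384, 96), (0, 7, 460, 72)], [([(9, 4, 423, 104), (7, 4, 460, 89), (11, 0, 397, 137)], [(3, 7, 410, 80), (0, 11, 397, 88)]), ([(9, 4, 423, 104), (6, 3, 462, 87), (11, 0, 397, 137)], [(7, 4, 397, 89)]), ([(5, 2, 0, 85)], [(0, 6, 0, 72)]), ([(0, 0, 0, 60)], [(0, 0, 0, 60)])]),
  (9, 6, [(10, 3, 400, 112), (7, 4, 460, 88)], [(0, 10, 400, 80), (0, 7, 460, 72), (0, 11, 380, 88)], [([(9, 4, 420, 104), (7, 4, 460, 88), (10, 0, 400, 130)], [(3, 7, 400, 80)]), ([(6, 3, 0, 84)], [(0, 7, 0, 68)]), ([(4, 1, 0, 82)], [(0, 5, 0, 70)]), ([(0, 0, 0, 60)], [(0, 0, 0, 60)])]),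
  (8, 7, [(17, 3, 404, 164), (7, 4, 492, 89), (6, 4, 516, 82), (8, 4, 476, 96)], [(0, 18, 396, 144), (0, 7, 492, 60)], [([(15, 3, 420, 150), (7, 4, 492, 89), (6, 4, 516, 82)], [(8, 4, 444, 96), (0, 17, 404, 136), (0, 6, 516, 72)]), ([(16, 3, 412, 157), (7, 4, 488, 89), (6, 4, 504, 82)], [(8, 4, 444, 96), (0, 17, 404, 136), (0, 6, 504, 66)]), ([(16, 3, 412, 157), (5, 4, 500, 75)], [(9, 4, 436, 104), (0, 5, 500, 70), (0, 17, 404, 136)]), ([(0, 0, 0, 60)], [(0, 0, 0, 60)])]),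
  (8, 7, [(17, 3, 404, 164), (7, 4, 492, 89), (6, 4, 516, 82), (8, 4, 476, 96)], [(0, 8, 476, 64), (0, 18, 396, 144)], [([(15, 2, 420, 155), (7, 4, 492, 89), (6, 4, 516, 82)], [(8, 5, 436, 104), (0, 7, 492, 60), (0, 17, 404, 136)]), ([(16, 2, 412, 162), (7, 4, 488, 89), (6, 4, 504, 82)], [(9, 4, 436, 104), (0, 6, 504, 66), (0, 17, 404, 136)]), ([(16, 3, 412, 157), (5, 4, 500, 75)], [(7, 5, 444, 96), (0, 17, 404, 136), (0, 5, 500, 70)]), ([(0, 0, 0, 60)], [(0, 0, 0, 60)])]),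
  (8, 7, [(16, 2, 412, 162), (7, 4, 492, 89), (6, 4, 516, 82)], [(0, 9, 468, 72), (0, 18, 396, 144)], [([(15, 2, 420, 155), (6, 4, 516, 82), (7, 4, 492, 89)], [(10, 4, 428, 112), (0, 7, 492, 60), (0, 16, 412, 128)]), ([(15, 2, 420, 155), (6, 4, 504, 82), (7, 4, 488, 89)], [(10, 4, 428, 112), (0, 6, 504, 66), (0, 16, 412, 128)]), ([(15, 3, 420, 150), (5, 3, 500, 80)], [(7, 4, 452, 89), (0, 16, 412, 128), (0, 5, 500, 70)]), ([(0, 0, 0, 60)], [(0, 0, 0, 60)])]),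
  (8, 7, [(16, 3, 412, 157), (6, 4, 516, 82), (7, 4, 492, 89)], [(0, 8, 476, 64), (0, 17, 404, 136)], [([(14, 3, 428, 143), (6, 4, 516, 82), (7, 3, 492, 94)], [(7, 5, 444, 96), (0, 6, 516, 72), (0, 16, 412, 128)]), ([(15, 3, 420, 150), (6, 4, 504, 82)], [(10, 4, 428, 112), (0, 6, 504, 66), (0, 16, 412, 128)]), ([(15, 3, 420, 150), (5, 3, 500, 80)], [(7, 4, 452, 89), (0, 16, 412, 128), (0, 5, 500, 70)]), ([(0, 0, 0, 60)], [(0, 0, 0, 60)])]),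
  (8, 7, [(14, 3, 428, 143), (6, 4, 516, 82), (7, 4, 492, 89), (16, 0, 412, 172)], [(0, 13, 436, 104), (0, 6, 516, 72), (0, 17, 404, 136)], [([(14, 3, 428, 143), (6, 4, 516, 82), (7, 3, 492, 94)], [(6, 6, 444, 96), (0, 7, 492, 60), (0, 16, 412, 128)]), ([(11, 4, 452, 120), (6, 4, 504, 82), (14, 0, 428, 158)], [(7, 4, 452, 89), (0, 16, 412, 128), (0, 6, 504, 66)]), ([(15, 3, 420, 150), (5, 3, 500, 80)], [(6, 4, 460, 82), (0, 16, 412, 128)]), ([(0, 0, 0, 60)], [(0, 0, 0, 60)])]),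
  (8, 7, [(15, 2, 420, 155), (6, 4, 516, 82), (7, 3, 492, 94)], [(0, 9, 468, 72), (0, 16, 412, 128)], [([(11, 3, 452, 122), (6, 4, 516, 82), (14, 0, 428, 158)], [(8, 4, 444, 96), (0, 7, 492, 60), (0, 15, 420, 120)]), ([(12, 4, 444, 128), (6, 4, 504, 82), (14, 0, 428, 158)], [(10, 4, 428, 112), (0, 6, 504, 66)]), ([(11, 4, 452, 120), (5, 3, 500, 80), (14, 0, 428, 158)], [(6, 4, 460, 82), (0, 15, 420, 120)]), ([(0, 0, 0, 60)], [(0, 0, 0, 60)])]),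
  (8, 7, [(12, 4, 444, 128), (6, 4, 516, 82), (15, 0, 420, 165)], [(0, 9, 468, 72), (0, 16, 412, 128)], [([(12, 3, 444, 129), (6, 4, 516, 82), (13, 0, 436, 151)], [(6, 4, 460, 82), (0, 15, 420, 120), (0, 6, 516, 72)]), ([(11, 3, 452, 122), (6, 4, 504, 82), (14, 0, 428, 158)], [(5, 5, 460, 80), (0, 15, 420, 120), (0, 6, 504, 66)]), ([(11, 4, 452, 120), (5, 3, 500, 80), (14, 0, 428, 158)], [(5, 5, 460, 80), (0, 15, 420, 120)]), ([(0, 0, 0, 60)], [(0, 0, 0, 60)])]),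
  (9, 7, [(11, 3, 424, 119), (6, 4, 516, 80)], [(0, 10, 440, 80), (0, 7, 492, 60), (0, 12, 408, 96)], [([(10, 3, 440, 112), (6, 4, 516, 80)], [(4, 6, 440, 80), (0, 7, 492, 60), (0, 11, 424, 88)]), ([(11, 3, 424, 119), (6, 4, 504, 80)], [(4, 6, 440, 80), (0, 6, 504, 66), (0, 11, 424, 88)]), ([(5, 3, 0, 77)], [(0, 5, 0, 70)]), ([(0, 0, 0, 60)], [(0, 0, 0, 60)])]),
  (9, 7, [(10, 3, 440, 112), (6, 4, 516, 80), (11, 0, 424, 137)], [(0, 9, 456, 72), (0, 11, 424, 88)], [([(10, 3, 440, 112), (6, 4, 516, 80)], [(4, 6, 440, 80), (0, 7, 492, 60), (0, 11, 424, 88)]), ([(10, 3, 440, 112), (6, 4, 504, 80)], [(4, 6, 440, 80), (0, 6, 504, 66), (0, 11, 424, 88)]), ([(5, 3, 0, 77)], [(0, 5, 0, 70)]), ([(0, 0, 0, 60)], [(0, 0, 0, 60)])]),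
  (9, 7, [(11, 3, 424, 119), (6, 4, 516, 80)], [(0, 9, 456, 72), (0, 11, 424, 88)], [([(9, 4, 456, 104), (6, 4, 516, 80), (10, 0, 440, 130)], [(5, 5, 440, 80), (0, 7, 492, 60)]), ([(10, 3, 440, 112), (6, 4, 504, 80)], [(4, 6, 440, 80), (0, 6, 504, 66)]), ([(5, 3, 0, 77)], [(0, 5, 0, 70)]), ([(0, 0, 0, 60)], [(0, 0, 0, 60)])]),
  (11, 5, [(6, 3, 0, 78)], [(0, 6, 0, 72)], [([(6, 3, 0, 78)], [(0, 6, 0, 72)]), ([(5, 2, 0, 79)], [(0, 5, 0, 70)]), ([(4, 2, 0, 72)], [(0, 4, 0, 64)]), ([(0, 0, 0, 60)], [(0, 0, 0, 60)])]),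
  (11, 5, [(6, 3, 0, 78)], [(0, 6, 0, 72)], [([(6, 3, 0, 78)], [(0, 6, 0, 72)]), ([(5, 2, 0, 79)], [(0, 5, 0, 70)]), ([(3, 1, 0, 78)], [(0, 4, 0, 64)]), ([(0, 0, 0, 60)], [(0, 0, 0, 60)])]),
  (11, 5, [(6, 3, 0, 78)], [(0, 6, 0, 72)], [([(6, 3, 0, 78)], [(0, 6, 0, 72)]), ([(5, 2, 0, 79)], [(0, 5, 0, 70)]), ([(3, 0, 0, 81)], [(0, 4, 0, 64)]), ([(0, 0, 0, 60)], [(0, 0, 0, 60)])]),
  (11, 5, [(6, 2, 0, 86)], [(0, 6, 0, 72)], [([(6, 2, 0, 86)], [(0, 6, 0, 72)]), ([(5, 2, 0, 79)], [(0, 5, 0, 70)]), ([(3, 0, 0, 81)], [(0, 4, 0, 64)]), ([(0, 0, 0, 60)], [(0, 0, 0, 60)])]),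
  (11, 5, [(6, 2, 0, 86)], [(0, 6, 0, 72)], [([(6, 2, 0, 86)], [(0, 6, 0, 72)]), ([(5, 2, 0, 79)], [(0, 5, 0, 70)]), ([(3, 0, 0, 81)], [(0, 3, 0, 78)]), ([(0, 0, 0, 60)], [(0, 0, 0, 60)])]),
  (11, 5, [(6, 2, 0, 86)], [(0, 6, 0, 72)], [([(6, 2, 0, 86)], [(0, 6, 0, 72)]), ([(5, 1, 0, 87)], [(0, 5, 0, 70)]), ([(3, 0, 0, 81)], [(0, 3, 0, 78)]), ([(0, 0, 0, 60)], [(0, 0, 0, 60)])]),
  (11, 5, [(6, 2, 0, 86)], [(0, 6, 0, 72)], [([(6, 2, 0, 86)], [(0, 6, 0, 72)]), ([(5, 1, 0, 87)], [(0, 5, 0, 70)]), ([(3, 0, 0, 81)], [(0, 3, 0, 78)]), ([(0, 0, 0, 60)], [(0, 0, 0, 60)])]),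
  (11, 5, [(6, 2, 0, 86)], [(0, 6, 0, 72)], [([(6, 2, 0, 86)], [(0, 6, 0, 72)]), ([(5, 1, 0, 87)], [(0, 5, 0, 70)]), ([(3, 0, 0, 81)], [(0, 3, 0, 78)]), ([(0, 0, 0, 60)], [(0, 0, 0, 60)])]),
  (11, 5, [(6, 2, 0, 86)], [(0, 6, 0, 72)], [([(6, 2, 0, 86)], [(0, 6, 0, 72)]), ([(5, 1, 0, 87)], [(0, 5, 0, 70)]), ([(3, 0, 0, 81)], [(0, 3, 0, 78)]), ([(0, 0, 0, 60)], [(0, 0, 0, 60)])]),
  (11, 5, [(6, 3, 0, 78)], [(0, 6, 0, 72)], [([(6, 2, 0, 86)], [(0, 6, 0, 72)]), ([(5, 2, 0, 79)], [(0, 5, 0, 70)]), ([(3, 0, 0, 81)], [(0, 4, 0, 64)]), ([(0, 0, 0, 60)], [(0, 0, 0, 60)])]),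
  (11, 5, [(6, 3, 0, 78)], [(0, 6, 0, 72)], [([(6, 3, 0, 78)], [(0, 6, 0, 72)]), ([(5, 2, 0, 79)], [(0, 5, 0, 70)]), ([(3, 1, 0, 78)], [(0, 4, 0, 64)]), ([(0, 0, 0, 60)], [(0, 0, 0, 60)])]),
  (11, 5, [(6, 3, 0, 78)], [(0, 6, 0, 72)], [([(6, 3, 0, 78)], [(0, 6, 0, 72)]), ([(5, 2, 0, 79)], [(0, 5, 0, 70)]), ([(3, 1, 0, 78)], [(0, 4, 0, 64)]), ([(0, 0, 0, 60)], [(0, 0, 0, 60)])]),
  (11, 5, [(6, 3, 0, 78)], [(0, 6, 0, 72)], [([(6, 3, 0, 78)], [(0, 6, 0, 72)]), ([(5, 2, 0, 79)], [(0, 5, 0, 70)]), ([(4, 2, 0, 72)], [(0, 4, 0, 64)]), ([(0, 0, 0, 60)], [(0, 0, 0, 60)])]),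
  (11, 5, [(6, 3, 0, 78)], [(0, 6, 0, 72)], [([(6, 3, 0, 78)], [(0, 7, 0, 60)]), ([(5, 2, 0, 79)], [(0, 5, 0, 70)]), ([(4, 2, 0, 72)], [(0, 4, 0, 64)]), ([(0, 0, 0, 60)], [(0, 0, 0, 60)])]),
  (11, 5, [(6, 3, 0, 78)], [(0, 6, 0, 72)], [([(6, 3, 0, 78)], [(0, 7, 0, 60)]), ([(5, 2, 0, 79)], [(0, 5, 0, 70)]), ([(4, 2, 0, 72)], [(0, 4, 0, 64)]), ([(0, 0, 0, 60)], [(0, 0, 0, 60)])]),
  (11, 5, [(6, 3, 0, 78)], [(0, 6, 0, 72)], [([(6, 3, 0, 78)], [(0, 7, 0, 60)]), ([(5, 3, 0, 71)], [(0, 5, 0, 70)]), ([(4, 2, 0, 72)], [(0, 4, 0, 64)]), ([(0, 0, 0, 60)], [(0, 0, 0, 60)])]),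
  (12, 6, [(6, 3, 0, 75)], [(0, 6, 0, 60)], [([(6, 3, 0, 75)], [(0, 6, 0, 60)]), ([(5, 2, 0, 77)], [(0, 5, 0, 60)]), ([(3, 1, 0, 72)], [(0, 4, 0, 60)]), ([(0, 0, 0, 60)], [(0, 0, 0, 60)])]),
  (12, 6, [(6, 3, 0, 75)], [(0, 6, 0, 60)], [([(6, 3, 0, 75)], [(0, 6, 0, 60)]), ([(5, 2, 0, 77)], [(0, 5, 0, 60)]), ([(3, 1, 0, 72)], [(0, 4, 0, 60)]), ([(0, 0, 0, 60)], [(0, 0, 0, 60)])]),
  (12, 6, [(6, 3, 0, 75)], [(0, 6, 0, 60)], [([(6, 3, 0, 75)], [(0, 6, 0, 60)]), ([(5, 2, 0, 77)], [(0, 5, 0, 60)]), ([(3, 1, 0, 72)], [(0, 4, 0, 60)]), ([(0, 0, 0, 60)], [(0, 0, 0, 60)])]),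
  (11, 5, [(6, 3, 0, 78)], [(0, 6, 0, 72)], [([(6, 3, 0, 78)], [(0, 6, 0, 72)]), ([(5, 2, 0, 79)], [(0, 5, 0, 70)]), ([(4, 2, 0, 72)], [(0, 4, 0, 64)]), ([(0, 0, 0, 60)], [(0, 0, 0, 60)])]),
  (9, 7, [(6, 4, 516, 80)], [(0, 6, 516, 72)], [([(6, 4, 516, 80)], [(0, 6, 516, 72)]), ([(6, 4, 504, 80)], [(0, 6, 504, 66)]), ([(4, 2, 0, 80)], [(0, 5, 0, 70)]), ([(0, 0, 0, 60)], [(0, 0, 0, 60)])]),
  (5, 7, [(6, 4, 516, 82)], [(0, 6, 516, 72)], [([(6, 4, 516, 82)], [(0, 6, 516, 72)]), ([(6, 4, 506, 82)], [(0, 6, 504, 66)]), ([(4, 1, 508, 83)], [(0, 5, 500, 70)]), ([(0, 0, 480, 60)], [(0, 0, 480, 60)])]),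
  (5, 7, [(6, 4, 516, 82)], [(0, 6, 516, 72)], [([(6, 3, 516, 87)], [(0, 6, 516, 72)]), ([(5, 2, 520, 85)], [(0, 6, 504, 66)]), ([(4, 1, 508, 83)], [(0, 5, 500, 70)]), ([(0, 0, 480, 60)], [(0, 0, 480, 60)])]),
  (5, 7, [(6, 4, 516, 82)], [(0, 6, 516, 72)], [([(6, 3, 516, 87)], [(0, 6, 516, 72)]), ([(5, 2, 520, 85)], [(0, 6, 504, 66)]), ([(4, 1, 508, 83)], [(0, 4, 508, 80)]), ([(0, 0, 480, 60)], [(0, 0, 480, 60)])])]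

theorem okR10 : rowChk 8 60 tR8 tR10 cR10 10 = true := by decide +kernel

theorem smR10 : smallChk 8 tR10 = true := by decide +kernel

theorem lenR10 : cR10.length = 60 := by decide +kernel

end Pool.Agent.Lib.MP_22c8c7_co
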