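import Mathlib
import Pool.Agent.Lib.MP_22c8c7_co.TabR

/-! # Refined table, certificates of the row `n = 12` (generated) -/

set_option autoImplicit false
set_option linter.style.longLine false

namespace Pool.Agent.Lib.MP_22c8c7_co

/-- the certificates of the entries `N = 12, ..., 69` -/
def cR12 : List Cert := [
  (0, 0, [(0, 0, 300, 300)], [(0, 0, 300, 300)], [([(0, 0, 300, 300)], [(0, 0, 300, 300)]), ([(0, 0, 240, 240)], [(0, 0, 240, 240)]), ([(0, 0, 180, 180)], [(0, 0, 180, 180)]), ([(0, 0, 120, 120)], [(0, 0, 120, 120)]), ([(0, 0, 60, 60)], [(0, 0, 60, 60)])]),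
  (6, 0, [(0, 0, 0, 300)], [(0, 1, 0, 295)], [([(0, 0, 0, 300)], [(0, 0, 0, 300)]), ([(0, 0, 0, 240)], [(0, 0, 0, 240)]), ([(0, 0, 0, 180)], [(0, 0, 0, 180)]), ([(0, 0, 0, 120)], [(0, 0, 0, 120)]), ([(0, 0, 0, 60)], [(0, 0, 0, 60)])]),
  (6, 2, [(0, 0, 420, 300)], [(0, 13, 355, 170)], [([(0, 0, 420, 300)], [(0, 0, 420, 300)]), ([(0, 0, 0, 240)], [(0, 0, 0, 240)]), ([(0, 0, 0, 180)], [(0, 0, 0, 180)]), ([(0, 0, 0, 120)], [(0, 0, 0, 120)]), ([(0, 0, 0, 60)], [(0, 0, 0, 60)])]),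
  (6, 2, [(0, 0, 420, 300)], [(0, 13, 355, 170)], [([(0, 0, 420, 300)], [(0, 4, 400, 260)]), ([(0, 0, 0, 240)], [(0, 0, 0, 240)]), ([(0, 0, 0, 180)], [(0, 0, 0, 180)]), ([(0, 0, 0, 120)], [(0, 0, 0, 120)]), ([(0, 0, 0, 60)], [(0, 0, 0, 60)])]),
  (6, 3, [(6, 0, 420, 210)], [(0, 13, 355, 130)], [([(4, 0, 440, 240)], [(0, 8, 400, 180)]), ([(0, 0, 420, 240)], [(0, 3, 402, 210)]), ([(0, 0, 0, 180)], [(0, 0, 0, 180)]), ([(0, 0, 0, 120)], [(0, 0, 0, 120)]), ([(0, 0, 0, 60)], [(0, 0, 0, 60)])]),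
  (6, 4, [(9, 0, 405, 141)], [(0, 13, 355, 130)], [([(8, 0, 420, 140)], [(0, 10, 390, 100)]), ([(7, 0, 410, 142)], [(0, 9, 390, 114)]), ([(3, 0, 405, 156)], [(0, 5, 395, 140)]), ([(0, 0, 0, 120)], [(0, 0, 0, 120)]), ([(0, 0, 0, 60)], [(0, 0, 0, 60)])]),
  (6, 4, [(9, 0, 405, 141)], [(0, 13, 355, 130)], [([(8, 0, 420, 140)], [(0, 10, 390, 100)]), ([(8, 0, 400, 132)], [(0, 9, 390, 114)]), ([(4, 0, 400, 148)], [(0, 6, 390, 132)]), ([(0, 0, 0, 120)], [(0, 0, 0, 120)]), ([(0, 0, 0, 60)], [(0, 0, 0, 60)])]),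
  (6, 4, [(9, 0, 405, 141)], [(0, 10, 390, 100), (0, 13, 355, 130)], [([(9, 0, 405, 141)], [(0, 11, 375, 110)]), ([(8, 0, 400, 132)], [(0, 10, 380, 100)]), ([(5, 0, 395, 140)], [(0, 8, 380, 116)]), ([(1, 0, 0, 118)], [(0, 1, 0, 118)]), ([(0, 0, 0, 60)], [(0, 0, 0, 60)])]),
  (6, 5, [(9, 2, 420, 137), (10, 0, 400, 150)], [(0, 9, 420, 90), (6, 22, 364, 280)], [([(10, 0, 400, 150)], [(7, 6, 394, 130)]), ([(10, 0, 400, 150)], [(9, 6, 390, 150)]), ([(6, 0, 432, 114), (12, 0, 396, 168)], [(8, 7, 390, 150)]), ([(3, 0, 414, 108), (15, 0, 390, 195)], [(6, 8, 392, 140)]), ([(0, 0, 0, 60)], [(0, 0, 0, 60)])]),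
  (7, 6, [(9, 0, 444, 141), (7, 2, 485, 117), (16, 0, 416, 204)], [(0, 8, 460, 80), (3, 22, 380, 250)], [([(8, 3, 460, 123), (12, 0, 432, 168)], [(6, 4, 440, 102), (0, 19, 404, 190)]), ([(9, 0, 444, 141), (14, 0, 424, 186)], [(5, 6, 436, 110), (0, 19, 404, 190)]), ([(10, 3, 440, 141), (18, 0, 408, 222)], [(5, 6, 436, 110), (0, 19, 404, 190)]), ([(3, 0, 468, 102), (19, 0, 404, 231)], [(4, 7, 436, 110), (0, 19, 404, 190)]), ([(0, 0, 0, 60)], [(0, 0, 0, 60)])]),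
  (7, 6, [(8, 4, 460, 120), (14, 0, 424, 186)], [(0, 8, 460, 80), (1, 22, 388, 230)], [([(8, 1, 460, 129), (11, 0, 436, 159)], [(4, 5, 444, 90), (0, 17, 412, 170)]), ([(7, 1, 474, 120), (13, 0, 428, 177)], [(3, 7, 440, 100), (0, 17, 412, 170)]), ([(6, 0, 474, 114), (16, 0, 416, 204)], [(3, 7, 440, 100), (0, 17, 412, 170)]), ([(3, 0, 468, 102), (17, 0, 412, 213)], [(3, 7, 440, 100), (0, 17, 412, 170)]), ([(0, 0, 0, 60)], [(0, 0, 0, 60)])]),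
  (6, 5, [(8, 3, 440, 126), (9, 0, 420, 141)], [(0, 9, 420, 90), (0, 12, 396, 120)], [([(8, 1, 440, 130), (9, 0, 420, 141)], [(1, 8, 420, 90)]), ([(7, 0, 442, 123), (9, 0, 414, 141)], [(0, 9, 414, 90)]), ([(8, 4, 416, 124)], [(0, 9, 408, 90)]), ([(3, 0, 414, 108)], [(0, 7, 406, 92)]), ([(0, 0, 0, 60)], [(0, 0, 0, 60)])]),
  (6, 4, [(9, 4, 405, 133)], [(0, 10, 390, 100)], [([(9, 3, 405, 135)], [(1, 9, 390, 100)]), ([(8, 1, 400, 130)], [(0, 10, 380, 100)]), ([(7, 0, 385, 124)], [(0, 10, 370, 100)]), ([(3, 0, 0, 114)], [(0, 7, 0, 106)]), ([(0, 0, 0, 60)], [(0, 0, 0, 60)])]),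
  (7, 4, [(9, 4, 405, 130)], [(0, 10, 390, 100)], [([(9, 2, 405, 135)], [(0, 10, 390, 100)]), ([(8, 0, 400, 132)], [(0, 10, 380, 100)]), ([(7, 0, 0, 124)], [(0, 10, 0, 100)]), ([(3, 0, 0, 108)], [(0, 5, 0, 100)]), ([(0, 0, 0, 60)], [(0, 0, 0, 60)])]),
  (7, 5, [(8, 4, 440, 120), (9, 0, 420, 141)], [(0, 10, 400, 100)], [([(9, 4, 420, 130)], [(1, 8, 420, 90)]), ([(8, 3, 428, 123)], [(0, 9, 414, 90)]), ([(8, 3, 416, 123)], [(0, 9, 408, 90)]), ([(3, 0, 0, 108)], [(0, 6, 0, 96)]), ([(0, 0, 0, 60)], [(0, 0, 0, 60)])]),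
  (7, 5, [(8, 3, 440, 123), (9, 4, 420, 130)], [(0, 9, 420, 90), (0, 10, 400, 100)], [([(8, 3, 440, 123), (9, 0, 420, 141)], [(1, 8, 420, 90)]), ([(8, 3, 428, 123)], [(0, 9, 414, 90)]), ([(8, 4, 416, 120)], [(0, 8, 416, 92)]), ([(4, 0, 0, 104)], [(0, 6, 0, 96)]), ([(0, 0, 0, 60)], [(0, 0, 0, 60)])]),
  (7, 5, [(8, 3, 440, 123), (9, 0, 420, 141)], [(0, 9, 420, 90), (0, 10, 400, 100)], [([(8, 3, 440, 123), (9, 0, 420, 141)], [(0, 9, 420, 90)]), ([(8, 3, 428, 123)], [(0, 9, 414, 90)]), ([(7, 1, 424, 120)], [(0, 8, 416, 92)]), ([(3, 0, 0, 108)], [(0, 6, 0, 96)]), ([(0, 0, 0, 60)], [(0, 0, 0, 60)])]),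
  (7, 5, [(8, 3, 440, 123), (9, 0, 420, 141)], [(0, 10, 400, 100)], [([(8, 3, 440, 123)], [(0, 9, 420, 90)]), ([(8, 3, 428, 123)], [(0, 9, 414, 90)]), ([(7, 1, 424, 120)], [(0, 8, 416, 92)]), ([(3, 0, 0, 108)], [(0, 6, 0, 96)]), ([(0, 0, 0, 60)], [(0, 0, 0, 60)])]),
  (8, 6, [(8, 2, 460, 124), (10, 3, 430, 138), (7, 1, 485, 119)], [(0, 9, 441, 90), (0, 12, 408, 120)], [([(8, 3, 460, 120), (9, 0, 441, 141)], [(2, 8, 430, 100)]), ([(8, 3, 456, 120), (10, 0, 430, 150)], [(1, 9, 430, 100)]), ([(6, 4, 474, 100), (10, 0, 430, 150)], [(2, 8, 430, 100)]), ([(3, 0, 0, 102)], [(0, 4, 0, 96)]), ([(0, 0, 0, 60)], [(0, 0, 0, 60)])]),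
  (8, 6, [(8, 3, 460, 120), (10, 2, 430, 142), (7, 3, 485, 111)], [(0, 9, 441, 90), (0, 12, 408, 120)], [([(8, 2, 460, 124), (7, 2, 485, 115), (9, 0, 441, 141)], [(5, 5, 430, 100)]), ([(8, 3, 456, 120), (6, 1, 492, 110), (9, 0, 441, 141)], [(4, 6, 430, 100)]), ([(7, 4, 463, 110), (10, 0, 430, 150)], [(3, 7, 430, 100)]), ([(4, 0, 0, 96)], [(0, 6, 0, 84)]), ([(0, 0, 0, 60)], [(0, 0, 0, 60)])]),
  (9, 7, [(9, 3, 474, 126), (13, 3, 418, 162), (6, 1, 540, 109)], [(0, 9, 474, 90), (0, 14, 404, 140), (0, 7, 510, 70)], [([(9, 3, 474, 126), (6, 1, 540, 109), (11, 0, 446, 159)], [(6, 4, 460, 100), (0, 12, 432, 120)]), ([(9, 3, 474, 126), (11, 2, 446, 149), (6, 1, 528, 109)], [(5, 5, 460, 100), (0, 12, 432, 120)]), ([(9, 3, 474, 126), (12, 3, 432, 153), (5, 0, 530, 105)], [(8, 4, 432, 120), (0, 6, 516, 78)]),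 ([(3, 0, 0, 96)], [(0, 4, 0, 88)]), ([(0, 0, 0, 60)], [(0, 0, 0, 60)])]),
  (9, 7, [(9, 3, 474, 126), (11, 3, 446, 144), (6, 2, 540, 104)], [(0, 9, 474, 90), (0, 13, 418, 130), (0, 7, 510, 70)], [([(9, 3, 474, 126), (6, 2, 540, 104), (11, 0, 446, 159)], [(5, 6, 446, 110), (0, 7, 510, 70)]), ([(9, 3, 474, 126), (6, 2, 528, 104), (11, 0, 446, 159)], [(6, 4, 460, 100), (0, 12, 432, 120)]), ([(10, 3, 460, 135), (5, 1, 530, 100), (11, 0, 446, 159)], [(7, 4, 446, 110), (0, 6, 516, 78)]), ([(3, 0, 0, 96)], [(0, 5, 0, 80)]), ([(0, 0, 0, 60)], [(0, 0, 0, 60)])]),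
  (9, 7, [(10, 3, 460, 135), (6, 2, 540, 104), (11, 0, 446, 159)], [(0, 11, 446, 110), (0, 7, 510, 70), (0, 12, 432, 120)], [([(10, 3, 460, 135), (6, 2, 540, 104)], [(3, 6, 474, 90), (0, 11, 446, 110)]), ([(8, 3, 488, 117), (11, 0, 446, 159), (6, 2, 528, 104)], [(6, 4, 460, 100), (0, 11, 446, 110)]), ([(9, 3, 474, 126), (5, 1, 530, 100), (11, 0, 446, 159)], [(5, 5, 460, 100), (0, 11, 446, 110)]), ([(3, 0, 0, 96)], [(0, 4, 0, 88)]), ([(0, 0, 0, 60)], [(0, 0, 0, 60)])]),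
  (9, 7, [(10, 3, 460, 135), (6, 2, 540, 104), (11, 0, 446, 159)], [(0, 9, 474, 90), (0, 12, 432, 120)], [([(10, 3, 460, 135), (6, 2, 540, 104)], [(1, 8, 474, 90), (0, 11, 446, 110)]), ([(10, 3, 460, 135), (6, 2, 528, 104)], [(6, 4, 460, 100), (0, 11, 446, 110)]), ([(10, 3, 460, 135), (5, 1, 530, 100), (11, 0, 446, 159)], [(5, 5, 460, 100), (0, 11, 446, 110)]), ([(3, 0, 0, 96)], [(0, 4, 0, 88)]), ([(0, 0, 0, 60)], [(0, 0, 0, 60)])]),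
  (9, 7, [(11, 3, 446, 144), (6, 2, 540, 104)], [(0, 9, 474, 90), (0, 12, 432, 120)], [([(8, 3, 488, 117), (6, 2, 540, 104), (10, 0, 460, 150)], [(6, 4, 460, 100), (0, 11, 446, 110)]), ([(9, 3, 474, 126), (6, 2, 528, 104), (10, 0, 460, 150)], [(5, 5, 460, 100), (0, 11, 446, 110)]), ([(7, 3, 502, 108), (10, 0, 460, 150)], [(5, 5, 460, 100), (0, 11, 446, 110)]), ([(3, 0, 0, 96)], [(0, 4, 0, 88)]), ([(0, 0, 0, 60)], [(0, 0, 0, 60)])]),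
  (9, 7, [(7, 3, 510, 108), (11, 0, 446, 159)], [(0, 9, 474, 90), (0, 12, 432, 120)], [([(10, 3, 460, 135), (6, 2, 540, 104)], [(6, 4, 460, 100)]), ([(10, 3, 460, 135), (6, 2, 528, 104)], [(5, 5, 460, 100)]), ([(7, 3, 502, 108), (10, 0, 460, 150)], [(6, 4, 460, 100)]), ([(3, 0, 0, 96)], [(0, 4, 0, 88)]), ([(0, 0, 0, 60)], [(0, 0, 0, 60)])]),
  (9, 7, [(9, 3, 474, 126), (6, 2, 540, 104), (10, 0, 460, 150)], [(0, 9, 474, 90), (0, 11, 446, 110)], [([(7, 3, 510, 108), (10, 0, 460, 150)], [(6, 4, 460, 100)]), ([(7, 3, 506, 108), (10, 0, 460, 150)], [(5, 5, 460, 100)]), ([(7, 3, 502, 108), (10, 0, 460, 150)], [(4, 6, 460, 100)]), ([(3, 0, 0, 96)], [(0, 4, 0, 88)]), ([(0, 0, 0, 60)], [(0, 0, 0, 60)])]),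
  (9, 7, [(7, 3, 510, 108), (10, 0, 460, 150), (6, 2, 540, 104)], [(0, 9, 474, 90), (0, 11, 446, 110)], [([(7, 3, 510, 108), (9, 0, 474, 141), (6, 2, 540, 104)], [(1, 8, 474, 90), (0, 10, 460, 100)]), ([(7, 3, 506, 108), (10, 0, 460, 150), (6, 2, 528, 104)], [(6, 4, 460, 100)]), ([(7, 3, 502, 108), (10, 0, 460, 150), (5, 1, 530, 100)], [(5, 5, 460, 100)]), ([(3, 0, 0, 96)], [(0, 4, 0, 88)]), ([(0, 0, 0, 60)], [(0, 0, 0, 60)])]),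
  (8, 7, [(7, 4, 510, 110), (13, 2, 462, 169), (6, 4, 540, 100)], [(0, 8, 492, 80), (0, 15, 450, 150)], [([(8, 3, 492, 120), (6, 3, 540, 102), (11, 0, 474, 159)], [(4, 5, 486, 90), (0, 13, 462, 130)]), ([(7, 4, 506, 110), (12, 0, 468, 168), (6, 4, 528, 100)], [(4, 5, 486, 90), (0, 13, 462, 130)]), ([(7, 3, 502, 111), (13, 2, 462, 169), (5, 2, 530, 97)], [(4, 5, 486, 90), (0, 13, 462, 130)]), ([(6, 4, 504, 100), (14, 3, 456, 174)], [(3, 6, 486, 90), (0, 13, 462, 130)]), ([(0, 0, 0, 60)], [(0, 0, 0, 60)])]),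
  (8, 7, [(7, 4, 510, 110), (12, 0, 468, 168), (6, 4, 540, 100)], [(0, 8, 492, 80), (0, 15, 450, 150)], [([(8, 3, 492, 120), (6, 4, 540, 100), (11, 0, 474, 159)], [(3, 6, 486, 90), (0, 13, 462, 130)]), ([(7, 4, 506, 110), (11, 0, 474, 159), (6, 4, 528, 100)], [(3, 6, 486, 90), (0, 13, 462, 130)]), ([(6, 4, 516, 100), (12, 0, 468, 168)], [(2, 7, 486, 90), (0, 13, 462, 130)]), ([(6, 4, 504, 100), (13, 2, 462, 169)], [(2, 7, 486, 90), (0, 13, 462, 130)]), ([(0, 0, 0, 60)], [(0, 0, 0, 60)])]),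
  (9, 7, [(8, 3, 488, 117), (6, 3, 540, 99), (10, 0, 460, 150)], [(0, 8, 488, 80), (0, 11, 446, 110)], [([(8, 3, 488, 117), (6, 3, 540, 99), (9, 0, 474, 141)], [(4, 5, 474, 90), (0, 10, 460, 100)]), ([(8, 3, 488, 117), (6, 3, 528, 99), (9, 0, 474, 141)], [(3, 6, 474, 90), (0, 10, 460, 100)]), ([(7, 3, 502, 108), (9, 0, 474, 141), (5, 2, 530, 95)], [(3, 6, 474, 90), (0, 10, 460, 100)]), ([(4, 1, 0, 91)], [(0, 5, 0, 80)]), ([(0, 0, 0, 60)], [(0, 0, 0, 60)])]),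
  (10, 7, [(8, 3, 484, 114), (6, 3, 540, 96), (9, 0, 462, 141)], [(0, 9, 462, 90), (0, 7, 510, 70)], [([(8, 3, 484, 114), (6, 3, 540, 96)], [(4, 5, 462, 90)]), ([(8, 3, 484, 114), (6, 3, 528, 96)], [(4, 5, 462, 90)]), ([(5, 2, 0, 95)], [(0, 6, 0, 78)]), ([(3, 0, 0, 90)], [(0, 4, 0, 80)]), ([(0, 0, 0, 60)], [(0, 0, 0, 60)])]),
  (10, 7, [(8, 3, 484, 114), (6, 3, 540, 96), (9, 0, 462, 141)], [(0, 8, 484, 80), (0, 9, 462, 90)], [([(8, 3, 484, 114), (6, 3, 540, 96)], [(5, 4, 462, 90)]), ([(8, 3, 484, 114), (6, 3, 528, 96)], [(4, 5, 462, 90)]), ([(5, 2, 0, 95)], [(0, 6, 0, 78)]), ([(3, 0, 0, 90)], [(0, 4, 0, 80)]), ([(0, 0, 0, 60)], [(0, 0, 0, 60)])]),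
  (10, 7, [(8, 3, 484, 114), (6, 3, 540, 96)], [(0, 8, 484, 80), (0, 9, 462, 90)], [([(8, 3, 484, 114), (6, 3, 540, 96)], [(1, 7, 484, 80)]), ([(8, 3, 484, 114), (6, 3, 528, 96)], [(1, 7, 484, 80)]), ([(5, 2, 0, 95)], [(0, 6, 0, 78)]), ([(3, 0, 0, 90)], [(0, 4, 0, 80)]), ([(0, 0, 0, 60)], [(0, 0, 0, 60)])]),
  (12, 5, [(6, 2, 0, 98)], [(0, 7, 0, 70)], [([(6, 2, 0, 98)], [(0, 7, 0, 70)]), ([(5, 1, 0, 97)], [(0, 6, 0, 60)]), ([(4, 0, 0, 96)], [(0, 5, 0, 65)]), ([(3, 0, 0, 87)], [(0, 3, 0, 78)]), ([(0, 0, 0, 60)], [(0, 0, 0, 60)])]),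
  (11, 4, [(7, 3, 0, 102)], [(0, 7, 0, 90)], [([(7, 3, 0, 102)], [(0, 8, 0, 80)]), ([(6, 2, 0, 100)], [(0, 6, 0, 84)]), ([(5, 1, 0, 98)], [(0, 5, 0, 80)]), ([(3, 0, 0, 87)], [(0, 3, 0, 84)]), ([(0, 0, 0, 60)], [(0, 0, 0, 60)])]),
  (11, 4, [(7, 3, 0, 102)], [(0, 7, 0, 90)], [([(7, 3, 0, 102)], [(0, 7, 0, 90)]), ([(6, 2, 0, 100)], [(0, 6, 0, 84)]), ([(5, 1, 0, 98)], [(0, 5, 0, 80)]), ([(3, 0, 0, 87)], [(0, 3, 0, 84)]), ([(0, 0, 0, 60)], [(0, 0, 0, 60)])]),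
  (11, 4, [(7, 3, 0, 102)], [(0, 7, 0, 90)], [([(7, 3, 0, 102)], [(0, 7, 0, 90)]), ([(6, 2, 0, 100)], [(0, 6, 0, 84)]), ([(4, 0, 0, 100)], [(0, 5, 0, 80)]), ([(3, 0, 0, 87)], [(0, 3, 0, 84)]), ([(0, 0, 0, 60)], [(0, 0, 0, 60)])]),
  (11, 4, [(7, 3, 0, 102)], [(0, 7, 0, 90)], [([(7, 3, 0, 102)], [(0, 7, 0, 90)]), ([(6, 2, 0, 100)], [(0, 6, 0, 84)]), ([(4, 0, 0, 100)], [(0, 5, 0, 80)]), ([(2, 0, 0, 96)], [(0, 3, 0, 84)]), ([(0, 0, 0, 60)], [(0, 0, 0, 60)])]),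
  (10, 6, [(7, 3, 485, 105)], [(0, 7, 485, 90)], [([(7, 3, 485, 105)], [(0, 7, 485, 90)]), ([(7, 3, 0, 105)], [(0, 7, 0, 86)]), ([(5, 1, 0, 99)], [(0, 6, 0, 78)]), ([(3, 0, 0, 90)], [(0, 3, 0, 90)]), ([(0, 0, 0, 60)], [(0, 0, 0, 60)])]),
  (11, 4, [(7, 3, 0, 102)], [(0, 7, 0, 90)], [([(7, 3, 0, 102)], [(0, 7, 0, 90)]), ([(6, 2, 0, 100)], [(0, 6, 0, 84)]), ([(4, 0, 0, 100)], [(0, 5, 0, 80)]), ([(2, 0, 0, 96)], [(0, 3, 0, 84)]), ([(0, 0, 0, 60)], [(0, 0, 0, 60)])]),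
  (11, 4, [(7, 3, 0, 102)], [(0, 7, 0, 90)], [([(7, 3, 0, 102)], [(0, 7, 0, 90)]), ([(6, 2, 0, 100)], [(0, 6, 0, 84)]), ([(4, 0, 0, 100)], [(0, 5, 0, 80)]), ([(2, 0, 0, 96)], [(0, 3, 0, 84)]), ([(0, 0, 0, 60)], [(0, 0, 0, 60)])]),
  (11, 4, [(7, 3, 0, 102)], [(0, 7, 0, 90)], [([(7, 3, 0, 102)], [(0, 7, 0, 90)]), ([(6, 2, 0, 100)], [(0, 6, 0, 84)]), ([(4, 0, 0, 100)], [(0, 5, 0, 80)]), ([(2, 0, 0, 96)], [(0, 3, 0, 84)]), ([(0, 0, 0, 60)], [(0, 0, 0, 60)])]),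
  (12, 5, [(6, 2, 0, 98)], [(0, 6, 0, 90)], [([(6, 2, 0, 98)], [(0, 6, 0, 90)]), ([(5, 1, 0, 97)], [(0, 5, 0, 90)]), ([(4, 0, 0, 96)], [(0, 4, 0, 88)]), ([(2, 0, 0, 92)], [(0, 3, 0, 78)]), ([(0, 0, 0, 60)], [(0, 0, 0, 60)])]),
  (12, 5, [(6, 2, 0, 98)], [(0, 7, 0, 70)], [([(6, 2, 0, 98)], [(0, 7, 0, 70)]), ([(5, 1, 0, 97)], [(0, 6, 0, 60)]), ([(4, 0, 0, 96)], [(0, 4, 0, 88)]), ([(2, 0, 0, 92)], [(0, 3, 0, 78)]), ([(0, 0, 0, 60)], [(0, 0, 0, 60)])]),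
  (12, 5, [(6, 3, 0, 90)], [(0, 7, 0, 70)], [([(6, 2, 0, 98)], [(0, 7, 0, 70)]), ([(5, 1, 0, 97)], [(0, 6, 0, 60)]), ([(4, 0, 0, 96)], [(0, 5, 0, 65)]), ([(2, 0, 0, 92)], [(0, 3, 0, 78)]), ([(0, 0, 0, 60)], [(0, 0, 0, 60)])]),
  (12, 5, [(6, 3, 0, 90)], [(0, 7, 0, 70)], [([(6, 2, 0, 98)], [(0, 7, 0, 70)]), ([(5, 1, 0, 97)], [(0, 6, 0, 60)]), ([(4, 1, 0, 88)], [(0, 5, 0, 65)]), ([(3, 0, 0, 87)], [(0, 3, 0, 78)]), ([(0, 0, 0, 60)], [(0, 0, 0, 60)])]),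
  (11, 7, [(6, 3, 540, 93)], [(0, 7, 510, 70)], [([(6, 3, 540, 93)], [(0, 7, 510, 70)]), ([(6, 3, 0, 93)], [(0, 6, 0, 84)]), ([(5, 2, 0, 91)], [(0, 5, 0, 80)]), ([(3, 0, 0, 87)], [(0, 3, 0, 84)]), ([(0, 0, 0, 60)], [(0, 0, 0, 60)])]),
  (11, 7, [(6, 3, 540, 93)], [(0, 7, 510, 70)], [([(6, 3, 540, 93)], [(0, 7, 510, 70)]), ([(6, 3, 0, 93)], [(0, 6, 0, 84)]), ([(5, 2, 0, 91)], [(0, 5, 0, 80)]), ([(3, 0, 0, 87)], [(0, 3, 0, 84)]), ([(0, 0, 0, 60)], [(0, 0, 0, 60)])]),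
  (12, 5, [(6, 3, 0, 90)], [(0, 7, 0, 70)], [([(6, 3, 0, 90)], [(0, 7, 0, 70)]), ([(5, 2, 0, 90)], [(0, 6, 0, 60)]), ([(4, 1, 0, 88)], [(0, 5, 0, 65)]), ([(3, 0, 0, 87)], [(0, 3, 0, 78)]), ([(0, 0, 0, 60)], [(0, 0, 0, 60)])]),
  (12, 5, [(6, 3, 0, 90)], [(0, 7, 0, 70)], [([(6, 3, 0, 90)], [(0, 7, 0, 70)]), ([(5, 2, 0, 90)], [(0, 6, 0, 60)]), ([(4, 1, 0, 88)], [(0, 5, 0, 65)]), ([(3, 0, 0, 87)], [(0, 3, 0, 78)]), ([(0, 0, 0, 60)], [(0, 0, 0, 60)])]),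
  (12, 5, [(6, 3, 0, 90)], [(0, 7, 0, 70)], [([(6, 3, 0, 90)], [(0, 7, 0, 70)]), ([(5, 2, 0, 90)], [(0, 6, 0, 60)]), ([(4, 1, 0, 88)], [(0, 5, 0, 65)]), ([(3, 0, 0, 87)], [(0, 3, 0, 78)]), ([(0, 0, 0, 60)], [(0, 0, 0, 60)])]),
  (12, 5, [(6, 3, 0, 90)], [(0, 7, 0, 70)], [([(6, 3, 0, 90)], [(0, 7, 0, 70)]), ([(5, 2, 0, 90)], [(0, 6, 0, 60)]), ([(4, 1, 0, 88)], [(0, 5, 0, 65)]), ([(3, 0, 0, 87)], [(0, 3, 0, 78)]), ([(0, 0, 0, 60)], [(0, 0, 0, 60)])]),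
  (12, 5, [(6, 3, 0, 90)], [(0, 7, 0, 70)], [([(6, 3, 0, 90)], [(0, 7, 0, 70)]), ([(5, 2, 0, 90)], [(0, 6, 0, 60)]), ([(4, 1, 0, 88)], [(0, 5, 0, 65)]), ([(3, 0, 0, 87)], [(0, 3, 0, 78)]), ([(0, 0, 0, 60)], [(0, 0, 0, 60)])]),
  (12, 5, [(6, 3, 0, 90)], [(0, 7, 0, 70)], [([(6, 3, 0, 90)], [(0, 7, 0, 70)]), ([(5, 2, 0, 90)], [(0, 6, 0, 60)]), ([(4, 1, 0, 88)], [(0, 5, 0, 65)]), ([(3, 0, 0, 87)], [(0, 3, 0, 78)]), ([(0, 0, 0, 60)], [(0, 0, 0, 60)])]),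
  (12, 5, [(6, 3, 0, 90)], [(0, 7, 0, 70)], [([(6, 3, 0, 90)], [(0, 7, 0, 70)]), ([(5, 2, 0, 90)], [(0, 6, 0, 60)]), ([(4, 1, 0, 88)], [(0, 5, 0, 65)]), ([(3, 0, 0, 87)], [(0, 3, 0, 78)]), ([(0, 0, 0, 60)], [(0, 0, 0, 60)])]),
  (12, 5, [(6, 3, 0, 90)], [(0, 7, 0, 70)], [([(6, 3, 0, 90)], [(0, 7, 0, 70)]), ([(5, 2, 0, 90)], [(0, 6, 0, 60)]), ([(4, 1, 0, 88)], [(0, 5, 0, 65)]), ([(3, 0, 0, 87)], [(0, 3, 0, 78)]), ([(0, 0, 0, 60)], [(0, 0, 0, 60)])]),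
  (12, 5, [(6, 3, 0, 90)], [(0, 7, 0, 70)], [([(6, 3, 0, 90)], [(0, 7, 0, 70)]), ([(5, 2, 0, 90)], [(0, 6, 0, 60)]), ([(4, 1, 0, 88)], [(0, 5, 0, 65)]), ([(3, 0, 0, 87)], [(0, 3, 0, 78)]), ([(0, 0, 0, 60)], [(0, 0, 0, 60)])])]

theorem okR12 : rowChk 10 60 tR10 tR12 cR12 12 = true := by decide +kernel

theorem smR12 : smallChk 10 tR12 = true := by decide +kernel

theorem lenR12 : cR12.length = 58 := by decide +kernel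

end Pool.Agent.Lib.MP_22c8c7_co
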