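import Mathlib
import Pool.Agent.Lib.MP_22c8c7_co.TabR

/-! # Refined table, certificates of the row `n = 14` (generated) -/

set_option autoImplicit false
set_option linter.style.longLine false

namespace Pool.Agent.Lib.MP_22c8c7_co

/-- the certificates of the entries `N = 14, ..., 69` -/
def cR14 : List Cert := [
  (0, 0, [(0, 0, 360, 360)], [(0, 0, 360, 360)], [([(0, 0, 360, 360)], [(0, 0, 360, 360)]), ([(0, 0, 300, 300)], [(0, 0, 300, 300)]), ([(0, 0, 240, 240)], [(0, 0, 240, 240)]), ([(0, 0, 180, 180)], [(0, 0, 180, 180)]), ([(0, 0, 120, 120)], [(0, 0, 120, 120)]), ([(0, 0, 60, 60)], [(0, 0, 60, 60)])]),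
  (7, 0, [(0, 0, 0, 360)], [(0, 1, 0, 354)], [([(0, 0, 0, 360)], [(0, 0, 0, 360)]), ([(0, 0, 0, 300)], [(0, 0, 0, 300)]), ([(0, 0, 0, 240)], [(0, 0, 0, 240)]), ([(0, 0, 0, 180)], [(0, 0, 0, 180)]), ([(0, 0, 0, 120)], [(0, 0, 0, 120)]), ([(0, 0, 0, 60)], [(0, 0, 0, 60)])]),
  (7, 3, [(0, 0, 540, 360)], [(0, 11, 414, 162)], [([(0, 0, 540, 360)], [(0, 2, 516, 324)]), ([(0, 0, 480, 300)], [(0, 0, 480, 300)]), ([(0, 0, 0, 240)], [(0, 0, 0, 240)]), ([(0, 0, 0, 180)], [(0, 0, 0, 180)]), ([(0, 0, 0, 120)], [(0, 0, 0, 120)]), ([(0, 0, 0, 60)], [(0, 0, 0, 60)])]),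
  (7, 2, [(0, 0, 480, 360)], [(0, 11, 414, 228)], [([(0, 0, 480, 360)], [(0, 2, 468, 336)]), ([(0, 0, 0, 300)], [(0, 0, 0, 300)]), ([(0, 0, 0, 240)], [(0, 0, 0, 240)]), ([(0, 0, 0, 180)], [(0, 0, 0, 180)]), ([(0, 0, 0, 120)], [(0, 0, 0, 120)]), ([(0, 0, 0, 60)], [(0, 0, 0, 60)])]),
  (7, 2, [(1, 0, 474, 348)], [(0, 11, 414, 228)], [([(1, 0, 474, 348)], [(0, 6, 444, 288)]), ([(0, 0, 0, 300)], [(0, 1, 0, 292)]), ([(0, 0, 0, 240)], [(0, 0, 0, 240)]), ([(0, 0, 0, 180)], [(0, 0, 0, 180)]), ([(0, 0, 0, 120)], [(0, 0, 0, 120)]), ([(0, 0, 0, 60)], [(0, 0, 0, 60)])]),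
  (7, 3, [(4, 0, 492, 288)], [(0, 11, 414, 162)], [([(3, 0, 504, 306)], [(0, 6, 468, 252)]), ([(1, 0, 472, 287)], [(0, 4, 448, 248)]), ([(0, 0, 0, 240)], [(0, 0, 0, 240)]), ([(0, 0, 0, 180)], [(0, 0, 0, 180)]), ([(0, 0, 0, 120)], [(0, 0, 0, 120)]), ([(0, 0, 0, 60)], [(0, 0, 0, 60)])]),
  (7, 4, [(7, 0, 474, 192)], [(0, 11, 414, 132)], [([(6, 0, 492, 216)], [(0, 8, 456, 168)]), ([(5, 0, 475, 210)], [(0, 6, 462, 192)]), ([(1, 0, 472, 228)], [(0, 3, 456, 204)]), ([(0, 0, 0, 180)], [(0, 0, 0, 180)]), ([(0, 0, 0, 120)], [(0, 0, 0, 120)]), ([(0, 0, 0, 60)], [(0, 0, 0, 60)])]),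
  (7, 5, [(8, 0, 468, 148)], [(0, 11, 414, 132)], [([(8, 0, 468, 148)], [(0, 9, 444, 108)]), ([(7, 0, 474, 139)], [(0, 8, 456, 116)]), ([(6, 0, 468, 144)], [(0, 7, 456, 128)]), ([(3, 0, 462, 153)], [(0, 4, 456, 144)]), ([(0, 0, 0, 120)], [(0, 0, 0, 120)]), ([(0, 0, 0, 60)], [(0, 0, 0, 60)])]),
  (7, 5, [(8, 0, 468, 148)], [(0, 11, 414, 132)], [([(8, 0, 468, 148)], [(0, 9, 444, 108)]), ([(8, 0, 456, 148)], [(0, 9, 438, 108)]), ([(7, 0, 456, 137)], [(0, 8, 444, 112)]), ([(4, 0, 456, 144)], [(0, 5, 450, 135)]), ([(0, 0, 0, 120)], [(0, 0, 0, 120)]), ([(0, 0, 0, 60)], [(0, 0, 0, 60)])]),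
  (7, 5, [(8, 0, 468, 148)], [(0, 9, 444, 108), (0, 11, 414, 132)], [([(8, 0, 468, 148)], [(0, 9, 444, 108)]), ([(8, 0, 456, 148)], [(0, 9, 438, 108)]), ([(7, 0, 456, 137)], [(0, 8, 444, 112)]), ([(5, 0, 450, 135)], [(0, 7, 438, 117)]), ([(1, 0, 0, 118)], [(0, 1, 0, 118)]), ([(0, 0, 0, 60)], [(0, 0, 0, 60)])]),
  (7, 6, [(8, 2, 480, 144), (9, 0, 462, 159)], [(0, 8, 480, 96), (4, 22, 428, 312)], [([(8, 0, 480, 148)], [(6, 5, 458, 132)]), ([(9, 0, 462, 159)], [(0, 8, 476, 96), (0, 11, 458, 132)]), ([(9, 0, 462, 159)], [(6, 6, 456, 144)]), ([(5, 0, 495, 120), (10, 0, 460, 170)], [(5, 7, 456, 144)]), ([(2, 0, 476, 112), (12, 0, 456, 192)], [(5, 7, 456, 144)]), ([(0, 0, 0, 60)], [(0, 0, 0, 60)])]),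
  (9, 8, [(6, 1, 588, 122), (20, 0, 480, 280)], [(0, 6, 588, 72), (5, 22, 438, 324)], [([(8, 0, 552, 148), (16, 0, 504, 236)], [(1, 6, 558, 84), (0, 22, 468, 264)]), ([(7, 0, 558, 137), (17, 0, 498, 247)], [(1, 6, 558, 84), (0, 22, 468, 264)]), ([(6, 2, 576, 118), (19, 0, 486, 269)], [(1, 6, 558, 84), (0, 22, 468, 264)]), ([(6, 1, 570, 122), (22, 0, 468, 302)], [(1, 6, 558, 84), (0, 22, 468, 264)]), ([(5, 3, 570, 103), (22, 0, 468, 302)], [(1, 5, 564, 72), (0, 22, 468, 264)]), ([(0, 0, 0, 60)], [(0, 0, 0, 60)])]),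
  (9, 8, [(6, 2, 588, 118), (19, 0, 486, 269)], [(0, 6, 588, 72), (4, 22, 444, 312)], [([(8, 3, 552, 136), (15, 0, 510, 225)], [(1, 6, 558, 84), (0, 21, 474, 252)]), ([(7, 2, 558, 129), (17, 0, 498, 247)], [(1, 6, 558, 84), (0, 21, 474, 252)]), ([(5, 0, 600, 115), (18, 0, 492, 258)], [(1, 6, 558, 84), (0, 21, 474, 252)]), ([(6, 3, 570, 114), (21, 0, 474, 291)], [(1, 6, 558, 84), (0, 21, 474, 252)]), ([(6, 3, 564, 114), (22, 0, 468, 302)], [(1, 6, 558, 84), (0, 21, 474, 252)]), ([(0, 0, 0, 60)], [(0, 0, 0, 60)])]),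
  (8, 7, [(8, 1, 508, 145), (6, 2, 564, 120), (13, 0, 488, 203)], [(0, 7, 528, 84), (0, 22, 452, 264)], [([(7, 1, 528, 134), (10, 0, 500, 170)], [(4, 5, 504, 108), (0, 16, 476, 192)]), ([(8, 0, 508, 148), (6, 1, 552, 123), (12, 0, 492, 192)], [(3, 6, 504, 108), (0, 16, 476, 192)]), ([(6, 2, 540, 120), (14, 0, 484, 214)], [(3, 6, 504, 108), (0, 16, 476, 192)]), ([(6, 3, 528, 117), (15, 0, 480, 225)], [(3, 6, 504, 108), (0, 16, 476, 192)]), ([(3, 0, 528, 102), (16, 0, 476, 236)], [(3, 6, 504, 108), (0, 16, 476, 192)]), ([(0, 0, 0, 60)], [(0, 0, 0, 60)])]),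
  (7, 6, [(7, 3, 510, 131), (8, 0, 480, 148)], [(0, 8, 480, 96), (0, 10, 460, 120)], [([(7, 2, 510, 133), (8, 0, 480, 148)], [(1, 7, 480, 96)]), ([(7, 2, 499, 133), (8, 0, 476, 148)], [(1, 7, 476, 96)]), ([(6, 0, 504, 126), (7, 0, 488, 137)], [(0, 8, 472, 96)]), ([(6, 0, 486, 126)], [(0, 8, 468, 96)]), ([(2, 0, 476, 112)], [(0, 6, 468, 96)]), ([(0, 0, 0, 60)], [(0, 0, 0, 60)])]),
  (8, 6, [(7, 3, 510, 128), (8, 0, 480, 148)], [(0, 8, 480, 96), (0, 9, 459, 108)], [([(8, 2, 480, 142)], [(1, 7, 480, 96)]), ([(7, 2, 499, 131), (8, 0, 476, 148)], [(0, 8, 476, 96)]), ([(7, 3, 488, 128)], [(0, 8, 472, 96)]), ([(6, 0, 486, 126)], [(0, 8, 468, 96)]), ([(2, 0, 0, 112)], [(0, 3, 0, 108)]), ([(0, 0, 0, 60)], [(0, 0, 0, 60)])]),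
  (7, 6, [(7, 3, 510, 131), (8, 0, 480, 148)], [(0, 9, 462, 108)], [([(8, 2, 480, 144)], [(0, 8, 480, 96)]), ([(7, 2, 499, 133), (8, 0, 476, 148)], [(0, 8, 476, 96)]), ([(7, 2, 488, 133)], [(0, 8, 472, 96)]), ([(6, 0, 486, 126)], [(0, 7, 477, 96)]), ([(2, 0, 476, 112)], [(0, 5, 470, 100)]), ([(0, 0, 0, 60)], [(0, 0, 0, 60)])]),
  (7, 6, [(7, 1, 510, 135), (8, 3, 480, 142)], [(0, 8, 480, 96), (0, 9, 462, 108)], [([(7, 3, 510, 131), (8, 0, 480, 148)], [(0, 8, 480, 96)]), ([(7, 2, 499, 133), (8, 0, 476, 148)], [(0, 8, 476, 96)]), ([(7, 2, 488, 133)], [(0, 8, 472, 96)]), ([(6, 0, 486, 126)], [(0, 7, 477, 96)]), ([(2, 0, 476, 112)], [(0, 5, 470, 100)]), ([(0, 0, 0, 60)], [(0, 0, 0, 60)])]),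
  (7, 6, [(7, 3, 510, 131), (8, 3, 480, 142)], [(0, 8, 480, 96), (0, 9, 462, 108)], [([(7, 2, 510, 133), (8, 2, 480, 144)], [(0, 8, 480, 96)]), ([(7, 3, 499, 131), (8, 0, 476, 148)], [(0, 8, 476, 96)]), ([(7, 3, 488, 131)], [(0, 8, 472, 96)]), ([(6, 0, 486, 126)], [(0, 7, 477, 96)]), ([(2, 0, 476, 112)], [(0, 4, 472, 104)]), ([(0, 0, 0, 60)], [(0, 0, 0, 60)])]),
  (8, 6, [(7, 3, 510, 128), (8, 2, 480, 142)], [(0, 8, 480, 96), (0, 9, 459, 108)], [([(7, 3, 510, 128), (8, 0, 480, 148)], [(0, 8, 480, 96)]), ([(7, 3, 499, 128), (8, 0, 476, 148)], [(0, 8, 476, 96)]), ([(6, 1, 504, 123), (7, 0, 488, 137)], [(0, 8, 472, 96)]), ([(6, 1, 486, 123)], [(0, 7, 477, 96)]), ([(3, 0, 0, 108)], [(0, 5, 0, 100)]), ([(0, 0, 0, 60)], [(0, 0, 0, 60)])]),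
  (8, 6, [(7, 3, 510, 128), (8, 1, 480, 145)], [(0, 8, 480, 96), (0, 9, 459, 108)], [([(7, 3, 510, 128), (8, 0, 480, 148)], [(0, 8, 480, 96)]), ([(7, 3, 499, 128), (8, 0, 476, 148)], [(0, 8, 476, 96)]), ([(6, 1, 504, 123), (7, 0, 488, 137)], [(0, 8, 472, 96)]), ([(6, 1, 486, 123)], [(0, 7, 477, 96)]), ([(3, 0, 0, 108)], [(0, 5, 0, 100)]), ([(0, 0, 0, 60)], [(0, 0, 0, 60)])]),
  (9, 6, [(7, 3, 510, 125), (8, 0, 480, 148)], [(0, 8, 480, 96), (0, 9, 456, 108)], [([(7, 3, 510, 125), (8, 0, 480, 148)], [(0, 8, 480, 96)]), ([(7, 3, 499, 125)], [(0, 8, 476, 96)]), ([(7, 3, 488, 125)], [(0, 7, 488, 100)]), ([(5, 0, 0, 120)], [(0, 7, 0, 96)]), ([(2, 0, 0, 108)], [(0, 3, 0, 102)]), ([(0, 0, 0, 60)], [(0, 0, 0, 60)])]),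
  (9, 7, [(7, 2, 528, 129), (9, 2, 492, 151), (6, 1, 564, 122)], [(0, 8, 504, 96), (0, 11, 468, 132)], [([(7, 2, 528, 129), (8, 0, 504, 148)], [(3, 6, 492, 108)]), ([(7, 2, 524, 129), (8, 0, 504, 148)], [(3, 6, 492, 108)]), ([(7, 2, 520, 129), (9, 3, 492, 147)], [(2, 7, 492, 108)]), ([(6, 3, 528, 114), (9, 0, 492, 159)], [(2, 7, 492, 108)]), ([(2, 0, 0, 108)], [(0, 4, 0, 96)]), ([(0, 0, 0, 60)], [(0, 0, 0, 60)])]),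
  (9, 7, [(7, 3, 528, 125), (9, 1, 492, 155), (6, 3, 564, 114)], [(0, 8, 504, 96), (0, 10, 480, 120), (0, 7, 528, 84)], [([(8, 3, 504, 136), (6, 2, 564, 118)], [(5, 4, 492, 108)]), ([(7, 2, 524, 129), (8, 0, 504, 148), (6, 2, 552, 118)], [(5, 4, 492, 108)]), ([(7, 3, 520, 125), (8, 0, 504, 148), (6, 2, 540, 118)], [(4, 5, 492, 108)]), ([(6, 3, 528, 114), (9, 0, 492, 159)], [(4, 5, 492, 108)]), ([(3, 0, 0, 102)], [(0, 5, 0, 90)]), ([(0, 0, 0, 60)], [(0, 0, 0, 60)])]),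
  (9, 7, [(8, 3, 504, 136), (6, 3, 564, 114)], [(0, 7, 528, 84), (0, 10, 480, 120)], [([(7, 3, 528, 125), (6, 3, 564, 114), (8, 0, 504, 148)], [(4, 4, 504, 96)]), ([(7, 3, 524, 125), (6, 3, 552, 114), (8, 0, 504, 148)], [(1, 7, 504, 96), (0, 9, 492, 108)]), ([(7, 3, 520, 125), (6, 3, 540, 114), (8, 0, 504, 148)], [(5, 4, 492, 108)]), ([(6, 3, 528, 114), (9, 0, 492, 159)], [(5, 4, 492, 108)]), ([(3, 0, 0, 102)], [(0, 5, 0, 90)]), ([(0, 0, 0, 60)], [(0, 0, 0, 60)])]),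
  (10, 7, [(8, 3, 500, 133), (6, 3, 564, 111)], [(0, 8, 500, 96), (0, 7, 528, 84), (0, 9, 480, 108)], [([(7, 3, 528, 122), (6, 3, 564, 111), (8, 0, 500, 148)], [(2, 6, 500, 96)]), ([(7, 3, 524, 122), (6, 3, 552, 111), (8, 0, 500, 148)], [(2, 6, 500, 96)]), ([(7, 3, 520, 122), (6, 3, 540, 111), (8, 0, 500, 148)], [(2, 6, 500, 96)]), ([(5, 1, 0, 110)], [(0, 6, 0, 90)]), ([(3, 0, 0, 96)], [(0, 4, 0, 88)]), ([(0, 0, 0, 60)], [(0, 0, 0, 60)])]),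
  (10, 7, [(7, 3, 528, 122), (6, 3, 564, 111), (8, 0, 500, 148)], [(0, 8, 500, 96), (0, 7, 528, 84), (0, 9, 480, 108)], [([(7, 3, 528, 122), (6, 3, 564, 111), (8, 0, 500, 148)], [(3, 5, 500, 96)]), ([(6, 3, 552, 111), (8, 0, 500, 148)], [(2, 6, 500, 96)]), ([(6, 3, 540, 111), (8, 0, 500, 148)], [(2, 6, 500, 96)]), ([(5, 2, 0, 105)], [(0, 6, 0, 90)]), ([(3, 0, 0, 96)], [(0, 4, 0, 88)]), ([(0, 0, 0, 60)], [(0, 0, 0, 60)])]),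
  (10, 7, [(7, 3, 528, 122), (6, 3, 564, 111), (8, 0, 500, 148)], [(0, 7, 528, 84), (0, 9, 480, 108)], [([(7, 3, 528, 122), (6, 3, 564, 111), (8, 0, 500, 148)], [(3, 5, 500, 96)]), ([(6, 3, 552, 111), (8, 0, 500, 148)], [(2, 6, 500, 96)]), ([(6, 3, 540, 111), (7, 0, 520, 137)], [(2, 6, 500, 96)]), ([(5, 2, 0, 105)], [(0, 6, 0, 90)]), ([(3, 0, 0, 96)], [(0, 4, 0, 88)]), ([(0, 0, 0, 60)], [(0, 0, 0, 60)])]),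
  (10, 7, [(7, 3, 528, 122), (6, 3, 564, 111), (8, 0, 500, 148)], [(0, 8, 500, 96), (0, 7, 528, 84)], [([(7, 3, 528, 122), (6, 3, 564, 111)], [(2, 6, 500, 96)]), ([(7, 3, 524, 122), (6, 3, 552, 111)], [(2, 6, 500, 96)]), ([(6, 3, 540, 111), (7, 0, 520, 137)], [(2, 6, 500, 96)]), ([(5, 1, 0, 110)], [(0, 6, 0, 90)]), ([(3, 0, 0, 96)], [(0, 4, 0, 88)]), ([(0, 0, 0, 60)], [(0, 0, 0, 60)])]),
  (10, 7, [(6, 3, 564, 111), (8, 0, 500, 148)], [(0, 8, 500, 96), (0, 7, 528, 84)], [([(6, 3, 564, 111), (7, 0, 528, 137)], [(2, 6, 500, 96)]), ([(6, 3, 552, 111), (7, 0, 524, 137)], [(2, 6, 500, 96)]), ([(6, 3, 540, 111), (7, 0, 520, 137)], [(1, 6, 520, 84)]), ([(5, 2, 0, 105)], [(0, 6, 0, 90)]), ([(3, 0, 0, 96)], [(0, 4, 0, 88)]), ([(0, 0, 0, 60)], [(0, 0, 0, 60)])]),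
  (10, 7, [(6, 3, 564, 111), (8, 0, 500, 148)], [(0, 8, 500, 96), (0, 7, 528, 84)], [([(6, 3, 564, 111), (7, 0, 528, 137)], [(1, 7, 500, 96)]), ([(6, 3, 552, 111), (7, 0, 524, 137)], [(1, 7, 500, 96)]), ([(6, 3, 540, 111), (7, 0, 520, 137)], [(0, 7, 520, 84)]), ([(5, 2, 0, 105)], [(0, 6, 0, 90)]), ([(3, 0, 0, 96)], [(0, 4, 0, 88)]), ([(0, 0, 0, 60)], [(0, 0, 0, 60)])]),
  (10, 7, [(6, 3, 564, 111), (7, 0, 528, 137)], [(0, 8, 500, 96)], [([(6, 3, 564, 111), (7, 0, 528, 137)], [(1, 7, 500, 96)]), ([(6, 3, 552, 111), (7, 0, 524, 137)], [(0, 7, 524, 84)]), ([(6, 3, 540, 111), (7, 0, 520, 137)], [(0, 7, 520, 84)]), ([(5, 2, 0, 105)], [(0, 6, 0, 90)]), ([(3, 0, 0, 96)], [(0, 4, 0, 88)]), ([(0, 0, 0, 60)], [(0, 0, 0, 60)])]),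
  (13, 5, [(6, 2, 0, 110)], [(0, 7, 0, 84)], [([(6, 2, 0, 110)], [(0, 7, 0, 84)]), ([(5, 0, 0, 115)], [(0, 6, 0, 72)]), ([(4, 0, 0, 112)], [(0, 5, 0, 80)]), ([(3, 0, 0, 108)], [(0, 4, 0, 84)]), ([(2, 0, 0, 92)], [(0, 2, 0, 92)]), ([(0, 0, 0, 60)], [(0, 0, 0, 60)])]),
  (13, 5, [(6, 1, 0, 118)], [(0, 7, 0, 84)], [([(6, 1, 0, 118)], [(0, 7, 0, 84)]), ([(5, 0, 0, 115)], [(0, 6, 0, 72)]), ([(4, 0, 0, 112)], [(0, 5, 0, 80)]), ([(3, 0, 0, 108)], [(0, 4, 0, 84)]), ([(1, 0, 0, 106)], [(0, 2, 0, 92)]), ([(0, 0, 0, 60)], [(0, 0, 0, 60)])]),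
  (11, 6, [(7, 3, 510, 120)], [(0, 8, 480, 96)], [([(7, 2, 510, 125)], [(0, 8, 480, 96)]), ([(7, 2, 0, 125)], [(0, 7, 0, 104)]), ([(5, 0, 0, 120)], [(0, 6, 0, 96)]), ([(4, 0, 0, 108)], [(0, 5, 0, 90)]), ([(2, 0, 0, 100)], [(0, 2, 0, 100)]), ([(0, 0, 0, 60)], [(0, 0, 0, 60)])]),
  (11, 6, [(7, 3, 510, 120)], [(0, 8, 480, 96)], [([(7, 3, 510, 120)], [(0, 8, 480, 96)]), ([(7, 3, 0, 120)], [(0, 7, 0, 104)]), ([(5, 0, 0, 120)], [(0, 6, 0, 96)]), ([(4, 0, 0, 108)], [(0, 5, 0, 90)]), ([(2, 0, 0, 100)], [(0, 2, 0, 100)]), ([(0, 0, 0, 60)], [(0, 0, 0, 60)])]),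
  (11, 6, [(7, 3, 510, 120)], [(0, 8, 480, 96)], [([(7, 2, 510, 125)], [(0, 8, 480, 96)]), ([(7, 2, 0, 125)], [(0, 7, 0, 104)]), ([(5, 0, 0, 120)], [(0, 6, 0, 96)]), ([(4, 0, 0, 108)], [(0, 5, 0, 90)]), ([(2, 0, 0, 100)], [(0, 2, 0, 100)]), ([(0, 0, 0, 60)], [(0, 0, 0, 60)])]),
  (11, 6, [(7, 3, 510, 120)], [(0, 8, 480, 96)], [([(7, 2, 510, 125)], [(0, 8, 480, 96)]), ([(7, 2, 0, 125)], [(0, 7, 0, 104)]), ([(5, 0, 0, 120)], [(0, 6, 0, 96)]), ([(4, 0, 0, 108)], [(0, 5, 0, 90)]), ([(1, 0, 0, 110)], [(0, 2, 0, 100)]), ([(0, 0, 0, 60)], [(0, 0, 0, 60)])]),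
  (5, 7, [(6, 2, 564, 120)], [(0, 7, 528, 84)], [([(6, 1, 564, 123)], [(0, 7, 528, 84)]), ([(6, 1, 552, 123)], [(0, 6, 552, 102)]), ([(5, 0, 560, 120)], [(0, 6, 540, 96)]), ([(5, 0, 540, 115)], [(0, 5, 540, 105)]), ([(2, 0, 532, 108)], [(0, 3, 528, 102)]), ([(0, 0, 480, 60)], [(0, 0, 480, 60)])]),
  (5, 7, [(6, 3, 564, 117)], [(0, 7, 528, 84)], [([(6, 3, 564, 117)], [(0, 7, 528, 84)]), ([(6, 3, 552, 117)], [(0, 6, 552, 102)]), ([(6, 3, 540, 117)], [(0, 6, 540, 96)]), ([(5, 0, 540, 115)], [(0, 6, 528, 90)]), ([(2, 0, 532, 108)], [(0, 3, 528, 102)]), ([(0, 0, 480, 60)], [(0, 0, 480, 60)])]),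
  (10, 7, [(6, 3, 564, 111)], [(0, 7, 528, 84)], [([(6, 3, 564, 111)], [(0, 7, 528, 84)]), ([(6, 2, 552, 116)], [(0, 7, 524, 84)]), ([(6, 2, 540, 116)], [(0, 6, 540, 96)]), ([(5, 1, 0, 110)], [(0, 6, 0, 90)]), ([(2, 0, 0, 104)], [(0, 3, 0, 96)]), ([(0, 0, 0, 60)], [(0, 0, 0, 60)])]),
  (10, 7, [(6, 3, 564, 111)], [(0, 7, 528, 84)], [([(6, 3, 564, 111)], [(0, 7, 528, 84)]), ([(6, 3, 552, 111)], [(0, 7, 524, 84)]), ([(6, 3, 540, 111)], [(0, 6, 540, 96)]), ([(5, 1, 0, 110)], [(0, 6, 0, 90)]), ([(3, 0, 0, 96)], [(0, 3, 0, 96)]), ([(0, 0, 0, 60)], [(0, 0, 0, 60)])]),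
  (11, 7, [(6, 3, 564, 108)], [(0, 7, 528, 84)], [([(6, 3, 564, 108)], [(0, 7, 528, 84)]), ([(6, 3, 552, 108)], [(0, 7, 524, 84)]), ([(6, 3, 0, 108)], [(0, 6, 0, 96)]), ([(4, 0, 0, 108)], [(0, 5, 0, 90)]), ([(2, 0, 0, 100)], [(0, 3, 0, 90)]), ([(0, 0, 0, 60)], [(0, 0, 0, 60)])]),
  (11, 7, [(6, 3, 564, 108)], [(0, 7, 528, 84)], [([(6, 3, 564, 108)], [(0, 7, 528, 84)]), ([(6, 3, 552, 108)], [(0, 7, 524, 84)]), ([(6, 3, 0, 108)], [(0, 6, 0, 96)]), ([(5, 1, 0, 109)], [(0, 5, 0, 90)]), ([(2, 0, 0, 100)], [(0, 3, 0, 90)]), ([(0, 0, 0, 60)], [(0, 0, 0, 60)])]),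
  (11, 7, [(6, 3, 564, 108)], [(0, 7, 528, 84)], [([(6, 3, 564, 108)], [(0, 7, 528, 84)]), ([(6, 3, 552, 108)], [(0, 7, 524, 84)]), ([(6, 3, 0, 108)], [(0, 7, 0, 84)]), ([(4, 0, 0, 108)], [(0, 5, 0, 90)]), ([(2, 0, 0, 100)], [(0, 3, 0, 90)]), ([(0, 0, 0, 60)], [(0, 0, 0, 60)])]),
  (11, 7, [(6, 3, 564, 108)], [(0, 7, 528, 84)], [([(6, 3, 564, 108)], [(0, 7, 528, 84)]), ([(6, 3, 552, 108)], [(0, 7, 524, 84)]), ([(6, 3, 0, 108)], [(0, 6, 0, 96)]), ([(4, 0, 0, 108)], [(0, 5, 0, 90)]), ([(2, 0, 0, 100)], [(0, 3, 0, 90)]), ([(0, 0, 0, 60)], [(0, 0, 0, 60)])]),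
  (11, 7, [(6, 3, 564, 108)], [(0, 7, 528, 84)], [([(6, 3, 564, 108)], [(0, 7, 528, 84)]), ([(6, 3, 552, 108)], [(0, 7, 524, 84)]), ([(6, 2, 0, 114)], [(0, 6, 0, 96)]), ([(4, 0, 0, 108)], [(0, 5, 0, 90)]), ([(2, 0, 0, 100)], [(0, 3, 0, 90)]), ([(0, 0, 0, 60)], [(0, 0, 0, 60)])]),
  (11, 7, [(6, 3, 564, 108)], [(0, 7, 528, 84)], [([(6, 3, 564, 108)], [(0, 7, 528, 84)]), ([(6, 3, 552, 108)], [(0, 7, 524, 84)]), ([(6, 3, 0, 108)], [(0, 6, 0, 96)]), ([(5, 1, 0, 109)], [(0, 5, 0, 90)]), ([(2, 0, 0, 100)], [(0, 3, 0, 90)]), ([(0, 0, 0, 60)], [(0, 0, 0, 60)])]),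
  (11, 7, [(6, 3, 564, 108)], [(0, 7, 528, 84)], [([(6, 3, 564, 108)], [(0, 7, 528, 84)]), ([(6, 3, 552, 108)], [(0, 7, 524, 84)]), ([(6, 3, 0, 108)], [(0, 6, 0, 96)]), ([(4, 0, 0, 108)], [(0, 5, 0, 90)]), ([(2, 0, 0, 100)], [(0, 3, 0, 90)]), ([(0, 0, 0, 60)], [(0, 0, 0, 60)])]),
  (11, 7, [(6, 3, 564, 108)], [(0, 7, 528, 84)], [([(6, 3, 564, 108)], [(0, 7, 528, 84)]), ([(6, 3, 552, 108)], [(0, 7, 524, 84)]), ([(6, 3, 0, 108)], [(0, 6, 0, 96)]), ([(5, 1, 0, 109)], [(0, 5, 0, 90)]), ([(2, 0, 0, 100)], [(0, 3, 0, 90)]), ([(0, 0, 0, 60)], [(0, 0, 0, 60)])]),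
  (11, 7, [(6, 3, 564, 108)], [(0, 7, 528, 84)], [([(6, 3, 564, 108)], [(0, 7, 528, 84)]), ([(6, 3, 552, 108)], [(0, 7, 524, 84)]), ([(6, 3, 0, 108)], [(0, 6, 0, 96)]), ([(4, 0, 0, 108)], [(0, 5, 0, 90)]), ([(2, 0, 0, 100)], [(0, 3, 0, 90)]), ([(0, 0, 0, 60)], [(0, 0, 0, 60)])]),
  (11, 7, [(6, 3, 564, 108)], [(0, 7, 528, 84)], [([(6, 3, 564, 108)], [(0, 7, 528, 84)]), ([(6, 3, 552, 108)], [(0, 7, 524, 84)]), ([(6, 3, 0, 108)], [(0, 6, 0, 96)]), ([(5, 2, 0, 103)], [(0, 5, 0, 90)]), ([(2, 0, 0, 100)], [(0, 3, 0, 90)]), ([(0, 0, 0, 60)], [(0, 0, 0, 60)])]),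
  (11, 7, [(6, 3, 564, 108)], [(0, 7, 528, 84)], [([(6, 3, 564, 108)], [(0, 7, 528, 84)]), ([(6, 3, 552, 108)], [(0, 7, 524, 84)]), ([(6, 3, 0, 108)], [(0, 6, 0, 96)]), ([(5, 2, 0, 103)], [(0, 5, 0, 90)]), ([(2, 0, 0, 100)], [(0, 3, 0, 90)]), ([(0, 0, 0, 60)], [(0, 0, 0, 60)])]),
  (11, 7, [(6, 3, 564, 108)], [(0, 7, 528, 84)], [([(6, 3, 564, 108)], [(0, 7, 528, 84)]), ([(6, 3, 552, 108)], [(0, 7, 524, 84)]), ([(6, 3, 0, 108)], [(0, 6, 0, 96)]), ([(5, 1, 0, 109)], [(0, 5, 0, 90)]), ([(2, 0, 0, 100)], [(0, 3, 0, 90)]), ([(0, 0, 0, 60)], [(0, 0, 0, 60)])]),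
  (11, 7, [(6, 3, 564, 108)], [(0, 7, 528, 84)], [([(6, 3, 564, 108)], [(0, 7, 528, 84)]), ([(6, 3, 552, 108)], [(0, 7, 524, 84)]), ([(6, 3, 0, 108)], [(0, 6, 0, 96)]), ([(5, 1, 0, 109)], [(0, 5, 0, 90)]), ([(2, 0, 0, 100)], [(0, 3, 0, 90)]), ([(0, 0, 0, 60)], [(0, 0, 0, 60)])]),
  (11, 7, [(6, 3, 564, 108)], [(0, 7, 528, 84)], [([(6, 3, 564, 108)], [(0, 7, 528, 84)]), ([(6, 3, 552, 108)], [(0, 7, 524, 84)]), ([(6, 3, 0, 108)], [(0, 6, 0, 96)]), ([(5, 1, 0, 109)], [(0, 5, 0, 90)]), ([(2, 0, 0, 100)], [(0, 3, 0, 90)]), ([(0, 0, 0, 60)], [(0, 0, 0, 60)])])]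

theorem okR14 : rowChk 12 60 tR12 tR14 cR14 14 = true := by decide +kernel

theorem smR14 : smallChk 12 tR14 = true := by decide +kernel

theorem lenR14 : cR14.length = 56 := by decide +kernel

end Pool.Agent.Lib.MP_22c8c7_co
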