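import Mathlib
import Pool.Agent.Lib.MP_22c8c7_co.TabR

/-! # Refined table, certificates of the row `n = 16` (generated) -/

set_option autoImplicit false
set_option linter.style.longLine false

namespace Pool.Agent.Lib.MP_22c8c7_co

/-- the certificates of the entries `N = 16, ..., 69` -/
def cR16 : List Cert := [
  (0, 0, [(0, 0, 420, 420)], [(0, 0, 420, 420)], [([(0, 0, 420, 420)], [(0, 0, 420, 420)]), ([(0, 0, 360, 360)], [(0, 0, 360, 360)]), ([(0, 0, 300, 300)], [(0, 0, 300, 300)]), ([(0, 0, 240, 240)], [(0, 0, 240, 240)]), ([(0, 0, 180, 180)], [(0, 0, 180, 180)]), ([(0, 0, 120, 120)], [(0, 0, 120, 120)]), ([(0, 0, 60, 60)], [(0, 0, 60, 60)])]),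
  (8, 0, [(0, 0, 0, 420)], [(0, 1, 0, 413)], [([(0, 0, 0, 420)], [(0, 0, 0, 420)]), ([(0, 0, 0, 360)], [(0, 0, 0, 360)]), ([(0, 0, 0, 300)], [(0, 0, 0, 300)]), ([(0, 0, 0, 240)], [(0, 0, 0, 240)]), ([(0, 0, 0, 180)], [(0, 0, 0, 180)]), ([(0, 0, 0, 120)], [(0, 0, 0, 120)]), ([(0, 0, 0, 60)], [(0, 0, 0, 60)])]),
  (8, 3, [(0, 0, 600, 420)], [(0, 9, 477, 231)], [([(0, 0, 600, 420)], [(0, 1, 586, 399)]), ([(0, 0, 540, 360)], [(0, 0, 540, 360)]), ([(0, 0, 0, 300)], [(0, 0, 0, 300)]), ([(0, 0, 0, 240)], [(0, 0, 0, 240)]), ([(0, 0, 0, 180)], [(0, 0, 0, 180)]), ([(0, 0, 0, 120)], [(0, 0, 0, 120)]), ([(0, 0, 0, 60)], [(0, 0, 0, 60)])]),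
  (8, 2, [(0, 0, 540, 420)], [(0, 9, 477, 294)], [([(0, 0, 540, 420)], [(0, 1, 533, 406)]), ([(0, 0, 0, 360)], [(0, 0, 0, 360)]), ([(0, 0, 0, 300)], [(0, 0, 0, 300)]), ([(0, 0, 0, 240)], [(0, 0, 0, 240)]), ([(0, 0, 0, 180)], [(0, 0, 0, 180)]), ([(0, 0, 0, 120)], [(0, 0, 0, 120)]), ([(0, 0, 0, 60)], [(0, 0, 0, 60)])]),
  (8, 2, [(0, 0, 540, 420)], [(0, 9, 477, 294)], [([(0, 0, 540, 420)], [(0, 4, 512, 364)]), ([(0, 0, 0, 360)], [(0, 0, 0, 360)]), ([(0, 0, 0, 300)], [(0, 0, 0, 300)]), ([(0, 0, 0, 240)], [(0, 0, 0, 240)]), ([(0, 0, 0, 180)], [(0, 0, 0, 180)]), ([(0, 0, 0, 120)], [(0, 0, 0, 120)]), ([(0, 0, 0, 60)], [(0, 0, 0, 60)])]),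
  (8, 3, [(2, 0, 572, 378)], [(0, 9, 477, 231)], [([(2, 0, 572, 378)], [(0, 5, 530, 315)]), ([(0, 0, 540, 360)], [(0, 2, 520, 328)]), ([(0, 0, 0, 300)], [(0, 0, 0, 300)]), ([(0, 0, 0, 240)], [(0, 0, 0, 240)]), ([(0, 0, 0, 180)], [(0, 0, 0, 180)]), ([(0, 0, 0, 120)], [(0, 0, 0, 120)]), ([(0, 0, 0, 60)], [(0, 0, 0, 60)])]),
  (8, 4, [(5, 0, 555, 280)], [(0, 9, 477, 168)], [([(5, 0, 555, 280)], [(0, 7, 513, 224)]), ([(3, 0, 552, 294)], [(0, 5, 520, 250)]), ([(0, 0, 540, 300)], [(0, 1, 529, 284)]), ([(0, 0, 0, 240)], [(0, 0, 0, 240)]), ([(0, 0, 0, 180)], [(0, 0, 0, 180)]), ([(0, 0, 0, 120)], [(0, 0, 0, 120)]), ([(0, 0, 0, 60)], [(0, 0, 0, 60)])]),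
  (8, 4, [(6, 0, 534, 252)], [(0, 9, 477, 168)], [([(5, 0, 555, 280)], [(0, 7, 513, 224)]), ([(3, 0, 552, 294)], [(0, 5, 520, 250)]), ([(1, 0, 529, 284)], [(0, 3, 507, 252)]), ([(0, 0, 0, 240)], [(0, 0, 0, 240)]), ([(0, 0, 0, 180)], [(0, 0, 0, 180)]), ([(0, 0, 0, 120)], [(0, 0, 0, 120)]), ([(0, 0, 0, 60)], [(0, 0, 0, 60)])]),
  (8, 6, [(7, 0, 535, 151)], [(0, 9, 477, 126)], [([(7, 0, 535, 151)], [(0, 8, 500, 112)]), ([(7, 0, 524, 151)], [(0, 8, 496, 112)]), ([(6, 0, 534, 144)], [(0, 7, 513, 118)]), ([(5, 0, 530, 150)], [(0, 6, 516, 132)]), ([(2, 0, 526, 160)], [(0, 3, 519, 150)]), ([(0, 0, 0, 120)], [(0, 0, 0, 120)]), ([(0, 0, 0, 60)], [(0, 0, 0, 60)])]),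
  (8, 6, [(7, 0, 535, 151)], [(0, 9, 477, 126)], [([(7, 0, 535, 151)], [(0, 8, 500, 112)]), ([(7, 0, 524, 151)], [(0, 8, 496, 112)]), ([(7, 0, 513, 151)], [(0, 7, 513, 118)]), ([(6, 0, 516, 138)], [(0, 7, 502, 114)]), ([(3, 0, 519, 150)], [(0, 4, 512, 140)]), ([(0, 0, 0, 120)], [(0, 0, 0, 120)]), ([(0, 0, 0, 60)], [(0, 0, 0, 60)])]),
  (8, 6, [(8, 0, 500, 164)], [(0, 9, 477, 126)], [([(7, 0, 535, 151)], [(0, 8, 500, 112)]), ([(7, 0, 524, 151)], [(0, 8, 496, 112)]), ([(7, 0, 513, 151)], [(0, 8, 492, 112)]), ([(6, 0, 516, 138)], [(0, 7, 502, 114)]), ([(4, 0, 512, 140)], [(0, 4, 512, 140)]), ([(0, 0, 0, 120)], [(0, 0, 0, 120)]), ([(0, 0, 0, 60)], [(0, 0, 0, 60)])]),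
  (8, 7, [(8, 0, 524, 164)], [(0, 8, 524, 112), (9, 22, 478, 434)], [([(8, 0, 524, 164)], [(0, 8, 524, 112), (0, 16, 508, 224)]), ([(8, 0, 524, 164)], [(0, 8, 524, 112), (0, 16, 508, 224)]), ([(10, 0, 520, 190)], [(0, 7, 538, 98), (0, 16, 508, 224)]), ([(6, 0, 552, 138), (12, 0, 516, 216)], [(0, 7, 534, 98), (0, 16, 508, 224)]), ([(5, 3, 550, 119), (14, 0, 512, 242)], [(0, 6, 540, 102), (0, 16, 508, 224)]), ([(1, 0, 538, 116), (16, 0, 508, 268)], [(0, 1, 538, 116), (0, 16, 508, 224)]), ([(0, 0, 0, 60)], [(0, 0, 0, 60)])]),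
  (8, 7, [(7, 3, 546, 145), (8, 0, 524, 164)], [(0, 7, 546, 98), (4, 22, 488, 364)], [([(8, 0, 524, 164)], [(1, 6, 546, 98), (0, 12, 516, 168)]), ([(8, 0, 524, 164)], [(1, 6, 542, 98), (0, 12, 516, 168)]), ([(8, 0, 524, 164)], [(1, 6, 538, 98), (0, 12, 516, 168)]), ([(8, 0, 524, 164)], [(1, 6, 534, 98), (0, 12, 516, 168)]), ([(5, 0, 550, 125), (11, 0, 518, 203)], [(1, 5, 540, 102), (0, 12, 516, 168)]), ([(2, 0, 536, 112), (13, 0, 514, 229)], [(0, 6, 528, 96), (0, 12, 516, 168)]), ([(0, 0, 0, 60)], [(0, 0, 0, 60)])]),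
  (12, 10, [(13, 2, 533, 217), (5, 0, 705, 125)], [(0, 14, 514, 196), (0, 5, 705, 70), (0, 15, 495, 210)], [([(11, 1, 571, 197), (5, 0, 705, 125)], [(9, 3, 552, 168), (0, 5, 705, 70)]), ([(11, 2, 571, 191), (4, 0, 752, 128)], [(5, 8, 533, 182), (0, 5, 700, 70)]), ([(12, 0, 552, 216), (4, 0, 736, 116)], [(5, 8, 533, 182), (0, 5, 695, 70)]), ([(12, 0, 552, 216), (4, 0, 720, 112)], [(4, 9, 533, 182), (0, 5, 690, 70)]), ([(12, 2, 552, 204), (3, 0, 723, 114), (13, 0, 533, 229)], [(4, 9, 533, 182), (0, 5, 685, 70)]), ([(2, 0, 0, 100)], [(0, 4, 0, 80)]), ([(0, 0, 0, 60)], [(0, 0, 0, 60)])]),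
  (9, 8, [(6, 3, 606, 129), (12, 0, 552, 216)], [(0, 6, 606, 84), (0, 22, 512, 308)], [([(6, 0, 606, 138), (9, 0, 564, 177)], [(4, 4, 568, 112), (0, 16, 536, 224)]), ([(6, 2, 600, 132), (11, 0, 556, 203)], [(2, 5, 572, 98), (0, 16, 536, 224)]), ([(6, 3, 594, 129), (13, 0, 548, 229)], [(5, 3, 568, 116), (0, 16, 536, 224)]), ([(7, 0, 572, 151), (5, 0, 610, 125), (14, 0, 544, 242)], [(4, 4, 568, 112), (0, 16, 536, 224)]), ([(5, 1, 595, 122), (15, 0, 540, 255)], [(3, 5, 568, 112), (0, 16, 536, 224)]), ([(2, 0, 592, 108), (16, 0, 536, 268)], [(3, 5, 568, 112), (0, 16, 536, 224)]), ([(0, 0, 0, 60)], [(0, 0, 0, 60)])]),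
  (9, 8, [(6, 3, 606, 129), (11, 0, 556, 203)], [(0, 8, 568, 112), (0, 21, 516, 294), (0, 6, 606, 84)], [([(7, 3, 572, 142), (9, 0, 564, 177)], [(3, 5, 568, 112), (0, 15, 540, 210)]), ([(6, 2, 600, 132), (10, 0, 560, 190)], [(3, 5, 568, 112), (0, 15, 540, 210)]), ([(6, 3, 594, 129), (13, 0, 548, 229)], [(3, 5, 568, 112), (0, 15, 540, 210)]), ([(7, 0, 572, 151), (5, 0, 610, 125), (13, 0, 548, 229)], [(3, 5, 568, 112), (0, 15, 540, 210)]), ([(5, 1, 595, 122), (14, 0, 544, 242)], [(2, 6, 568, 112), (0, 15, 540, 210)]), ([(2, 0, 592, 108), (15, 0, 540, 255)], [(2, 6, 568, 112), (0, 15, 540, 210)]), ([(0, 0, 0, 60)], [(0, 0, 0, 60)])]),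
  (8, 7, [(7, 0, 546, 151), (6, 2, 588, 134)], [(0, 7, 546, 98), (0, 9, 522, 126)], [([(6, 0, 588, 138), (7, 0, 546, 151)], [(1, 6, 546, 98)]), ([(6, 1, 576, 136), (7, 0, 542, 151)], [(0, 7, 542, 98)]), ([(6, 2, 564, 134), (7, 0, 538, 151)], [(0, 7, 538, 98)]), ([(6, 3, 552, 132)], [(0, 7, 534, 98)]), ([(5, 0, 550, 125), (6, 0, 540, 138)], [(0, 7, 530, 98)]), ([(2, 0, 536, 112)], [(0, 5, 530, 100)]), ([(0, 0, 0, 60)], [(0, 0, 0, 60)])]),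
  (9, 7, [(7, 3, 546, 142)], [(0, 7, 546, 98), (0, 8, 520, 112)], [([(7, 2, 546, 145)], [(1, 6, 546, 98)]), ([(6, 2, 576, 132), (7, 0, 542, 151)], [(1, 6, 542, 98)]), ([(6, 2, 564, 132), (7, 0, 538, 151)], [(0, 7, 538, 98)]), ([(6, 2, 552, 132)], [(0, 7, 534, 98)]), ([(6, 3, 540, 129)], [(0, 7, 530, 98)]), ([(1, 0, 0, 116)], [(0, 2, 0, 112)]), ([(0, 0, 0, 60)], [(0, 0, 0, 60)])]),
  (8, 6, [(7, 3, 535, 145)], [(0, 8, 500, 112)], [([(7, 1, 535, 149)], [(0, 8, 500, 112)]), ([(7, 1, 524, 149)], [(0, 8, 496, 112)]), ([(7, 3, 513, 145)], [(0, 8, 492, 112)]), ([(6, 0, 516, 138)], [(0, 8, 488, 112)]), ([(5, 0, 505, 130)], [(0, 7, 491, 110)]), ([(1, 0, 0, 118)], [(0, 4, 0, 112)]), ([(0, 0, 0, 60)], [(0, 0, 0, 60)])]),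
  (8, 7, [(7, 3, 546, 145), (6, 0, 588, 138)], [(0, 7, 546, 98), (0, 8, 524, 112)], [([(7, 3, 546, 145)], [(0, 7, 546, 98)]), ([(6, 3, 576, 132), (7, 0, 542, 151)], [(0, 7, 542, 98)]), ([(6, 2, 564, 134), (7, 0, 538, 151)], [(0, 7, 538, 98)]), ([(6, 2, 552, 134)], [(0, 7, 534, 98)]), ([(5, 0, 550, 125)], [(0, 6, 540, 102)]), ([(1, 0, 538, 116)], [(0, 4, 532, 104)]), ([(0, 0, 0, 60)], [(0, 0, 0, 60)])]),
  (9, 7, [(7, 3, 546, 142), (6, 0, 588, 138)], [(0, 7, 546, 98), (0, 8, 520, 112)], [([(7, 3, 546, 142)], [(0, 7, 546, 98)]), ([(6, 3, 576, 129), (7, 0, 542, 151)], [(0, 7, 542, 98)]), ([(6, 2, 564, 132), (7, 0, 538, 151)], [(0, 7, 538, 98)]), ([(6, 2, 552, 132)], [(0, 7, 534, 98)]), ([(5, 0, 550, 125)], [(0, 6, 540, 102)]), ([(2, 0, 0, 112)], [(0, 3, 0, 108)]), ([(0, 0, 0, 60)], [(0, 0, 0, 60)])]),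
  (9, 7, [(7, 3, 546, 142), (6, 1, 588, 135)], [(0, 7, 546, 98), (0, 8, 520, 112)], [([(6, 3, 588, 129), (7, 0, 546, 151)], [(0, 7, 546, 98)]), ([(6, 1, 576, 135), (7, 3, 542, 142)], [(0, 7, 542, 98)]), ([(6, 3, 564, 129), (7, 0, 538, 151)], [(0, 7, 538, 98)]), ([(6, 2, 552, 132)], [(0, 7, 534, 98)]), ([(5, 0, 550, 125)], [(0, 6, 540, 102)]), ([(2, 0, 0, 112)], [(0, 4, 0, 104)]), ([(0, 0, 0, 60)], [(0, 0, 0, 60)])]),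
  (9, 7, [(6, 2, 588, 132), (7, 3, 546, 142)], [(0, 7, 546, 98), (0, 8, 520, 112)], [([(6, 2, 588, 132), (7, 1, 546, 148)], [(0, 7, 546, 98)]), ([(6, 3, 576, 129), (7, 3, 542, 142)], [(0, 7, 542, 98)]), ([(6, 3, 564, 129), (7, 0, 538, 151)], [(0, 7, 538, 98)]), ([(6, 3, 552, 129)], [(0, 7, 534, 98)]), ([(5, 0, 550, 125), (6, 0, 540, 138)], [(0, 6, 540, 102)]), ([(2, 0, 0, 112)], [(0, 4, 0, 104)]), ([(0, 0, 0, 60)], [(0, 0, 0, 60)])]),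
  (9, 7, [(6, 3, 588, 129), (7, 2, 546, 145)], [(0, 7, 546, 98), (0, 8, 520, 112)], [([(6, 3, 588, 129), (7, 0, 546, 151)], [(0, 7, 546, 98)]), ([(6, 3, 576, 129), (7, 1, 542, 148)], [(0, 7, 542, 98)]), ([(6, 3, 564, 129), (7, 0, 538, 151)], [(0, 7, 538, 98)]), ([(6, 3, 552, 129)], [(0, 7, 534, 98)]), ([(5, 0, 550, 125)], [(0, 6, 540, 102)]), ([(2, 0, 0, 112)], [(0, 4, 0, 104)]), ([(0, 0, 0, 60)], [(0, 0, 0, 60)])]),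
  (10, 7, [(6, 2, 588, 130), (7, 0, 546, 151)], [(0, 7, 546, 98), (0, 8, 516, 112)], [([(6, 2, 588, 130), (7, 0, 546, 151)], [(0, 7, 546, 98)]), ([(6, 2, 576, 130), (7, 0, 542, 151)], [(0, 7, 542, 98)]), ([(6, 2, 564, 130), (7, 0, 538, 151)], [(0, 7, 538, 98)]), ([(6, 3, 552, 126)], [(0, 7, 534, 98)]), ([(5, 0, 0, 125)], [(0, 6, 0, 102)]), ([(2, 0, 0, 108)], [(0, 3, 0, 102)]), ([(0, 0, 0, 60)], [(0, 0, 0, 60)])]),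
  (10, 7, [(6, 2, 588, 130), (7, 0, 546, 151)], [(0, 7, 546, 98), (0, 8, 516, 112)], [([(6, 2, 588, 130), (7, 0, 546, 151)], [(0, 7, 546, 98)]), ([(6, 2, 576, 130), (7, 0, 542, 151)], [(0, 7, 542, 98)]), ([(6, 2, 564, 130), (7, 0, 538, 151)], [(0, 7, 538, 98)]), ([(6, 3, 552, 126)], [(0, 7, 534, 98)]), ([(5, 0, 0, 125)], [(0, 6, 0, 102)]), ([(2, 0, 0, 108)], [(0, 3, 0, 102)]), ([(0, 0, 0, 60)], [(0, 0, 0, 60)])]),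
  (10, 7, [(6, 3, 588, 126), (7, 0, 546, 151)], [(0, 7, 546, 98), (0, 8, 516, 112)], [([(6, 3, 588, 126), (7, 0, 546, 151)], [(0, 7, 546, 98)]), ([(6, 3, 576, 126), (7, 0, 542, 151)], [(0, 7, 542, 98)]), ([(6, 2, 564, 130), (7, 0, 538, 151)], [(0, 7, 538, 98)]), ([(6, 3, 552, 126)], [(0, 7, 534, 98)]), ([(5, 0, 0, 125)], [(0, 6, 0, 102)]), ([(2, 0, 0, 108)], [(0, 3, 0, 102)]), ([(0, 0, 0, 60)], [(0, 0, 0, 60)])]),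
  (12, 9, [(6, 2, 624, 126), (9, 2, 546, 165), (5, 1, 680, 119)], [(0, 7, 598, 98), (0, 9, 546, 126)], [([(6, 2, 624, 126), (8, 0, 572, 164)], [(5, 3, 572, 112), (0, 9, 546, 126)]), ([(6, 2, 624, 126), (8, 1, 572, 158)], [(4, 4, 572, 112), (0, 9, 546, 126)]), ([(6, 2, 624, 126), (8, 2, 572, 152)], [(4, 4, 572, 112), (0, 9, 546, 126)]), ([(6, 2, 624, 126), (9, 2, 546, 165)], [(3, 5, 572, 112), (0, 9, 546, 126)]), ([(4, 0, 0, 112)], [(0, 5, 0, 85)]), ([(2, 0, 0, 100)], [(0, 3, 0, 90)]), ([(0, 0, 0, 60)], [(0, 0, 0, 60)])]),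
  (12, 9, [(7, 2, 598, 139), (5, 1, 680, 119), (8, 2, 572, 152)], [(0, 8, 572, 112), (0, 9, 546, 126), (0, 6, 624, 84)], [([(7, 2, 598, 139), (5, 1, 680, 119), (8, 0, 572, 164)], [(5, 3, 572, 112), (0, 6, 624, 84)]), ([(7, 2, 598, 139), (5, 1, 670, 119), (8, 0, 572, 164)], [(5, 3, 572, 112)]), ([(7, 2, 598, 139), (8, 1, 572, 158), (5, 1, 660, 119)], [(5, 3, 572, 112), (0, 9, 546, 126)]), ([(7, 2, 598, 139), (5, 1, 650, 119), (8, 2, 572, 152)], [(4, 4, 572, 112), (0, 9, 546, 126)]), ([(4, 0, 0, 112)], [(0, 5, 0, 85)]), ([(2, 0, 0, 100)], [(0, 3, 0, 90)]), ([(0, 0, 0, 60)], [(0, 0, 0, 60)])]),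
  (11, 9, [(6, 3, 624, 126), (12, 2, 528, 206), (5, 2, 680, 115)], [(0, 7, 608, 98), (0, 14, 496, 196), (0, 6, 624, 84)], [([(7, 3, 608, 140), (5, 2, 680, 115), (9, 0, 576, 177)], [(3, 4, 608, 98), (0, 10, 560, 140)]), ([(6, 3, 624, 126), (9, 2, 576, 167), (5, 2, 670, 115)], [(3, 4, 608, 98), (0, 10, 560, 140)]), ([(6, 3, 624, 126), (11, 2, 544, 193), (5, 2, 660, 115)], [(3, 4, 608, 98), (0, 10, 560, 140)]), ([(6, 2, 624, 128), (14, 2, 496, 232), (5, 2, 650, 115)], [(5, 3, 592, 112), (0, 10, 560, 140)]), ([(5, 3, 640, 112), (17, 2, 448, 271)], [(5, 3, 592, 112), (0, 10, 560, 140)]), ([(2, 0, 0, 104)], [(0, 4, 0, 88)]), ([(0, 0, 0, 60)], [(0, 0, 0, 60)])]),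
  (15, 6, [(6, 2, 0, 120)], [(0, 6, 0, 84)], [([(6, 2, 0, 120)], [(0, 6, 0, 84)]), ([(5, 1, 0, 116)], [(0, 5, 0, 100)]), ([(4, 0, 0, 116)], [(0, 5, 0, 70)]), ([(4, 0, 0, 112)], [(0, 4, 0, 88)]), ([(3, 0, 0, 99)], [(0, 3, 0, 96)]), ([(1, 0, 0, 104)], [(0, 2, 0, 88)]), ([(0, 0, 0, 60)], [(0, 0, 0, 60)])]),
  (10, 7, [(6, 3, 588, 126)], [(0, 7, 546, 98)], [([(6, 3, 588, 126)], [(0, 7, 546, 98)]), ([(6, 3, 576, 126)], [(0, 7, 542, 98)]), ([(6, 3, 564, 126)], [(0, 7, 538, 98)]), ([(6, 3, 552, 126)], [(0, 7, 534, 98)]), ([(5, 0, 0, 125)], [(0, 6, 0, 102)]), ([(2, 0, 0, 108)], [(0, 3, 0, 102)]), ([(0, 0, 0, 60)], [(0, 0, 0, 60)])]),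
  (10, 7, [(6, 3, 588, 126)], [(0, 7, 546, 98)], [([(6, 3, 588, 126)], [(0, 7, 546, 98)]), ([(6, 3, 576, 126)], [(0, 7, 542, 98)]), ([(6, 2, 564, 130)], [(0, 7, 538, 98)]), ([(6, 3, 552, 126)], [(0, 7, 534, 98)]), ([(5, 0, 0, 125)], [(0, 6, 0, 102)]), ([(2, 0, 0, 108)], [(0, 3, 0, 102)]), ([(0, 0, 0, 60)], [(0, 0, 0, 60)])]),
  (10, 7, [(6, 3, 588, 126)], [(0, 7, 546, 98)], [([(6, 3, 588, 126)], [(0, 7, 546, 98)]), ([(6, 3, 576, 126)], [(0, 7, 542, 98)]), ([(6, 3, 564, 126)], [(0, 7, 538, 98)]), ([(6, 3, 552, 126)], [(0, 7, 534, 98)]), ([(5, 1, 0, 121)], [(0, 6, 0, 102)]), ([(2, 0, 0, 108)], [(0, 3, 0, 102)]), ([(0, 0, 0, 60)], [(0, 0, 0, 60)])]),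
  (10, 7, [(6, 3, 588, 126)], [(0, 7, 546, 98)], [([(6, 3, 588, 126)], [(0, 7, 546, 98)]), ([(6, 3, 576, 126)], [(0, 7, 542, 98)]), ([(6, 3, 564, 126)], [(0, 7, 538, 98)]), ([(6, 3, 552, 126)], [(0, 7, 534, 98)]), ([(5, 1, 0, 121)], [(0, 6, 0, 102)]), ([(2, 0, 0, 108)], [(0, 3, 0, 102)]), ([(0, 0, 0, 60)], [(0, 0, 0, 60)])]),
  (10, 7, [(6, 3, 588, 126)], [(0, 7, 546, 98)], [([(6, 3, 588, 126)], [(0, 7, 546, 98)]), ([(6, 3, 576, 126)], [(0, 7, 542, 98)]), ([(6, 3, 564, 126)], [(0, 7, 538, 98)]), ([(6, 3, 552, 126)], [(0, 6, 552, 108)]), ([(5, 1, 0, 121)], [(0, 6, 0, 102)]), ([(2, 0, 0, 108)], [(0, 2, 0, 108)]), ([(0, 0, 0, 60)], [(0, 0, 0, 60)])]),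
  (11, 7, [(6, 3, 588, 126)], [(0, 7, 546, 98)], [([(6, 3, 588, 126)], [(0, 7, 546, 98)]), ([(6, 3, 576, 126)], [(0, 7, 542, 98)]), ([(6, 3, 564, 126)], [(0, 7, 538, 98)]), ([(6, 3, 0, 126)], [(0, 6, 0, 108)]), ([(4, 0, 0, 116)], [(0, 5, 0, 100)]), ([(2, 0, 0, 104)], [(0, 2, 0, 104)]), ([(0, 0, 0, 60)], [(0, 0, 0, 60)])]),
  (10, 7, [(6, 3, 588, 126)], [(0, 7, 546, 98)], [([(6, 3, 588, 126)], [(0, 7, 546, 98)]), ([(6, 3, 576, 126)], [(0, 7, 542, 98)]), ([(6, 3, 564, 126)], [(0, 7, 538, 98)]), ([(6, 3, 552, 126)], [(0, 6, 552, 108)]), ([(5, 0, 0, 125)], [(0, 6, 0, 102)]), ([(2, 0, 0, 108)], [(0, 2, 0, 108)]), ([(0, 0, 0, 60)], [(0, 0, 0, 60)])]),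
  (10, 7, [(6, 3, 588, 126)], [(0, 7, 546, 98)], [([(6, 3, 588, 126)], [(0, 7, 546, 98)]), ([(6, 3, 576, 126)], [(0, 7, 542, 98)]), ([(6, 2, 564, 130)], [(0, 7, 538, 98)]), ([(6, 3, 552, 126)], [(0, 6, 552, 108)]), ([(5, 0, 0, 125)], [(0, 6, 0, 102)]), ([(1, 0, 0, 114)], [(0, 2, 0, 108)]), ([(0, 0, 0, 60)], [(0, 0, 0, 60)])]),
  (10, 7, [(6, 3, 588, 126)], [(0, 7, 546, 98)], [([(6, 3, 588, 126)], [(0, 7, 546, 98)]), ([(6, 3, 576, 126)], [(0, 7, 542, 98)]), ([(6, 3, 564, 126)], [(0, 7, 538, 98)]), ([(6, 3, 552, 126)], [(0, 6, 552, 108)]), ([(5, 0, 0, 125)], [(0, 6, 0, 102)]), ([(1, 0, 0, 114)], [(0, 2, 0, 108)]), ([(0, 0, 0, 60)], [(0, 0, 0, 60)])]),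
  (10, 7, [(6, 3, 588, 126)], [(0, 7, 546, 98)], [([(6, 3, 588, 126)], [(0, 7, 546, 98)]), ([(6, 3, 576, 126)], [(0, 7, 542, 98)]), ([(6, 3, 564, 126)], [(0, 7, 538, 98)]), ([(6, 3, 552, 126)], [(0, 6, 552, 108)]), ([(5, 0, 0, 125)], [(0, 6, 0, 102)]), ([(1, 0, 0, 114)], [(0, 2, 0, 108)]), ([(0, 0, 0, 60)], [(0, 0, 0, 60)])]),
  (13, 8, [(6, 2, 606, 124)], [(0, 7, 560, 98)], [([(6, 2, 606, 124)], [(0, 6, 606, 84)]), ([(6, 2, 600, 124)], [(0, 6, 600, 84)]), ([(5, 0, 0, 125)], [(0, 6, 0, 84)]), ([(4, 0, 0, 120)], [(0, 5, 0, 90)]), ([(3, 0, 0, 114)], [(0, 4, 0, 92)]), ([(1, 0, 0, 108)], [(0, 1, 0, 108)]), ([(0, 0, 0, 60)], [(0, 0, 0, 60)])]),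
  (13, 8, [(6, 2, 606, 124)], [(0, 6, 606, 84)], [([(6, 2, 606, 124)], [(0, 6, 606, 84)]), ([(6, 2, 600, 124)], [(0, 6, 600, 84)]), ([(5, 0, 0, 125)], [(0, 6, 0, 84)]), ([(4, 0, 0, 120)], [(0, 5, 0, 90)]), ([(3, 0, 0, 114)], [(0, 4, 0, 92)]), ([(1, 0, 0, 108)], [(0, 1, 0, 108)]), ([(0, 0, 0, 60)], [(0, 0, 0, 60)])]),
  (13, 8, [(6, 2, 606, 124)], [(0, 6, 606, 84)], [([(6, 2, 606, 124)], [(0, 6, 606, 84)]), ([(6, 2, 600, 124)], [(0, 6, 600, 84)]), ([(5, 0, 0, 125)], [(0, 6, 0, 84)]), ([(4, 0, 0, 120)], [(0, 5, 0, 90)]), ([(3, 0, 0, 114)], [(0, 4, 0, 92)]), ([(1, 0, 0, 108)], [(0, 1, 0, 108)]), ([(0, 0, 0, 60)], [(0, 0, 0, 60)])]),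
  (14, 8, [(6, 2, 606, 122)], [(0, 6, 606, 84)], [([(6, 2, 606, 122)], [(0, 6, 606, 84)]), ([(6, 1, 0, 130)], [(0, 6, 0, 84)]), ([(5, 0, 0, 125)], [(0, 5, 0, 95)]), ([(4, 0, 0, 112)], [(0, 4, 0, 104)]), ([(3, 0, 0, 105)], [(0, 3, 0, 105)]), ([(1, 0, 0, 106)], [(0, 1, 0, 106)]), ([(0, 0, 0, 60)], [(0, 0, 0, 60)])]),
  (14, 8, [(6, 2, 606, 122)], [(0, 6, 606, 84)], [([(6, 2, 606, 122)], [(0, 6, 606, 84)]), ([(6, 2, 0, 122)], [(0, 6, 0, 84)]), ([(5, 0, 0, 125)], [(0, 5, 0, 95)]), ([(4, 0, 0, 112)], [(0, 4, 0, 104)]), ([(3, 0, 0, 105)], [(0, 3, 0, 105)]), ([(1, 0, 0, 106)], [(0, 1, 0, 106)]), ([(0, 0, 0, 60)], [(0, 0, 0, 60)])]),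
  (14, 8, [(6, 2, 606, 122)], [(0, 6, 606, 84)], [([(6, 2, 606, 122)], [(0, 6, 606, 84)]), ([(6, 2, 0, 122)], [(0, 6, 0, 84)]), ([(5, 1, 0, 117)], [(0, 5, 0, 95)]), ([(4, 0, 0, 112)], [(0, 4, 0, 104)]), ([(3, 0, 0, 105)], [(0, 3, 0, 105)]), ([(1, 0, 0, 106)], [(0, 1, 0, 106)]), ([(0, 0, 0, 60)], [(0, 0, 0, 60)])]),
  (14, 8, [(6, 2, 606, 122)], [(0, 6, 606, 84)], [([(6, 2, 606, 122)], [(0, 6, 606, 84)]), ([(6, 2, 0, 122)], [(0, 6, 0, 84)]), ([(5, 1, 0, 117)], [(0, 5, 0, 95)]), ([(4, 0, 0, 112)], [(0, 4, 0, 104)]), ([(3, 0, 0, 105)], [(0, 3, 0, 105)]), ([(1, 0, 0, 106)], [(0, 1, 0, 106)]), ([(0, 0, 0, 60)], [(0, 0, 0, 60)])]),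
  (13, 8, [(6, 2, 606, 124)], [(0, 6, 606, 84)], [([(6, 2, 606, 124)], [(0, 6, 606, 84)]), ([(6, 2, 600, 124)], [(0, 6, 600, 84)]), ([(5, 0, 0, 125)], [(0, 6, 0, 84)]), ([(4, 0, 0, 120)], [(0, 5, 0, 90)]), ([(3, 0, 0, 114)], [(0, 4, 0, 92)]), ([(1, 0, 0, 108)], [(0, 1, 0, 108)]), ([(0, 0, 0, 60)], [(0, 0, 0, 60)])]),
  (13, 8, [(6, 2, 606, 124)], [(0, 6, 606, 84)], [([(6, 2, 606, 124)], [(0, 6, 606, 84)]), ([(6, 2, 600, 124)], [(0, 6, 600, 84)]), ([(5, 0, 0, 125)], [(0, 6, 0, 84)]), ([(4, 0, 0, 120)], [(0, 5, 0, 90)]), ([(3, 0, 0, 114)], [(0, 4, 0, 92)]), ([(1, 0, 0, 108)], [(0, 1, 0, 108)]), ([(0, 0, 0, 60)], [(0, 0, 0, 60)])]),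
  (13, 8, [(6, 2, 606, 124)], [(0, 6, 606, 84)], [([(6, 2, 606, 124)], [(0, 6, 606, 84)]), ([(6, 2, 600, 124)], [(0, 6, 600, 84)]), ([(5, 0, 0, 125)], [(0, 6, 0, 84)]), ([(4, 0, 0, 120)], [(0, 5, 0, 90)]), ([(3, 0, 0, 114)], [(0, 4, 0, 92)]), ([(1, 0, 0, 108)], [(0, 1, 0, 108)]), ([(0, 0, 0, 60)], [(0, 0, 0, 60)])]),
  (13, 8, [(6, 2, 606, 124)], [(0, 6, 606, 84)], [([(6, 2, 606, 124)], [(0, 6, 606, 84)]), ([(6, 2, 600, 124)], [(0, 6, 600, 84)]), ([(5, 0, 0, 125)], [(0, 6, 0, 84)]), ([(4, 0, 0, 120)], [(0, 5, 0, 90)]), ([(3, 0, 0, 114)], [(0, 4, 0, 92)]), ([(1, 0, 0, 108)], [(0, 1, 0, 108)]), ([(0, 0, 0, 60)], [(0, 0, 0, 60)])]),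
  (14, 8, [(6, 2, 606, 122)], [(0, 6, 606, 84)], [([(6, 2, 606, 122)], [(0, 6, 606, 84)]), ([(6, 2, 0, 122)], [(0, 6, 0, 84)]), ([(5, 0, 0, 125)], [(0, 5, 0, 95)]), ([(4, 0, 0, 112)], [(0, 4, 0, 104)]), ([(3, 0, 0, 105)], [(0, 3, 0, 105)]), ([(1, 0, 0, 106)], [(0, 1, 0, 106)]), ([(0, 0, 0, 60)], [(0, 0, 0, 60)])]),
  (14, 8, [(6, 2, 606, 122)], [(0, 6, 606, 84)], [([(6, 2, 606, 122)], [(0, 6, 606, 84)]), ([(6, 2, 0, 122)], [(0, 6, 0, 84)]), ([(5, 0, 0, 125)], [(0, 5, 0, 95)]), ([(4, 0, 0, 112)], [(0, 4, 0, 104)]), ([(3, 0, 0, 105)], [(0, 3, 0, 105)]), ([(1, 0, 0, 106)], [(0, 1, 0, 106)]), ([(0, 0, 0, 60)], [(0, 0, 0, 60)])])]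

theorem okR16 : rowChk 14 60 tR14 tR16 cR16 16 = true := by decide +kernel

theorem smR16 : smallChk 14 tR16 = true := by decide +kernel

theorem lenR16 : cR16.length = 54 := by decide +kernel

end Pool.Agent.Lib.MP_22c8c7_co
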