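import Mathlib
import Pool.Agent.Lib.MP_22c8c7_co.TabR

/-! # Refined table, certificates of the row `n = 18` (generated) -/

set_option autoImplicit false
set_option linter.style.longLine false

namespace Pool.Agent.Lib.MP_22c8c7_co

/-- the certificates of the entries `N = 18, ..., 69` -/
def cR18 : List Cert := [
  (0, 0, [(0, 0, 480, 480)], [(0, 0, 480, 480)], [([(0, 0, 480, 480)], [(0, 0, 480, 480)]), ([(0, 0, 420, 420)], [(0, 0, 420, 420)]), ([(0, 0, 360, 360)], [(0, 0, 360, 360)]), ([(0, 0, 300, 300)], [(0, 0, 300, 300)]), ([(0, 0, 240, 240)], [(0, 0, 240, 240)]), ([(0, 0, 180, 180)], [(0, 0, 180, 180)]), ([(0, 0, 120, 120)], [(0, 0, 120, 120)]), ([(0, 0, 60, 60)], [(0, 0, 60, 60)])]),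
  (9, 0, [(0, 0, 0, 480)], [(0, 1, 0, 472)], [([(0, 0, 0, 480)], [(0, 0, 0, 480)]), ([(0, 0, 0, 420)], [(0, 0, 0, 420)]), ([(0, 0, 0, 360)], [(0, 0, 0, 360)]), ([(0, 0, 0, 300)], [(0, 0, 0, 300)]), ([(0, 0, 0, 240)], [(0, 0, 0, 240)]), ([(0, 0, 0, 180)], [(0, 0, 0, 180)]), ([(0, 0, 0, 120)], [(0, 0, 0, 120)]), ([(0, 0, 0, 60)], [(0, 0, 0, 60)])]),
  (9, 3, [(0, 0, 660, 480)], [(0, 8, 536, 288)], [([(0, 0, 660, 480)], [(0, 0, 660, 480)]), ([(0, 0, 600, 420)], [(0, 0, 600, 420)]), ([(0, 0, 0, 360)], [(0, 0, 0, 360)]), ([(0, 0, 0, 300)], [(0, 0, 0, 300)]), ([(0, 0, 0, 240)], [(0, 0, 0, 240)]), ([(0, 0, 0, 180)], [(0, 0, 0, 180)]), ([(0, 0, 0, 120)], [(0, 0, 0, 120)]), ([(0, 0, 0, 60)], [(0, 0, 0, 60)])]),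
  (9, 3, [(0, 0, 660, 480)], [(0, 8, 536, 288)], [([(0, 0, 660, 480)], [(0, 1, 644, 456)]), ([(0, 0, 600, 420)], [(0, 0, 600, 420)]), ([(0, 0, 0, 360)], [(0, 0, 0, 360)]), ([(0, 0, 0, 300)], [(0, 0, 0, 300)]), ([(0, 0, 0, 240)], [(0, 0, 0, 240)]), ([(0, 0, 0, 180)], [(0, 0, 0, 180)]), ([(0, 0, 0, 120)], [(0, 0, 0, 120)]), ([(0, 0, 0, 60)], [(0, 0, 0, 60)])]),
  (9, 2, [(0, 0, 600, 480)], [(0, 8, 536, 352)], [([(0, 0, 600, 480)], [(0, 3, 576, 432)]), ([(0, 0, 0, 420)], [(0, 0, 0, 420)]), ([(0, 0, 0, 360)], [(0, 0, 0, 360)]), ([(0, 0, 0, 300)], [(0, 0, 0, 300)]), ([(0, 0, 0, 240)], [(0, 0, 0, 240)]), ([(0, 0, 0, 180)], [(0, 0, 0, 180)]), ([(0, 0, 0, 120)], [(0, 0, 0, 120)]), ([(0, 0, 0, 60)], [(0, 0, 0, 60)])]),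
  (9, 4, [(3, 0, 648, 384)], [(0, 8, 536, 224)], [([(3, 0, 648, 384)], [(0, 5, 600, 320)]), ([(1, 0, 641, 394)], [(0, 3, 603, 342)]), ([(0, 0, 600, 360)], [(0, 0, 600, 360)]), ([(0, 0, 0, 300)], [(0, 0, 0, 300)]), ([(0, 0, 0, 240)], [(0, 0, 0, 240)]), ([(0, 0, 0, 180)], [(0, 0, 0, 180)]), ([(0, 0, 0, 120)], [(0, 0, 0, 120)]), ([(0, 0, 0, 60)], [(0, 0, 0, 60)])]),
  (9, 3, [(3, 0, 612, 408)], [(0, 8, 536, 288)], [([(3, 0, 612, 408)], [(0, 6, 564, 336)]), ([(1, 0, 588, 401)], [(0, 4, 552, 344)]), ([(0, 0, 0, 360)], [(0, 1, 0, 346)]), ([(0, 0, 0, 300)], [(0, 0, 0, 300)]), ([(0, 0, 0, 240)], [(0, 0, 0, 240)]), ([(0, 0, 0, 180)], [(0, 0, 0, 180)]), ([(0, 0, 0, 120)], [(0, 0, 0, 120)]), ([(0, 0, 0, 60)], [(0, 0, 0, 60)])]),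
  (9, 4, [(4, 0, 624, 352)], [(0, 8, 536, 224)], [([(4, 0, 624, 352)], [(0, 6, 576, 288)]), ([(2, 0, 622, 368)], [(0, 4, 584, 316)]), ([(1, 0, 586, 340)], [(0, 2, 572, 320)]), ([(0, 0, 0, 300)], [(0, 0, 0, 300)]), ([(0, 0, 0, 240)], [(0, 0, 0, 240)]), ([(0, 0, 0, 180)], [(0, 0, 0, 180)]), ([(0, 0, 0, 120)], [(0, 0, 0, 120)]), ([(0, 0, 0, 60)], [(0, 0, 0, 60)])]),
  (9, 6, [(6, 0, 600, 192)], [(0, 8, 536, 128)], [([(6, 0, 600, 192)], [(0, 7, 560, 144)]), ([(5, 0, 615, 220)], [(0, 6, 582, 180)]), ([(5, 0, 590, 200)], [(0, 6, 564, 168)]), ([(3, 0, 603, 228)], [(0, 4, 584, 204)]), ([(1, 0, 588, 224)], [(0, 2, 576, 208)]), ([(0, 0, 0, 180)], [(0, 0, 0, 180)]), ([(0, 0, 0, 120)], [(0, 0, 0, 120)]), ([(0, 0, 0, 60)], [(0, 0, 0, 60)])]),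
  (9, 7, [(7, 0, 564, 165)], [(0, 8, 536, 128)], [([(6, 0, 612, 150)], [(0, 7, 564, 112)]), ([(6, 0, 600, 150)], [(0, 7, 560, 112)]), ([(6, 0, 588, 150)], [(0, 7, 556, 112)]), ([(6, 0, 576, 150)], [(0, 6, 576, 126)]), ([(5, 0, 580, 140)], [(0, 5, 580, 140)]), ([(2, 0, 584, 158)], [(0, 3, 576, 147)]), ([(0, 0, 0, 120)], [(0, 0, 0, 120)]), ([(0, 0, 0, 60)], [(0, 0, 0, 60)])]),
  (9, 7, [(7, 0, 564, 165)], [(0, 8, 536, 128)], [([(7, 0, 564, 165)], [(0, 7, 564, 112)]), ([(6, 0, 600, 150)], [(0, 7, 560, 112)]), ([(6, 0, 588, 150)], [(0, 7, 556, 112)]), ([(6, 0, 576, 150)], [(0, 6, 576, 126)]), ([(5, 0, 580, 140)], [(0, 6, 564, 120)]), ([(3, 0, 576, 147)], [(0, 3, 576, 147)]), ([(0, 0, 0, 120)], [(0, 0, 0, 120)]), ([(0, 0, 0, 60)], [(0, 0, 0, 60)])]),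
  (9, 7, [(7, 0, 564, 165)], [(0, 8, 536, 128)], [([(7, 0, 564, 165)], [(0, 7, 564, 112)]), ([(7, 0, 560, 165)], [(0, 7, 560, 112)]), ([(6, 0, 588, 150)], [(0, 7, 556, 112)]), ([(6, 0, 576, 150)], [(0, 7, 552, 112)]), ([(5, 0, 580, 140)], [(0, 6, 564, 120)]), ([(3, 0, 576, 147)], [(0, 4, 568, 136)]), ([(0, 0, 0, 120)], [(0, 0, 0, 120)]), ([(0, 0, 0, 60)], [(0, 0, 0, 60)])]),
  (9, 7, [(7, 0, 564, 165)], [(0, 8, 536, 128)], [([(7, 0, 564, 165)], [(0, 7, 564, 112)]), ([(7, 0, 560, 165)], [(0, 7, 560, 112)]), ([(6, 0, 588, 150)], [(0, 7, 556, 112)]), ([(6, 0, 576, 150)], [(0, 7, 552, 112)]), ([(5, 0, 580, 140)], [(0, 6, 564, 120)]), ([(3, 0, 576, 147)], [(0, 4, 568, 136)]), ([(0, 0, 0, 120)], [(0, 0, 0, 120)]), ([(0, 0, 0, 60)], [(0, 0, 0, 60)])]),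
  (9, 8, [(7, 0, 586, 165)], [(0, 7, 586, 112), (9, 22, 538, 496)], [([(7, 0, 586, 165)], [(0, 7, 586, 112), (0, 16, 568, 256)]), ([(7, 0, 586, 165)], [(0, 7, 586, 112), (0, 16, 568, 256)]), ([(8, 0, 584, 180)], [(0, 7, 586, 112), (0, 16, 568, 256)]), ([(6, 0, 606, 150), (11, 0, 578, 225)], [(0, 7, 586, 112), (0, 16, 568, 256)]), ([(6, 0, 600, 150), (13, 0, 574, 255)], [(0, 6, 600, 96), (0, 16, 568, 256)]), ([(5, 0, 605, 135), (14, 0, 572, 270)], [(0, 6, 594, 96), (0, 16, 568, 256)]), ([(1, 0, 598, 116), (16, 0, 568, 300)], [(0, 1, 598, 116), (0, 16, 568, 256)]), ([(0, 0, 0, 60)], [(0, 0, 0, 60)])]),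
  (9, 8, [(6, 2, 624, 146), (7, 0, 586, 165)], [(0, 6, 624, 96), (5, 22, 546, 432)], [([(7, 0, 586, 165)], [(2, 5, 586, 112), (0, 13, 574, 208)]), ([(7, 0, 586, 165)], [(2, 5, 586, 112), (0, 13, 574, 208)]), ([(7, 0, 586, 165)], [(2, 5, 586, 112), (0, 13, 574, 208)]), ([(7, 0, 586, 165)], [(1, 5, 606, 96), (0, 13, 574, 208)]), ([(6, 0, 600, 150), (9, 0, 582, 195)], [(1, 5, 600, 96), (0, 13, 574, 208)]), ([(5, 0, 605, 135), (11, 0, 578, 225)], [(1, 5, 594, 96), (0, 13, 574, 208)]), ([(2, 0, 596, 112), (13, 0, 574, 255)], [(1, 2, 594, 108), (0, 13, 574, 208)]), ([(0, 0, 0, 60)], [(0, 0, 0, 60)])]),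
  (12, 10, [(11, 1, 593, 220), (5, 2, 720, 125)], [(0, 10, 610, 160), (0, 5, 720, 80), (0, 13, 559, 208)], [([(9, 1, 627, 190), (5, 0, 720, 135)], [(5, 6, 593, 176), (1, 4, 720, 80)]), ([(7, 2, 661, 155), (10, 0, 610, 210)], [(4, 7, 593, 176), (1, 4, 715, 80)]), ([(10, 0, 610, 210), (4, 0, 760, 136)], [(5, 3, 644, 128), (0, 12, 576, 192)]), ([(6, 1, 678, 145), (11, 0, 593, 225)], [(5, 3, 644, 128), (0, 12, 576, 192)]), ([(6, 1, 678, 145), (11, 0, 593, 225)], [(4, 4, 644, 128), (0, 12, 576, 192)]), ([(6, 2, 678, 140), (12, 0, 576, 240)], [(4, 4, 644, 128), (0, 12, 576, 192)]), ([(2, 0, 0, 104)], [(1, 3, 0, 88)]), ([(0, 0, 0, 60)], [(0, 0, 0, 60)])]),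
  (11, 10, [(5, 2, 720, 127), (18, 0, 612, 330)], [(0, 5, 720, 80), (4, 22, 564, 416)], [([(5, 0, 720, 135), (15, 0, 630, 285)], [(4, 3, 678, 112), (0, 21, 594, 336)]), ([(5, 1, 715, 131), (16, 0, 624, 300)], [(4, 3, 678, 112), (0, 21, 594, 336)]), ([(5, 2, 710, 127), (18, 0, 612, 330)], [(3, 4, 678, 112), (0, 21, 594, 336)]), ([(6, 0, 684, 150), (20, 0, 600, 360), (4, 0, 744, 124)], [(3, 3, 684, 96), (0, 21, 594, 336)]), ([(6, 1, 684, 146), (21, 0, 594, 375), (4, 0, 728, 120)], [(3, 3, 684, 96), (0, 21, 594, 336)]), ([(4, 1, 712, 116), (21, 0, 594, 375)], [(3, 3, 684, 96), (0, 21, 594, 336)]), ([(2, 0, 708, 104), (21, 0, 594, 375)], [(2, 4, 684, 96), (0, 21, 594, 336)]), ([(0, 0, 0, 60)], [(0, 0, 0, 60)])]),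
  (12, 10, [(7, 2, 661, 155), (10, 0, 610, 210), (5, 2, 720, 125)], [(0, 6, 678, 96), (0, 12, 576, 192), (0, 5, 720, 80)], [([(6, 1, 678, 145), (9, 0, 627, 195)], [(2, 4, 678, 96), (0, 11, 593, 176)]), ([(6, 2, 678, 140), (9, 0, 627, 195)], [(6, 3, 627, 144), (0, 5, 715, 80), (0, 11, 593, 176)]), ([(7, 2, 661, 155), (10, 0, 610, 210), (5, 1, 710, 130)], [(6, 3, 627, 144), (0, 5, 710, 80), (0, 11, 593, 176)]), ([(7, 2, 661, 155), (10, 0, 610, 210), (5, 2, 705, 125)], [(5, 4, 627, 144), (0, 5, 705, 80), (0, 11, 593, 176)]), ([(6, 0, 678, 150), (11, 0, 593, 225), (4, 0, 728, 120)], [(5, 4, 627, 144), (0, 4, 728, 112), (0, 11, 593, 176)]), ([(4, 1, 712, 115), (11, 0, 593, 225)], [(4, 5, 627, 144), (0, 4, 712, 100), (0, 11, 593, 176)]), ([(1, 0, 0, 112)], [(0, 1, 0, 112)]), ([(0, 0, 0, 60)], [(0, 0, 0, 60)])]),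
  (11, 10, [(5, 2, 720, 127), (17, 0, 618, 315)], [(0, 6, 684, 96), (1, 22, 582, 368), (0, 5, 720, 80)], [([(6, 2, 684, 142), (13, 0, 642, 255)], [(2, 4, 684, 96), (0, 19, 606, 304)]), ([(5, 0, 715, 135), (15, 0, 630, 285)], [(2, 4, 684, 96), (0, 19, 606, 304)]), ([(5, 2, 710, 127), (16, 0, 624, 300)], [(1, 5, 684, 96), (0, 19, 606, 304)]), ([(5, 2, 705, 127), (18, 0, 612, 330)], [(1, 5, 684, 96), (0, 19, 606, 304)]), ([(6, 0, 684, 150), (18, 0, 612, 330), (4, 0, 728, 120)], [(1, 5, 684, 96), (0, 19, 606, 304)]), ([(4, 0, 712, 120), (19, 0, 606, 345)], [(1, 5, 684, 96), (0, 19, 606, 304)]), ([(2, 0, 708, 104), (19, 0, 606, 345)], [(1, 5, 684, 96), (0, 19, 606, 304)]), ([(0, 0, 0, 60)], [(0, 0, 0, 60)])]),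
  (5, 7, [(6, 2, 612, 148)], [(0, 7, 564, 112)], [([(6, 0, 612, 150)], [(0, 7, 564, 112)]), ([(6, 1, 600, 149)], [(0, 7, 560, 112)]), ([(6, 2, 588, 148)], [(0, 7, 556, 112)]), ([(6, 3, 576, 147)], [(0, 7, 552, 112)]), ([(5, 0, 580, 140)], [(0, 7, 548, 112)]), ([(4, 0, 568, 136)], [(0, 6, 552, 114)]), ([(1, 0, 540, 118)], [(0, 1, 540, 118)]), ([(0, 0, 480, 60)], [(0, 0, 480, 60)])]),
  (9, 7, [(6, 3, 612, 144)], [(0, 7, 564, 112)], [([(6, 2, 612, 146)], [(0, 7, 564, 112)]), ([(6, 2, 600, 146)], [(0, 7, 560, 112)]), ([(6, 3, 588, 144)], [(0, 7, 556, 112)]), ([(6, 3, 576, 144)], [(0, 7, 552, 112)]), ([(5, 0, 580, 140)], [(0, 7, 548, 112)]), ([(4, 0, 568, 136)], [(0, 6, 552, 114)]), ([(1, 0, 0, 118)], [(0, 3, 0, 114)]), ([(0, 0, 0, 60)], [(0, 0, 0, 60)])]),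
  (9, 7, [(6, 2, 612, 146)], [(0, 7, 564, 112)], [([(6, 1, 612, 148)], [(0, 7, 564, 112)]), ([(6, 1, 600, 148)], [(0, 7, 560, 112)]), ([(6, 1, 588, 148)], [(0, 7, 556, 112)]), ([(6, 2, 576, 146)], [(0, 7, 552, 112)]), ([(5, 0, 580, 140)], [(0, 7, 548, 112)]), ([(4, 0, 568, 136)], [(0, 6, 552, 114)]), ([(1, 0, 0, 118)], [(0, 3, 0, 114)]), ([(0, 0, 0, 60)], [(0, 0, 0, 60)])]),
  (9, 7, [(6, 2, 612, 146)], [(0, 7, 564, 112)], [([(6, 1, 612, 148)], [(0, 7, 564, 112)]), ([(6, 1, 600, 148)], [(0, 7, 560, 112)]), ([(6, 2, 588, 146)], [(0, 7, 556, 112)]), ([(6, 3, 576, 144)], [(0, 7, 552, 112)]), ([(5, 0, 580, 140)], [(0, 7, 548, 112)]), ([(4, 0, 568, 136)], [(0, 6, 552, 114)]), ([(1, 0, 0, 118)], [(0, 3, 0, 114)]), ([(0, 0, 0, 60)], [(0, 0, 0, 60)])]),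
  (9, 8, [(6, 2, 624, 146)], [(0, 7, 586, 112)], [([(6, 1, 624, 148)], [(0, 7, 586, 112)]), ([(6, 1, 618, 148)], [(0, 7, 586, 112)]), ([(6, 2, 612, 146)], [(0, 6, 612, 96)]), ([(5, 0, 635, 135), (6, 0, 606, 150)], [(0, 6, 606, 96)]), ([(5, 0, 620, 135), (6, 0, 600, 150)], [(0, 6, 600, 96)]), ([(4, 0, 616, 124)], [(0, 6, 594, 96)]), ([(1, 0, 598, 116)], [(0, 2, 596, 112)]), ([(0, 0, 0, 60)], [(0, 0, 0, 60)])]),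
  (9, 8, [(6, 3, 624, 144)], [(0, 7, 586, 112)], [([(6, 2, 624, 146)], [(0, 7, 586, 112)]), ([(6, 2, 618, 146)], [(0, 7, 586, 112)]), ([(6, 3, 612, 144)], [(0, 6, 612, 96)]), ([(5, 0, 635, 135), (6, 0, 606, 150)], [(0, 6, 606, 96)]), ([(5, 0, 620, 135)], [(0, 6, 600, 96)]), ([(4, 0, 616, 124)], [(0, 5, 605, 110)]), ([(1, 0, 598, 116)], [(0, 2, 596, 112)]), ([(0, 0, 0, 60)], [(0, 0, 0, 60)])]),
  (8, 8, [(6, 3, 627, 144)], [(0, 7, 586, 112)], [([(6, 2, 628, 146)], [(0, 7, 586, 112)]), ([(6, 2, 628, 146)], [(0, 6, 618, 96)]), ([(6, 3, 627, 144), (6, 4, 626, 160)], [(0, 6, 612, 96)]), ([(5, 0, 635, 135), (6, 6, 624, 192)], [(0, 6, 606, 96)]), ([(5, 0, 620, 135)], [(0, 6, 600, 96)]), ([(4, 0, 616, 124)], [(0, 5, 605, 110)]), ([(1, 0, 598, 116)], [(0, 2, 596, 112)]), ([(0, 0, 540, 60)], [(0, 0, 540, 60)])]),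
  (11, 8, [(6, 2, 624, 142)], [(0, 7, 580, 112)], [([(6, 2, 624, 142)], [(0, 7, 580, 112)]), ([(6, 2, 618, 142)], [(0, 6, 618, 96)]), ([(6, 2, 612, 142)], [(0, 6, 612, 96)]), ([(5, 0, 635, 135), (6, 0, 606, 150)], [(0, 6, 606, 96)]), ([(5, 0, 620, 135)], [(0, 6, 600, 96)]), ([(4, 0, 0, 124)], [(0, 5, 0, 110)]), ([(1, 0, 0, 114)], [(0, 1, 0, 114)]), ([(0, 0, 0, 60)], [(0, 0, 0, 60)])]),
  (11, 8, [(6, 2, 624, 142)], [(0, 7, 580, 112)], [([(6, 2, 624, 142)], [(0, 7, 580, 112)]), ([(6, 2, 618, 142)], [(0, 6, 618, 96)]), ([(6, 2, 612, 142)], [(0, 6, 612, 96)]), ([(5, 0, 635, 135), (6, 0, 606, 150)], [(0, 6, 606, 96)]), ([(5, 0, 620, 135)], [(0, 6, 600, 96)]), ([(4, 0, 0, 124)], [(0, 5, 0, 110)]), ([(1, 0, 0, 114)], [(0, 1, 0, 114)]), ([(0, 0, 0, 60)], [(0, 0, 0, 60)])]),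
  (12, 8, [(6, 2, 624, 140)], [(0, 7, 577, 112)], [([(6, 1, 624, 145)], [(0, 6, 624, 96)]), ([(6, 1, 618, 145)], [(0, 6, 618, 96)]), ([(6, 2, 612, 140)], [(0, 6, 612, 96)]), ([(6, 2, 606, 140)], [(0, 6, 606, 96)]), ([(5, 0, 0, 135)], [(0, 6, 0, 96)]), ([(3, 0, 0, 129)], [(0, 4, 0, 112)]), ([(1, 0, 0, 112)], [(0, 1, 0, 112)]), ([(0, 0, 0, 60)], [(0, 0, 0, 60)])]),
  (11, 7, [(6, 2, 612, 144)], [(0, 7, 564, 112)], [([(6, 1, 612, 146)], [(0, 7, 564, 112)]), ([(6, 1, 600, 146)], [(0, 7, 560, 112)]), ([(6, 2, 588, 142)], [(0, 7, 556, 112)]), ([(6, 2, 576, 142)], [(0, 7, 552, 112)]), ([(5, 0, 0, 140)], [(0, 7, 0, 112)]), ([(4, 0, 0, 124)], [(0, 5, 0, 110)]), ([(1, 0, 0, 114)], [(0, 1, 0, 114)]), ([(0, 0, 0, 60)], [(0, 0, 0, 60)])]),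
  (11, 8, [(6, 2, 624, 142)], [(0, 7, 580, 112)], [([(6, 1, 624, 146)], [(0, 6, 624, 96)]), ([(6, 1, 618, 146)], [(0, 6, 618, 96)]), ([(6, 1, 612, 146)], [(0, 6, 612, 96)]), ([(5, 0, 635, 135)], [(0, 6, 606, 96)]), ([(5, 0, 620, 135)], [(0, 6, 600, 96)]), ([(4, 0, 0, 124)], [(0, 5, 0, 110)]), ([(1, 0, 0, 114)], [(0, 1, 0, 114)]), ([(0, 0, 0, 60)], [(0, 0, 0, 60)])]),
  (13, 8, [(6, 2, 624, 138)], [(0, 7, 574, 112)], [([(6, 1, 624, 144)], [(0, 6, 624, 96)]), ([(6, 1, 618, 144)], [(0, 6, 618, 96)]), ([(6, 1, 612, 144)], [(0, 6, 612, 96)]), ([(5, 0, 0, 135)], [(0, 6, 0, 96)]), ([(4, 0, 0, 128)], [(0, 5, 0, 100)]), ([(3, 0, 0, 120)], [(0, 4, 0, 100)]), ([(1, 0, 0, 110)], [(0, 1, 0, 110)]), ([(0, 0, 0, 60)], [(0, 0, 0, 60)])]),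
  (14, 8, [(6, 2, 624, 136)], [(0, 6, 624, 96)], [([(6, 1, 624, 143)], [(0, 6, 624, 96)]), ([(6, 1, 618, 143)], [(0, 6, 618, 96)]), ([(5, 0, 0, 140)], [(0, 6, 0, 96)]), ([(5, 0, 0, 135)], [(0, 5, 0, 105)]), ([(4, 0, 0, 120)], [(0, 4, 0, 112)]), ([(3, 0, 0, 111)], [(0, 3, 0, 111)]), ([(1, 0, 0, 108)], [(0, 1, 0, 108)]), ([(0, 0, 0, 60)], [(0, 0, 0, 60)])]),
  (14, 8, [(6, 2, 624, 136)], [(0, 6, 624, 96)], [([(6, 1, 624, 143)], [(0, 6, 624, 96)]), ([(6, 1, 618, 143)], [(0, 6, 618, 96)]), ([(5, 0, 0, 140)], [(0, 6, 0, 96)]), ([(5, 0, 0, 135)], [(0, 5, 0, 105)]), ([(4, 0, 0, 120)], [(0, 4, 0, 112)]), ([(3, 0, 0, 111)], [(0, 3, 0, 111)]), ([(1, 0, 0, 108)], [(0, 1, 0, 108)]), ([(0, 0, 0, 60)], [(0, 0, 0, 60)])]),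
  (14, 8, [(6, 2, 624, 136)], [(0, 6, 624, 96)], [([(6, 2, 624, 136)], [(0, 6, 624, 96)]), ([(6, 2, 618, 136)], [(0, 6, 618, 96)]), ([(6, 2, 0, 136)], [(0, 6, 0, 96)]), ([(5, 0, 0, 135)], [(0, 5, 0, 105)]), ([(4, 0, 0, 120)], [(0, 4, 0, 112)]), ([(3, 0, 0, 111)], [(0, 3, 0, 111)]), ([(1, 0, 0, 108)], [(0, 1, 0, 108)]), ([(0, 0, 0, 60)], [(0, 0, 0, 60)])]),
  (14, 8, [(6, 2, 624, 136)], [(0, 6, 624, 96)], [([(6, 2, 624, 136)], [(0, 6, 624, 96)]), ([(6, 2, 618, 136)], [(0, 6, 618, 96)]), ([(6, 2, 0, 136)], [(0, 6, 0, 96)]), ([(5, 0, 0, 135)], [(0, 5, 0, 105)]), ([(4, 0, 0, 120)], [(0, 4, 0, 112)]), ([(3, 0, 0, 111)], [(0, 3, 0, 111)]), ([(1, 0, 0, 108)], [(0, 1, 0, 108)]), ([(0, 0, 0, 60)], [(0, 0, 0, 60)])]),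
  (12, 8, [(6, 2, 624, 140)], [(0, 6, 624, 96)], [([(6, 2, 624, 140)], [(0, 6, 624, 96)]), ([(6, 2, 618, 140)], [(0, 6, 618, 96)]), ([(6, 2, 612, 140)], [(0, 6, 612, 96)]), ([(5, 0, 635, 135)], [(0, 6, 606, 96)]), ([(5, 0, 0, 135)], [(0, 6, 0, 96)]), ([(3, 0, 0, 129)], [(0, 4, 0, 112)]), ([(1, 0, 0, 112)], [(0, 1, 0, 112)]), ([(0, 0, 0, 60)], [(0, 0, 0, 60)])]),
  (13, 8, [(6, 2, 624, 138)], [(0, 6, 624, 96)], [([(6, 2, 624, 138)], [(0, 6, 624, 96)]), ([(6, 1, 618, 144)], [(0, 6, 618, 96)]), ([(5, 0, 650, 140)], [(0, 6, 612, 96)]), ([(5, 0, 0, 135)], [(0, 6, 0, 96)]), ([(4, 0, 0, 128)], [(0, 5, 0, 100)]), ([(3, 0, 0, 120)], [(0, 4, 0, 100)]), ([(1, 0, 0, 110)], [(0, 1, 0, 110)]), ([(0, 0, 0, 60)], [(0, 0, 0, 60)])]),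
  (13, 8, [(6, 2, 624, 138)], [(0, 6, 624, 96)], [([(6, 2, 624, 138)], [(0, 6, 624, 96)]), ([(6, 2, 618, 138)], [(0, 6, 618, 96)]), ([(5, 0, 650, 140)], [(0, 6, 612, 96)]), ([(5, 0, 0, 135)], [(0, 6, 0, 96)]), ([(4, 0, 0, 128)], [(0, 5, 0, 100)]), ([(3, 0, 0, 120)], [(0, 4, 0, 100)]), ([(1, 0, 0, 110)], [(0, 1, 0, 110)]), ([(0, 0, 0, 60)], [(0, 0, 0, 60)])]),
  (13, 8, [(6, 2, 624, 138)], [(0, 6, 624, 96)], [([(6, 2, 624, 138)], [(0, 6, 624, 96)]), ([(6, 2, 618, 138)], [(0, 6, 618, 96)]), ([(5, 0, 650, 140)], [(0, 6, 612, 96)]), ([(5, 0, 0, 135)], [(0, 6, 0, 96)]), ([(4, 0, 0, 128)], [(0, 5, 0, 100)]), ([(3, 0, 0, 120)], [(0, 4, 0, 100)]), ([(1, 0, 0, 110)], [(0, 1, 0, 110)]), ([(0, 0, 0, 60)], [(0, 0, 0, 60)])]),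
  (13, 8, [(6, 2, 624, 138)], [(0, 6, 624, 96)], [([(6, 2, 624, 138)], [(0, 6, 624, 96)]), ([(6, 2, 618, 138)], [(0, 6, 618, 96)]), ([(6, 2, 612, 138)], [(0, 6, 612, 96)]), ([(5, 0, 0, 135)], [(0, 6, 0, 96)]), ([(4, 0, 0, 128)], [(0, 5, 0, 100)]), ([(3, 0, 0, 120)], [(0, 4, 0, 100)]), ([(1, 0, 0, 110)], [(0, 1, 0, 110)]), ([(0, 0, 0, 60)], [(0, 0, 0, 60)])]),
  (13, 8, [(6, 2, 624, 138)], [(0, 6, 624, 96)], [([(6, 2, 624, 138)], [(0, 6, 624, 96)]), ([(6, 2, 618, 138)], [(0, 6, 618, 96)]), ([(6, 2, 612, 138)], [(0, 6, 612, 96)]), ([(5, 0, 0, 135)], [(0, 6, 0, 96)]), ([(4, 0, 0, 128)], [(0, 5, 0, 100)]), ([(3, 0, 0, 120)], [(0, 4, 0, 100)]), ([(1, 0, 0, 110)], [(0, 1, 0, 110)]), ([(0, 0, 0, 60)], [(0, 0, 0, 60)])]),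
  (13, 8, [(6, 2, 624, 138)], [(0, 6, 624, 96)], [([(6, 2, 624, 138)], [(0, 6, 624, 96)]), ([(6, 2, 618, 138)], [(0, 6, 618, 96)]), ([(5, 0, 650, 140)], [(0, 6, 612, 96)]), ([(5, 0, 0, 135)], [(0, 6, 0, 96)]), ([(4, 0, 0, 128)], [(0, 5, 0, 100)]), ([(3, 0, 0, 120)], [(0, 3, 0, 120)]), ([(0, 0, 0, 120)], [(0, 0, 0, 120)]), ([(0, 0, 0, 60)], [(0, 0, 0, 60)])]),
  (13, 8, [(6, 2, 624, 138)], [(0, 6, 624, 96)], [([(6, 2, 624, 138)], [(0, 6, 624, 96)]), ([(6, 2, 618, 138)], [(0, 6, 618, 96)]), ([(6, 2, 612, 138)], [(0, 6, 612, 96)]), ([(5, 0, 0, 135)], [(0, 6, 0, 96)]), ([(4, 0, 0, 128)], [(0, 5, 0, 100)]), ([(3, 0, 0, 120)], [(0, 3, 0, 120)]), ([(0, 0, 0, 120)], [(0, 0, 0, 120)]), ([(0, 0, 0, 60)], [(0, 0, 0, 60)])]),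
  (13, 8, [(6, 2, 624, 138)], [(0, 6, 624, 96)], [([(6, 2, 624, 138)], [(0, 6, 624, 96)]), ([(6, 2, 618, 138)], [(0, 6, 618, 96)]), ([(5, 0, 650, 140)], [(0, 6, 612, 96)]), ([(5, 0, 0, 135)], [(0, 6, 0, 96)]), ([(4, 0, 0, 128)], [(0, 5, 0, 100)]), ([(3, 0, 0, 120)], [(0, 3, 0, 120)]), ([(0, 0, 0, 120)], [(0, 0, 0, 120)]), ([(0, 0, 0, 60)], [(0, 0, 0, 60)])]),
  (14, 8, [(6, 2, 624, 136)], [(0, 6, 624, 96)], [([(6, 2, 624, 136)], [(0, 6, 624, 96)]), ([(6, 2, 618, 136)], [(0, 6, 618, 96)]), ([(5, 0, 0, 140)], [(0, 6, 0, 96)]), ([(5, 0, 0, 135)], [(0, 5, 0, 105)]), ([(4, 0, 0, 120)], [(0, 4, 0, 112)]), ([(3, 0, 0, 111)], [(0, 3, 0, 111)]), ([(0, 0, 0, 120)], [(0, 0, 0, 120)]), ([(0, 0, 0, 60)], [(0, 0, 0, 60)])]),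
  (14, 8, [(6, 2, 624, 136)], [(0, 6, 624, 96)], [([(6, 2, 624, 136)], [(0, 6, 624, 96)]), ([(6, 2, 618, 136)], [(0, 6, 618, 96)]), ([(6, 2, 0, 136)], [(0, 6, 0, 96)]), ([(5, 0, 0, 135)], [(0, 5, 0, 105)]), ([(4, 0, 0, 120)], [(0, 4, 0, 112)]), ([(3, 0, 0, 111)], [(0, 3, 0, 111)]), ([(0, 0, 0, 120)], [(0, 0, 0, 120)]), ([(0, 0, 0, 60)], [(0, 0, 0, 60)])]),
  (7, 9, [(5, 0, 700, 135)], [(0, 6, 636, 96)], [([(5, 0, 700, 135)], [(0, 6, 636, 96)]), ([(5, 0, 690, 135)], [(0, 5, 690, 115)]), ([(5, 0, 680, 135)], [(0, 5, 680, 110)]), ([(5, 0, 675, 135)], [(0, 5, 670, 105)]), ([(4, 0, 684, 128)], [(0, 5, 660, 100)]), ([(3, 0, 678, 129)], [(0, 4, 664, 112)]), ([(0, 0, 660, 120)], [(0, 0, 660, 120)]), ([(0, 0, 600, 60)], [(0, 0, 600, 60)])]),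
  (7, 9, [(5, 2, 700, 129)], [(0, 6, 636, 96)], [([(5, 0, 700, 135)], [(0, 6, 636, 96)]), ([(5, 0, 690, 135)], [(0, 5, 690, 115)]), ([(5, 0, 680, 135)], [(0, 5, 680, 110)]), ([(5, 0, 675, 135)], [(0, 5, 670, 105)]), ([(4, 0, 684, 128)], [(0, 5, 660, 100)]), ([(3, 0, 678, 129)], [(0, 4, 664, 112)]), ([(1, 0, 656, 114)], [(0, 1, 656, 114)]), ([(0, 0, 600, 60)], [(0, 0, 600, 60)])]),
  (11, 9, [(5, 2, 700, 127)], [(0, 6, 636, 96)], [([(5, 2, 700, 127)], [(0, 6, 636, 96)]), ([(5, 2, 690, 127)], [(0, 6, 636, 96)]), ([(5, 1, 680, 131)], [(0, 5, 680, 110)]), ([(5, 1, 670, 131)], [(0, 5, 670, 105)]), ([(4, 0, 684, 128)], [(0, 5, 660, 100)]), ([(4, 0, 664, 120)], [(0, 5, 650, 95)]), ([(1, 0, 0, 114)], [(0, 2, 0, 108)]), ([(0, 0, 0, 60)], [(0, 0, 0, 60)])]),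
  (13, 9, [(5, 2, 700, 123)], [(0, 6, 636, 96)], [([(5, 2, 700, 123)], [(0, 6, 636, 96)]), ([(5, 2, 690, 123)], [(0, 6, 636, 96)]), ([(5, 2, 680, 123)], [(0, 6, 636, 96)]), ([(5, 2, 670, 123)], [(0, 5, 670, 105)]), ([(5, 2, 0, 123)], [(0, 5, 0, 100)]), ([(3, 0, 0, 120)], [(0, 4, 0, 100)]), ([(1, 0, 0, 110)], [(0, 2, 0, 100)]), ([(0, 0, 0, 60)], [(0, 0, 0, 60)])]),
  (14, 9, [(5, 2, 700, 121)], [(0, 6, 636, 96)], [([(5, 2, 700, 121)], [(0, 6, 636, 96)]), ([(5, 2, 690, 121)], [(0, 6, 636, 96)]), ([(5, 2, 680, 121)], [(0, 6, 636, 96)]), ([(5, 2, 0, 121)], [(0, 5, 0, 105)]), ([(4, 0, 0, 120)], [(0, 5, 0, 80)]), ([(3, 0, 0, 111)], [(0, 4, 0, 88)]), ([(1, 0, 0, 108)], [(0, 2, 0, 96)]), ([(0, 0, 0, 60)], [(0, 0, 0, 60)])])]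

theorem okR18 : rowChk 16 60 tR16 tR18 cR18 18 = true := by decide +kernel

theorem smR18 : smallChk 16 tR18 = true := by decide +kernel

theorem lenR18 : cR18.length = 52 := by decide +kernel

end Pool.Agent.Lib.MP_22c8c7_co
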