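import Mathlib
import Pool.Agent.Lib.MP_22c8c7_co.TabR

/-! # Refined table, certificates of the row `n = 6` (generated) -/

set_option autoImplicit false
set_option linter.style.longLine false

namespace Pool.Agent.Lib.MP_22c8c7_co

/-- the certificates of the entries `N = 6, ..., 69` -/
def cR6 : List Cert := [
  (0, 0, [(0, 0, 120, 120)], [(0, 0, 120, 120)], [([(0, 0, 120, 120)], [(0, 0, 120, 120)]), ([(0, 0, 60, 60)], [(0, 0, 60, 60)])]),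
  (3, 0, [(0, 0, 0, 120)], [(0, 1, 0, 118)], [([(1, 0, 0, 118)], [(0, 1, 0, 118)]), ([(0, 0, 0, 60)], [(0, 0, 0, 60)])]),
  (3, 0, [(8, 0, 0, 104)], [(0, 16, 0, 88)], [([(9, 0, 0, 102)], [(1, 18, 0, 82)]), ([(0, 0, 0, 60)], [(0, 0, 0, 60)])]),
  (3, 2, [(10, 4, 220, 82), (19, 0, 202, 117)], [(0, 13, 214, 68), (3, 22, 190, 100)], [([(13, 2, 214, 95)], [(1, 14, 210, 61)]), ([(1, 0, 0, 63)], [(1, 0, 0, 63)])]),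
  (3, 2, [(9, 0, 222, 87), (16, 0, 208, 108)], [(0, 11, 218, 76), (0, 21, 198, 84)], [([(11, 3, 218, 87)], [(0, 14, 212, 64)]), ([(0, 0, 0, 60)], [(0, 0, 0, 60)])]),
  (3, 2, [(11, 7, 218, 79), (18, 0, 204, 114)], [(0, 13, 214, 68), (0, 22, 196, 88)], [([(11, 7, 218, 79), (13, 0, 214, 99)], [(1, 14, 210, 61)]), ([(0, 0, 0, 60)], [(0, 0, 0, 60)])]),
  (3, 2, [(10, 4, 220, 82), (16, 0, 208, 108)], [(0, 12, 216, 72), (0, 19, 202, 76)], [([(12, 7, 216, 82)], [(0, 14, 212, 64)]), ([(0, 0, 0, 60)], [(0, 0, 0, 60)])]),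
  (0, 2, [(11, 7, 218, 79)], [(0, 14, 212, 64)], [([(10, 5, 220, 80)], [(0, 14, 212, 64)]), ([(0, 0, 180, 60)], [(0, 0, 180, 60)])]),
  (4, 3, [(10, 7, 260, 69), (22, 5, 212, 111)], [(0, 14, 244, 60), (0, 22, 212, 88)], [([(14, 6, 244, 84), (9, 6, 264, 69), (17, 0, 232, 111)], [(10, 7, 232, 69)]), ([(1, 1, 0, 60)], [(1, 1, 0, 60)])]),
  (4, 3, [(20, 5, 220, 105), (9, 6, 264, 69)], [(0, 14, 244, 60), (0, 21, 216, 84)], [([(14, 6, 244, 84), (9, 7, 264, 66), (17, 0, 232, 111)], [(1, 14, 240, 60), (0, 19, 224, 76)]), ([(1, 1, 0, 60)], [(1, 1, 0, 60)])]),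
  (4, 3, [(9, 7, 264, 66), (18, 1, 228, 111)], [(0, 16, 236, 64), (0, 19, 224, 76)], [([(11, 7, 256, 72), (15, 0, 240, 105), (9, 7, 264, 66)], [(5, 11, 236, 64)]), ([(1, 1, 0, 60)], [(1, 1, 0, 60)])]),
  (4, 3, [(9, 6, 264, 69), (16, 0, 236, 108)], [(0, 13, 248, 60), (0, 17, 232, 68)], [([(10, 7, 260, 69), (13, 0, 248, 99)], [(1, 13, 244, 60)]), ([(1, 1, 0, 60)], [(1, 1, 0, 60)])]),
  (4, 3, [(9, 7, 264, 66), (14, 0, 244, 102)], [(0, 16, 236, 64)], [([(12, 7, 252, 76), (9, 7, 264, 66)], [(1, 12, 248, 60)]), ([(1, 1, 0, 60)], [(1, 1, 0, 60)])]),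
  (4, 3, [(9, 7, 264, 66), (14, 0, 244, 102)], [(0, 15, 240, 60)], [([(9, 7, 264, 66), (11, 0, 256, 93)], [(1, 11, 252, 60)]), ([(1, 1, 0, 60)], [(1, 1, 0, 60)])]),
  (5, 4, [(19, 5, 246, 97), (8, 6, 312, 60)], [(0, 16, 264, 64), (0, 19, 246, 76), (1, 7, 312, 59)], [([(15, 6, 270, 84), (8, 6, 312, 60), (16, 0, 264, 108)], [(7, 10, 258, 68), (3, 5, 312, 57)]), ([(2, 2, 0, 58)], [(2, 2, 0, 58)])]),
  (6, 2, [(8, 5, 0, 59)], [(2, 6, 0, 56)], [([(8, 5, 0, 59)], [(3, 6, 0, 54)]), ([(3, 3, 0, 54)], [(3, 3, 0, 54)])]),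
  (6, 2, [(8, 5, 0, 59)], [(2, 6, 0, 56)], [([(8, 5, 0, 59)], [(3, 6, 0, 54)]), ([(3, 3, 0, 54)], [(3, 3, 0, 54)])]),
  (6, 2, [(8, 5, 0, 59)], [(2, 6, 0, 56)], [([(8, 5, 0, 59)], [(3, 6, 0, 54)]), ([(3, 3, 0, 54)], [(3, 3, 0, 54)])]),
  (6, 2, [(8, 5, 0, 59)], [(2, 6, 0, 56)], [([(8, 5, 0, 59)], [(3, 6, 0, 54)]), ([(3, 3, 0, 54)], [(3, 3, 0, 54)])]),
  (6, 5, [(18, 4, 276, 94), (7, 5, 364, 56)], [(0, 17, 284, 68), (3, 4, 364, 54), (0, 19, 268, 76)], [([(17, 5, 284, 88), (7, 5, 364, 56)], [(9, 8, 284, 68), (4, 4, 356, 52)]), ([(3, 3, 0, 54)], [(3, 3, 0, 54)])]),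
  (6, 5, [(18, 4, 276, 94), (7, 5, 364, 56)], [(0, 18, 276, 72), (3, 4, 364, 54)], [([(16, 5, 292, 84), (7, 5, 364, 56)], [(8, 8, 292, 64), (4, 4, 356, 52)]), ([(3, 3, 0, 54)], [(3, 3, 0, 54)])]),
  (6, 5, [(16, 5, 292, 84), (7, 5, 364, 56), (17, 0, 284, 111)], [(0, 16, 292, 64), (3, 4, 364, 54), (0, 17, 284, 68)], [([(15, 5, 300, 80), (7, 5, 364, 56)], [(9, 7, 292, 64), (3, 4, 364, 54)]), ([(3, 3, 0, 54)], [(3, 3, 0, 54)])]),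
  (6, 5, [(15, 5, 300, 80), (7, 5, 364, 56), (16, 0, 292, 108)], [(0, 16, 292, 64), (3, 4, 364, 54)], [([(15, 5, 300, 80), (7, 5, 364, 56)], [(4, 11, 300, 60), (3, 4, 364, 54)]), ([(3, 3, 0, 54)], [(3, 3, 0, 54)])]),
  (6, 5, [(14, 5, 308, 77), (7, 5, 364, 56), (16, 0, 292, 108)], [(0, 16, 292, 64), (3, 4, 364, 54)], [([(14, 5, 308, 77), (7, 5, 364, 56)], [(7, 7, 308, 56)]), ([(3, 3, 0, 54)], [(3, 3, 0, 54)])]),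
  (6, 5, [(14, 5, 308, 77), (7, 6, 364, 52), (15, 0, 300, 105)], [(0, 15, 300, 60), (4, 4, 356, 52)], [([(14, 5, 308, 77), (7, 6, 364, 52)], [(8, 6, 308, 56)]), ([(4, 4, 0, 52)], [(4, 4, 0, 52)])]),
  (6, 5, [(14, 5, 308, 77), (7, 6, 364, 52)], [(1, 13, 308, 58), (4, 4, 356, 52)], [([(12, 5, 324, 71), (7, 5, 364, 56), (13, 0, 316, 99)], [(4, 9, 316, 52)]), ([(4, 4, 0, 52)], [(4, 4, 0, 52)])]),
  (6, 5, [(13, 5, 316, 74), (7, 6, 364, 52)], [(1, 13, 308, 58), (4, 4, 356, 52)], [([(12, 5, 324, 71), (7, 5, 364, 56)], [(4, 9, 316, 52)]), ([(3, 3, 0, 54)], [(3, 3, 0, 54)])]),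
  (6, 5, [(13, 5, 316, 74), (7, 6, 364, 52)], [(4, 9, 316, 52)], [([(11, 5, 332, 68), (7, 5, 364, 56)], [(4, 8, 324, 52)]), ([(3, 3, 0, 54)], [(3, 3, 0, 54)])]),
  (6, 5, [(12, 5, 324, 71), (7, 6, 364, 52)], [(4, 8, 324, 52)], [([(11, 5, 332, 68), (7, 5, 364, 56)], [(4, 7, 332, 52)]), ([(3, 3, 0, 54)], [(3, 3, 0, 54)])]),
  (6, 5, [(9, 6, 348, 60), (11, 0, 332, 93), (7, 6, 364, 52)], [(4, 8, 324, 52)], [([(9, 5, 348, 62), (7, 6, 364, 52), (10, 0, 340, 90)], [(4, 7, 332, 52)]), ([(4, 4, 0, 52)], [(4, 4, 0, 52)])]),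
  (6, 5, [(9, 6, 348, 60), (7, 6, 364, 52), (11, 0, 332, 93)], [(4, 7, 332, 52)], [([(10, 6, 340, 64), (7, 6, 364, 52)], [(4, 6, 340, 52)]), ([(4, 4, 0, 52)], [(4, 4, 0, 52)])]),
  (5, 5, [(7, 6, 364, 52), (15, 15, 345, 120)], [(4, 4, 356, 52), (17, 17, 343, 136)], [([(8, 6, 360, 56), (9, 9, 351, 72)], [(4, 4, 356, 52), (8, 8, 352, 64)]), ([(4, 4, 356, 52), (8, 8, 352, 64)], [(4, 4, 356, 52), (8, 8, 352, 64)])]),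
  (5, 5, [(7, 6, 364, 52), (9, 9, 351, 72)], [(4, 4, 356, 52), (11, 11, 349, 88)], [([(7, 6, 364, 52), (8, 7, 356, 60)], [(4, 4, 356, 52)]), ([(4, 4, 356, 52)], [(4, 4, 356, 52)])]),
  (5, 5, [(7, 6, 364, 52), (8, 7, 356, 60)], [(6, 6, 354, 48)], [([(8, 6, 360, 56)], [(4, 4, 356, 52)]), ([(4, 4, 356, 52)], [(4, 4, 356, 52)])]),
  (3, 5, [(7, 6, 364, 52), (8, 6, 360, 56)], [(5, 5, 355, 50)], [([(7, 6, 364, 52)], [(4, 4, 356, 52)]), ([(4, 4, 356, 52)], [(4, 4, 356, 52)])]),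
  (3, 5, [(7, 6, 364, 52)], [(5, 5, 355, 50)], [([(7, 6, 364, 52)], [(4, 4, 356, 52)]), ([(4, 4, 356, 52)], [(4, 4, 356, 52)])]),
  (3, 5, [(7, 6, 364, 52)], [(4, 4, 356, 52)], [([(7, 6, 364, 52)], [(4, 4, 356, 52)]), ([(4, 4, 356, 52)], [(4, 4, 356, 52)])]),
  (3, 5, [(7, 6, 364, 52)], [(4, 4, 356, 52)], [([(7, 6, 364, 52)], [(4, 4, 356, 52)]), ([(4, 4, 356, 52)], [(4, 4, 356, 52)])]),
  (3, 5, [(7, 6, 364, 52)], [(4, 4, 356, 52)], [([(7, 6, 364, 52)], [(4, 4, 356, 52)]), ([(4, 4, 356, 52)], [(4, 4, 356, 52)])]),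
  (3, 5, [(7, 6, 364, 52)], [(5, 5, 355, 50)], [([(7, 6, 364, 52)], [(4, 4, 356, 52)]), ([(4, 4, 356, 52)], [(4, 4, 356, 52)])]),
  (3, 5, [(7, 6, 364, 52)], [(5, 5, 355, 50)], [([(7, 6, 364, 52)], [(4, 4, 356, 52)]), ([(4, 4, 356, 52)], [(4, 4, 356, 52)])]),
  (3, 5, [(7, 6, 364, 52)], [(5, 5, 355, 50)], [([(7, 6, 364, 52)], [(4, 4, 356, 52)]), ([(4, 4, 356, 52)], [(4, 4, 356, 52)])]),
  (3, 5, [(7, 6, 364, 52)], [(5, 5, 355, 50)], [([(7, 6, 364, 52)], [(4, 4, 356, 52)]), ([(4, 4, 356, 52)], [(4, 4, 356, 52)])]),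
  (3, 5, [(7, 6, 364, 52)], [(5, 5, 355, 50)], [([(7, 6, 364, 52)], [(4, 4, 356, 52)]), ([(4, 4, 356, 52)], [(4, 4, 356, 52)])]),
  (3, 5, [(7, 6, 364, 52)], [(5, 5, 355, 50)], [([(7, 6, 364, 52)], [(4, 4, 356, 52)]), ([(4, 4, 356, 52)], [(4, 4, 356, 52)])]),
  (3, 5, [(7, 6, 364, 52)], [(5, 5, 355, 50)], [([(7, 6, 364, 52)], [(4, 4, 356, 52)]), ([(4, 4, 356, 52)], [(4, 4, 356, 52)])]),
  (3, 5, [(7, 6, 364, 52)], [(5, 5, 355, 50)], [([(7, 6, 364, 52)], [(4, 4, 356, 52)]), ([(4, 4, 356, 52)], [(4, 4, 356, 52)])]),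
  (3, 5, [(7, 6, 364, 52)], [(5, 5, 355, 50)], [([(7, 6, 364, 52)], [(4, 4, 356, 52)]), ([(4, 4, 356, 52)], [(4, 4, 356, 52)])]),
  (3, 5, [(7, 6, 364, 52)], [(5, 5, 355, 50)], [([(7, 6, 364, 52)], [(4, 4, 356, 52)]), ([(4, 4, 356, 52)], [(4, 4, 356, 52)])]),
  (4, 6, [(6, 5, 420, 48)], [(4, 4, 412, 48)], [([(6, 5, 420, 48)], [(3, 3, 420, 51)]), ([(3, 3, 414, 51)], [(3, 3, 414, 51)])]),
  (4, 6, [(6, 5, 420, 48)], [(4, 4, 412, 48)], [([(6, 5, 420, 48)], [(3, 3, 420, 51)]), ([(3, 3, 414, 51)], [(3, 3, 414, 51)])]),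
  (3, 5, [(7, 6, 364, 52)], [(5, 5, 355, 50)], [([(7, 6, 364, 52)], [(4, 4, 356, 52)]), ([(4, 4, 356, 52)], [(4, 4, 356, 52)])]),
  (3, 5, [(7, 6, 364, 52)], [(5, 5, 355, 50)], [([(7, 6, 364, 52)], [(4, 4, 356, 52)]), ([(4, 4, 356, 52)], [(4, 4, 356, 52)])]),
  (3, 5, [(7, 6, 364, 52)], [(5, 5, 355, 50)], [([(7, 6, 364, 52)], [(4, 4, 356, 52)]), ([(4, 4, 356, 52)], [(4, 4, 356, 52)])]),
  (4, 6, [(6, 5, 420, 48)], [(4, 4, 412, 48)], [([(6, 5, 420, 48)], [(3, 3, 420, 51)]), ([(3, 3, 414, 51)], [(3, 3, 414, 51)])]),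
  (4, 6, [(6, 5, 420, 48)], [(4, 4, 412, 48)], [([(6, 5, 420, 48)], [(3, 3, 420, 51)]), ([(3, 3, 414, 51)], [(3, 3, 414, 51)])]),
  (4, 6, [(6, 5, 420, 48)], [(4, 4, 412, 48)], [([(6, 5, 420, 48)], [(3, 3, 420, 51)]), ([(3, 3, 414, 51)], [(3, 3, 414, 51)])]),
  (4, 6, [(6, 5, 420, 48)], [(4, 4, 412, 48)], [([(6, 5, 420, 48)], [(3, 3, 420, 51)]), ([(3, 3, 414, 51)], [(3, 3, 414, 51)])]),
  (4, 6, [(6, 5, 420, 48)], [(4, 4, 412, 48)], [([(6, 5, 420, 48)], [(3, 3, 420, 51)]), ([(3, 3, 414, 51)], [(3, 3, 414, 51)])]),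
  (4, 6, [(6, 5, 420, 48)], [(4, 4, 412, 48)], [([(6, 5, 420, 48)], [(3, 3, 420, 51)]), ([(3, 3, 414, 51)], [(3, 3, 414, 51)])]),
  (4, 6, [(6, 5, 420, 48)], [(4, 4, 412, 48)], [([(6, 5, 420, 48)], [(3, 3, 420, 51)]), ([(3, 3, 414, 51)], [(3, 3, 414, 51)])]),
  (4, 6, [(6, 5, 420, 48)], [(4, 4, 412, 48)], [([(6, 5, 420, 48)], [(3, 3, 420, 51)]), ([(3, 3, 414, 51)], [(3, 3, 414, 51)])]),
  (4, 6, [(6, 5, 420, 48)], [(4, 4, 412, 48)], [([(6, 5, 420, 48)], [(3, 3, 420, 51)]), ([(3, 3, 414, 51)], [(3, 3, 414, 51)])]),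
  (4, 6, [(6, 5, 420, 48)], [(4, 4, 412, 48)], [([(6, 5, 420, 48)], [(3, 3, 420, 51)]), ([(3, 3, 414, 51)], [(3, 3, 414, 51)])])]

theorem okR6 : rowChk 4 60 tR4 tR6 cR6 6 = true := by decide +kernel

theorem smR6 : smallChk 4 tR6 = true := by decide +kernel

theorem lenR6 : cR6.length = 64 := by decide +kernel

end Pool.Agent.Lib.MP_22c8c7_co
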