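import Mathlib
import Pool.Agent.Lib.MP_22c8c7_co.TabR

/-! # Refined table, certificates of the row `n = 8` (generated) -/

set_option autoImplicit false
set_option linter.style.longLine false

namespace Pool.Agent.Lib.MP_22c8c7_co

/-- the certificates of the entries `N = 8, ..., 69` -/
def cR8 : List Cert := [
  (0, 0, [(0, 0, 180, 180)], [(0, 0, 180, 180)], [([(0, 0, 180, 180)], [(0, 0, 180, 180)]), ([(0, 0, 120, 120)], [(0, 0, 120, 120)]), ([(0, 0, 60, 60)], [(0, 0, 60, 60)])]),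
  (4, 0, [(0, 0, 0, 180)], [(0, 1, 0, 177)], [([(0, 0, 0, 180)], [(0, 0, 0, 180)]), ([(0, 0, 0, 120)], [(0, 0, 0, 120)]), ([(0, 0, 0, 60)], [(0, 0, 0, 60)])]),
  (4, 2, [(6, 0, 282, 144)], [(0, 21, 237, 126)], [([(1, 0, 297, 174)], [(0, 7, 279, 138)]), ([(0, 0, 0, 120)], [(0, 0, 0, 120)]), ([(0, 0, 0, 60)], [(0, 0, 0, 60)])]),
  (4, 2, [(9, 0, 273, 126)], [(0, 11, 267, 114), (0, 21, 237, 126)], [([(5, 0, 285, 150)], [(0, 11, 267, 114)]), ([(1, 0, 0, 118)], [(0, 1, 0, 118)]), ([(0, 0, 0, 60)], [(0, 0, 0, 60)])]),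
  (4, 3, [(10, 0, 300, 110), (16, 0, 268, 140)], [(0, 11, 294, 81), (9, 22, 238, 186)], [([(14, 0, 276, 130)], [(6, 11, 266, 102)]), ([(5, 0, 290, 100), (21, 0, 258, 165)], [(7, 12, 262, 114)]), ([(0, 0, 0, 60)], [(0, 0, 0, 60)])]),
  (5, 4, [(8, 2, 348, 94), (22, 0, 272, 170)], [(0, 10, 330, 60), (6, 22, 248, 168)], [([(12, 3, 312, 111), (17, 0, 292, 145)], [(8, 6, 304, 84), (1, 22, 268, 138)]), ([(20, 3, 280, 151), (6, 1, 336, 87)], [(8, 7, 300, 90), (1, 22, 268, 138)]), ([(1, 0, 0, 65)], [(1, 0, 0, 65)])]),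
  (4, 3, [(9, 2, 306, 101), (13, 0, 282, 125)], [(0, 12, 288, 72), (0, 19, 262, 114)], [([(11, 5, 294, 105)], [(2, 11, 282, 78)]), ([(10, 6, 280, 98)], [(0, 12, 276, 72)]), ([(0, 0, 0, 60)], [(0, 0, 0, 60)])]),
  (4, 3, [(9, 2, 306, 101), (13, 0, 282, 125)], [(0, 12, 288, 72), (0, 17, 266, 102)], [([(11, 5, 294, 105)], [(1, 12, 282, 78)]), ([(9, 2, 282, 101)], [(0, 11, 278, 76)]), ([(0, 0, 0, 60)], [(0, 0, 0, 60)])]),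
  (4, 3, [(9, 3, 306, 99), (13, 0, 282, 125)], [(0, 12, 288, 72), (0, 16, 268, 96)], [([(11, 4, 294, 107)], [(0, 13, 282, 78)]), ([(8, 0, 284, 100)], [(0, 11, 278, 76)]), ([(0, 0, 0, 60)], [(0, 0, 0, 60)])]),
  (3, 3, [(9, 3, 306, 99), (12, 11, 289, 138)], [(0, 12, 288, 72), (0, 15, 270, 90)], [([(9, 2, 306, 101), (12, 9, 291, 126)], [(0, 13, 282, 78)]), ([(7, 0, 286, 95)], [(0, 10, 280, 80)]), ([(0, 0, 240, 60)], [(0, 0, 240, 60)])]),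
  (3, 3, [(10, 6, 300, 98), (12, 11, 289, 138)], [(0, 12, 288, 72), (0, 15, 270, 90)], [([(10, 6, 300, 98), (12, 8, 292, 120)], [(0, 12, 288, 72)]), ([(7, 1, 286, 93)], [(0, 10, 280, 80)]), ([(0, 0, 240, 60)], [(0, 0, 240, 60)])]),
  (5, 3, [(10, 5, 300, 95), (11, 0, 294, 115)], [(0, 11, 294, 81), (0, 14, 276, 84)], [([(10, 4, 300, 98)], [(0, 12, 288, 72)]), ([(7, 1, 0, 92)], [(0, 11, 0, 76)]), ([(0, 0, 0, 60)], [(0, 0, 0, 60)])]),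
  (5, 4, [(12, 5, 312, 105), (8, 4, 348, 88), (16, 0, 296, 140)], [(0, 12, 312, 72), (0, 19, 284, 114)], [([(10, 5, 330, 95), (13, 0, 308, 125)], [(0, 12, 312, 72), (0, 16, 296, 96)]), ([(8, 3, 328, 91), (14, 0, 304, 130)], [(8, 7, 300, 90)]), ([(0, 0, 0, 60)], [(0, 0, 0, 60)])]),
  (5, 4, [(11, 5, 321, 100), (8, 5, 348, 85), (15, 0, 300, 135)], [(0, 11, 321, 66), (0, 18, 288, 108)], [([(11, 5, 321, 100), (8, 5, 348, 85), (12, 0, 312, 120)], [(0, 12, 312, 72), (0, 14, 304, 84)]), ([(7, 6, 332, 78), (14, 0, 304, 130)], [(7, 7, 304, 84)]), ([(0, 0, 0, 60)], [(0, 0, 0, 60)])]),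
  (5, 4, [(11, 4, 321, 103), (8, 5, 348, 85), (14, 0, 304, 130)], [(0, 11, 321, 66), (0, 16, 296, 96)], [([(12, 5, 312, 105), (8, 5, 348, 85)], [(6, 7, 308, 78)]), ([(7, 4, 332, 83), (13, 0, 308, 125)], [(4, 9, 308, 78)]), ([(0, 0, 0, 60)], [(0, 0, 0, 60)])]),
  (6, 4, [(9, 5, 339, 85), (13, 0, 303, 125), (8, 4, 348, 84)], [(0, 12, 312, 72), (0, 14, 294, 84)], [([(9, 5, 339, 85), (11, 0, 321, 115)], [(2, 10, 312, 72)]), ([(7, 4, 0, 79)], [(0, 9, 0, 66)]), ([(0, 0, 0, 60)], [(0, 0, 0, 60)])]),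
  (6, 5, [(18, 4, 312, 134), (7, 5, 396, 75)], [(0, 18, 312, 108), (0, 8, 384, 60), (0, 20, 300, 120)], [([(15, 4, 330, 119), (7, 5, 396, 75), (16, 0, 324, 140)], [(7, 6, 342, 78), (0, 18, 312, 108), (0, 8, 384, 60)]), ([(17, 4, 318, 129), (6, 4, 384, 74)], [(6, 7, 342, 78), (0, 18, 312, 108)]), ([(0, 0, 0, 60)], [(0, 0, 0, 60)])]),
  (6, 5, [(18, 3, 312, 138), (7, 5, 396, 75), (8, 5, 384, 80)], [(0, 19, 306, 114), (0, 8, 384, 60)], [([(16, 4, 324, 124), (7, 5, 396, 75)], [(7, 6, 342, 78), (0, 18, 312, 108), (0, 8, 384, 60)]), ([(16, 4, 324, 124), (6, 4, 384, 74)], [(5, 8, 342, 78), (0, 18, 312, 108), (0, 7, 378, 64)]), ([(0, 0, 0, 60)], [(0, 0, 0, 60)])]),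
  (6, 5, [(17, 4, 318, 129), (7, 5, 396, 75)], [(0, 12, 348, 72), (0, 19, 306, 114), (0, 8, 384, 60)], [([(15, 4, 330, 119), (7, 5, 396, 75)], [(5, 7, 348, 72), (0, 17, 318, 102)]), ([(16, 4, 324, 124), (6, 4, 384, 74)], [(9, 5, 336, 85), (0, 7, 378, 64), (0, 17, 318, 102)]), ([(0, 0, 0, 60)], [(0, 0, 0, 60)])]),
  (6, 5, [(16, 3, 324, 128), (7, 5, 396, 75)], [(0, 11, 354, 66), (0, 18, 312, 108)], [([(11, 5, 354, 96), (7, 5, 396, 75), (14, 0, 336, 130)], [(6, 6, 348, 72), (0, 16, 324, 96)]), ([(11, 5, 354, 96), (6, 4, 384, 74), (15, 0, 330, 135)], [(6, 6, 348, 72), (0, 16, 324, 96)]), ([(0, 0, 0, 60)], [(0, 0, 0, 60)])]),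
  (6, 5, [(11, 5, 354, 96), (7, 5, 396, 75), (16, 0, 324, 140)], [(0, 11, 354, 66), (0, 17, 318, 102)], [([(10, 5, 360, 90), (7, 5, 396, 75), (14, 0, 336, 130)], [(1, 10, 354, 66), (0, 15, 330, 90)]), ([(10, 5, 360, 90), (14, 0, 336, 130), (6, 5, 384, 72)], [(5, 7, 348, 72), (0, 15, 330, 90)]), ([(0, 0, 0, 60)], [(0, 0, 0, 60)])]),
  (6, 5, [(10, 5, 360, 90), (7, 5, 396, 75), (15, 0, 330, 135)], [(0, 11, 354, 66), (0, 16, 324, 96)], [([(10, 5, 360, 90), (7, 5, 396, 75), (13, 0, 342, 125)], [(2, 9, 354, 66), (0, 15, 330, 90)]), ([(10, 5, 360, 90), (6, 5, 384, 72), (14, 0, 336, 130)], [(2, 9, 354, 66), (0, 15, 330, 90)]), ([(0, 0, 0, 60)], [(0, 0, 0, 60)])]),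
  (6, 5, [(10, 5, 360, 90), (7, 5, 396, 75), (14, 0, 336, 130)], [(0, 10, 360, 60), (0, 15, 330, 90)], [([(10, 5, 360, 90), (7, 5, 396, 75), (12, 0, 348, 120)], [(5, 7, 348, 72), (0, 14, 336, 84)]), ([(8, 5, 372, 80), (13, 0, 342, 125), (6, 4, 384, 74)], [(4, 8, 348, 72), (0, 14, 336, 84)]), ([(0, 0, 0, 60)], [(0, 0, 0, 60)])]),
  (6, 5, [(10, 5, 360, 90), (7, 5, 396, 75), (13, 0, 342, 125)], [(0, 11, 354, 66), (0, 15, 330, 90)], [([(10, 5, 360, 90), (7, 5, 396, 75), (12, 0, 348, 120)], [(0, 11, 354, 66), (0, 13, 342, 78)]), ([(10, 5, 360, 90), (6, 4, 384, 74), (12, 0, 348, 120)], [(0, 11, 354, 66), (0, 13, 342, 78)]), ([(0, 0, 0, 60)], [(0, 0, 0, 60)])]),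
  (7, 6, [(17, 4, 344, 126), (7, 5, 435, 72)], [(0, 18, 336, 108), (0, 7, 435, 60)], [([(16, 4, 352, 120), (7, 5, 435, 72)], [(9, 5, 368, 84), (0, 7, 435, 60), (0, 17, 344, 102)]), ([(16, 4, 352, 120), (5, 3, 440, 70)], [(11, 5, 352, 96), (0, 6, 432, 60)]), ([(0, 0, 0, 60)], [(0, 0, 0, 60)])]),
  (7, 6, [(15, 4, 360, 115), (6, 4, 450, 72), (17, 0, 344, 145)], [(0, 11, 392, 66), (0, 17, 344, 102)], [([(15, 4, 360, 115), (6, 4, 450, 72)], [(5, 8, 376, 78), (0, 16, 352, 96), (0, 7, 435, 60)]), ([(15, 4, 360, 115), (5, 3, 440, 70)], [(7, 6, 376, 78), (0, 16, 352, 96), (0, 6, 432, 60)]), ([(0, 0, 0, 60)], [(0, 0, 0, 60)])]),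
  (7, 6, [(16, 4, 352, 120), (6, 4, 450, 72)], [(0, 13, 376, 78), (0, 17, 344, 102), (0, 7, 435, 60)], [([(15, 4, 360, 115), (6, 4, 450, 72)], [(6, 7, 376, 78), (0, 7, 435, 60), (0, 16, 352, 96)]), ([(15, 4, 360, 115), (5, 3, 440, 70)], [(8, 5, 376, 78), (0, 16, 352, 96), (0, 6, 432, 60)]), ([(0, 0, 0, 60)], [(0, 0, 0, 60)])]),
  (7, 6, [(16, 4, 352, 120), (6, 4, 450, 72)], [(0, 12, 384, 72), (0, 16, 352, 96), (0, 7, 435, 60)], [([(14, 4, 368, 110), (7, 5, 435, 72)], [(5, 7, 384, 72), (0, 15, 360, 90), (0, 7, 435, 60)]), ([(14, 4, 368, 110), (5, 3, 440, 70)], [(7, 5, 384, 72), (0, 15, 360, 90)]), ([(0, 0, 0, 60)], [(0, 0, 0, 60)])]),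
  (8, 6, [(11, 4, 375, 91), (7, 4, 435, 71), (12, 0, 360, 120)], [(0, 12, 360, 72), (0, 7, 435, 60), (0, 13, 345, 78)], [([(11, 4, 375, 91), (6, 3, 450, 72)], [(2, 9, 375, 66), (0, 12, 360, 72)]), ([(5, 3, 0, 70)], [(0, 6, 0, 60)]), ([(0, 0, 0, 60)], [(0, 0, 0, 60)])]),
  (8, 6, [(11, 4, 375, 91), (7, 4, 435, 71), (12, 0, 360, 120)], [(0, 12, 360, 72), (0, 7, 435, 60)], [([(11, 4, 375, 91), (7, 4, 435, 71)], [(6, 5, 375, 66)]), ([(6, 4, 0, 66)], [(0, 6, 0, 60)]), ([(0, 0, 0, 60)], [(0, 0, 0, 60)])]),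
  (8, 7, [(17, 4, 370, 126), (7, 4, 474, 71)], [(0, 16, 380, 96), (0, 6, 492, 60), (0, 18, 360, 108)], [([(16, 3, 380, 122), (6, 4, 492, 66)], [(10, 6, 380, 96), (0, 6, 492, 60)]), ([(15, 4, 390, 114), (5, 3, 490, 67), (16, 0, 380, 140)], [(12, 4, 380, 96), (0, 5, 490, 60)]), ([(0, 0, 0, 60)], [(0, 0, 0, 60)])]),
  (8, 7, [(16, 4, 380, 120), (6, 4, 492, 66), (17, 0, 370, 145)], [(0, 17, 370, 102), (0, 6, 492, 60)], [([(16, 3, 380, 122), (6, 4, 492, 66)], [(12, 4, 380, 96), (0, 6, 492, 60)]), ([(15, 4, 390, 114), (5, 3, 490, 67), (16, 0, 380, 140)], [(9, 6, 390, 90), (0, 5, 490, 60), (0, 17, 370, 102)]), ([(0, 0, 0, 60)], [(0, 0, 0, 60)])]),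
  (8, 7, [(16, 4, 380, 120), (6, 4, 492, 66), (17, 0, 370, 145)], [(0, 17, 370, 102), (0, 6, 492, 60)], [([(15, 3, 390, 117), (6, 4, 492, 66)], [(8, 8, 380, 96), (1, 5, 492, 59)]), ([(15, 4, 390, 114), (5, 4, 490, 61)], [(10, 6, 380, 96), (1, 4, 490, 60)]), ([(1, 1, 0, 59)], [(1, 1, 0, 59)])]),
  (8, 7, [(15, 4, 390, 114), (6, 4, 492, 66), (16, 0, 380, 140)], [(0, 17, 370, 102), (0, 6, 492, 60)], [([(15, 4, 390, 114), (6, 4, 492, 66)], [(9, 6, 390, 90), (1, 5, 492, 59)]), ([(15, 4, 390, 114), (5, 4, 490, 61)], [(7, 8, 390, 90), (1, 4, 490, 60)]), ([(1, 1, 0, 59)], [(1, 1, 0, 59)])]),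
  (9, 7, [(12, 3, 384, 99), (6, 4, 492, 62)], [(0, 12, 384, 72), (1, 5, 492, 58), (0, 13, 366, 78)], [([(12, 4, 384, 96), (6, 4, 492, 62)], [(3, 9, 384, 72), (1, 5, 492, 58)]), ([(5, 3, 0, 64)], [(1, 5, 0, 58)]), ([(1, 1, 0, 58)], [(1, 1, 0, 58)])]),
  (9, 7, [(12, 3, 384, 99), (6, 4, 492, 62)], [(0, 12, 384, 72), (1, 5, 492, 58)], [([(11, 4, 402, 90), (6, 4, 492, 62)], [(4, 7, 402, 66), (0, 12, 384, 72), (1, 5, 492, 58)]), ([(5, 4, 0, 60)], [(1, 5, 0, 58)]), ([(1, 1, 0, 58)], [(1, 1, 0, 58)])]),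
  (9, 7, [(12, 4, 384, 96), (6, 4, 492, 62)], [(0, 12, 384, 72), (1, 5, 492, 58)], [([(11, 4, 402, 90), (6, 4, 492, 62)], [(6, 5, 402, 66), (1, 5, 492, 58)]), ([(5, 4, 0, 60)], [(1, 5, 0, 58)]), ([(1, 1, 0, 58)], [(1, 1, 0, 58)])]),
  (9, 7, [(11, 4, 402, 90), (6, 4, 492, 62), (12, 0, 384, 120)], [(0, 11, 402, 66), (1, 5, 492, 58), (0, 12, 384, 72)], [([(11, 4, 402, 90), (6, 4, 492, 62)], [(5, 6, 402, 66), (1, 5, 492, 58)]), ([(5, 4, 0, 60)], [(1, 5, 0, 58)]), ([(1, 1, 0, 58)], [(1, 1, 0, 58)])]),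
  (9, 4, [(7, 4, 0, 67)], [(0, 7, 0, 60)], [([(7, 4, 0, 67)], [(0, 7, 0, 60)]), ([(5, 3, 0, 64)], [(0, 5, 0, 60)]), ([(0, 0, 0, 60)], [(0, 0, 0, 60)])]),
  (9, 4, [(7, 4, 0, 67)], [(0, 7, 0, 60)], [([(7, 4, 0, 67)], [(0, 7, 0, 60)]), ([(5, 3, 0, 64)], [(0, 5, 0, 60)]), ([(0, 0, 0, 60)], [(0, 0, 0, 60)])]),
  (9, 4, [(7, 4, 0, 67)], [(0, 7, 0, 60)], [([(7, 4, 0, 67)], [(0, 7, 0, 60)]), ([(5, 3, 0, 64)], [(0, 5, 0, 60)]), ([(0, 0, 0, 60)], [(0, 0, 0, 60)])]),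
  (9, 4, [(7, 4, 0, 67)], [(0, 7, 0, 60)], [([(7, 4, 0, 67)], [(0, 7, 0, 60)]), ([(5, 3, 0, 64)], [(0, 5, 0, 60)]), ([(0, 0, 0, 60)], [(0, 0, 0, 60)])]),
  (9, 4, [(6, 3, 0, 72)], [(0, 7, 0, 60)], [([(6, 3, 0, 72)], [(0, 7, 0, 60)]), ([(5, 2, 0, 71)], [(0, 5, 0, 60)]), ([(0, 0, 0, 60)], [(0, 0, 0, 60)])]),
  (4, 6, [(7, 5, 435, 72)], [(0, 8, 420, 60)], [([(7, 4, 439, 75)], [(0, 7, 435, 60)]), ([(6, 3, 438, 75)], [(0, 6, 432, 60)]), ([(0, 0, 420, 60)], [(0, 0, 420, 60)])]),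
  (4, 6, [(7, 5, 435, 72)], [(0, 7, 435, 60)], [([(7, 4, 439, 75)], [(0, 7, 435, 60)]), ([(5, 2, 440, 75)], [(0, 6, 432, 60)]), ([(0, 0, 420, 60)], [(0, 0, 420, 60)])]),
  (4, 6, [(7, 5, 435, 72)], [(0, 7, 435, 60)], [([(6, 3, 450, 75)], [(0, 7, 435, 60)]), ([(5, 3, 440, 70)], [(0, 6, 432, 60)]), ([(0, 0, 420, 60)], [(0, 0, 420, 60)])]),
  (4, 6, [(6, 4, 450, 72)], [(0, 7, 435, 60)], [([(6, 3, 450, 75)], [(0, 7, 435, 60)]), ([(5, 3, 440, 70)], [(0, 6, 432, 60)]), ([(0, 0, 420, 60)], [(0, 0, 420, 60)])]),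
  (4, 6, [(6, 4, 450, 72)], [(0, 7, 435, 60)], [([(6, 3, 450, 75)], [(0, 7, 435, 60)]), ([(5, 3, 440, 70)], [(0, 6, 432, 60)]), ([(0, 0, 420, 60)], [(0, 0, 420, 60)])]),
  (4, 6, [(6, 4, 450, 72)], [(0, 7, 435, 60)], [([(6, 3, 450, 75)], [(0, 7, 435, 60)]), ([(5, 2, 440, 75)], [(0, 6, 432, 60)]), ([(0, 0, 420, 60)], [(0, 0, 420, 60)])]),
  (4, 6, [(6, 4, 450, 72)], [(0, 7, 435, 60)], [([(6, 3, 450, 75)], [(0, 7, 435, 60)]), ([(5, 2, 440, 75)], [(0, 6, 432, 60)]), ([(0, 0, 420, 60)], [(0, 0, 420, 60)])]),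
  (4, 6, [(6, 4, 450, 72)], [(0, 7, 435, 60)], [([(6, 3, 450, 75)], [(0, 7, 435, 60)]), ([(5, 2, 440, 75)], [(0, 6, 432, 60)]), ([(0, 0, 420, 60)], [(0, 0, 420, 60)])]),
  (4, 6, [(6, 4, 450, 72)], [(0, 7, 435, 60)], [([(6, 3, 450, 75)], [(0, 7, 435, 60)]), ([(5, 3, 440, 70)], [(0, 6, 432, 60)]), ([(0, 0, 420, 60)], [(0, 0, 420, 60)])]),
  (4, 6, [(6, 4, 450, 72)], [(0, 7, 435, 60)], [([(6, 3, 450, 75)], [(0, 7, 435, 60)]), ([(5, 3, 440, 70)], [(0, 6, 432, 60)]), ([(0, 0, 420, 60)], [(0, 0, 420, 60)])]),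
  (4, 6, [(6, 4, 450, 72)], [(0, 7, 435, 60)], [([(6, 3, 450, 75)], [(0, 7, 435, 60)]), ([(5, 2, 440, 75)], [(0, 6, 432, 60)]), ([(0, 0, 420, 60)], [(0, 0, 420, 60)])]),
  (4, 6, [(6, 4, 450, 72)], [(0, 7, 435, 60)], [([(6, 3, 450, 75)], [(0, 7, 435, 60)]), ([(5, 2, 440, 75)], [(0, 6, 432, 60)]), ([(0, 0, 420, 60)], [(0, 0, 420, 60)])]),
  (4, 6, [(6, 4, 450, 72)], [(0, 7, 435, 60)], [([(6, 3, 450, 75)], [(0, 7, 435, 60)]), ([(5, 2, 440, 75)], [(0, 6, 432, 60)]), ([(0, 0, 420, 60)], [(0, 0, 420, 60)])]),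
  (4, 6, [(6, 4, 450, 72)], [(0, 7, 435, 60)], [([(6, 3, 450, 75)], [(0, 7, 435, 60)]), ([(5, 2, 440, 75)], [(0, 6, 432, 60)]), ([(0, 0, 420, 60)], [(0, 0, 420, 60)])]),
  (4, 6, [(6, 4, 450, 72)], [(0, 7, 435, 60)], [([(6, 3, 450, 75)], [(0, 7, 435, 60)]), ([(5, 3, 440, 70)], [(0, 6, 432, 60)]), ([(0, 0, 420, 60)], [(0, 0, 420, 60)])]),
  (4, 6, [(6, 4, 450, 72)], [(0, 7, 435, 60)], [([(6, 3, 450, 75)], [(0, 7, 435, 60)]), ([(5, 2, 440, 75)], [(0, 5, 440, 70)]), ([(0, 0, 420, 60)], [(0, 0, 420, 60)])]),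
  (4, 6, [(6, 4, 450, 72)], [(0, 7, 435, 60)], [([(6, 3, 450, 75)], [(0, 7, 435, 60)]), ([(5, 2, 440, 75)], [(0, 6, 432, 60)]), ([(0, 0, 420, 60)], [(0, 0, 420, 60)])]),
  (4, 6, [(6, 4, 450, 72)], [(0, 7, 435, 60)], [([(6, 3, 450, 75)], [(0, 7, 435, 60)]), ([(5, 2, 440, 75)], [(0, 6, 432, 60)]), ([(0, 0, 420, 60)], [(0, 0, 420, 60)])]),
  (4, 6, [(6, 4, 450, 72)], [(0, 7, 435, 60)], [([(6, 3, 450, 75)], [(0, 7, 435, 60)]), ([(5, 2, 440, 75)], [(0, 6, 432, 60)]), ([(0, 0, 420, 60)], [(0, 0, 420, 60)])])]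

theorem okR8 : rowChk 6 60 tR6 tR8 cR8 8 = true := by decide +kernel

theorem smR8 : smallChk 6 tR8 = true := by decide +kernel

theorem lenR8 : cR8.length = 62 := by decide +kernel

end Pool.Agent.Lib.MP_22c8c7_co
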