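import Mathlib
import Pool.Agent.Lib.MP_22c8c7_co.TabS

/-! # Simple table, certificates of the row `n = 10` (generated) -/

set_option autoImplicit false
set_option linter.style.longLine false

namespace Pool.Agent.Lib.MP_22c8c7_co

/-- the certificates of the entries `N = 10, ..., 149` -/
def cS10 : List CertS := [
  (0, 0, 0, 240, 240, 5),
  (5, 0, 1, 0, 236, 6),
  (5, 0, 8, 0, 208, 6),
  (5, 0, 16, 0, 176, 6),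
  (0, 2, 13, 308, 151, 5),
  (5, 2, 12, 312, 144, 6),
  (1, 3, 10, 340, 130, 5),
  (8, 2, 8, 0, 116, 16),
  (7, 1, 9, 0, 132, 8),
  (6, 3, 10, 340, 130, 7),
  (1, 3, 9, 348, 132, 5),
  (1, 3, 9, 348, 132, 5),
  (5, 4, 9, 372, 123, 6),
  (8, 2, 8, 0, 116, 16),
  (8, 2, 8, 0, 116, 16),
  (9, 3, 7, 0, 109, 24),
  (9, 3, 7, 0, 109, 24),
  (6, 4, 8, 384, 116, 7),
  (6, 4, 8, 384, 116, 7),
  (5, 4, 8, 384, 116, 6),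
  (3, 5, 7, 428, 109, 5),
  (3, 5, 7, 428, 109, 5),
  (6, 5, 7, 428, 109, 7),
  (10, 4, 6, 0, 102, 32),
  (10, 4, 6, 0, 102, 32),
  (10, 4, 6, 0, 102, 32),
  (10, 4, 6, 0, 102, 32),
  (10, 4, 6, 0, 102, 32),
  (10, 4, 6, 0, 102, 32),
  (10, 4, 6, 0, 102, 32),
  (5, 6, 6, 480, 102, 6),
  (11, 5, 5, 0, 100, 40),
  (11, 5, 5, 0, 100, 40),
  (11, 5, 5, 0, 100, 40),
  (11, 5, 5, 0, 100, 40),
  (11, 5, 5, 0, 100, 40),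
  (4, 6, 6, 480, 102, 5),
  (4, 6, 6, 480, 102, 5),
  (3, 5, 7, 428, 109, 5),
  (3, 5, 7, 428, 109, 5),
  (3, 5, 7, 428, 109, 5),
  (2, 4, 8, 384, 116, 5),
  (2, 4, 8, 384, 116, 5),
  (2, 4, 8, 384, 116, 5),
  (2, 4, 8, 384, 116, 5),
  (2, 4, 8, 384, 116, 5),
  (2, 4, 8, 384, 116, 5),
  (2, 4, 8, 384, 116, 5),
  (2, 4, 8, 384, 116, 5),
  (2, 4, 8, 384, 116, 5),
  (2, 4, 8, 384, 116, 5),
  (2, 4, 8, 384, 116, 5),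
  (2, 4, 8, 384, 116, 5),
  (2, 4, 8, 384, 116, 5),
  (2, 4, 8, 384, 116, 5),
  (2, 4, 8, 384, 116, 5),
  (2, 4, 8, 384, 116, 5),
  (2, 4, 8, 384, 116, 5),
  (2, 4, 8, 384, 116, 5),
  (2, 4, 8, 384, 116, 5),
  (2, 4, 8, 384, 116, 5),
  (2, 4, 8, 384, 116, 5),
  (2, 4, 8, 384, 116, 5),
  (2, 4, 8, 384, 116, 5),
  (2, 4, 8, 384, 116, 5),
  (2, 4, 8, 384, 116, 5),
  (2, 4, 8, 384, 116, 5),
  (2, 4, 8, 384, 116, 5),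
  (2, 4, 8, 384, 116, 5),
  (2, 4, 8, 384, 116, 5),
  (2, 4, 8, 384, 116, 5),
  (2, 4, 8, 384, 116, 5),
  (2, 4, 8, 384, 116, 5),
  (2, 4, 8, 384, 116, 5),
  (2, 4, 8, 384, 116, 5),
  (2, 4, 8, 384, 116, 5),
  (2, 4, 8, 384, 116, 5),
  (2, 4, 8, 384, 116, 5),
  (2, 4, 8, 384, 116, 5),
  (2, 4, 8, 384, 116, 5),
  (2, 4, 8, 384, 116, 5),
  (2, 4, 8, 384, 116, 5),
  (2, 4, 8, 384, 116, 5),
  (2, 4, 8, 384, 116, 5),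
  (2, 4, 8, 384, 116, 5),
  (2, 4, 8, 384, 116, 5),
  (2, 4, 8, 384, 116, 5),
  (2, 4, 8, 384, 116, 5),
  (2, 4, 8, 384, 116, 5),
  (2, 4, 8, 384, 116, 5),
  (2, 4, 8, 384, 116, 5),
  (2, 4, 8, 384, 116, 5),
  (2, 4, 8, 384, 116, 5),
  (2, 4, 8, 384, 116, 5),
  (2, 4, 8, 384, 116, 5),
  (2, 4, 8, 384, 116, 5),
  (2, 4, 8, 384, 116, 5),
  (2, 4, 8, 384, 116, 5),
  (2, 4, 8, 384, 116, 5),
  (2, 4, 8, 384, 116, 5),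
  (2, 4, 8, 384, 116, 5),
  (2, 4, 8, 384, 116, 5),
  (2, 4, 8, 384, 116, 5),
  (2, 4, 8, 384, 116, 5),
  (2, 4, 8, 384, 116, 5),
  (2, 4, 8, 384, 116, 5),
  (2, 4, 8, 384, 116, 5),
  (2, 4, 8, 384, 116, 5),
  (2, 4, 8, 384, 116, 5),
  (2, 4, 8, 384, 116, 5),
  (2, 4, 8, 384, 116, 5),
  (2, 4, 8, 384, 116, 5),
  (2, 4, 8, 384, 116, 5),
  (2, 4, 8, 384, 116, 5),
  (2, 4, 8, 384, 116, 5),
  (2, 4, 8, 384, 116, 5),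
  (2, 4, 8, 384, 116, 5),
  (2, 4, 8, 384, 116, 5),
  (2, 4, 8, 384, 116, 5),
  (2, 4, 8, 384, 116, 5),
  (2, 4, 8, 384, 116, 5),
  (2, 4, 8, 384, 116, 5),
  (2, 4, 8, 384, 116, 5),
  (2, 4, 8, 384, 116, 5),
  (2, 4, 8, 384, 116, 5),
  (2, 4, 8, 384, 116, 5),
  (2, 4, 8, 384, 116, 5),
  (2, 4, 8, 384, 116, 5),
  (2, 4, 8, 384, 116, 5),
  (2, 4, 8, 384, 116, 5),
  (2, 4, 8, 384, 116, 5),
  (2, 4, 8, 384, 116, 5),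
  (2, 4, 8, 384, 116, 5),
  (2, 4, 8, 384, 116, 5),
  (2, 4, 8, 384, 116, 5),
  (2, 4, 8, 384, 116, 5),
  (2, 4, 8, 384, 116, 5),
  (2, 4, 8, 384, 116, 5),
  (2, 4, 8, 384, 116, 5),
  (2, 4, 8, 384, 116, 5)]

theorem okS10 : rowS 8 60 tS8 tS10 cS10 10 = true := by decide +kernel

theorem smS10 : smallChk 8 tS10 = true := by decide +kernel

theorem lenS10 : cS10.length = 140 := by decide +kernel

end Pool.Agent.Lib.MP_22c8c7_co
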