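import Mathlib
import Pool.Agent.Lib.MP_22c8c7_co.TabS

/-! # Simple table, certificates of the row `n = 12` (generated) -/

set_option autoImplicit false
set_option linter.style.longLine false

namespace Pool.Agent.Lib.MP_22c8c7_co

/-- the certificates of the entries `N = 12, ..., 149` -/
def cS12 : List CertS := [
  (0, 0, 0, 300, 300, 6),
  (6, 0, 1, 0, 295, 7),
  (6, 0, 7, 0, 265, 7),
  (6, 0, 13, 0, 235, 7),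
  (6, 2, 13, 355, 177, 7),
  (6, 2, 13, 355, 177, 7),
  (1, 3, 11, 370, 159, 6),
  (1, 3, 10, 380, 150, 6),
  (2, 4, 9, 405, 141, 6),
  (10, 3, 7, 0, 125, 20),
  (8, 1, 10, 0, 150, 9),
  (2, 4, 8, 420, 140, 6),
  (2, 4, 8, 420, 140, 6),
  (2, 4, 8, 420, 140, 6),
  (2, 4, 8, 420, 140, 6),
  (3, 5, 8, 440, 132, 6),
  (3, 5, 8, 440, 132, 6),
  (10, 3, 7, 0, 125, 20),
  (6, 5, 7, 460, 125, 7),
  (11, 4, 6, 0, 120, 30),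
  (7, 5, 7, 460, 125, 8),
  (4, 6, 7, 485, 123, 6),
  (4, 6, 7, 485, 123, 6),
  (4, 6, 7, 485, 123, 6),
  (4, 6, 7, 485, 123, 6),
  (4, 6, 7, 485, 123, 6),
  (4, 6, 7, 485, 123, 6),
  (4, 6, 6, 510, 120, 6),
  (12, 5, 6, 0, 114, 40),
  (12, 5, 6, 0, 114, 40),
  (12, 5, 6, 0, 114, 40),
  (12, 5, 6, 0, 114, 40),
  (5, 7, 6, 540, 114, 6),
  (6, 7, 6, 540, 114, 7),
  (5, 7, 6, 540, 114, 6),
  (5, 7, 6, 540, 114, 6),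
  (5, 7, 6, 540, 114, 6),
  (5, 7, 6, 540, 114, 6),
  (13, 6, 5, 0, 105, 50),
  (13, 6, 5, 0, 105, 50),
  (13, 6, 5, 0, 105, 50),
  (13, 6, 5, 0, 105, 50),
  (13, 6, 5, 0, 105, 50),
  (5, 7, 6, 540, 114, 6),
  (5, 7, 6, 540, 114, 6),
  (4, 6, 6, 510, 120, 6),
  (4, 6, 6, 510, 120, 6),
  (3, 5, 7, 460, 125, 6),
  (3, 5, 7, 460, 125, 6),
  (3, 5, 7, 460, 125, 6),
  (3, 5, 7, 460, 125, 6),
  (3, 5, 7, 460, 125, 6),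
  (2, 4, 8, 420, 140, 6),
  (2, 4, 8, 420, 140, 6),
  (2, 4, 8, 420, 140, 6),
  (2, 4, 8, 420, 140, 6),
  (2, 4, 8, 420, 140, 6),
  (2, 4, 8, 420, 140, 6),
  (2, 4, 8, 420, 140, 6),
  (2, 4, 8, 420, 140, 6),
  (2, 4, 8, 420, 140, 6),
  (2, 4, 8, 420, 140, 6),
  (2, 4, 8, 420, 140, 6),
  (2, 4, 8, 420, 140, 6),
  (2, 4, 8, 420, 140, 6),
  (2, 4, 8, 420, 140, 6),
  (2, 4, 8, 420, 140, 6),
  (2, 4, 8, 420, 140, 6),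
  (2, 4, 8, 420, 140, 6),
  (2, 4, 8, 420, 140, 6),
  (2, 4, 8, 420, 140, 6),
  (2, 4, 8, 420, 140, 6),
  (2, 4, 8, 420, 140, 6),
  (2, 4, 8, 420, 140, 6),
  (2, 4, 8, 420, 140, 6),
  (2, 4, 8, 420, 140, 6),
  (2, 4, 8, 420, 140, 6),
  (2, 4, 8, 420, 140, 6),
  (2, 4, 8, 420, 140, 6),
  (2, 4, 8, 420, 140, 6),
  (2, 4, 8, 420, 140, 6),
  (2, 4, 8, 420, 140, 6),
  (2, 4, 8, 420, 140, 6),
  (2, 4, 8, 420, 140, 6),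
  (2, 4, 8, 420, 140, 6),
  (2, 4, 8, 420, 140, 6),
  (2, 4, 8, 420, 140, 6),
  (1, 3, 10, 380, 150, 6),
  (1, 3, 10, 380, 150, 6),
  (1, 3, 10, 380, 150, 6),
  (1, 3, 10, 380, 150, 6),
  (1, 3, 10, 380, 150, 6),
  (1, 3, 10, 380, 150, 6),
  (1, 3, 10, 380, 150, 6),
  (1, 3, 10, 380, 150, 6),
  (1, 3, 10, 380, 150, 6),
  (1, 3, 10, 380, 150, 6),
  (1, 3, 10, 380, 150, 6),
  (2, 4, 8, 420, 140, 6),
  (1, 3, 10, 380, 150, 6),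
  (2, 4, 8, 420, 140, 6),
  (2, 4, 8, 420, 140, 6),
  (2, 4, 8, 420, 140, 6),
  (2, 4, 8, 420, 140, 6),
  (2, 4, 8, 420, 140, 6),
  (2, 4, 8, 420, 140, 6),
  (2, 4, 8, 420, 140, 6),
  (2, 4, 8, 420, 140, 6),
  (2, 4, 8, 420, 140, 6),
  (2, 4, 8, 420, 140, 6),
  (2, 4, 8, 420, 140, 6),
  (2, 4, 8, 420, 140, 6),
  (2, 4, 8, 420, 140, 6),
  (2, 4, 8, 420, 140, 6),
  (2, 4, 8, 420, 140, 6),
  (2, 4, 8, 420, 140, 6),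
  (2, 4, 8, 420, 140, 6),
  (2, 4, 8, 420, 140, 6),
  (2, 4, 8, 420, 140, 6),
  (2, 4, 8, 420, 140, 6),
  (2, 4, 8, 420, 140, 6),
  (2, 4, 8, 420, 140, 6),
  (2, 4, 8, 420, 140, 6),
  (2, 4, 8, 420, 140, 6),
  (2, 4, 8, 420, 140, 6),
  (2, 4, 8, 420, 140, 6),
  (2, 4, 8, 420, 140, 6),
  (2, 4, 8, 420, 140, 6),
  (2, 4, 8, 420, 140, 6),
  (2, 4, 8, 420, 140, 6),
  (2, 4, 8, 420, 140, 6),
  (2, 4, 8, 420, 140, 6),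
  (2, 4, 8, 420, 140, 6),
  (2, 4, 8, 420, 140, 6),
  (2, 4, 8, 420, 140, 6),
  (2, 4, 8, 420, 140, 6),
  (2, 4, 8, 420, 140, 6),
  (2, 4, 8, 420, 140, 6)]

theorem okS12 : rowS 10 60 tS10 tS12 cS12 12 = true := by decide +kernel

theorem smS12 : smallChk 10 tS12 = true := by decide +kernel

theorem lenS12 : cS12.length = 138 := by decide +kernel

end Pool.Agent.Lib.MP_22c8c7_co
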