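import Mathlib
import Pool.Agent.Lib.MP_22c8c7_co.TabS

/-! # Simple table, certificates of the row `n = 14` (generated) -/

set_option autoImplicit false
set_option linter.style.longLine false

namespace Pool.Agent.Lib.MP_22c8c7_co

/-- the certificates of the entries `N = 14, ..., 149` -/
def cS14 : List CertS := [
  (0, 0, 0, 360, 360, 7),
  (7, 0, 1, 0, 354, 8),
  (7, 0, 6, 0, 324, 8),
  (7, 0, 11, 0, 294, 8),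
  (7, 0, 16, 0, 264, 8),
  (7, 2, 11, 414, 228, 8),
  (7, 2, 13, 402, 204, 8),
  (1, 3, 10, 420, 180, 7),
  (2, 4, 9, 438, 159, 7),
  (2, 4, 9, 438, 159, 7),
  (3, 5, 8, 468, 148, 7),
  (12, 4, 7, 0, 137, 24),
  (7, 5, 8, 468, 148, 8),
  (3, 5, 8, 468, 148, 7),
  (3, 5, 8, 468, 148, 7),
  (8, 5, 8, 468, 148, 9),
  (3, 5, 8, 468, 148, 7),
  (7, 5, 8, 468, 148, 8),
  (3, 5, 8, 468, 148, 7),
  (4, 6, 7, 510, 137, 7),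
  (4, 6, 7, 510, 137, 7),
  (4, 6, 7, 510, 137, 7),
  (7, 6, 7, 510, 137, 8),
  (13, 5, 6, 0, 126, 36),
  (13, 5, 6, 0, 126, 36),
  (4, 6, 7, 510, 137, 7),
  (9, 6, 7, 510, 137, 10),
  (5, 7, 6, 564, 126, 7),
  (5, 7, 6, 564, 126, 7),
  (5, 7, 6, 564, 126, 7),
  (5, 7, 6, 564, 126, 7),
  (5, 7, 6, 564, 126, 7),
  (5, 7, 6, 564, 126, 7),
  (14, 6, 5, 0, 120, 48),
  (14, 6, 5, 0, 120, 48),
  (14, 6, 5, 0, 120, 48),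
  (14, 6, 5, 0, 120, 48),
  (14, 6, 5, 0, 120, 48),
  (14, 6, 5, 0, 120, 48),
  (5, 7, 6, 564, 126, 7),
  (5, 7, 6, 564, 126, 7),
  (5, 7, 6, 564, 126, 7),
  (5, 7, 6, 564, 126, 7),
  (6, 8, 5, 630, 120, 7),
  (6, 8, 5, 630, 120, 7),
  (15, 7, 5, 0, 115, 60),
  (15, 7, 5, 0, 115, 60),
  (15, 7, 5, 0, 115, 60),
  (15, 7, 5, 0, 115, 60),
  (7, 9, 5, 660, 115, 8),
  (6, 8, 5, 630, 120, 7),
  (6, 8, 5, 630, 120, 7),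
  (5, 7, 6, 564, 126, 7),
  (5, 7, 6, 564, 126, 7),
  (4, 6, 7, 510, 137, 7),
  (4, 6, 6, 540, 144, 7),
  (3, 5, 7, 492, 150, 7),
  (3, 5, 7, 492, 150, 7),
  (3, 5, 7, 492, 150, 7),
  (2, 4, 9, 438, 159, 7),
  (2, 4, 9, 438, 159, 7),
  (2, 4, 9, 438, 159, 7),
  (2, 4, 9, 438, 159, 7),
  (2, 4, 9, 438, 159, 7),
  (2, 4, 9, 438, 159, 7),
  (2, 4, 9, 438, 159, 7),
  (2, 4, 9, 438, 159, 7),
  (2, 4, 9, 438, 159, 7),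
  (2, 4, 9, 438, 159, 7),
  (2, 4, 8, 456, 168, 7),
  (2, 4, 8, 456, 168, 7),
  (2, 4, 8, 456, 168, 7),
  (2, 4, 8, 456, 168, 7),
  (2, 4, 8, 456, 168, 7),
  (2, 4, 8, 456, 168, 7),
  (2, 4, 8, 456, 168, 7),
  (2, 4, 8, 456, 168, 7),
  (2, 4, 8, 456, 168, 7),
  (2, 4, 8, 456, 168, 7),
  (2, 4, 8, 456, 168, 7),
  (2, 4, 8, 456, 168, 7),
  (2, 4, 8, 456, 168, 7),
  (2, 4, 8, 456, 168, 7),
  (2, 4, 8, 456, 168, 7),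
  (2, 4, 8, 456, 168, 7),
  (2, 4, 8, 456, 168, 7),
  (2, 4, 8, 456, 168, 7),
  (2, 4, 8, 456, 168, 7),
  (2, 4, 8, 456, 168, 7),
  (2, 4, 8, 456, 168, 7),
  (2, 4, 8, 456, 168, 7),
  (2, 4, 8, 456, 168, 7),
  (2, 4, 8, 456, 168, 7),
  (2, 4, 8, 456, 168, 7),
  (2, 4, 8, 456, 168, 7),
  (2, 4, 8, 456, 168, 7),
  (2, 4, 8, 456, 168, 7),
  (2, 4, 8, 456, 168, 7),
  (2, 4, 8, 456, 168, 7),
  (2, 4, 8, 456, 168, 7),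
  (2, 4, 8, 456, 168, 7),
  (2, 4, 8, 456, 168, 7),
  (2, 4, 8, 456, 168, 7),
  (2, 4, 8, 456, 168, 7),
  (2, 4, 8, 456, 168, 7),
  (2, 4, 8, 456, 168, 7),
  (2, 4, 8, 456, 168, 7),
  (2, 4, 8, 456, 168, 7),
  (2, 4, 8, 456, 168, 7),
  (2, 4, 8, 456, 168, 7),
  (2, 4, 8, 456, 168, 7),
  (2, 4, 8, 456, 168, 7),
  (2, 4, 8, 456, 168, 7),
  (2, 4, 8, 456, 168, 7),
  (2, 4, 8, 456, 168, 7),
  (2, 4, 8, 456, 168, 7),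
  (2, 4, 8, 456, 168, 7),
  (2, 4, 8, 456, 168, 7),
  (2, 4, 8, 456, 168, 7),
  (2, 4, 8, 456, 168, 7),
  (2, 4, 8, 456, 168, 7),
  (2, 4, 8, 456, 168, 7),
  (2, 4, 8, 456, 168, 7),
  (2, 4, 8, 456, 168, 7),
  (2, 4, 8, 456, 168, 7),
  (2, 4, 8, 456, 168, 7),
  (2, 4, 8, 456, 168, 7),
  (2, 4, 8, 456, 168, 7),
  (2, 4, 8, 456, 168, 7),
  (2, 4, 8, 456, 168, 7),
  (2, 4, 8, 456, 168, 7),
  (2, 4, 8, 456, 168, 7),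
  (2, 4, 8, 456, 168, 7),
  (2, 4, 8, 456, 168, 7),
  (2, 4, 8, 456, 168, 7),
  (2, 4, 8, 456, 168, 7)]

theorem okS14 : rowS 12 60 tS12 tS14 cS14 14 = true := by decide +kernel

theorem smS14 : smallChk 12 tS14 = true := by decide +kernel

theorem lenS14 : cS14.length = 136 := by decide +kernel

end Pool.Agent.Lib.MP_22c8c7_co
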