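import Mathlib
import Pool.Agent.Lib.MP_22c8c7_co.TabS

/-! # Simple table, certificates of the row `n = 16` (generated) -/

set_option autoImplicit false
set_option linter.style.longLine false

namespace Pool.Agent.Lib.MP_22c8c7_co

/-- the certificates of the entries `N = 16, ..., 149` -/
def cS16 : List CertS := [
  (0, 0, 0, 420, 420, 8),
  (8, 0, 1, 0, 413, 9),
  (8, 0, 5, 0, 385, 9),
  (8, 0, 9, 0, 357, 9),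
  (8, 0, 13, 0, 329, 9),
  (8, 0, 18, 0, 294, 9),
  (8, 2, 11, 463, 266, 9),
  (8, 2, 13, 449, 238, 9),
  (8, 3, 11, 463, 203, 9),
  (8, 4, 9, 477, 177, 9),
  (3, 5, 8, 496, 164, 8),
  (13, 4, 7, 0, 151, 14),
  (4, 6, 7, 535, 151, 8),
  (14, 5, 6, 0, 138, 28),
  (4, 6, 7, 535, 151, 8),
  (4, 6, 7, 535, 151, 8),
  (4, 6, 7, 535, 151, 8),
  (4, 6, 7, 535, 151, 8),
  (4, 6, 7, 535, 151, 8),
  (8, 6, 7, 535, 151, 9),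
  (4, 6, 7, 535, 151, 8),
  (8, 6, 7, 535, 151, 9),
  (4, 6, 7, 535, 151, 8),
  (8, 6, 7, 535, 151, 9),
  (5, 7, 6, 588, 138, 8),
  (5, 7, 6, 588, 138, 8),
  (5, 7, 6, 588, 138, 8),
  (8, 7, 6, 588, 138, 9),
  (5, 7, 6, 588, 138, 8),
  (5, 7, 6, 588, 138, 8),
  (5, 7, 6, 588, 138, 8),
  (10, 7, 6, 588, 138, 11),
  (5, 7, 6, 588, 138, 8),
  (5, 7, 6, 588, 138, 8),
  (9, 7, 6, 588, 138, 10),
  (5, 7, 6, 588, 138, 8),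
  (5, 7, 6, 588, 138, 8),
  (8, 7, 6, 588, 138, 9),
  (16, 7, 5, 0, 125, 56),
  (5, 7, 6, 588, 138, 8),
  (16, 7, 5, 0, 125, 56),
  (16, 7, 5, 0, 125, 56),
  (7, 9, 5, 680, 125, 8),
  (7, 9, 5, 680, 125, 8),
  (7, 9, 5, 680, 125, 8),
  (7, 9, 5, 680, 125, 8),
  (7, 9, 5, 680, 125, 8),
  (7, 9, 5, 680, 125, 8),
  (7, 9, 5, 680, 125, 8),
  (7, 9, 5, 680, 125, 8),
  (7, 9, 5, 680, 125, 8),
  (7, 9, 5, 680, 125, 8),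
  (7, 9, 5, 680, 125, 8),
  (8, 9, 5, 680, 125, 9),
  (9, 9, 5, 680, 125, 10),
  (10, 9, 5, 680, 125, 11),
  (7, 9, 5, 680, 125, 8),
  (7, 9, 5, 680, 125, 8),
  (5, 7, 6, 588, 138, 8),
  (5, 7, 6, 588, 138, 8),
  (4, 6, 7, 535, 151, 8),
  (4, 6, 7, 535, 151, 8),
  (4, 6, 7, 535, 151, 8),
  (3, 5, 8, 496, 164, 8),
  (3, 5, 8, 496, 164, 8),
  (3, 5, 7, 524, 175, 8),
  (2, 4, 9, 483, 177, 8),
  (2, 4, 9, 483, 177, 8),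
  (2, 4, 9, 483, 177, 8),
  (2, 4, 9, 483, 177, 8),
  (2, 4, 9, 483, 177, 8),
  (2, 4, 9, 483, 177, 8),
  (2, 4, 9, 483, 177, 8),
  (2, 4, 9, 483, 177, 8),
  (2, 4, 9, 483, 177, 8),
  (2, 4, 9, 483, 177, 8),
  (2, 4, 9, 483, 177, 8),
  (2, 4, 9, 483, 177, 8),
  (2, 4, 9, 483, 177, 8),
  (2, 4, 9, 483, 177, 8),
  (2, 4, 9, 483, 177, 8),
  (2, 4, 9, 483, 177, 8),
  (2, 4, 9, 483, 177, 8),
  (2, 4, 9, 483, 177, 8),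
  (2, 4, 9, 483, 177, 8),
  (2, 4, 9, 483, 177, 8),
  (2, 4, 9, 483, 177, 8),
  (2, 4, 8, 492, 196, 8),
  (2, 4, 8, 492, 196, 8),
  (2, 4, 8, 492, 196, 8),
  (2, 4, 8, 492, 196, 8),
  (2, 4, 8, 492, 196, 8),
  (2, 4, 8, 492, 196, 8),
  (2, 4, 8, 492, 196, 8),
  (2, 4, 8, 492, 196, 8),
  (2, 4, 8, 492, 196, 8),
  (2, 4, 8, 492, 196, 8),
  (2, 4, 8, 492, 196, 8),
  (2, 4, 8, 492, 196, 8),
  (2, 4, 8, 492, 196, 8),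
  (2, 4, 9, 483, 177, 8),
  (2, 4, 9, 483, 177, 8),
  (2, 4, 9, 483, 177, 8),
  (2, 4, 9, 483, 177, 8),
  (2, 4, 9, 483, 177, 8),
  (2, 4, 9, 483, 177, 8),
  (2, 4, 9, 483, 177, 8),
  (2, 4, 9, 483, 177, 8),
  (2, 4, 9, 483, 177, 8),
  (2, 4, 9, 483, 177, 8),
  (2, 4, 9, 483, 177, 8),
  (2, 4, 9, 483, 177, 8),
  (2, 4, 9, 483, 177, 8),
  (2, 4, 9, 483, 177, 8),
  (2, 4, 9, 483, 177, 8),
  (2, 4, 9, 483, 177, 8),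
  (2, 4, 9, 483, 177, 8),
  (2, 4, 9, 483, 177, 8),
  (2, 4, 9, 483, 177, 8),
  (2, 4, 9, 483, 177, 8),
  (2, 4, 9, 483, 177, 8),
  (2, 4, 9, 483, 177, 8),
  (2, 4, 9, 483, 177, 8),
  (2, 4, 9, 483, 177, 8),
  (2, 4, 9, 483, 177, 8),
  (2, 4, 9, 483, 177, 8),
  (2, 4, 9, 483, 177, 8),
  (2, 4, 9, 483, 177, 8),
  (2, 4, 8, 492, 196, 8),
  (2, 4, 8, 492, 196, 8),
  (2, 4, 8, 492, 196, 8),
  (2, 4, 8, 492, 196, 8),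
  (2, 4, 8, 492, 196, 8),
  (2, 4, 8, 492, 196, 8)]

theorem okS16 : rowS 14 60 tS14 tS16 cS16 16 = true := by decide +kernel

theorem smS16 : smallChk 14 tS16 = true := by decide +kernel

theorem lenS16 : cS16.length = 134 := by decide +kernel

end Pool.Agent.Lib.MP_22c8c7_co
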