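import Mathlib
import Pool.Agent.Lib.MP_22c8c7_co.TabS

/-! # Simple table, certificates of the row `n = 18` (generated) -/

set_option autoImplicit false
set_option linter.style.longLine false

namespace Pool.Agent.Lib.MP_22c8c7_co

/-- the certificates of the entries `N = 18, ..., 149` -/
def cS18 : List CertS := [
  (0, 0, 0, 480, 480, 9),
  (9, 0, 1, 0, 472, 10),
  (9, 0, 4, 0, 448, 10),
  (9, 0, 8, 0, 416, 10),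
  (9, 0, 12, 0, 384, 10),
  (9, 0, 16, 0, 352, 10),
  (9, 2, 10, 520, 320, 10),
  (9, 2, 12, 504, 288, 10),
  (9, 3, 9, 528, 264, 10),
  (9, 3, 11, 512, 225, 10),
  (9, 4, 9, 528, 195, 10),
  (3, 5, 8, 544, 180, 9),
  (4, 6, 7, 560, 165, 9),
  (15, 5, 6, 0, 150, 16),
  (15, 5, 6, 0, 150, 16),
  (17, 7, 5, 0, 135, 48),
  (5, 7, 6, 612, 150, 9),
  (10, 7, 6, 612, 150, 11),
  (5, 7, 6, 612, 150, 9),
  (5, 7, 6, 612, 150, 9),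
  (5, 7, 6, 612, 150, 9),
  (5, 7, 6, 612, 150, 9),
  (5, 7, 6, 612, 150, 9),
  (5, 7, 6, 612, 150, 9),
  (5, 7, 6, 612, 150, 9),
  (5, 7, 6, 612, 150, 9),
  (5, 7, 6, 612, 150, 9),
  (5, 7, 6, 612, 150, 9),
  (5, 7, 6, 612, 150, 9),
  (5, 7, 6, 612, 150, 9),
  (17, 7, 5, 0, 135, 48),
  (17, 7, 5, 0, 135, 48),
  (5, 7, 6, 612, 150, 9),
  (5, 7, 6, 612, 150, 9),
  (5, 7, 6, 612, 150, 9),
  (5, 7, 6, 612, 150, 9),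
  (7, 9, 5, 700, 135, 9),
  (7, 9, 5, 700, 135, 9),
  (7, 9, 5, 700, 135, 9),
  (7, 9, 5, 700, 135, 9),
  (7, 9, 5, 700, 135, 9),
  (10, 9, 5, 700, 135, 11),
  (7, 9, 5, 700, 135, 9),
  (7, 9, 5, 700, 135, 9),
  (7, 9, 5, 700, 135, 9),
  (10, 9, 5, 700, 135, 11),
  (19, 9, 4, 0, 128, 80),
  (19, 9, 4, 0, 128, 80),
  (19, 9, 4, 0, 128, 80),
  (10, 9, 5, 700, 135, 11),
  (7, 9, 5, 700, 135, 9),
  (7, 9, 5, 700, 135, 9),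
  (7, 9, 5, 700, 135, 9),
  (10, 9, 5, 700, 135, 11),
  (7, 9, 5, 700, 135, 9),
  (7, 9, 5, 700, 135, 9),
  (7, 9, 5, 700, 135, 9),
  (10, 9, 5, 700, 135, 11),
  (7, 9, 5, 700, 135, 9),
  (7, 9, 5, 700, 135, 9),
  (7, 9, 5, 700, 135, 9),
  (7, 9, 5, 700, 135, 9),
  (7, 9, 5, 700, 135, 9),
  (7, 9, 5, 700, 135, 9),
  (7, 9, 5, 700, 135, 9),
  (5, 7, 6, 612, 150, 9),
  (5, 7, 6, 612, 150, 9),
  (5, 7, 6, 612, 150, 9),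
  (4, 6, 7, 560, 165, 9),
  (4, 6, 7, 560, 165, 9),
  (3, 5, 8, 544, 180, 9),
  (3, 5, 8, 544, 180, 9),
  (3, 5, 8, 544, 180, 9),
  (2, 4, 9, 552, 195, 9),
  (2, 4, 9, 552, 195, 9),
  (2, 4, 9, 552, 195, 9),
  (2, 4, 9, 552, 195, 9),
  (2, 4, 9, 552, 195, 9),
  (2, 4, 9, 552, 195, 9),
  (2, 4, 9, 552, 195, 9),
  (2, 4, 9, 552, 195, 9),
  (2, 4, 9, 552, 195, 9),
  (2, 4, 9, 552, 195, 9),
  (2, 4, 9, 552, 195, 9),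
  (2, 4, 9, 552, 195, 9),
  (2, 4, 9, 552, 195, 9),
  (2, 4, 9, 552, 195, 9),
  (2, 4, 9, 552, 195, 9),
  (2, 4, 9, 552, 195, 9),
  (2, 4, 9, 552, 195, 9),
  (2, 4, 9, 552, 195, 9),
  (2, 4, 9, 552, 195, 9),
  (2, 4, 9, 552, 195, 9),
  (2, 4, 9, 552, 195, 9),
  (2, 4, 9, 552, 195, 9),
  (2, 4, 9, 552, 195, 9),
  (2, 4, 9, 552, 195, 9),
  (2, 4, 9, 552, 195, 9),
  (2, 4, 9, 552, 195, 9),
  (2, 4, 9, 552, 195, 9),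
  (2, 4, 9, 552, 195, 9),
  (2, 4, 9, 552, 195, 9),
  (2, 4, 9, 552, 195, 9),
  (2, 4, 9, 552, 195, 9),
  (2, 4, 9, 552, 195, 9),
  (2, 4, 9, 552, 195, 9),
  (2, 4, 9, 552, 195, 9),
  (2, 4, 9, 552, 195, 9),
  (2, 4, 9, 552, 195, 9),
  (2, 4, 9, 552, 195, 9),
  (2, 4, 9, 552, 195, 9),
  (2, 4, 9, 552, 195, 9),
  (2, 4, 9, 552, 195, 9),
  (2, 4, 9, 552, 195, 9),
  (2, 4, 9, 552, 195, 9),
  (2, 4, 9, 552, 195, 9),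
  (2, 4, 9, 552, 195, 9),
  (2, 4, 9, 552, 195, 9),
  (2, 4, 9, 552, 195, 9),
  (2, 4, 9, 552, 195, 9),
  (2, 4, 9, 552, 195, 9),
  (2, 4, 9, 552, 195, 9),
  (2, 4, 9, 552, 195, 9),
  (2, 4, 9, 552, 195, 9),
  (2, 4, 9, 552, 195, 9),
  (2, 4, 9, 552, 195, 9),
  (2, 4, 9, 552, 195, 9),
  (2, 4, 9, 552, 195, 9),
  (2, 4, 9, 552, 195, 9),
  (2, 4, 9, 552, 195, 9),
  (2, 4, 9, 552, 195, 9),
  (2, 4, 9, 552, 195, 9)]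

theorem okS18 : rowS 16 60 tS16 tS18 cS18 18 = true := by decide +kernel

theorem smS18 : smallChk 16 tS18 = true := by decide +kernel

theorem lenS18 : cS18.length = 132 := by decide +kernel

end Pool.Agent.Lib.MP_22c8c7_co
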