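import Mathlib
import Pool.Agent.Lib.MP_22c8c7_co.TabS

/-! # Simple table, certificates of the row `n = 20` (generated) -/

set_option autoImplicit false
set_option linter.style.longLine false

namespace Pool.Agent.Lib.MP_22c8c7_co

/-- the certificates of the entries `N = 20, ..., 149` -/
def cS20 : List CertS := [
  (0, 0, 0, 540, 540, 10),
  (10, 0, 1, 0, 531, 11),
  (10, 0, 4, 0, 504, 11),
  (10, 0, 7, 0, 477, 11),
  (10, 0, 11, 0, 441, 11),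
  (10, 0, 14, 0, 414, 11),
  (10, 0, 17, 0, 387, 11),
  (10, 2, 11, 561, 342, 11),
  (10, 2, 12, 552, 324, 11),
  (10, 2, 14, 534, 298, 11),
  (10, 3, 11, 561, 247, 11),
  (10, 4, 9, 579, 216, 11),
  (10, 5, 8, 588, 196, 11),
  (10, 6, 7, 597, 179, 11),
  (16, 5, 6, 0, 162, 17),
  (10, 7, 6, 636, 162, 11),
  (18, 7, 5, 0, 145, 36),
  (18, 7, 5, 0, 145, 36),
  (10, 7, 6, 636, 162, 11),
  (5, 7, 6, 636, 162, 10),
  (5, 7, 6, 636, 162, 10),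
  (5, 7, 6, 636, 162, 10),
  (5, 7, 6, 636, 162, 10),
  (5, 7, 6, 636, 162, 10),
  (5, 7, 6, 636, 162, 10),
  (10, 7, 6, 636, 162, 11),
  (5, 7, 6, 636, 162, 10),
  (5, 7, 6, 636, 162, 10),
  (5, 7, 6, 636, 162, 10),
  (5, 7, 6, 636, 162, 10),
  (5, 7, 6, 636, 162, 10),
  (5, 7, 6, 636, 162, 10),
  (7, 9, 5, 720, 145, 10),
  (7, 9, 5, 720, 145, 10),
  (7, 9, 5, 720, 145, 10),
  (7, 9, 5, 720, 145, 10),
  (11, 9, 5, 720, 145, 12),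
  (7, 9, 5, 720, 145, 10),
  (7, 9, 5, 720, 145, 10),
  (7, 9, 5, 720, 145, 10),
  (7, 9, 5, 720, 145, 10),
  (12, 9, 5, 720, 145, 13),
  (7, 9, 5, 720, 145, 10),
  (10, 9, 5, 720, 145, 11),
  (7, 9, 5, 720, 145, 10),
  (7, 9, 5, 720, 145, 10),
  (7, 9, 5, 720, 145, 10),
  (7, 9, 5, 720, 145, 10),
  (11, 9, 5, 720, 145, 12),
  (7, 9, 5, 720, 145, 10),
  (7, 9, 5, 720, 145, 10),
  (7, 9, 5, 720, 145, 10),
  (20, 9, 4, 0, 144, 72),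
  (21, 10, 4, 0, 128, 90),
  (20, 9, 4, 0, 144, 72),
  (10, 9, 5, 720, 145, 11),
  (7, 9, 5, 720, 145, 10),
  (7, 9, 5, 720, 145, 10),
  (7, 9, 5, 720, 145, 10),
  (7, 9, 5, 720, 145, 10),
  (11, 9, 5, 720, 145, 12),
  (7, 9, 5, 720, 145, 10),
  (9, 11, 4, 840, 144, 10),
  (9, 11, 4, 840, 144, 10),
  (9, 11, 4, 840, 144, 10),
  (9, 11, 4, 840, 144, 10),
  (9, 11, 4, 840, 144, 10),
  (7, 9, 5, 720, 145, 10),
  (7, 9, 5, 720, 145, 10),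
  (7, 9, 5, 720, 145, 10),
  (7, 9, 5, 720, 145, 10),
  (7, 9, 5, 720, 145, 10),
  (5, 7, 6, 636, 162, 10),
  (5, 7, 6, 636, 162, 10),
  (5, 7, 6, 636, 162, 10),
  (4, 6, 7, 603, 179, 10),
  (4, 6, 7, 603, 179, 10),
  (4, 6, 7, 603, 179, 10),
  (3, 5, 8, 612, 196, 10),
  (3, 5, 8, 612, 196, 10),
  (3, 5, 8, 612, 196, 10),
  (3, 5, 8, 612, 196, 10),
  (2, 4, 9, 621, 216, 10),
  (2, 4, 9, 621, 216, 10),
  (2, 4, 9, 621, 216, 10),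
  (2, 4, 9, 621, 216, 10),
  (2, 4, 9, 621, 216, 10),
  (2, 4, 9, 621, 216, 10),
  (2, 4, 9, 621, 216, 10),
  (2, 4, 9, 621, 216, 10),
  (2, 4, 9, 621, 216, 10),
  (2, 4, 9, 621, 216, 10),
  (2, 4, 9, 621, 216, 10),
  (2, 4, 9, 621, 216, 10),
  (2, 4, 9, 621, 216, 10),
  (2, 4, 9, 621, 216, 10),
  (2, 4, 9, 621, 216, 10),
  (2, 4, 9, 621, 216, 10),
  (2, 4, 9, 621, 216, 10),
  (2, 4, 9, 621, 216, 10),
  (2, 4, 9, 621, 216, 10),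
  (2, 4, 9, 621, 216, 10),
  (2, 4, 9, 621, 216, 10),
  (2, 4, 9, 621, 216, 10),
  (2, 4, 9, 621, 216, 10),
  (2, 4, 9, 621, 216, 10),
  (2, 4, 9, 621, 216, 10),
  (2, 4, 9, 621, 216, 10),
  (2, 4, 9, 621, 216, 10),
  (2, 4, 9, 621, 216, 10),
  (2, 4, 9, 621, 216, 10),
  (2, 4, 9, 621, 216, 10),
  (2, 4, 9, 621, 216, 10),
  (2, 4, 9, 621, 216, 10),
  (2, 4, 9, 621, 216, 10),
  (2, 4, 9, 621, 216, 10),
  (2, 4, 9, 621, 216, 10),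
  (2, 4, 9, 621, 216, 10),
  (2, 4, 9, 621, 216, 10),
  (2, 4, 9, 621, 216, 10),
  (2, 4, 9, 621, 216, 10),
  (2, 4, 9, 621, 216, 10),
  (2, 4, 9, 621, 216, 10),
  (2, 4, 9, 621, 216, 10),
  (2, 4, 9, 621, 216, 10),
  (2, 4, 9, 621, 216, 10),
  (2, 4, 9, 621, 216, 10),
  (2, 4, 9, 621, 216, 10),
  (2, 4, 9, 621, 216, 10),
  (2, 4, 9, 621, 216, 10)]

theorem okS20 : rowS 18 60 tS18 tS20 cS20 20 = true := by decide +kernel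

theorem smS20 : smallChk 18 tS20 = true := by decide +kernel

theorem lenS20 : cS20.length = 130 := by decide +kernel

end Pool.Agent.Lib.MP_22c8c7_co
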