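import Mathlib
import Pool.Agent.Lib.MP_22c8c7_co.TabS

/-! # Simple table, certificates of the row `n = 22` (generated) -/

set_option autoImplicit false
set_option linter.style.longLine false

namespace Pool.Agent.Lib.MP_22c8c7_co

/-- the certificates of the entries `N = 22, ..., 149` -/
def cS22 : List CertS := [
  (0, 0, 0, 600, 600, 11),
  (11, 0, 1, 0, 590, 12),
  (11, 0, 4, 0, 560, 12),
  (11, 0, 7, 0, 530, 12),
  (11, 0, 10, 0, 500, 12),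
  (11, 0, 13, 0, 470, 12),
  (11, 0, 16, 0, 440, 12),
  (11, 2, 10, 620, 400, 12),
  (11, 2, 11, 610, 380, 12),
  (11, 2, 13, 590, 340, 12),
  (11, 2, 14, 580, 326, 12),
  (11, 3, 11, 610, 270, 12),
  (11, 4, 9, 630, 240, 12),
  (11, 5, 8, 640, 212, 12),
  (11, 6, 7, 650, 193, 12),
  (5, 7, 6, 660, 180, 11),
  (6, 8, 6, 660, 174, 11),
  (19, 7, 5, 0, 155, 20),
  (19, 7, 5, 0, 155, 20),
  (7, 9, 5, 740, 155, 11),
  (7, 9, 5, 740, 155, 11),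
  (12, 9, 5, 740, 155, 13),
  (7, 9, 5, 740, 155, 11),
  (7, 9, 5, 740, 155, 11),
  (12, 9, 5, 740, 155, 13),
  (7, 9, 5, 740, 155, 11),
  (7, 9, 5, 740, 155, 11),
  (12, 9, 5, 740, 155, 13),
  (7, 9, 5, 740, 155, 11),
  (7, 9, 5, 740, 155, 11),
  (7, 9, 5, 740, 155, 11),
  (7, 9, 5, 740, 155, 11),
  (11, 9, 5, 740, 155, 12),
  (7, 9, 5, 740, 155, 11),
  (7, 9, 5, 740, 155, 11),
  (7, 9, 5, 740, 155, 11),
  (7, 9, 5, 740, 155, 11),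
  (7, 9, 5, 740, 155, 11),
  (7, 9, 5, 740, 155, 11),
  (22, 10, 4, 0, 136, 80),
  (7, 9, 5, 740, 155, 11),
  (7, 9, 5, 740, 155, 11),
  (7, 9, 5, 740, 155, 11),
  (7, 9, 5, 740, 155, 11),
  (11, 9, 5, 740, 155, 12),
  (7, 9, 5, 740, 155, 11),
  (7, 9, 5, 740, 155, 11),
  (7, 9, 5, 740, 155, 11),
  (7, 9, 5, 740, 155, 11),
  (7, 9, 5, 740, 155, 11),
  (7, 9, 5, 740, 155, 11),
  (12, 9, 5, 740, 155, 13),
  (7, 9, 5, 740, 155, 11),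
  (7, 9, 5, 740, 155, 11),
  (7, 9, 5, 740, 155, 11),
  (7, 9, 5, 740, 155, 11),
  (22, 10, 4, 0, 136, 80),
  (22, 10, 4, 0, 136, 80),
  (22, 10, 4, 0, 136, 80),
  (10, 12, 4, 880, 136, 11),
  (10, 12, 4, 880, 136, 11),
  (10, 12, 4, 880, 136, 11),
  (10, 12, 4, 880, 136, 11),
  (10, 12, 4, 880, 136, 11),
  (10, 12, 4, 880, 136, 11),
  (14, 12, 4, 880, 136, 15),
  (10, 12, 4, 880, 136, 11),
  (10, 12, 4, 880, 136, 11),
  (11, 12, 4, 880, 136, 12),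
  (15, 12, 4, 880, 136, 16),
  (10, 12, 4, 880, 136, 11),
  (10, 12, 4, 880, 136, 11),
  (10, 12, 4, 880, 136, 11),
  (7, 9, 5, 740, 155, 11),
  (7, 9, 5, 740, 155, 11),
  (7, 9, 5, 740, 155, 11),
  (7, 9, 5, 740, 155, 11),
  (7, 9, 5, 740, 155, 11),
  (6, 8, 6, 660, 174, 11),
  (6, 8, 6, 660, 174, 11),
  (5, 7, 6, 660, 180, 11),
  (4, 6, 7, 670, 193, 11),
  (4, 6, 7, 670, 193, 11),
  (4, 6, 7, 670, 193, 11),
  (3, 5, 8, 680, 212, 11),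
  (3, 5, 8, 680, 212, 11),
  (3, 5, 8, 680, 212, 11),
  (3, 5, 8, 680, 212, 11),
  (2, 4, 9, 690, 240, 11),
  (2, 4, 9, 690, 240, 11),
  (2, 4, 9, 690, 240, 11),
  (2, 4, 9, 690, 240, 11),
  (2, 4, 9, 690, 240, 11),
  (2, 4, 9, 690, 240, 11),
  (2, 4, 9, 690, 240, 11),
  (2, 4, 9, 690, 240, 11),
  (2, 4, 9, 690, 240, 11),
  (2, 4, 9, 690, 240, 11),
  (2, 4, 9, 690, 240, 11),
  (2, 4, 9, 690, 240, 11),
  (2, 4, 9, 690, 240, 11),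
  (2, 4, 9, 690, 240, 11),
  (2, 4, 9, 690, 240, 11),
  (2, 4, 9, 690, 240, 11),
  (2, 4, 9, 690, 240, 11),
  (2, 4, 9, 690, 240, 11),
  (2, 4, 9, 690, 240, 11),
  (2, 4, 9, 690, 240, 11),
  (2, 4, 9, 690, 240, 11),
  (2, 4, 9, 690, 240, 11),
  (2, 4, 9, 690, 240, 11),
  (2, 4, 9, 690, 240, 11),
  (2, 4, 9, 690, 240, 11),
  (2, 4, 9, 690, 240, 11),
  (2, 4, 9, 690, 240, 11),
  (2, 4, 9, 690, 240, 11),
  (2, 4, 9, 690, 240, 11),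
  (2, 4, 9, 690, 240, 11),
  (2, 4, 9, 690, 240, 11),
  (2, 4, 9, 690, 240, 11),
  (2, 4, 9, 690, 240, 11),
  (2, 4, 9, 690, 240, 11),
  (2, 4, 9, 690, 240, 11),
  (2, 4, 9, 690, 240, 11),
  (2, 4, 9, 690, 240, 11),
  (2, 4, 9, 690, 240, 11),
  (2, 4, 9, 690, 240, 11),
  (2, 4, 9, 690, 240, 11)]

theorem okS22 : rowS 20 60 tS20 tS22 cS22 22 = true := by decide +kernel

theorem smS22 : smallChk 20 tS22 = true := by decide +kernel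

theorem lenS22 : cS22.length = 128 := by decide +kernel

end Pool.Agent.Lib.MP_22c8c7_co
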