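import Mathlib
import Pool.Agent.Lib.MP_22c8c7_co.TabS

/-! # Simple table, certificates of the row `n = 24` (generated) -/

set_option autoImplicit false
set_option linter.style.longLine false

namespace Pool.Agent.Lib.MP_22c8c7_co

/-- the certificates of the entries `N = 24, ..., 149` -/
def cS24 : List CertS := [
  (0, 0, 0, 660, 660, 12),
  (12, 0, 1, 0, 649, 13),
  (12, 0, 3, 0, 627, 13),
  (12, 0, 6, 0, 594, 13),
  (12, 0, 9, 0, 561, 13),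
  (12, 0, 11, 0, 539, 13),
  (12, 0, 14, 0, 506, 13),
  (12, 0, 17, 0, 473, 13),
  (12, 2, 10, 670, 440, 13),
  (12, 2, 11, 659, 418, 13),
  (12, 2, 13, 637, 374, 13),
  (12, 2, 14, 626, 354, 13),
  (12, 3, 11, 659, 297, 13),
  (12, 3, 11, 659, 297, 13),
  (12, 4, 9, 681, 264, 13),
  (12, 5, 8, 692, 228, 13),
  (12, 6, 7, 703, 207, 13),
  (6, 8, 6, 726, 186, 12),
  (20, 7, 5, 0, 165, 21),
  (7, 9, 5, 760, 165, 12),
  (23, 10, 4, 0, 144, 66),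
  (23, 10, 4, 0, 144, 66),
  (12, 9, 5, 760, 165, 13),
  (7, 9, 5, 760, 165, 12),
  (7, 9, 5, 760, 165, 12),
  (12, 9, 5, 760, 165, 13),
  (7, 9, 5, 760, 165, 12),
  (7, 9, 5, 760, 165, 12),
  (7, 9, 5, 760, 165, 12),
  (7, 9, 5, 760, 165, 12),
  (7, 9, 5, 760, 165, 12),
  (7, 9, 5, 760, 165, 12),
  (7, 9, 5, 760, 165, 12),
  (7, 9, 5, 760, 165, 12),
  (7, 9, 5, 760, 165, 12),
  (7, 9, 5, 760, 165, 12),
  (7, 9, 5, 760, 165, 12),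
  (7, 9, 5, 760, 165, 12),
  (7, 9, 5, 760, 165, 12),
  (7, 9, 5, 760, 165, 12),
  (7, 9, 5, 760, 165, 12),
  (7, 9, 5, 760, 165, 12),
  (23, 10, 4, 0, 144, 66),
  (23, 10, 4, 0, 144, 66),
  (7, 9, 5, 760, 165, 12),
  (7, 9, 5, 760, 165, 12),
  (10, 12, 4, 896, 144, 12),
  (7, 9, 5, 760, 165, 12),
  (10, 12, 4, 896, 144, 12),
  (10, 12, 4, 896, 144, 12),
  (10, 12, 4, 896, 144, 12),
  (10, 12, 4, 896, 144, 12),
  (10, 12, 4, 896, 144, 12),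
  (10, 12, 4, 896, 144, 12),
  (10, 12, 4, 896, 144, 12),
  (10, 12, 4, 896, 144, 12),
  (10, 12, 4, 896, 144, 12),
  (10, 12, 4, 896, 144, 12),
  (10, 12, 4, 896, 144, 12),
  (10, 12, 4, 896, 144, 12),
  (13, 12, 4, 896, 144, 14),
  (10, 12, 4, 896, 144, 12),
  (10, 12, 4, 896, 144, 12),
  (10, 12, 4, 896, 144, 12),
  (10, 12, 4, 896, 144, 12),
  (13, 12, 4, 896, 144, 14),
  (10, 12, 4, 896, 144, 12),
  (10, 12, 4, 896, 144, 12),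
  (10, 12, 4, 896, 144, 12),
  (10, 12, 4, 896, 144, 12),
  (13, 12, 4, 896, 144, 14),
  (10, 12, 4, 896, 144, 12),
  (10, 12, 4, 896, 144, 12),
  (10, 12, 4, 896, 144, 12),
  (10, 12, 4, 896, 144, 12),
  (13, 12, 4, 896, 144, 14),
  (10, 12, 4, 896, 144, 12),
  (10, 12, 4, 896, 144, 12),
  (10, 12, 4, 896, 144, 12),
  (7, 9, 5, 760, 165, 12),
  (7, 9, 5, 760, 165, 12),
  (7, 9, 5, 760, 165, 12),
  (6, 8, 6, 726, 186, 12),
  (6, 8, 6, 726, 186, 12),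
  (6, 8, 6, 726, 186, 12),
  (5, 7, 6, 726, 198, 12),
  (5, 7, 6, 726, 198, 12),
  (5, 7, 6, 726, 198, 12),
  (5, 7, 6, 726, 198, 12),
  (4, 6, 7, 737, 207, 12),
  (4, 6, 7, 737, 207, 12),
  (4, 6, 7, 737, 207, 12),
  (3, 5, 8, 748, 228, 12),
  (3, 5, 8, 748, 228, 12),
  (3, 5, 8, 748, 228, 12),
  (3, 5, 8, 748, 228, 12),
  (3, 5, 8, 748, 228, 12),
  (3, 5, 8, 748, 228, 12),
  (2, 4, 9, 759, 264, 12),
  (2, 4, 9, 759, 264, 12),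
  (2, 4, 9, 759, 264, 12),
  (2, 4, 9, 759, 264, 12),
  (2, 4, 9, 759, 264, 12),
  (2, 4, 9, 759, 264, 12),
  (2, 4, 9, 759, 264, 12),
  (2, 4, 9, 759, 264, 12),
  (2, 4, 9, 759, 264, 12),
  (2, 4, 9, 759, 264, 12),
  (2, 4, 9, 759, 264, 12),
  (2, 4, 9, 759, 264, 12),
  (2, 4, 9, 759, 264, 12),
  (2, 4, 9, 759, 264, 12),
  (2, 4, 9, 759, 264, 12),
  (2, 4, 9, 759, 264, 12),
  (2, 4, 9, 759, 264, 12),
  (2, 4, 9, 759, 264, 12),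
  (2, 4, 9, 759, 264, 12),
  (2, 4, 9, 759, 264, 12),
  (2, 4, 9, 759, 264, 12),
  (2, 4, 9, 759, 264, 12),
  (2, 4, 9, 759, 264, 12),
  (2, 4, 9, 759, 264, 12),
  (2, 4, 9, 759, 264, 12),
  (2, 4, 9, 759, 264, 12),
  (2, 4, 9, 759, 264, 12),
  (2, 4, 9, 759, 264, 12)]

theorem okS24 : rowS 22 60 tS22 tS24 cS24 24 = true := by decide +kernel

theorem smS24 : smallChk 22 tS24 = true := by decide +kernel

theorem lenS24 : cS24.length = 126 := by decide +kernel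

end Pool.Agent.Lib.MP_22c8c7_co
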