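import Mathlib
import Pool.Agent.Lib.MP_22c8c7_co.TabS

/-! # Simple table, certificates of the row `n = 26` (generated) -/

set_option autoImplicit false
set_option linter.style.longLine false

namespace Pool.Agent.Lib.MP_22c8c7_co

/-- the certificates of the entries `N = 26, ..., 149` -/
def cS26 : List CertS := [
  (0, 0, 0, 720, 720, 13),
  (13, 0, 1, 0, 708, 14),
  (13, 0, 3, 0, 684, 14),
  (13, 0, 6, 0, 648, 14),
  (13, 0, 8, 0, 624, 14),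
  (13, 0, 11, 0, 588, 14),
  (13, 0, 13, 0, 564, 14),
  (13, 0, 16, 0, 528, 14),
  (13, 0, 18, 0, 504, 14),
  (13, 2, 11, 708, 456, 14),
  (13, 2, 12, 696, 432, 14),
  (13, 2, 13, 684, 408, 14),
  (13, 2, 14, 672, 384, 14),
  (13, 3, 11, 708, 324, 14),
  (13, 3, 11, 708, 324, 14),
  (13, 4, 9, 732, 288, 14),
  (13, 5, 8, 744, 244, 14),
  (13, 6, 7, 756, 221, 14),
  (13, 8, 6, 768, 198, 14),
  (7, 9, 5, 780, 180, 13),
  (8, 10, 5, 780, 175, 13),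
  (24, 10, 4, 0, 152, 48),
  (24, 10, 4, 0, 152, 48),
  (24, 10, 4, 0, 152, 48),
  (8, 10, 5, 780, 175, 13),
  (8, 10, 5, 780, 175, 13),
  (8, 10, 5, 780, 175, 13),
  (8, 10, 5, 780, 175, 13),
  (8, 10, 5, 780, 175, 13),
  (8, 10, 5, 780, 175, 13),
  (8, 10, 5, 780, 175, 13),
  (8, 10, 5, 780, 175, 13),
  (8, 10, 5, 780, 175, 13),
  (8, 10, 5, 780, 175, 13),
  (8, 10, 5, 780, 175, 13),
  (8, 10, 5, 780, 175, 13),
  (8, 10, 5, 780, 175, 13),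
  (8, 10, 5, 780, 175, 13),
  (8, 10, 5, 780, 175, 13),
  (8, 10, 5, 780, 175, 13),
  (8, 10, 5, 780, 175, 13),
  (8, 10, 5, 780, 175, 13),
  (8, 10, 5, 780, 175, 13),
  (8, 10, 5, 780, 175, 13),
  (10, 12, 4, 912, 152, 13),
  (10, 12, 4, 912, 152, 13),
  (10, 12, 4, 912, 152, 13),
  (10, 12, 4, 912, 152, 13),
  (10, 12, 4, 912, 152, 13),
  (10, 12, 4, 912, 152, 13),
  (10, 12, 4, 912, 152, 13),
  (10, 12, 4, 912, 152, 13),
  (13, 12, 4, 912, 152, 14),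
  (10, 12, 4, 912, 152, 13),
  (14, 12, 4, 912, 152, 15),
  (10, 12, 4, 912, 152, 13),
  (15, 12, 4, 912, 152, 16),
  (10, 12, 4, 912, 152, 13),
  (10, 12, 4, 912, 152, 13),
  (10, 12, 4, 912, 152, 13),
  (10, 12, 4, 912, 152, 13),
  (10, 12, 4, 912, 152, 13),
  (10, 12, 4, 912, 152, 13),
  (10, 12, 4, 912, 152, 13),
  (10, 12, 4, 912, 152, 13),
  (10, 12, 4, 912, 152, 13),
  (10, 12, 4, 912, 152, 13),
  (13, 12, 4, 912, 152, 14),
  (10, 12, 4, 912, 152, 13),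
  (14, 12, 4, 912, 152, 15),
  (28, 14, 3, 0, 144, 144),
  (28, 14, 3, 0, 144, 144),
  (10, 12, 4, 912, 152, 13),
  (10, 12, 4, 912, 152, 13),
  (10, 12, 4, 912, 152, 13),
  (10, 12, 4, 912, 152, 13),
  (10, 12, 4, 912, 152, 13),
  (10, 12, 4, 912, 152, 13),
  (10, 12, 4, 912, 152, 13),
  (10, 12, 4, 912, 152, 13),
  (10, 12, 4, 912, 152, 13),
  (10, 12, 4, 912, 152, 13),
  (13, 12, 4, 912, 152, 14),
  (10, 12, 4, 912, 152, 13),
  (10, 12, 4, 912, 152, 13),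
  (10, 12, 4, 912, 152, 13),
  (10, 12, 4, 912, 152, 13),
  (7, 9, 5, 780, 180, 13),
  (7, 9, 5, 780, 180, 13),
  (7, 9, 5, 780, 180, 13),
  (6, 8, 6, 792, 198, 13),
  (6, 8, 6, 792, 198, 13),
  (6, 8, 6, 792, 198, 13),
  (5, 7, 6, 792, 216, 13),
  (5, 7, 6, 792, 216, 13),
  (5, 7, 6, 792, 216, 13),
  (5, 7, 6, 792, 216, 13),
  (4, 6, 7, 804, 221, 13),
  (4, 6, 7, 804, 221, 13),
  (4, 6, 7, 804, 221, 13),
  (3, 5, 8, 816, 244, 13),
  (3, 5, 8, 816, 244, 13),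
  (3, 5, 8, 816, 244, 13),
  (3, 5, 8, 816, 244, 13),
  (3, 5, 8, 816, 244, 13),
  (3, 5, 8, 816, 244, 13),
  (3, 5, 8, 816, 244, 13),
  (3, 5, 8, 816, 244, 13),
  (3, 5, 8, 816, 244, 13),
  (3, 5, 8, 816, 244, 13),
  (3, 5, 8, 816, 244, 13),
  (3, 5, 8, 816, 244, 13),
  (3, 5, 8, 816, 244, 13),
  (3, 5, 8, 816, 244, 13),
  (3, 5, 8, 816, 244, 13),
  (3, 5, 8, 816, 244, 13),
  (3, 5, 8, 816, 244, 13),
  (3, 5, 8, 816, 244, 13),
  (2, 4, 9, 828, 288, 13),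
  (2, 4, 9, 828, 288, 13),
  (2, 4, 9, 828, 288, 13),
  (2, 4, 9, 828, 288, 13),
  (2, 4, 9, 828, 288, 13),
  (2, 4, 9, 828, 288, 13)]

theorem okS26 : rowS 24 60 tS24 tS26 cS26 26 = true := by decide +kernel

theorem smS26 : smallChk 24 tS26 = true := by decide +kernel

theorem lenS26 : cS26.length = 124 := by decide +kernel

end Pool.Agent.Lib.MP_22c8c7_co
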