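import Mathlib
import Pool.Agent.Lib.MP_22c8c7_co.TabS

/-! # Simple table, certificates of the row `n = 28` (generated) -/

set_option autoImplicit false
set_option linter.style.longLine false

namespace Pool.Agent.Lib.MP_22c8c7_co

/-- the certificates of the entries `N = 28, ..., 149` -/
def cS28 : List CertS := [
  (0, 0, 0, 780, 780, 14),
  (14, 0, 1, 0, 767, 15),
  (14, 0, 3, 0, 741, 15),
  (14, 0, 5, 0, 715, 15),
  (14, 0, 7, 0, 689, 15),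
  (14, 0, 10, 0, 650, 15),
  (14, 0, 12, 0, 624, 15),
  (14, 0, 14, 0, 598, 15),
  (14, 0, 17, 0, 559, 15),
  (14, 0, 19, 0, 535, 15),
  (14, 2, 11, 757, 494, 15),
  (14, 2, 12, 744, 468, 15),
  (14, 2, 13, 731, 442, 15),
  (14, 2, 14, 718, 416, 15),
  (14, 3, 11, 757, 351, 15),
  (14, 3, 11, 757, 351, 15),
  (14, 4, 9, 783, 312, 15),
  (14, 5, 8, 796, 260, 15),
  (14, 5, 8, 796, 260, 15),
  (14, 6, 7, 809, 235, 15),
  (14, 9, 5, 835, 195, 15),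
  (8, 10, 5, 845, 185, 14),
  (25, 10, 4, 0, 160, 26),
  (25, 10, 4, 0, 160, 26),
  (25, 10, 4, 0, 160, 26),
  (10, 12, 4, 928, 160, 14),
  (10, 12, 4, 928, 160, 14),
  (15, 12, 4, 928, 160, 16),
  (10, 12, 4, 928, 160, 14),
  (14, 12, 4, 928, 160, 15),
  (10, 12, 4, 928, 160, 14),
  (10, 12, 4, 928, 160, 14),
  (10, 12, 4, 928, 160, 14),
  (10, 12, 4, 928, 160, 14),
  (10, 12, 4, 928, 160, 14),
  (10, 12, 4, 928, 160, 14),
  (10, 12, 4, 928, 160, 14),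
  (10, 12, 4, 928, 160, 14),
  (10, 12, 4, 928, 160, 14),
  (10, 12, 4, 928, 160, 14),
  (10, 12, 4, 928, 160, 14),
  (10, 12, 4, 928, 160, 14),
  (10, 12, 4, 928, 160, 14),
  (10, 12, 4, 928, 160, 14),
  (10, 12, 4, 928, 160, 14),
  (10, 12, 4, 928, 160, 14),
  (10, 12, 4, 928, 160, 14),
  (10, 12, 4, 928, 160, 14),
  (10, 12, 4, 928, 160, 14),
  (10, 12, 4, 928, 160, 14),
  (10, 12, 4, 928, 160, 14),
  (10, 12, 4, 928, 160, 14),
  (10, 12, 4, 928, 160, 14),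
  (10, 12, 4, 928, 160, 14),
  (10, 12, 4, 928, 160, 14),
  (10, 12, 4, 928, 160, 14),
  (10, 12, 4, 928, 160, 14),
  (10, 12, 4, 928, 160, 14),
  (10, 12, 4, 928, 160, 14),
  (10, 12, 4, 928, 160, 14),
  (10, 12, 4, 928, 160, 14),
  (10, 12, 4, 928, 160, 14),
  (10, 12, 4, 928, 160, 14),
  (10, 12, 4, 928, 160, 14),
  (10, 12, 4, 928, 160, 14),
  (10, 12, 4, 928, 160, 14),
  (10, 12, 4, 928, 160, 14),
  (10, 12, 4, 928, 160, 14),
  (10, 12, 4, 928, 160, 14),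
  (10, 12, 4, 928, 160, 14),
  (10, 12, 4, 928, 160, 14),
  (10, 12, 4, 928, 160, 14),
  (10, 12, 4, 928, 160, 14),
  (10, 12, 4, 928, 160, 14),
  (29, 14, 3, 0, 156, 130),
  (29, 14, 3, 0, 156, 130),
  (29, 14, 3, 0, 156, 130),
  (29, 14, 3, 0, 156, 130),
  (10, 12, 4, 928, 160, 14),
  (10, 12, 4, 928, 160, 14),
  (10, 12, 4, 928, 160, 14),
  (10, 12, 4, 928, 160, 14),
  (10, 12, 4, 928, 160, 14),
  (10, 12, 4, 928, 160, 14),
  (10, 12, 4, 928, 160, 14),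
  (10, 12, 4, 928, 160, 14),
  (10, 12, 4, 928, 160, 14),
  (10, 12, 4, 928, 160, 14),
  (10, 12, 4, 928, 160, 14),
  (10, 12, 4, 928, 160, 14),
  (10, 12, 4, 928, 160, 14),
  (10, 12, 4, 928, 160, 14),
  (10, 12, 4, 928, 160, 14),
  (8, 10, 5, 845, 185, 14),
  (8, 10, 5, 845, 185, 14),
  (7, 9, 5, 845, 195, 14),
  (7, 9, 5, 845, 195, 14),
  (6, 8, 6, 858, 210, 14),
  (6, 8, 6, 858, 210, 14),
  (6, 8, 6, 858, 210, 14),
  (6, 8, 6, 858, 210, 14),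
  (6, 8, 6, 858, 210, 14),
  (6, 8, 6, 858, 210, 14),
  (6, 8, 6, 858, 210, 14),
  (6, 8, 6, 858, 210, 14),
  (4, 6, 7, 871, 235, 14),
  (4, 6, 7, 871, 235, 14),
  (4, 6, 7, 871, 235, 14),
  (4, 6, 7, 871, 235, 14),
  (3, 5, 8, 884, 260, 14),
  (3, 5, 8, 884, 260, 14),
  (3, 5, 8, 884, 260, 14),
  (3, 5, 8, 884, 260, 14),
  (3, 5, 8, 884, 260, 14),
  (3, 5, 8, 884, 260, 14),
  (3, 5, 8, 884, 260, 14),
  (3, 5, 8, 884, 260, 14),
  (3, 5, 8, 884, 260, 14),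
  (3, 5, 8, 884, 260, 14),
  (3, 5, 8, 884, 260, 14),
  (3, 5, 8, 884, 260, 14),
  (3, 5, 8, 884, 260, 14)]

theorem okS28 : rowS 26 60 tS26 tS28 cS28 28 = true := by decide +kernel

theorem smS28 : smallChk 26 tS28 = true := by decide +kernel

theorem lenS28 : cS28.length = 122 := by decide +kernel

end Pool.Agent.Lib.MP_22c8c7_co
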