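import Mathlib
import Pool.Agent.Lib.MP_22c8c7_co.TabS

/-! # Simple table, certificates of the row `n = 30` (generated) -/

set_option autoImplicit false
set_option linter.style.longLine false

namespace Pool.Agent.Lib.MP_22c8c7_co

/-- the certificates of the entries `N = 30, ..., 149` -/
def cS30 : List CertS := [
  (0, 0, 0, 840, 840, 15),
  (15, 0, 1, 0, 826, 16),
  (15, 0, 3, 0, 798, 16),
  (15, 0, 5, 0, 770, 16),
  (15, 0, 7, 0, 742, 16),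
  (15, 0, 9, 0, 714, 16),
  (15, 0, 11, 0, 686, 16),
  (15, 0, 13, 0, 658, 16),
  (15, 0, 16, 0, 616, 16),
  (15, 0, 18, 0, 588, 16),
  (15, 2, 10, 820, 560, 16),
  (15, 2, 11, 806, 532, 16),
  (15, 2, 12, 792, 504, 16),
  (15, 2, 13, 778, 476, 16),
  (15, 2, 14, 764, 448, 16),
  (15, 3, 11, 806, 378, 16),
  (15, 3, 11, 806, 378, 16),
  (15, 4, 9, 834, 336, 16),
  (15, 5, 8, 848, 280, 16),
  (15, 5, 8, 848, 280, 16),
  (15, 6, 7, 862, 252, 16),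
  (15, 8, 6, 876, 222, 16),
  (15, 10, 5, 890, 195, 16),
  (8, 10, 5, 910, 195, 15),
  (26, 10, 4, 0, 168, 27),
  (10, 12, 4, 944, 168, 15),
  (10, 12, 4, 944, 168, 15),
  (10, 12, 4, 944, 168, 15),
  (15, 12, 4, 944, 168, 16),
  (10, 12, 4, 944, 168, 15),
  (10, 12, 4, 944, 168, 15),
  (10, 12, 4, 944, 168, 15),
  (10, 12, 4, 944, 168, 15),
  (10, 12, 4, 944, 168, 15),
  (10, 12, 4, 944, 168, 15),
  (10, 12, 4, 944, 168, 15),
  (10, 12, 4, 944, 168, 15),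
  (10, 12, 4, 944, 168, 15),
  (10, 12, 4, 944, 168, 15),
  (10, 12, 4, 944, 168, 15),
  (10, 12, 4, 944, 168, 15),
  (10, 12, 4, 944, 168, 15),
  (10, 12, 4, 944, 168, 15),
  (10, 12, 4, 944, 168, 15),
  (10, 12, 4, 944, 168, 15),
  (10, 12, 4, 944, 168, 15),
  (10, 12, 4, 944, 168, 15),
  (10, 12, 4, 944, 168, 15),
  (10, 12, 4, 944, 168, 15),
  (10, 12, 4, 944, 168, 15),
  (10, 12, 4, 944, 168, 15),
  (10, 12, 4, 944, 168, 15),
  (10, 12, 4, 944, 168, 15),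
  (10, 12, 4, 944, 168, 15),
  (31, 15, 3, 0, 141, 140),
  (31, 15, 3, 0, 141, 140),
  (10, 12, 4, 944, 168, 15),
  (10, 12, 4, 944, 168, 15),
  (10, 12, 4, 944, 168, 15),
  (10, 12, 4, 944, 168, 15),
  (10, 12, 4, 944, 168, 15),
  (10, 12, 4, 944, 168, 15),
  (10, 12, 4, 944, 168, 15),
  (10, 12, 4, 944, 168, 15),
  (10, 12, 4, 944, 168, 15),
  (10, 12, 4, 944, 168, 15),
  (10, 12, 4, 944, 168, 15),
  (10, 12, 4, 944, 168, 15),
  (10, 12, 4, 944, 168, 15),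
  (10, 12, 4, 944, 168, 15),
  (10, 12, 4, 944, 168, 15),
  (10, 12, 4, 944, 168, 15),
  (10, 12, 4, 944, 168, 15),
  (10, 12, 4, 944, 168, 15),
  (10, 12, 4, 944, 168, 15),
  (10, 12, 4, 944, 168, 15),
  (10, 12, 4, 944, 168, 15),
  (10, 12, 4, 944, 168, 15),
  (10, 12, 4, 944, 168, 15),
  (10, 12, 4, 944, 168, 15),
  (31, 15, 3, 0, 141, 140),
  (10, 12, 4, 944, 168, 15),
  (31, 15, 3, 0, 141, 140),
  (31, 15, 3, 0, 141, 140),
  (10, 12, 4, 944, 168, 15),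
  (10, 12, 4, 944, 168, 15),
  (10, 12, 4, 944, 168, 15),
  (10, 12, 4, 944, 168, 15),
  (10, 12, 4, 944, 168, 15),
  (10, 12, 4, 944, 168, 15),
  (10, 12, 4, 944, 168, 15),
  (10, 12, 4, 944, 168, 15),
  (10, 12, 4, 944, 168, 15),
  (10, 12, 4, 944, 168, 15),
  (10, 12, 4, 944, 168, 15),
  (10, 12, 4, 944, 168, 15),
  (10, 12, 4, 944, 168, 15),
  (10, 12, 4, 944, 168, 15),
  (10, 12, 4, 944, 168, 15),
  (10, 12, 4, 944, 168, 15),
  (10, 12, 4, 944, 168, 15),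
  (10, 12, 4, 944, 168, 15),
  (8, 10, 5, 910, 195, 15),
  (8, 10, 5, 910, 195, 15),
  (7, 9, 5, 910, 210, 15),
  (7, 9, 5, 910, 210, 15),
  (6, 8, 6, 924, 222, 15),
  (6, 8, 6, 924, 222, 15),
  (6, 8, 6, 924, 222, 15),
  (6, 8, 6, 924, 222, 15),
  (6, 8, 6, 924, 222, 15),
  (6, 8, 6, 924, 222, 15),
  (6, 8, 6, 924, 222, 15),
  (6, 8, 6, 924, 222, 15),
  (4, 6, 7, 938, 252, 15),
  (4, 6, 7, 938, 252, 15),
  (4, 6, 7, 938, 252, 15),
  (4, 6, 7, 938, 252, 15),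
  (3, 5, 8, 952, 280, 15),
  (3, 5, 8, 952, 280, 15)]

theorem okS30 : rowS 28 60 tS28 tS30 cS30 30 = true := by decide +kernel

theorem smS30 : smallChk 28 tS30 = true := by decide +kernel

theorem lenS30 : cS30.length = 120 := by decide +kernel

end Pool.Agent.Lib.MP_22c8c7_co
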