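import Mathlib
import Pool.Agent.Lib.MP_22c8c7_co.TabS

/-! # Simple table, certificates of the row `n = 34` (generated) -/

set_option autoImplicit false
set_option linter.style.longLine false

namespace Pool.Agent.Lib.MP_22c8c7_co

/-- the certificates of the entries `N = 34, ..., 149` -/
def cS34 : List CertS := [
  (0, 0, 0, 960, 960, 17),
  (17, 0, 1, 0, 944, 18),
  (17, 0, 2, 0, 928, 18),
  (17, 0, 4, 0, 896, 18),
  (17, 0, 6, 0, 864, 18),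
  (17, 0, 8, 0, 832, 18),
  (17, 0, 10, 0, 800, 18),
  (17, 0, 12, 0, 768, 18),
  (17, 0, 14, 0, 736, 18),
  (17, 0, 16, 0, 704, 18),
  (17, 0, 17, 0, 688, 18),
  (17, 0, 19, 0, 656, 18),
  (17, 2, 11, 904, 608, 18),
  (17, 2, 12, 888, 576, 18),
  (17, 2, 13, 872, 544, 18),
  (17, 2, 14, 856, 512, 18),
  (17, 3, 10, 920, 480, 18),
  (17, 3, 11, 904, 432, 18),
  (17, 3, 11, 904, 432, 18),
  (17, 4, 9, 936, 384, 18),
  (17, 4, 9, 936, 384, 18),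
  (17, 5, 8, 952, 320, 18),
  (17, 5, 8, 952, 320, 18),
  (17, 6, 7, 968, 288, 18),
  (17, 8, 6, 984, 246, 18),
  (17, 10, 5, 1000, 215, 18),
  (17, 12, 4, 1016, 192, 18),
  (11, 13, 4, 1024, 184, 17),
  (11, 13, 4, 1024, 184, 17),
  (11, 13, 4, 1024, 184, 17),
  (33, 15, 3, 0, 153, 96),
  (33, 15, 3, 0, 153, 96),
  (11, 13, 4, 1024, 184, 17),
  (11, 13, 4, 1024, 184, 17),
  (11, 13, 4, 1024, 184, 17),
  (11, 13, 4, 1024, 184, 17),
  (11, 13, 4, 1024, 184, 17),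
  (11, 13, 4, 1024, 184, 17),
  (11, 13, 4, 1024, 184, 17),
  (11, 13, 4, 1024, 184, 17),
  (11, 13, 4, 1024, 184, 17),
  (11, 13, 4, 1024, 184, 17),
  (11, 13, 4, 1024, 184, 17),
  (11, 13, 4, 1024, 184, 17),
  (11, 13, 4, 1024, 184, 17),
  (11, 13, 4, 1024, 184, 17),
  (11, 13, 4, 1024, 184, 17),
  (11, 13, 4, 1024, 184, 17),
  (11, 13, 4, 1024, 184, 17),
  (11, 13, 4, 1024, 184, 17),
  (11, 13, 4, 1024, 184, 17),
  (11, 13, 4, 1024, 184, 17),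
  (11, 13, 4, 1024, 184, 17),
  (11, 13, 4, 1024, 184, 17),
  (11, 13, 4, 1024, 184, 17),
  (11, 13, 4, 1024, 184, 17),
  (11, 13, 4, 1024, 184, 17),
  (11, 13, 4, 1024, 184, 17),
  (11, 13, 4, 1024, 184, 17),
  (11, 13, 4, 1024, 184, 17),
  (33, 15, 3, 0, 153, 96),
  (33, 15, 3, 0, 153, 96),
  (33, 15, 3, 0, 153, 96),
  (33, 15, 3, 0, 153, 96),
  (15, 17, 3, 1212, 153, 17),
  (15, 17, 3, 1212, 153, 17),
  (15, 17, 3, 1212, 153, 17),
  (15, 17, 3, 1212, 153, 17),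
  (15, 17, 3, 1212, 153, 17),
  (15, 17, 3, 1212, 153, 17),
  (15, 17, 3, 1212, 153, 17),
  (15, 17, 3, 1212, 153, 17),
  (15, 17, 3, 1212, 153, 17),
  (15, 17, 3, 1212, 153, 17),
  (15, 17, 3, 1212, 153, 17),
  (15, 17, 3, 1212, 153, 17),
  (15, 17, 3, 1212, 153, 17),
  (15, 17, 3, 1212, 153, 17),
  (15, 17, 3, 1212, 153, 17),
  (15, 17, 3, 1212, 153, 17),
  (15, 17, 3, 1212, 153, 17),
  (15, 17, 3, 1212, 153, 17),
  (15, 17, 3, 1212, 153, 17),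
  (15, 17, 3, 1212, 153, 17),
  (15, 17, 3, 1212, 153, 17),
  (18, 17, 3, 1212, 153, 19),
  (15, 17, 3, 1212, 153, 17),
  (20, 17, 3, 1212, 153, 21),
  (15, 17, 3, 1212, 153, 17),
  (15, 17, 3, 1212, 153, 17),
  (15, 17, 3, 1212, 153, 17),
  (15, 17, 3, 1212, 153, 17),
  (15, 17, 3, 1212, 153, 17),
  (15, 17, 3, 1212, 153, 17),
  (17, 17, 3, 1212, 153, 18),
  (15, 17, 3, 1212, 153, 17),
  (19, 17, 3, 1212, 153, 20),
  (15, 17, 3, 1212, 153, 17),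
  (15, 17, 3, 1212, 153, 17),
  (15, 17, 3, 1212, 153, 17),
  (15, 17, 3, 1212, 153, 17),
  (15, 17, 3, 1212, 153, 17),
  (15, 17, 3, 1212, 153, 17),
  (15, 17, 3, 1212, 153, 17),
  (15, 17, 3, 1212, 153, 17),
  (18, 17, 3, 1212, 153, 19),
  (15, 17, 3, 1212, 153, 17),
  (15, 17, 3, 1212, 153, 17),
  (15, 17, 3, 1212, 153, 17),
  (15, 17, 3, 1212, 153, 17),
  (15, 17, 3, 1212, 153, 17),
  (11, 13, 4, 1024, 184, 17),
  (10, 12, 4, 1024, 192, 17),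
  (10, 12, 4, 1024, 192, 17),
  (10, 12, 4, 1024, 192, 17),
  (8, 10, 5, 1040, 215, 17)]

theorem okS34 : rowS 32 60 tS32 tS34 cS34 34 = true := by decide +kernel

theorem smS34 : smallChk 32 tS34 = true := by decide +kernel

theorem lenS34 : cS34.length = 116 := by decide +kernel

end Pool.Agent.Lib.MP_22c8c7_co
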