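import Mathlib
import Pool.Agent.Lib.MP_22c8c7_co.TabS

/-! # Simple table, certificates of the row `n = 36` (generated) -/

set_option autoImplicit false
set_option linter.style.longLine false

namespace Pool.Agent.Lib.MP_22c8c7_co

/-- the certificates of the entries `N = 36, ..., 149` -/
def cS36 : List CertS := [
  (0, 0, 0, 1020, 1020, 18),
  (18, 0, 1, 0, 1003, 19),
  (18, 0, 2, 0, 986, 19),
  (18, 0, 4, 0, 952, 19),
  (18, 0, 6, 0, 918, 19),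
  (18, 0, 8, 0, 884, 19),
  (18, 0, 9, 0, 867, 19),
  (18, 0, 11, 0, 833, 19),
  (18, 0, 13, 0, 799, 19),
  (18, 0, 15, 0, 765, 19),
  (18, 0, 16, 0, 748, 19),
  (18, 0, 18, 0, 714, 19),
  (18, 2, 10, 970, 680, 19),
  (18, 2, 11, 953, 646, 19),
  (18, 2, 12, 936, 612, 19),
  (18, 2, 13, 919, 578, 19),
  (18, 2, 14, 902, 544, 19),
  (18, 3, 10, 970, 510, 19),
  (18, 3, 11, 953, 459, 19),
  (18, 3, 11, 953, 459, 19),
  (18, 4, 9, 987, 408, 19),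
  (18, 4, 9, 987, 408, 19),
  (18, 5, 8, 1004, 340, 19),
  (18, 5, 8, 1004, 340, 19),
  (18, 6, 7, 1021, 306, 19),
  (18, 7, 7, 1021, 291, 19),
  (18, 8, 6, 1038, 258, 19),
  (18, 10, 5, 1055, 225, 19),
  (18, 12, 4, 1072, 204, 19),
  (11, 13, 4, 1088, 192, 18),
  (11, 13, 4, 1088, 192, 18),
  (34, 15, 3, 0, 159, 68),
  (34, 15, 3, 0, 159, 68),
  (34, 15, 3, 0, 159, 68),
  (18, 13, 4, 1072, 192, 19),
  (18, 13, 4, 1072, 192, 19),
  (18, 13, 4, 1072, 192, 19),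
  (18, 13, 4, 1072, 192, 19),
  (18, 13, 4, 1072, 192, 19),
  (11, 13, 4, 1088, 192, 18),
  (11, 13, 4, 1088, 192, 18),
  (11, 13, 4, 1088, 192, 18),
  (11, 13, 4, 1088, 192, 18),
  (11, 13, 4, 1088, 192, 18),
  (11, 13, 4, 1088, 192, 18),
  (11, 13, 4, 1088, 192, 18),
  (11, 13, 4, 1088, 192, 18),
  (11, 13, 4, 1088, 192, 18),
  (11, 13, 4, 1088, 192, 18),
  (11, 13, 4, 1088, 192, 18),
  (11, 13, 4, 1088, 192, 18),
  (11, 13, 4, 1088, 192, 18),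
  (11, 13, 4, 1088, 192, 18),
  (11, 13, 4, 1088, 192, 18),
  (11, 13, 4, 1088, 192, 18),
  (11, 13, 4, 1088, 192, 18),
  (11, 13, 4, 1088, 192, 18),
  (11, 13, 4, 1088, 192, 18),
  (11, 13, 4, 1088, 192, 18),
  (11, 13, 4, 1088, 192, 18),
  (11, 13, 4, 1088, 192, 18),
  (11, 13, 4, 1088, 192, 18),
  (11, 13, 4, 1088, 192, 18),
  (15, 17, 3, 1224, 159, 18),
  (15, 17, 3, 1224, 159, 18),
  (15, 17, 3, 1224, 159, 18),
  (15, 17, 3, 1224, 159, 18),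
  (18, 17, 3, 1224, 159, 19),
  (15, 17, 3, 1224, 159, 18),
  (15, 17, 3, 1224, 159, 18),
  (15, 17, 3, 1224, 159, 18),
  (15, 17, 3, 1224, 159, 18),
  (15, 17, 3, 1224, 159, 18),
  (15, 17, 3, 1224, 159, 18),
  (15, 17, 3, 1224, 159, 18),
  (15, 17, 3, 1224, 159, 18),
  (15, 17, 3, 1224, 159, 18),
  (15, 17, 3, 1224, 159, 18),
  (15, 17, 3, 1224, 159, 18),
  (15, 17, 3, 1224, 159, 18),
  (15, 17, 3, 1224, 159, 18),
  (20, 17, 3, 1224, 159, 21),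
  (15, 17, 3, 1224, 159, 18),
  (15, 17, 3, 1224, 159, 18),
  (19, 17, 3, 1224, 159, 20),
  (15, 17, 3, 1224, 159, 18),
  (15, 17, 3, 1224, 159, 18),
  (18, 17, 3, 1224, 159, 19),
  (15, 17, 3, 1224, 159, 18),
  (15, 17, 3, 1224, 159, 18),
  (15, 17, 3, 1224, 159, 18),
  (15, 17, 3, 1224, 159, 18),
  (15, 17, 3, 1224, 159, 18),
  (15, 17, 3, 1224, 159, 18),
  (15, 17, 3, 1224, 159, 18),
  (15, 17, 3, 1224, 159, 18),
  (15, 17, 3, 1224, 159, 18),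
  (15, 17, 3, 1224, 159, 18),
  (15, 17, 3, 1224, 159, 18),
  (15, 17, 3, 1224, 159, 18),
  (15, 17, 3, 1224, 159, 18),
  (20, 17, 3, 1224, 159, 21),
  (15, 17, 3, 1224, 159, 18),
  (15, 17, 3, 1224, 159, 18),
  (19, 17, 3, 1224, 159, 20),
  (15, 17, 3, 1224, 159, 18),
  (15, 17, 3, 1224, 159, 18),
  (18, 17, 3, 1224, 159, 19),
  (15, 17, 3, 1224, 159, 18),
  (15, 17, 3, 1224, 159, 18),
  (15, 17, 3, 1224, 159, 18),
  (15, 17, 3, 1224, 159, 18),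
  (15, 17, 3, 1224, 159, 18),
  (15, 17, 3, 1224, 159, 18)]

theorem okS36 : rowS 34 60 tS34 tS36 cS36 36 = true := by decide +kernel

theorem smS36 : smallChk 34 tS36 = true := by decide +kernel

theorem lenS36 : cS36.length = 114 := by decide +kernel

end Pool.Agent.Lib.MP_22c8c7_co
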