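import Mathlib
import Pool.Agent.Lib.MP_22c8c7_co.TabS

/-! # Simple table, certificates of the row `n = 38` (generated) -/

set_option autoImplicit false
set_option linter.style.longLine false

namespace Pool.Agent.Lib.MP_22c8c7_co

/-- the certificates of the entries `N = 38, ..., 149` -/
def cS38 : List CertS := [
  (0, 0, 0, 1080, 1080, 19),
  (19, 0, 1, 0, 1062, 20),
  (19, 0, 2, 0, 1044, 20),
  (19, 0, 4, 0, 1008, 20),
  (19, 0, 6, 0, 972, 20),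
  (19, 0, 7, 0, 954, 20),
  (19, 0, 9, 0, 918, 20),
  (19, 0, 11, 0, 882, 20),
  (19, 0, 12, 0, 864, 20),
  (19, 0, 14, 0, 828, 20),
  (19, 0, 16, 0, 792, 20),
  (19, 0, 17, 0, 774, 20),
  (19, 0, 19, 0, 738, 20),
  (19, 2, 11, 1002, 684, 20),
  (19, 2, 11, 1002, 684, 20),
  (19, 2, 12, 984, 648, 20),
  (19, 2, 13, 966, 612, 20),
  (19, 2, 14, 948, 576, 20),
  (19, 3, 10, 1020, 540, 20),
  (19, 3, 11, 1002, 486, 20),
  (19, 3, 11, 1002, 486, 20),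
  (19, 4, 9, 1038, 432, 20),
  (19, 4, 9, 1038, 432, 20),
  (19, 4, 10, 1020, 410, 20),
  (19, 5, 8, 1056, 360, 20),
  (19, 6, 7, 1074, 324, 20),
  (19, 6, 7, 1074, 324, 20),
  (19, 8, 6, 1092, 270, 20),
  (19, 10, 5, 1110, 235, 20),
  (19, 10, 5, 1110, 235, 20),
  (19, 13, 4, 1128, 200, 20),
  (11, 13, 4, 1152, 200, 19),
  (35, 15, 3, 0, 165, 36),
  (35, 15, 3, 0, 165, 36),
  (15, 17, 3, 1236, 165, 19),
  (15, 17, 3, 1236, 165, 19),
  (15, 17, 3, 1236, 165, 19),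
  (20, 17, 3, 1236, 165, 21),
  (15, 17, 3, 1236, 165, 19),
  (15, 17, 3, 1236, 165, 19),
  (15, 17, 3, 1236, 165, 19),
  (15, 17, 3, 1236, 165, 19),
  (20, 17, 3, 1236, 165, 21),
  (15, 17, 3, 1236, 165, 19),
  (15, 17, 3, 1236, 165, 19),
  (15, 17, 3, 1236, 165, 19),
  (15, 17, 3, 1236, 165, 19),
  (20, 17, 3, 1236, 165, 21),
  (15, 17, 3, 1236, 165, 19),
  (15, 17, 3, 1236, 165, 19),
  (15, 17, 3, 1236, 165, 19),
  (15, 17, 3, 1236, 165, 19),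
  (15, 17, 3, 1236, 165, 19),
  (15, 17, 3, 1236, 165, 19),
  (15, 17, 3, 1236, 165, 19),
  (15, 17, 3, 1236, 165, 19),
  (15, 17, 3, 1236, 165, 19),
  (15, 17, 3, 1236, 165, 19),
  (15, 17, 3, 1236, 165, 19),
  (15, 17, 3, 1236, 165, 19),
  (15, 17, 3, 1236, 165, 19),
  (15, 17, 3, 1236, 165, 19),
  (15, 17, 3, 1236, 165, 19),
  (15, 17, 3, 1236, 165, 19),
  (15, 17, 3, 1236, 165, 19),
  (15, 17, 3, 1236, 165, 19),
  (15, 17, 3, 1236, 165, 19),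
  (15, 17, 3, 1236, 165, 19),
  (15, 17, 3, 1236, 165, 19),
  (15, 17, 3, 1236, 165, 19),
  (15, 17, 3, 1236, 165, 19),
  (15, 17, 3, 1236, 165, 19),
  (15, 17, 3, 1236, 165, 19),
  (15, 17, 3, 1236, 165, 19),
  (15, 17, 3, 1236, 165, 19),
  (15, 17, 3, 1236, 165, 19),
  (15, 17, 3, 1236, 165, 19),
  (15, 17, 3, 1236, 165, 19),
  (15, 17, 3, 1236, 165, 19),
  (15, 17, 3, 1236, 165, 19),
  (15, 17, 3, 1236, 165, 19),
  (15, 17, 3, 1236, 165, 19),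
  (15, 17, 3, 1236, 165, 19),
  (15, 17, 3, 1236, 165, 19),
  (15, 17, 3, 1236, 165, 19),
  (15, 17, 3, 1236, 165, 19),
  (15, 17, 3, 1236, 165, 19),
  (15, 17, 3, 1236, 165, 19),
  (15, 17, 3, 1236, 165, 19),
  (15, 17, 3, 1236, 165, 19),
  (15, 17, 3, 1236, 165, 19),
  (15, 17, 3, 1236, 165, 19),
  (15, 17, 3, 1236, 165, 19),
  (15, 17, 3, 1236, 165, 19),
  (15, 17, 3, 1236, 165, 19),
  (15, 17, 3, 1236, 165, 19),
  (15, 17, 3, 1236, 165, 19),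
  (15, 17, 3, 1236, 165, 19),
  (15, 17, 3, 1236, 165, 19),
  (15, 17, 3, 1236, 165, 19),
  (15, 17, 3, 1236, 165, 19),
  (15, 17, 3, 1236, 165, 19),
  (15, 17, 3, 1236, 165, 19),
  (15, 17, 3, 1236, 165, 19),
  (15, 17, 3, 1236, 165, 19),
  (15, 17, 3, 1236, 165, 19),
  (15, 17, 3, 1236, 165, 19),
  (15, 17, 3, 1236, 165, 19),
  (15, 17, 3, 1236, 165, 19),
  (15, 17, 3, 1236, 165, 19),
  (15, 17, 3, 1236, 165, 19),
  (15, 17, 3, 1236, 165, 19)]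

theorem okS38 : rowS 36 60 tS36 tS38 cS38 38 = true := by decide +kernel

theorem smS38 : smallChk 36 tS38 = true := by decide +kernel

theorem lenS38 : cS38.length = 112 := by decide +kernel

end Pool.Agent.Lib.MP_22c8c7_co
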