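import Mathlib
import Pool.Agent.Lib.MP_22c8c7_co.TabS

/-! # Simple table, certificates of the row `n = 6` (generated) -/

set_option autoImplicit false
set_option linter.style.longLine false

namespace Pool.Agent.Lib.MP_22c8c7_co

/-- the certificates of the entries `N = 6, ..., 149` -/
def cS6 : List CertS := [
  (0, 0, 0, 120, 120, 3),
  (3, 0, 1, 0, 118, 4),
  (3, 0, 11, 0, 98, 4),
  (4, 0, 7, 0, 92, 8),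
  (0, 1, 9, 180, 102, 3),
  (0, 1, 11, 180, 98, 3),
  (4, 0, 8, 0, 88, 8),
  (5, 1, 6, 0, 84, 12),
  (5, 1, 7, 0, 81, 12),
  (5, 1, 7, 0, 81, 12),
  (5, 1, 6, 0, 84, 12),
  (6, 2, 6, 0, 78, 15),
  (5, 1, 7, 0, 81, 12),
  (6, 2, 6, 0, 78, 15),
  (6, 2, 6, 0, 78, 15),
  (7, 3, 5, 0, 75, 18),
  (7, 3, 5, 0, 75, 18),
  (7, 3, 5, 0, 75, 18),
  (8, 4, 4, 0, 72, 21),
  (8, 4, 4, 0, 72, 21),
  (8, 4, 4, 0, 72, 21),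
  (8, 4, 4, 0, 72, 21),
  (8, 4, 4, 0, 72, 21),
  (8, 4, 4, 0, 72, 21),
  (8, 4, 4, 0, 72, 21),
  (8, 4, 4, 0, 72, 21),
  (8, 4, 4, 0, 72, 21),
  (8, 4, 4, 0, 72, 21),
  (11, 7, 3, 0, 69, 30),
  (8, 4, 4, 0, 72, 21),
  (8, 4, 4, 0, 72, 21),
  (11, 7, 3, 0, 69, 30),
  (11, 7, 3, 0, 69, 30),
  (11, 7, 3, 0, 69, 30),
  (11, 7, 3, 0, 69, 30),
  (11, 7, 3, 0, 69, 30),
  (11, 7, 3, 0, 69, 30),
  (11, 7, 3, 0, 69, 30),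
  (11, 7, 3, 0, 69, 30),
  (11, 7, 3, 0, 69, 30),
  (11, 7, 3, 0, 69, 30),
  (11, 7, 3, 0, 69, 30),
  (11, 7, 3, 0, 69, 30),
  (11, 7, 3, 0, 69, 30),
  (11, 7, 3, 0, 69, 30),
  (15, 11, 2, 0, 68, 42),
  (15, 11, 2, 0, 68, 42),
  (15, 11, 2, 0, 68, 42),
  (15, 11, 2, 0, 68, 42),
  (15, 11, 2, 0, 68, 42),
  (16, 12, 2, 0, 66, 45),
  (16, 12, 2, 0, 66, 45),
  (16, 12, 2, 0, 66, 45),
  (16, 12, 2, 0, 66, 45),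
  (16, 12, 2, 0, 66, 45),
  (16, 12, 2, 0, 66, 45),
  (16, 12, 2, 0, 66, 45),
  (16, 12, 2, 0, 66, 45),
  (16, 12, 2, 0, 66, 45),
  (16, 12, 2, 0, 66, 45),
  (16, 12, 2, 0, 66, 45),
  (16, 12, 2, 0, 66, 45),
  (16, 12, 2, 0, 66, 45),
  (16, 12, 2, 0, 66, 45),
  (16, 12, 2, 0, 66, 45),
  (16, 12, 2, 0, 66, 45),
  (16, 12, 2, 0, 66, 45),
  (16, 12, 2, 0, 66, 45),
  (16, 12, 2, 0, 66, 45),
  (16, 12, 2, 0, 66, 45),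
  (16, 12, 2, 0, 66, 45),
  (16, 12, 2, 0, 66, 45),
  (16, 12, 2, 0, 66, 45),
  (16, 12, 2, 0, 66, 45),
  (16, 12, 2, 0, 66, 45),
  (16, 12, 2, 0, 66, 45),
  (16, 12, 2, 0, 66, 45),
  (16, 12, 2, 0, 66, 45),
  (16, 12, 2, 0, 66, 45),
  (16, 12, 2, 0, 66, 45),
  (16, 12, 2, 0, 66, 45),
  (16, 12, 2, 0, 66, 45),
  (16, 12, 2, 0, 66, 45),
  (16, 12, 2, 0, 66, 45),
  (16, 12, 2, 0, 66, 45),
  (16, 12, 2, 0, 66, 45),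
  (16, 12, 2, 0, 66, 45),
  (16, 12, 2, 0, 66, 45),
  (16, 12, 2, 0, 66, 45),
  (16, 12, 2, 0, 66, 45),
  (16, 12, 2, 0, 66, 45),
  (16, 12, 2, 0, 66, 45),
  (12, 14, 2, 908, 66, 33),
  (12, 14, 2, 908, 66, 33),
  (12, 14, 2, 908, 66, 33),
  (12, 14, 2, 908, 66, 33),
  (12, 14, 2, 908, 66, 33),
  (12, 14, 2, 908, 66, 33),
  (30, 26, 1, 0, 64, 87),
  (12, 14, 2, 908, 66, 33),
  (30, 26, 1, 0, 64, 87),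
  (12, 14, 2, 908, 66, 33),
  (30, 26, 1, 0, 64, 87),
  (30, 26, 1, 0, 64, 87),
  (30, 26, 1, 0, 64, 87),
  (30, 26, 1, 0, 64, 87),
  (30, 26, 1, 0, 64, 87),
  (30, 26, 1, 0, 64, 87),
  (30, 26, 1, 0, 64, 87),
  (30, 26, 1, 0, 64, 87),
  (31, 27, 1, 0, 63, 90),
  (31, 27, 1, 0, 63, 90),
  (31, 27, 1, 0, 63, 90),
  (31, 27, 1, 0, 63, 90),
  (31, 27, 1, 0, 63, 90),
  (31, 27, 1, 0, 63, 90),
  (31, 27, 1, 0, 63, 90),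
  (31, 27, 1, 0, 63, 90),
  (31, 27, 1, 0, 63, 90),
  (31, 27, 1, 0, 63, 90),
  (31, 27, 1, 0, 63, 90),
  (31, 27, 1, 0, 63, 90),
  (31, 27, 1, 0, 63, 90),
  (31, 27, 1, 0, 63, 90),
  (31, 27, 1, 0, 63, 90),
  (31, 27, 1, 0, 63, 90),
  (31, 27, 1, 0, 63, 90),
  (31, 27, 1, 0, 63, 90),
  (31, 27, 1, 0, 63, 90),
  (31, 27, 1, 0, 63, 90),
  (31, 27, 1, 0, 63, 90),
  (31, 27, 1, 0, 63, 90),
  (31, 27, 1, 0, 63, 90),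
  (31, 27, 1, 0, 63, 90),
  (31, 27, 1, 0, 63, 90),
  (31, 27, 1, 0, 63, 90),
  (31, 27, 1, 0, 63, 90),
  (31, 27, 1, 0, 63, 90),
  (31, 27, 1, 0, 63, 90),
  (31, 27, 1, 0, 63, 90),
  (31, 27, 1, 0, 63, 90),
  (31, 27, 1, 0, 63, 90),
  (31, 27, 1, 0, 63, 90),
  (31, 27, 1, 0, 63, 90)]

theorem okS6 : rowS 4 60 tS4 tS6 cS6 6 = true := by decide +kernel

theorem smS6 : smallChk 4 tS6 = true := by decide +kernel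

theorem lenS6 : cS6.length = 144 := by decide +kernel

end Pool.Agent.Lib.MP_22c8c7_co
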