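import Mathlib
import Pool.Agent.Lib.MP_22c8c7_co.Row
import Pool.Agent.Lib.MP_22c8c7_co.Row4
import Pool.Agent.Lib.MP_22c8c7_co.CheckS
import Pool.Agent.Lib.MP_22c8c7_co.TabR6
import Pool.Agent.Lib.MP_22c8c7_co.TabR8
import Pool.Agent.Lib.MP_22c8c7_co.TabR10
import Pool.Agent.Lib.MP_22c8c7_co.TabR12
import Pool.Agent.Lib.MP_22c8c7_co.TabR14
import Pool.Agent.Lib.MP_22c8c7_co.TabR16
import Pool.Agent.Lib.MP_22c8c7_co.TabR18
import Pool.Agent.Lib.MP_22c8c7_co.TabS6
import Pool.Agent.Lib.MP_22c8c7_co.TabS8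
import Pool.Agent.Lib.MP_22c8c7_co.TabS10
import Pool.Agent.Lib.MP_22c8c7_co.TabS12
import Pool.Agent.Lib.MP_22c8c7_co.TabS14
import Pool.Agent.Lib.MP_22c8c7_co.TabS16
import Pool.Agent.Lib.MP_22c8c7_co.TabS18
import Pool.Agent.Lib.MP_22c8c7_co.TabS20
import Pool.Agent.Lib.MP_22c8c7_co.TabS22
import Pool.Agent.Lib.MP_22c8c7_co.TabS24
import Pool.Agent.Lib.MP_22c8c7_co.TabS26
import Pool.Agent.Lib.MP_22c8c7_co.TabS28
import Pool.Agent.Lib.MP_22c8c7_co.TabS30
import Pool.Agent.Lib.MP_22c8c7_co.TabS32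
import Pool.Agent.Lib.MP_22c8c7_co.TabS34
import Pool.Agent.Lib.MP_22c8c7_co.TabS36
import Pool.Agent.Lib.MP_22c8c7_co.TabS38

/-! # The tables are sound -/

set_option autoImplicit false

namespace Pool.Agent.Lib.MP_22c8c7_co

/-- a row of the refined table -/
theorem rowR_sound {V : Type*} (r : V → V → Prop) (hs : ∀ a b, r a b → r b a)
    (hi : ∀ a, ¬ r a a) (m K : ℕ) (hm : 4 ≤ m) (hev : Even m) (hK : m + 2 ≤ K) (T' T : ℕ)
    (L : List Cert) (hlen : L.length = K - m - 1) (hok : rowChk m 60 T' T L (m + 2) = true)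
    (hsm : smallChk m T = true) (hprev : ∀ N, N ≤ K → Good r m N (ev T' N)) :
    ∀ N, N ≤ K → Good r (m + 2) N (ev T N) := by
  refine row_sound r hs hi m K hm hev (ev T') (ev T) hprev
    (fun N hN _ => smallChk_sound m T hsm N hN) ?_
  intro N hN hNK
  exact rowChk_sound m 60 T' T (by norm_num) L (m + 2) hok N hN (by omega)

/-- a row of the simple table -/
theorem rowS_good {V : Type*} (r : V → V → Prop) (hs : ∀ a b, r a b → r b a)
    (hi : ∀ a, ¬ r a a) (m K : ℕ) (hm : 4 ≤ m) (hev : Even m) (hK : m + 2 ≤ K) (T' T : ℕ)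
    (L : List CertS) (hlen : L.length = K - m - 1) (hok : rowS m 60 T' T L (m + 2) = true)
    (hsm : smallChk m T = true) (hprev : ∀ N, N ≤ K → Good r m N (ev T' N)) :
    ∀ N, N ≤ K → Good r (m + 2) N (ev T N) := by
  refine row_sound r hs hi m K hm hev (ev T') (ev T) hprev
    (fun N hN _ => smallChk_sound m T hsm N hN) ?_
  intro N hN hNK
  exact rowS_sound m 60 T' T (by norm_num) (by omega) (by rcases hev with ⟨k, hk⟩; omega) L (m + 2)
    hok N hN (by omega)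

/-- check of the row `n = 4` -/
noncomputable def fourChk (K T : ℕ) : Bool := allB (K + 1) (fun N =>
  Nat.blt (N * (N * (N - 1) + (2 * ev T N + 2))) ((2 * ev T N + 2) * (2 * ev T N + 2)))

theorem fourChk_sound {V : Type*} (r : V → V → Prop) (hs : ∀ a b, r a b → r b a)
    (hi : ∀ a, ¬ r a a) (K T : ℕ) (h : fourChk K T = true) :
    ∀ N, N ≤ K → Good r 4 N (ev T N) := by
  intro N hN
  have h1 := allB_sound _ _ h N (by omega)
  rw [Nat.blt_eq] at h1
  exact row_four r hs hi N (ev T N) h1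

theorem okR4 : fourChk 69 tR4 = true := by decide +kernel

theorem okS4 : fourChk 149 tS4 = true := by decide +kernel

section rows

variable {V : Type*} (r : V → V → Prop) (hs : ∀ a b, r a b → r b a) (hi : ∀ a, ¬ r a a)

include hs hi

theorem goodR4 : ∀ N, N ≤ 69 → Good r 4 N (ev tR4 N) := fourChk_sound r hs hi 69 tR4 okR4

theorem goodR6 : ∀ N, N ≤ 69 → Good r 6 N (ev tR6 N) :=
  rowR_sound r hs hi 4 69 (by norm_num) (by decide) (by norm_num) tR4 tR6 cR6 lenR6 okR6 smR6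
    (goodR4 r hs hi)

theorem goodR8 : ∀ N, N ≤ 69 → Good r 8 N (ev tR8 N) :=
  rowR_sound r hs hi 6 69 (by norm_num) (by decide) (by norm_num) tR6 tR8 cR8 lenR8 okR8 smR8
    (goodR6 r hs hi)

theorem goodR10 : ∀ N, N ≤ 69 → Good r 10 N (ev tR10 N) :=
  rowR_sound r hs hi 8 69 (by norm_num) (by decide) (by norm_num) tR8 tR10 cR10 lenR10 okR10 smR10
    (goodR8 r hs hi)

theorem goodR12 : ∀ N, N ≤ 69 → Good r 12 N (ev tR12 N) :=
  rowR_sound r hs hi 10 69 (by norm_num) (by decide) (by norm_num) tR10 tR12 cR12 lenR12 okR12 smR12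
    (goodR10 r hs hi)

theorem goodR14 : ∀ N, N ≤ 69 → Good r 14 N (ev tR14 N) :=
  rowR_sound r hs hi 12 69 (by norm_num) (by decide) (by norm_num) tR12 tR14 cR14 lenR14 okR14 smR14
    (goodR12 r hs hi)

theorem goodR16 : ∀ N, N ≤ 69 → Good r 16 N (ev tR16 N) :=
  rowR_sound r hs hi 14 69 (by norm_num) (by decide) (by norm_num) tR14 tR16 cR16 lenR16 okR16 smR16
    (goodR14 r hs hi)

theorem goodR18 : ∀ N, N ≤ 69 → Good r 18 N (ev tR18 N) :=
  rowR_sound r hs hi 16 69 (by norm_num) (by decide) (by norm_num) tR16 tR18 cR18 lenR18 okR18 smR18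
    (goodR16 r hs hi)

theorem goodS4 : ∀ N, N ≤ 149 → Good r 4 N (ev tS4 N) := fourChk_sound r hs hi 149 tS4 okS4

theorem goodS6 : ∀ N, N ≤ 149 → Good r 6 N (ev tS6 N) :=
  rowS_good r hs hi 4 149 (by norm_num) (by decide) (by norm_num) tS4 tS6 cS6 lenS6 okS6 smS6
    (goodS4 r hs hi)

theorem goodS8 : ∀ N, N ≤ 149 → Good r 8 N (ev tS8 N) :=
  rowS_good r hs hi 6 149 (by norm_num) (by decide) (by norm_num) tS6 tS8 cS8 lenS8 okS8 smS8
    (goodS6 r hs hi)

theorem goodS10 : ∀ N, N ≤ 149 → Good r 10 N (ev tS10 N) :=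
  rowS_good r hs hi 8 149 (by norm_num) (by decide) (by norm_num) tS8 tS10 cS10 lenS10 okS10 smS10
    (goodS8 r hs hi)

theorem goodS12 : ∀ N, N ≤ 149 → Good r 12 N (ev tS12 N) :=
  rowS_good r hs hi 10 149 (by norm_num) (by decide) (by norm_num) tS10 tS12 cS12 lenS12 okS12 smS12
    (goodS10 r hs hi)

theorem goodS14 : ∀ N, N ≤ 149 → Good r 14 N (ev tS14 N) :=
  rowS_good r hs hi 12 149 (by norm_num) (by decide) (by norm_num) tS12 tS14 cS14 lenS14 okS14 smS14
    (goodS12 r hs hi)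

theorem goodS16 : ∀ N, N ≤ 149 → Good r 16 N (ev tS16 N) :=
  rowS_good r hs hi 14 149 (by norm_num) (by decide) (by norm_num) tS14 tS16 cS16 lenS16 okS16 smS16
    (goodS14 r hs hi)

theorem goodS18 : ∀ N, N ≤ 149 → Good r 18 N (ev tS18 N) :=
  rowS_good r hs hi 16 149 (by norm_num) (by decide) (by norm_num) tS16 tS18 cS18 lenS18 okS18 smS18
    (goodS16 r hs hi)

theorem goodS20 : ∀ N, N ≤ 149 → Good r 20 N (ev tS20 N) :=
  rowS_good r hs hi 18 149 (by norm_num) (by decide) (by norm_num) tS18 tS20 cS20 lenS20 okS20 smS20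
    (goodS18 r hs hi)

theorem goodS22 : ∀ N, N ≤ 149 → Good r 22 N (ev tS22 N) :=
  rowS_good r hs hi 20 149 (by norm_num) (by decide) (by norm_num) tS20 tS22 cS22 lenS22 okS22 smS22
    (goodS20 r hs hi)

theorem goodS24 : ∀ N, N ≤ 149 → Good r 24 N (ev tS24 N) :=
  rowS_good r hs hi 22 149 (by norm_num) (by decide) (by norm_num) tS22 tS24 cS24 lenS24 okS24 smS24
    (goodS22 r hs hi)

theorem goodS26 : ∀ N, N ≤ 149 → Good r 26 N (ev tS26 N) :=
  rowS_good r hs hi 24 149 (by norm_num) (by decide) (by norm_num) tS24 tS26 cS26 lenS26 okS26 smS26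
    (goodS24 r hs hi)

theorem goodS28 : ∀ N, N ≤ 149 → Good r 28 N (ev tS28 N) :=
  rowS_good r hs hi 26 149 (by norm_num) (by decide) (by norm_num) tS26 tS28 cS28 lenS28 okS28 smS28
    (goodS26 r hs hi)

theorem goodS30 : ∀ N, N ≤ 149 → Good r 30 N (ev tS30 N) :=
  rowS_good r hs hi 28 149 (by norm_num) (by decide) (by norm_num) tS28 tS30 cS30 lenS30 okS30 smS30
    (goodS28 r hs hi)

theorem goodS32 : ∀ N, N ≤ 149 → Good r 32 N (ev tS32 N) :=
  rowS_good r hs hi 30 149 (by norm_num) (by decide) (by norm_num) tS30 tS32 cS32 lenS32 okS32 smS32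
    (goodS30 r hs hi)

theorem goodS34 : ∀ N, N ≤ 149 → Good r 34 N (ev tS34 N) :=
  rowS_good r hs hi 32 149 (by norm_num) (by decide) (by norm_num) tS32 tS34 cS34 lenS34 okS34 smS34
    (goodS32 r hs hi)

theorem goodS36 : ∀ N, N ≤ 149 → Good r 36 N (ev tS36 N) :=
  rowS_good r hs hi 34 149 (by norm_num) (by decide) (by norm_num) tS34 tS36 cS36 lenS36 okS36 smS36
    (goodS34 r hs hi)

theorem goodS38 : ∀ N, N ≤ 149 → Good r 38 N (ev tS38 N) :=
  rowS_good r hs hi 36 149 (by norm_num) (by decide) (by norm_num) tS36 tS38 cS38 lenS38 okS38 smS38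
    (goodS36 r hs hi)

end rows

end Pool.Agent.Lib.MP_22c8c7_co
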