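import Mathlib
import Pool.Agent.Lib.MP_22c8c7_co.Rows
import Pool.Agent.Lib.MP_22c8c7_co.Fin

/-! # The Ramsey theorem for all even `n ≥ 10` -/

set_option autoImplicit false

namespace Pool.Agent.Lib.MP_22c8c7_co

open Finset
open scoped Classical

/-- From density to colourings. -/
theorem ramsey_of_good (n N0 F : ℕ) (hn : 2 ≤ n) (hF : 6 * F < N0 * (N0 - 1)) (N : ℕ)
    (hN : N0 ≤ N) (hgood : ∀ r : Fin N → Fin N → Prop, (∀ a b, r a b → r b a) → (∀ a, ¬ r a a) →
      Good r n N0 F) (c : Fin N → Fin N → Fin 3) (hc : ∀ a b : Fin N, c a b = c b a) :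
    ∃ k : Fin 3, ∃ f : Fin n → Fin N, Function.Injective f ∧
      ∀ i j : Fin n, j.val = (i.val + 1) % n → c (f i) (f j) = k := by
  by_contra hcon
  obtain ⟨S, -, hS⟩ := Finset.exists_subset_card_eq (s := (univ : Finset (Fin N)))
    (n := N0) (by rw [Finset.card_univ, Fintype.card_fin]; exact hN)
  let r : Fin 3 → Fin N → Fin N → Prop := fun k a b => a ≠ b ∧ c a b = k
  have hb : ∀ k, ds (r k) S ≤ 2 * F := by
    intro k
    refine hgood (r k) (fun a b h => ⟨h.1.symm, by rw [hc b a]; exact h.2⟩)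
      (fun a h => h.1 rfl) S hS ?_
    intro z hz
    obtain ⟨f, hf, hf2⟩ := fin_of_cycIn (r k) S n hn z hz
    exact hcon ⟨k, f, hf, fun i j hij => (hf2 i j hij).2⟩
  have hsum : ∑ k : Fin 3, ds (r k) S = S.card * (S.card - 1) := by
    unfold ds
    rw [Finset.sum_comm]
    rw [Finset.sum_congr rfl (g := fun _ => S.card - 1), Finset.sum_const, smul_eq_mul]
    intro v hv
    unfold dg
    rw [← Finset.card_erase_of_mem hv]
    have hfib := Finset.card_eq_sum_card_fiberwise (f := fun u => c v u) (s := S.erase v)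
      (t := (univ : Finset (Fin 3))) (by intro u _; simp)
    rw [hfib]
    refine Finset.sum_congr rfl fun k _ => ?_
    congr 1
    ext u
    simp only [r, Finset.mem_filter, Finset.mem_erase]
    constructor
    · rintro ⟨h1, h2, h3⟩
      exact ⟨⟨fun h => h2 h.symm, h1⟩, h3⟩
    · rintro ⟨⟨h1, h2⟩, h3⟩
      exact ⟨h2, fun h => h1 h.symm, h3⟩
  have h1 : ∑ k : Fin 3, ds (r k) S ≤ ∑ _k : Fin 3, 2 * F := Finset.sum_le_sum fun k _ => hb k
  rw [hsum, hS] at h1
  simp only [Finset.sum_const, Finset.card_univ, Fintype.card_fin, smul_eq_mul] at h1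
  omega

private theorem fin10 (N : ℕ) (hN : 37 ≤ N) (c : Fin N → Fin N → Fin 3)
    (hc : ∀ a b : Fin N, c a b = c b a) : ∃ k : Fin 3, ∃ f : Fin 10 → Fin N,
      Function.Injective f ∧ ∀ i j : Fin 10, j.val = (i.val + 1) % 10 → c (f i) (f j) = k :=
  ramsey_of_good 10 37 (ev tR10 37) (by norm_num) (by decide +kernel) N hN
    (fun r hs hi => goodR10 r hs hi 37 (by norm_num)) c hc

private theorem fin12 (N : ℕ) (hN : 45 ≤ N) (c : Fin N → Fin N → Fin 3)
    (hc : ∀ a b : Fin N, c a b = c b a) : ∃ k : Fin 3, ∃ f : Fin 12 → Fin N,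
      Function.Injective f ∧ ∀ i j : Fin 12, j.val = (i.val + 1) % 12 → c (f i) (f j) = k :=
  ramsey_of_good 12 45 (ev tR12 45) (by norm_num) (by decide +kernel) N hN
    (fun r hs hi => goodR12 r hs hi 45 (by norm_num)) c hc

private theorem fin14 (N : ℕ) (hN : 53 ≤ N) (c : Fin N → Fin N → Fin 3)
    (hc : ∀ a b : Fin N, c a b = c b a) : ∃ k : Fin 3, ∃ f : Fin 14 → Fin N,
      Function.Injective f ∧ ∀ i j : Fin 14, j.val = (i.val + 1) % 14 → c (f i) (f j) = k :=
  ramsey_of_good 14 53 (ev tR14 53) (by norm_num) (by decide +kernel) N hN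
    (fun r hs hi => goodR14 r hs hi 53 (by norm_num)) c hc

private theorem fin16 (N : ℕ) (hN : 61 ≤ N) (c : Fin N → Fin N → Fin 3)
    (hc : ∀ a b : Fin N, c a b = c b a) : ∃ k : Fin 3, ∃ f : Fin 16 → Fin N,
      Function.Injective f ∧ ∀ i j : Fin 16, j.val = (i.val + 1) % 16 → c (f i) (f j) = k :=
  ramsey_of_good 16 61 (ev tR16 61) (by norm_num) (by decide +kernel) N hN
    (fun r hs hi => goodR16 r hs hi 61 (by norm_num)) c hc

private theorem fin18 (N : ℕ) (hN : 69 ≤ N) (c : Fin N → Fin N → Fin 3)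
    (hc : ∀ a b : Fin N, c a b = c b a) : ∃ k : Fin 3, ∃ f : Fin 18 → Fin N,
      Function.Injective f ∧ ∀ i j : Fin 18, j.val = (i.val + 1) % 18 → c (f i) (f j) = k :=
  ramsey_of_good 18 69 (ev tR18 69) (by norm_num) (by decide +kernel) N hN
    (fun r hs hi => goodR18 r hs hi 69 (by norm_num)) c hc

private theorem fin20 (N : ℕ) (hN : 77 ≤ N) (c : Fin N → Fin N → Fin 3)
    (hc : ∀ a b : Fin N, c a b = c b a) : ∃ k : Fin 3, ∃ f : Fin 20 → Fin N,
      Function.Injective f ∧ ∀ i j : Fin 20, j.val = (i.val + 1) % 20 → c (f i) (f j) = k :=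
  ramsey_of_good 20 77 (ev tS20 77) (by norm_num) (by decide +kernel) N hN
    (fun r hs hi => goodS20 r hs hi 77 (by norm_num)) c hc

private theorem fin22 (N : ℕ) (hN : 85 ≤ N) (c : Fin N → Fin N → Fin 3)
    (hc : ∀ a b : Fin N, c a b = c b a) : ∃ k : Fin 3, ∃ f : Fin 22 → Fin N,
      Function.Injective f ∧ ∀ i j : Fin 22, j.val = (i.val + 1) % 22 → c (f i) (f j) = k :=
  ramsey_of_good 22 85 (ev tS22 85) (by norm_num) (by decide +kernel) N hN
    (fun r hs hi => goodS22 r hs hi 85 (by norm_num)) c hc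

private theorem fin24 (N : ℕ) (hN : 93 ≤ N) (c : Fin N → Fin N → Fin 3)
    (hc : ∀ a b : Fin N, c a b = c b a) : ∃ k : Fin 3, ∃ f : Fin 24 → Fin N,
      Function.Injective f ∧ ∀ i j : Fin 24, j.val = (i.val + 1) % 24 → c (f i) (f j) = k :=
  ramsey_of_good 24 93 (ev tS24 93) (by norm_num) (by decide +kernel) N hN
    (fun r hs hi => goodS24 r hs hi 93 (by norm_num)) c hc

private theorem fin26 (N : ℕ) (hN : 101 ≤ N) (c : Fin N → Fin N → Fin 3)
    (hc : ∀ a b : Fin N, c a b = c b a) : ∃ k : Fin 3, ∃ f : Fin 26 → Fin N,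
      Function.Injective f ∧ ∀ i j : Fin 26, j.val = (i.val + 1) % 26 → c (f i) (f j) = k :=
  ramsey_of_good 26 101 (ev tS26 101) (by norm_num) (by decide +kernel) N hN
    (fun r hs hi => goodS26 r hs hi 101 (by norm_num)) c hc

private theorem fin28 (N : ℕ) (hN : 109 ≤ N) (c : Fin N → Fin N → Fin 3)
    (hc : ∀ a b : Fin N, c a b = c b a) : ∃ k : Fin 3, ∃ f : Fin 28 → Fin N,
      Function.Injective f ∧ ∀ i j : Fin 28, j.val = (i.val + 1) % 28 → c (f i) (f j) = k :=
  ramsey_of_good 28 109 (ev tS28 109) (by norm_num) (by decide +kernel) N hN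
    (fun r hs hi => goodS28 r hs hi 109 (by norm_num)) c hc

private theorem fin30 (N : ℕ) (hN : 117 ≤ N) (c : Fin N → Fin N → Fin 3)
    (hc : ∀ a b : Fin N, c a b = c b a) : ∃ k : Fin 3, ∃ f : Fin 30 → Fin N,
      Function.Injective f ∧ ∀ i j : Fin 30, j.val = (i.val + 1) % 30 → c (f i) (f j) = k :=
  ramsey_of_good 30 117 (ev tS30 117) (by norm_num) (by decide +kernel) N hN
    (fun r hs hi => goodS30 r hs hi 117 (by norm_num)) c hc

private theorem fin32 (N : ℕ) (hN : 125 ≤ N) (c : Fin N → Fin N → Fin 3)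
    (hc : ∀ a b : Fin N, c a b = c b a) : ∃ k : Fin 3, ∃ f : Fin 32 → Fin N,
      Function.Injective f ∧ ∀ i j : Fin 32, j.val = (i.val + 1) % 32 → c (f i) (f j) = k :=
  ramsey_of_good 32 125 (ev tS32 125) (by norm_num) (by decide +kernel) N hN
    (fun r hs hi => goodS32 r hs hi 125 (by norm_num)) c hc

private theorem fin34 (N : ℕ) (hN : 133 ≤ N) (c : Fin N → Fin N → Fin 3)
    (hc : ∀ a b : Fin N, c a b = c b a) : ∃ k : Fin 3, ∃ f : Fin 34 → Fin N,
      Function.Injective f ∧ ∀ i j : Fin 34, j.val = (i.val + 1) % 34 → c (f i) (f j) = k :=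
  ramsey_of_good 34 133 (ev tS34 133) (by norm_num) (by decide +kernel) N hN
    (fun r hs hi => goodS34 r hs hi 133 (by norm_num)) c hc

private theorem fin36 (N : ℕ) (hN : 141 ≤ N) (c : Fin N → Fin N → Fin 3)
    (hc : ∀ a b : Fin N, c a b = c b a) : ∃ k : Fin 3, ∃ f : Fin 36 → Fin N,
      Function.Injective f ∧ ∀ i j : Fin 36, j.val = (i.val + 1) % 36 → c (f i) (f j) = k :=
  ramsey_of_good 36 141 (ev tS36 141) (by norm_num) (by decide +kernel) N hN
    (fun r hs hi => goodS36 r hs hi 141 (by norm_num)) c hc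

private theorem fin38 (N : ℕ) (hN : 149 ≤ N) (c : Fin N → Fin N → Fin 3)
    (hc : ∀ a b : Fin N, c a b = c b a) : ∃ k : Fin 3, ∃ f : Fin 38 → Fin N,
      Function.Injective f ∧ ∀ i j : Fin 38, j.val = (i.val + 1) % 38 → c (f i) (f j) = k :=
  ramsey_of_good 38 149 (ev tS38 149) (by norm_num) (by decide +kernel) N hN
    (fun r hs hi => goodS38 r hs hi 149 (by norm_num)) c hc

/-- THE RAMSEY THEOREM: `R(C_n; 3) ≤ min (4 n - 3) (3 n + 37)` for every even `n ≥ 10`. -/
theorem ramsey_even (n : ℕ) (hn : 10 ≤ n) (hne : Even n) (N : ℕ)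
    (hN : min (4 * n - 3) (3 * n + 37) ≤ N)
    (c : Fin N → Fin N → Fin 3) (hc : ∀ a b : Fin N, c a b = c b a) :
    ∃ k : Fin 3, ∃ f : Fin n → Fin N, Function.Injective f ∧
      ∀ i j : Fin n, j.val = (i.val + 1) % n → c (f i) (f j) = k := by
  by_cases h40 : 40 ≤ n
  · exact ramsey n (by omega) hne N (by omega) c hc
  · obtain ⟨k, hk⟩ := hne
    have hk1 : 5 ≤ k := by omega
    have hk2 : k ≤ 19 := by omega
    interval_cases k
    · subst hk; exact fin10 N (by omega) c hc
    · subst hk; exact fin12 N (by omega) c hc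
    · subst hk; exact fin14 N (by omega) c hc
    · subst hk; exact fin16 N (by omega) c hc
    · subst hk; exact fin18 N (by omega) c hc
    · subst hk; exact fin20 N (by omega) c hc
    · subst hk; exact fin22 N (by omega) c hc
    · subst hk; exact fin24 N (by omega) c hc
    · subst hk; exact fin26 N (by omega) c hc
    · subst hk; exact fin28 N (by omega) c hc
    · subst hk; exact fin30 N (by omega) c hc
    · subst hk; exact fin32 N (by omega) c hc
    · subst hk; exact fin34 N (by omega) c hc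
    · subst hk; exact fin36 N (by omega) c hc
    · subst hk; exact fin38 N (by omega) c hc

end Pool.Agent.Lib.MP_22c8c7_co
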