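import Mathlib
import Pool.Agent.Lib.MP_22c8c7_co.TabS

/-! # Simple table, certificates of the row `n = 32` (generated) -/

set_option autoImplicit false
set_option linter.style.longLine false

namespace Pool.Agent.Lib.MP_22c8c7_co

/-- the certificates of the entries `N = 32, ..., 149` -/
def cS32 : List CertS := [
  (0, 0, 0, 900, 900, 16),
  (16, 0, 1, 0, 885, 17),
  (16, 0, 3, 0, 855, 17),
  (16, 0, 5, 0, 825, 17),
  (16, 0, 7, 0, 795, 17),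
  (16, 0, 9, 0, 765, 17),
  (16, 0, 11, 0, 735, 17),
  (16, 0, 13, 0, 705, 17),
  (16, 0, 15, 0, 675, 17),
  (16, 0, 17, 0, 645, 17),
  (16, 0, 19, 0, 615, 17),
  (16, 2, 11, 855, 570, 17),
  (16, 2, 12, 840, 540, 17),
  (16, 2, 13, 825, 510, 17),
  (16, 2, 14, 810, 480, 17),
  (16, 3, 10, 870, 450, 17),
  (16, 3, 11, 855, 405, 17),
  (16, 3, 11, 855, 405, 17),
  (16, 4, 9, 885, 360, 17),
  (16, 4, 10, 870, 350, 17),
  (16, 5, 8, 900, 300, 17),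
  (16, 6, 7, 915, 270, 17),
  (16, 7, 7, 915, 263, 17),
  (16, 8, 6, 930, 234, 17),
  (16, 10, 5, 945, 205, 17),
  (10, 12, 4, 960, 180, 16),
  (11, 13, 4, 960, 176, 16),
  (11, 13, 4, 960, 176, 16),
  (11, 13, 4, 960, 176, 16),
  (11, 13, 4, 960, 176, 16),
  (11, 13, 4, 960, 176, 16),
  (11, 13, 4, 960, 176, 16),
  (11, 13, 4, 960, 176, 16),
  (11, 13, 4, 960, 176, 16),
  (11, 13, 4, 960, 176, 16),
  (11, 13, 4, 960, 176, 16),
  (11, 13, 4, 960, 176, 16),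
  (11, 13, 4, 960, 176, 16),
  (11, 13, 4, 960, 176, 16),
  (11, 13, 4, 960, 176, 16),
  (11, 13, 4, 960, 176, 16),
  (11, 13, 4, 960, 176, 16),
  (11, 13, 4, 960, 176, 16),
  (11, 13, 4, 960, 176, 16),
  (11, 13, 4, 960, 176, 16),
  (11, 13, 4, 960, 176, 16),
  (11, 13, 4, 960, 176, 16),
  (11, 13, 4, 960, 176, 16),
  (11, 13, 4, 960, 176, 16),
  (11, 13, 4, 960, 176, 16),
  (11, 13, 4, 960, 176, 16),
  (11, 13, 4, 960, 176, 16),
  (11, 13, 4, 960, 176, 16),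
  (11, 13, 4, 960, 176, 16),
  (11, 13, 4, 960, 176, 16),
  (11, 13, 4, 960, 176, 16),
  (11, 13, 4, 960, 176, 16),
  (32, 15, 3, 0, 147, 120),
  (32, 15, 3, 0, 147, 120),
  (32, 15, 3, 0, 147, 120),
  (11, 13, 4, 960, 176, 16),
  (11, 13, 4, 960, 176, 16),
  (11, 13, 4, 960, 176, 16),
  (11, 13, 4, 960, 176, 16),
  (11, 13, 4, 960, 176, 16),
  (11, 13, 4, 960, 176, 16),
  (11, 13, 4, 960, 176, 16),
  (11, 13, 4, 960, 176, 16),
  (11, 13, 4, 960, 176, 16),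
  (11, 13, 4, 960, 176, 16),
  (11, 13, 4, 960, 176, 16),
  (11, 13, 4, 960, 176, 16),
  (11, 13, 4, 960, 176, 16),
  (11, 13, 4, 960, 176, 16),
  (11, 13, 4, 960, 176, 16),
  (11, 13, 4, 960, 176, 16),
  (11, 13, 4, 960, 176, 16),
  (11, 13, 4, 960, 176, 16),
  (11, 13, 4, 960, 176, 16),
  (11, 13, 4, 960, 176, 16),
  (11, 13, 4, 960, 176, 16),
  (11, 13, 4, 960, 176, 16),
  (11, 13, 4, 960, 176, 16),
  (11, 13, 4, 960, 176, 16),
  (11, 13, 4, 960, 176, 16),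
  (11, 13, 4, 960, 176, 16),
  (32, 15, 3, 0, 147, 120),
  (15, 17, 3, 1200, 147, 16),
  (15, 17, 3, 1200, 147, 16),
  (15, 17, 3, 1200, 147, 16),
  (15, 17, 3, 1200, 147, 16),
  (18, 17, 3, 1200, 147, 19),
  (15, 17, 3, 1200, 147, 16),
  (16, 17, 3, 1200, 147, 17),
  (15, 17, 3, 1200, 147, 16),
  (15, 17, 3, 1200, 147, 16),
  (15, 17, 3, 1200, 147, 16),
  (15, 17, 3, 1200, 147, 16),
  (15, 17, 3, 1200, 147, 16),
  (15, 17, 3, 1200, 147, 16),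
  (19, 17, 3, 1200, 147, 20),
  (15, 17, 3, 1200, 147, 16),
  (15, 17, 3, 1200, 147, 16),
  (15, 17, 3, 1200, 147, 16),
  (15, 17, 3, 1200, 147, 16),
  (15, 17, 3, 1200, 147, 16),
  (10, 12, 4, 960, 180, 16),
  (10, 12, 4, 960, 180, 16),
  (10, 12, 4, 960, 180, 16),
  (10, 12, 4, 960, 180, 16),
  (8, 10, 5, 975, 205, 16),
  (8, 10, 5, 975, 205, 16),
  (8, 10, 5, 975, 205, 16),
  (7, 9, 5, 975, 225, 16),
  (6, 8, 6, 990, 234, 16),
  (6, 8, 6, 990, 234, 16),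
  (6, 8, 6, 990, 234, 16),
  (6, 8, 6, 990, 234, 16)]

theorem okS32 : rowS 30 60 tS30 tS32 cS32 32 = true := by decide +kernel

theorem smS32 : smallChk 30 tS32 = true := by decide +kernel

theorem lenS32 : cS32.length = 118 := by decide +kernel

end Pool.Agent.Lib.MP_22c8c7_co
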