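import Mathlib
import Pool.Agent.Lib.MP_22c8c7_co.TabS

/-! # Simple table, certificates of the row `n = 8` (generated) -/

set_option autoImplicit false
set_option linter.style.longLine false

namespace Pool.Agent.Lib.MP_22c8c7_co

/-- the certificates of the entries `N = 8, ..., 149` -/
def cS8 : List CertS := [
  (0, 0, 0, 180, 180, 4),
  (4, 0, 1, 0, 177, 5),
  (4, 0, 11, 0, 147, 5),
  (5, 0, 9, 0, 126, 6),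
  (0, 2, 11, 267, 115, 4),
  (6, 1, 8, 0, 108, 12),
  (5, 0, 9, 0, 126, 6),
  (0, 2, 11, 267, 115, 4),
  (0, 2, 11, 267, 115, 4),
  (1, 3, 10, 300, 110, 4),
  (1, 3, 9, 306, 105, 4),
  (7, 2, 7, 0, 96, 18),
  (7, 2, 7, 0, 96, 18),
  (7, 2, 7, 0, 96, 18),
  (7, 2, 7, 0, 96, 18),
  (7, 2, 7, 0, 96, 18),
  (7, 2, 7, 0, 96, 18),
  (8, 3, 6, 0, 90, 24),
  (8, 3, 6, 0, 90, 24),
  (8, 3, 6, 0, 90, 24),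
  (8, 3, 6, 0, 90, 24),
  (8, 3, 6, 0, 90, 24),
  (8, 3, 6, 0, 90, 24),
  (8, 3, 6, 0, 90, 24),
  (8, 3, 6, 0, 90, 24),
  (6, 5, 6, 408, 90, 12),
  (10, 5, 5, 0, 85, 32),
  (6, 5, 6, 408, 90, 12),
  (10, 5, 5, 0, 85, 32),
  (6, 5, 6, 408, 90, 12),
  (3, 5, 6, 408, 90, 4),
  (3, 5, 6, 408, 90, 4),
  (3, 5, 6, 408, 90, 4),
  (3, 5, 6, 408, 90, 4),
  (3, 5, 6, 408, 90, 4),
  (2, 4, 7, 357, 96, 4),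
  (2, 4, 7, 357, 96, 4),
  (3, 5, 6, 408, 90, 4),
  (2, 4, 7, 357, 96, 4),
  (2, 4, 7, 357, 96, 4),
  (2, 4, 7, 357, 96, 4),
  (2, 4, 7, 357, 96, 4),
  (3, 5, 6, 408, 90, 4),
  (2, 4, 7, 357, 96, 4),
  (2, 4, 7, 357, 96, 4),
  (2, 4, 7, 357, 96, 4),
  (3, 5, 6, 408, 90, 4),
  (3, 5, 6, 408, 90, 4),
  (3, 5, 6, 408, 90, 4),
  (3, 5, 6, 408, 90, 4),
  (3, 5, 6, 408, 90, 4),
  (3, 5, 6, 408, 90, 4),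
  (3, 5, 6, 408, 90, 4),
  (3, 5, 6, 408, 90, 4),
  (3, 5, 6, 408, 90, 4),
  (3, 5, 6, 408, 90, 4),
  (3, 5, 6, 408, 90, 4),
  (3, 5, 6, 408, 90, 4),
  (3, 5, 6, 408, 90, 4),
  (3, 5, 6, 408, 90, 4),
  (3, 5, 6, 408, 90, 4),
  (3, 5, 6, 408, 90, 4),
  (3, 5, 6, 408, 90, 4),
  (3, 5, 6, 408, 90, 4),
  (3, 5, 6, 408, 90, 4),
  (3, 5, 6, 408, 90, 4),
  (3, 5, 6, 408, 90, 4),
  (3, 5, 6, 408, 90, 4),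
  (3, 5, 6, 408, 90, 4),
  (3, 5, 6, 408, 90, 4),
  (3, 5, 6, 408, 90, 4),
  (3, 5, 6, 408, 90, 4),
  (3, 5, 6, 408, 90, 4),
  (3, 5, 6, 408, 90, 4),
  (3, 5, 6, 408, 90, 4),
  (3, 5, 6, 408, 90, 4),
  (3, 5, 6, 408, 90, 4),
  (3, 5, 6, 408, 90, 4),
  (3, 5, 6, 408, 90, 4),
  (3, 5, 6, 408, 90, 4),
  (2, 4, 7, 357, 96, 4),
  (3, 5, 6, 408, 90, 4),
  (3, 5, 6, 408, 90, 4),
  (3, 5, 6, 408, 90, 4),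
  (3, 5, 6, 408, 90, 4),
  (3, 5, 6, 408, 90, 4),
  (3, 5, 6, 408, 90, 4),
  (3, 5, 6, 408, 90, 4),
  (2, 4, 7, 357, 96, 4),
  (3, 5, 6, 408, 90, 4),
  (2, 4, 7, 357, 96, 4),
  (2, 4, 7, 357, 96, 4),
  (3, 5, 6, 408, 90, 4),
  (3, 5, 6, 408, 90, 4),
  (3, 5, 6, 408, 90, 4),
  (2, 4, 7, 357, 96, 4),
  (3, 5, 6, 408, 90, 4),
  (3, 5, 6, 408, 90, 4),
  (3, 5, 6, 408, 90, 4),
  (2, 4, 7, 357, 96, 4),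
  (3, 5, 6, 408, 90, 4),
  (3, 5, 6, 408, 90, 4),
  (3, 5, 6, 408, 90, 4),
  (3, 5, 6, 408, 90, 4),
  (3, 5, 6, 408, 90, 4),
  (3, 5, 6, 408, 90, 4),
  (3, 5, 6, 408, 90, 4),
  (3, 5, 6, 408, 90, 4),
  (3, 5, 6, 408, 90, 4),
  (3, 5, 6, 408, 90, 4),
  (3, 5, 6, 408, 90, 4),
  (3, 5, 6, 408, 90, 4),
  (3, 5, 6, 408, 90, 4),
  (3, 5, 6, 408, 90, 4),
  (3, 5, 6, 408, 90, 4),
  (3, 5, 6, 408, 90, 4),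
  (3, 5, 6, 408, 90, 4),
  (3, 5, 6, 408, 90, 4),
  (3, 5, 6, 408, 90, 4),
  (3, 5, 6, 408, 90, 4),
  (3, 5, 6, 408, 90, 4),
  (3, 5, 6, 408, 90, 4),
  (3, 5, 6, 408, 90, 4),
  (3, 5, 6, 408, 90, 4),
  (3, 5, 6, 408, 90, 4),
  (3, 5, 6, 408, 90, 4),
  (3, 5, 6, 408, 90, 4),
  (3, 5, 6, 408, 90, 4),
  (3, 5, 6, 408, 90, 4),
  (3, 5, 6, 408, 90, 4),
  (3, 5, 6, 408, 90, 4),
  (3, 5, 6, 408, 90, 4),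
  (3, 5, 6, 408, 90, 4),
  (3, 5, 6, 408, 90, 4),
  (3, 5, 6, 408, 90, 4),
  (3, 5, 6, 408, 90, 4),
  (3, 5, 6, 408, 90, 4),
  (3, 5, 6, 408, 90, 4),
  (3, 5, 6, 408, 90, 4),
  (3, 5, 6, 408, 90, 4),
  (3, 5, 6, 408, 90, 4),
  (3, 5, 6, 408, 90, 4)]

theorem okS8 : rowS 6 60 tS6 tS8 cS8 8 = true := by decide +kernel

theorem smS8 : smallChk 6 tS8 = true := by decide +kernel

theorem lenS8 : cS8.length = 142 := by decide +kernel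

end Pool.Agent.Lib.MP_22c8c7_co
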